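import Mathlib

/-!
# Trigonometric polynomials with a bound of the coefficient sum
-/

namespace Pool.Agent.AnQ2

open Set Filter Topology Real MeasureTheory
open scoped ContDiff

/-- `e(x) = exp(2 π i x)` -/
noncomputable def ee (x : ℝ) : ℂ := Complex.exp (2 * π * x * Complex.I)

/-- trigonometric polynomials of degree at most `D` with coefficient sum at most `N` -/
def TQ (D : ℕ) (N : ℝ) (g : ℝ → ℝ) : Prop :=
  ∃ (ι : Type) (_ : Fintype ι) (c : ι → ℂ) (m : ι → ℤ), (∀ i, |m i| ≤ D) ∧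
    ∑ i, ‖c i‖ ≤ N ∧ ∀ x, (g x : ℂ) = ∑ i, c i * ee (m i * x)

/-- the same without constant term -/
def TP (D : ℕ) (N : ℝ) (g : ℝ → ℝ) : Prop :=
  ∃ (ι : Type) (_ : Fintype ι) (c : ι → ℂ) (m : ι → ℤ), (∀ i, m i ≠ 0 ∧ |m i| ≤ D) ∧
    ∑ i, ‖c i‖ ≤ N ∧ ∀ x, (g x : ℂ) = ∑ i, c i * ee (m i * x)

-- BEGIN t1
theorem ee_zero : ee 0 = 1 := by simp [ee]

theorem ee_add (x y : ℝ) : ee (x + y) = ee x * ee y := by
  simp only [ee]
  rw [← Complex.exp_add]
  congr 1
  push_cast
  ring

private theorem t1_arg (x : ℝ) :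
    (2 * π * x * Complex.I : ℂ) = ((2 * π * x : ℝ) : ℂ) * Complex.I := by
  push_cast
  ring

theorem norm_ee (x : ℝ) : ‖ee x‖ = 1 := by
  rw [ee, t1_arg]
  exact Complex.norm_exp_ofReal_mul_I _

theorem ee_int (n : ℤ) : ee n = 1 := by
  rw [ee, Complex.exp_eq_one_iff]
  exact ⟨n, by push_cast; ring⟩

theorem ee_re (x : ℝ) : (ee x).re = cos (2 * π * x) := by
  rw [ee, t1_arg]
  exact Complex.exp_ofReal_mul_I_re _

theorem ee_im (x : ℝ) : (ee x).im = sin (2 * π * x) := by
  rw [ee, t1_arg]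
  exact Complex.exp_ofReal_mul_I_im _

theorem hasDerivAt_ee (a b x : ℝ) :
    HasDerivAt (fun x => ee (a * x + b)) (2 * π * a * Complex.I * ee (a * x + b)) x := by
  have h1 : HasDerivAt (fun x : ℝ => a * x + b) a x := by
    simpa using ((hasDerivAt_id x).const_mul a).add_const b
  have h2 : HasDerivAt (fun x : ℝ => (2 * π * ((a * x + b : ℝ) : ℂ) * Complex.I : ℂ))
      (2 * π * (a : ℂ) * Complex.I) x := by
    exact ((h1.ofReal_comp).const_mul (2 * π : ℂ)).mul_const Complex.I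
  have h3 := h2.cexp
  have h4 : (2 * π * a * Complex.I * ee (a * x + b) : ℂ) =
      Complex.exp (2 * π * ((a * x + b : ℝ) : ℂ) * Complex.I) * (2 * π * (a : ℂ) * Complex.I) := by
    rw [ee]
    ring
  rw [h4]
  exact h3

theorem continuous_ee : Continuous ee := by
  unfold ee
  fun_prop
-- END t1

-- BEGIN t2
theorem TQ.mono {D D' : ℕ} {N N' : ℝ} {g : ℝ → ℝ} (h : TQ D N g) (hD : D ≤ D') (hN : N ≤ N') :
    TQ D' N' g := by
  obtain ⟨ι, hι, c, m, h1, h2, h3⟩ := h
  refine ⟨ι, hι, c, m, fun i => (h1 i).trans (by exact_mod_cast hD), h2.trans hN, h3⟩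

theorem TQ.const (a : ℝ) : TQ 0 |a| (fun _ => a) := by
  refine ⟨Unit, inferInstance, fun _ => (a : ℂ), fun _ => 0, by simp, by simp, fun x => ?_⟩
  simp [ee]

theorem TQ.add {D : ℕ} {N N' : ℝ} {g g' : ℝ → ℝ} (h : TQ D N g) (h' : TQ D N' g') :
    TQ D (N + N') (fun x => g x + g' x) := by
  obtain ⟨ι, hι, c, m, h1, h2, h3⟩ := h
  obtain ⟨κ, hκ, c', m', h1', h2', h3'⟩ := h'
  refine ⟨ι ⊕ κ, inferInstance, Sum.elim c c', Sum.elim m m', ?_, ?_, fun x => ?_⟩
  · rintro (i | i)
    · exact h1 i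
    · exact h1' i
  · rw [Fintype.sum_sum_type]
    exact add_le_add (by simpa using h2) (by simpa using h2')
  · rw [Fintype.sum_sum_type]
    push_cast
    rw [h3 x, h3' x]
    simp

private theorem t2_ee_add (x y : ℝ) : ee (x + y) = ee x * ee y := by
  unfold ee
  rw [← Complex.exp_add]
  congr 1
  push_cast
  ring

theorem TQ.mul {D D' : ℕ} {N N' : ℝ} {g g' : ℝ → ℝ} (h : TQ D N g) (h' : TQ D' N' g')
    (hN : 0 ≤ N) : TQ (D + D') (N * N') (fun x => g x * g' x) := by
  obtain ⟨ι, hι, c, m, h1, h2, h3⟩ := h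
  obtain ⟨κ, hκ, c', m', h1', h2', h3'⟩ := h'
  refine ⟨ι × κ, inferInstance, fun p => c p.1 * c' p.2, fun p => m p.1 + m' p.2, ?_, ?_,
    fun x => ?_⟩
  · rintro ⟨i, j⟩
    push_cast
    exact (abs_add_le _ _).trans (add_le_add (h1 i) (h1' j))
  · rw [Fintype.sum_prod_type]
    simp only [norm_mul]
    calc ∑ i, ∑ j, ‖c i‖ * ‖c' j‖ = (∑ i, ‖c i‖) * ∑ j, ‖c' j‖ := by
          rw [Finset.sum_mul_sum]
      _ ≤ N * N' := mul_le_mul h2 h2' (Finset.sum_nonneg fun _ _ => norm_nonneg _) hN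
  · push_cast
    rw [h3 x, h3' x, Finset.sum_mul_sum, Fintype.sum_prod_type]
    refine Finset.sum_congr rfl fun i _ => Finset.sum_congr rfl fun j _ => ?_
    have : ((m i : ℝ) + (m' j : ℝ)) * x = m i * x + m' j * x := by ring
    simp only
    rw [this, t2_ee_add]
    ring

theorem TQ.smul {D : ℕ} {N : ℝ} {g : ℝ → ℝ} (h : TQ D N g) (a : ℝ) :
    TQ D (|a| * N) (fun x => a * g x) := by
  have := TQ.mul (TQ.const a) h (abs_nonneg a)
  rwa [Nat.zero_add] at this

theorem TQ.sum {D : ℕ} {N : ℝ} (s : ℕ) {g : ℕ → ℝ → ℝ} (h : ∀ i < s, TQ D N (g i)) :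
    TQ D (s * N) (fun x => ∑ i ∈ Finset.range s, g i x) := by
  induction s with
  | zero =>
    have := TQ.mono (TQ.const 0) (Nat.zero_le D) (le_refl _)
    simpa using this
  | succ s ih =>
    have h1 := TQ.add (ih fun i hi => h i (hi.trans (Nat.lt_succ_self s))) (h s (Nat.lt_succ_self s))
    have e : ((s + 1 : ℕ) : ℝ) * N = s * N + N := by push_cast; ring
    rw [e]
    simpa only [Finset.sum_range_succ] using h1
-- END t2

-- BEGIN t3
/-- `cos (2 π k (x - a))` -/
theorem TQ.cos (k : ℕ) (a : ℝ) : TQ k 1 (fun x => Real.cos (2 * π * k * (x - a))) := by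
  refine ⟨Bool, inferInstance, fun b => if b then ee (-(k * a)) / 2 else ee (k * a) / 2,
    fun b => if b then (k : ℤ) else -(k : ℤ), ?_, ?_, ?_⟩
  · intro i
    cases i <;> simp
  · simp only [Fintype.sum_bool, if_true, Bool.false_eq_true, if_false, norm_div, norm_ee]
    norm_num
  · intro x
    simp only [Fintype.sum_bool, if_true, Bool.false_eq_true, if_false]
    have h1 : ee (-(k * a)) * ee (((k : ℤ) : ℝ) * x) = ee (k * (x - a)) := by
      rw [← ee_add]; congr 1; push_cast; ring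
    have h2 : ee (k * a) * ee (((-(k : ℤ) : ℤ) : ℝ) * x) = ee (-(k * (x - a))) := by
      rw [← ee_add]; congr 1; push_cast; ring
    have h3 : ee (-(k * a)) / 2 * ee (((k : ℤ) : ℝ) * x) +
        ee (k * a) / 2 * ee (((-(k : ℤ) : ℤ) : ℝ) * x) =
        (ee (k * (x - a)) + ee (-(k * (x - a)))) / 2 := by
      rw [← h1, ← h2]; ring
    rw [h3]
    unfold ee
    push_cast
    rw [Complex.cos]
    congr 3
    · ring
    · ring

theorem TQ.sin (k : ℕ) (a : ℝ) : TQ k 1 (fun x => Real.sin (2 * π * k * (x - a))) := by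
  refine ⟨Bool, inferInstance,
    fun b => if b then ee (-(k * a)) * (-Complex.I / 2) else ee (k * a) * (Complex.I / 2),
    fun b => if b then (k : ℤ) else -(k : ℤ), ?_, ?_, ?_⟩
  · intro i
    cases i <;> simp
  · simp only [Fintype.sum_bool, if_true, Bool.false_eq_true, if_false, norm_div, norm_ee,
      norm_mul, norm_neg, Complex.norm_I]
    norm_num
  · intro x
    simp only [Fintype.sum_bool, if_true, Bool.false_eq_true, if_false]
    have h1 : ee (-(k * a)) * ee (((k : ℤ) : ℝ) * x) = ee (k * (x - a)) := by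
      rw [← ee_add]; congr 1; push_cast; ring
    have h2 : ee (k * a) * ee (((-(k : ℤ) : ℤ) : ℝ) * x) = ee (-(k * (x - a))) := by
      rw [← ee_add]; congr 1; push_cast; ring
    have h3 : ee (-(k * a)) * (-Complex.I / 2) * ee (((k : ℤ) : ℝ) * x) +
        ee (k * a) * (Complex.I / 2) * ee (((-(k : ℤ) : ℤ) : ℝ) * x) =
        (ee (-(k * (x - a))) - ee (k * (x - a))) * Complex.I / 2 := by
      rw [← h1, ← h2]; ring
    rw [h3]
    unfold ee
    push_cast
    rw [Complex.sin]
    congr 4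
    · ring
    · ring

/-- translation -/
theorem TQ.shift {D : ℕ} {N : ℝ} {g : ℝ → ℝ} (h : TQ D N g) (a : ℝ) :
    TQ D N (fun x => g (x - a)) := by
  obtain ⟨ι, hι, c, m, hm, hc, hg⟩ := h
  refine ⟨ι, hι, fun i => c i * ee (-(m i * a)), m, hm, ?_, ?_⟩
  · refine le_trans (le_of_eq (Finset.sum_congr rfl fun i _ => ?_)) hc
    rw [norm_mul, norm_ee, mul_one]
  · intro x
    rw [hg (x - a)]
    refine Finset.sum_congr rfl fun i _ => ?_
    rw [mul_assoc, ← ee_add]
    congr 2
    ring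
-- END t3

-- BEGIN t4
private theorem int_ee_t4 (m : ℤ) (hm : m ≠ 0) : ∫ x in (0 : ℝ)..1, ee (m * x) = 0 := by
  have hd : ∀ x ∈ Set.uIcc (0 : ℝ) 1, HasDerivAt
      (fun x : ℝ => ee ((m : ℝ) * x + 0) / (2 * π * (m : ℝ) * Complex.I)) (ee (m * x)) x := by
    intro x _
    have h := (hasDerivAt_ee (m : ℝ) 0 x).div_const (2 * π * (m : ℝ) * Complex.I)
    have hne : (2 * π * ((m : ℝ) : ℂ) * Complex.I) ≠ 0 := by
      have h1 : ((m : ℝ) : ℂ) ≠ 0 := by exact_mod_cast hm
      have h2 : (π : ℂ) ≠ 0 := by exact_mod_cast Real.pi_ne_zero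
      exact mul_ne_zero (mul_ne_zero (mul_ne_zero two_ne_zero h2) h1) Complex.I_ne_zero
    have e : 2 * π * ((m : ℝ) : ℂ) * Complex.I * ee ((m : ℝ) * x + 0) /
        (2 * π * ((m : ℝ) : ℂ) * Complex.I) = ee (m * x) := by
      rw [mul_div_cancel_left₀ _ hne, add_zero]
    rw [e] at h
    exact h
  have hcont : Continuous (fun x : ℝ => ee ((m : ℝ) * x)) :=
    continuous_ee.comp (continuous_const.mul continuous_id)
  rw [intervalIntegral.integral_eq_sub_of_hasDerivAt hd (hcont.intervalIntegrable 0 1)]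
  have h1 : ee ((m : ℝ) * 1 + 0) = 1 := by rw [mul_one, add_zero]; exact ee_int m
  have h0 : ee ((m : ℝ) * 0 + 0) = 1 := by rw [mul_zero, add_zero]; exact ee_zero
  rw [h1, h0, sub_self]

/-- a trigonometric polynomial of mean zero has a representation without constant term -/
theorem TQ.toTP {D : ℕ} {N : ℝ} {g : ℝ → ℝ} (h : TQ D N g) (h0 : ∫ x in (0 : ℝ)..1, g x = 0) :
    TP D N g := by
  classical
  obtain ⟨ι, hι, c, m, hm, hc, hg⟩ := h
  -- the integral of `g`
  have hint : ∑ i, c i * ∫ x in (0 : ℝ)..1, ee (m i * x) = 0 := by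
    have hcont : ∀ i, Continuous (fun x : ℝ => c i * ee ((m i : ℝ) * x)) := fun i =>
      continuous_const.mul (continuous_ee.comp (continuous_const.mul continuous_id))
    have e1 : ∫ x in (0 : ℝ)..1, ((g x : ℝ) : ℂ) = 0 := by
      rw [intervalIntegral.integral_ofReal, h0, Complex.ofReal_zero]
    have e2 : ∫ x in (0 : ℝ)..1, ((g x : ℝ) : ℂ) =
        ∫ x in (0 : ℝ)..1, ∑ i, c i * ee ((m i : ℝ) * x) := by
      refine intervalIntegral.integral_congr fun x _ => ?_
      exact hg x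
    rw [e2, intervalIntegral.integral_finsetSum
      (fun i _ => (hcont i).intervalIntegrable 0 1)] at e1
    rw [← e1]
    refine Finset.sum_congr rfl fun i _ => ?_
    rw [intervalIntegral.integral_const_mul]
  have hconst : ∑ i ∈ Finset.univ.filter (fun i => m i = 0), c i = 0 := by
    rw [← hint, Finset.sum_filter]
    refine Finset.sum_congr rfl fun i _ => ?_
    by_cases hi : m i = 0
    · rw [if_pos hi, hi]
      have : (∫ x in (0 : ℝ)..1, ee (((0 : ℤ) : ℝ) * x)) = 1 := by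
        have e : ∀ x : ℝ, ee (((0 : ℤ) : ℝ) * x) = 1 := by
          intro x
          rw [Int.cast_zero, zero_mul]
          exact ee_zero
        simp only [e]
        simp
      rw [this, mul_one]
    · rw [if_neg hi, int_ee_t4 _ hi, mul_zero]
  refine ⟨{i : ι // m i ≠ 0}, inferInstance, fun i => c i, fun i => m i,
    fun i => ⟨i.2, hm i⟩, ?_, ?_⟩
  · refine le_trans ?_ hc
    have e : ∑ i : {i : ι // m i ≠ 0}, ‖c i‖ = ∑ i ∈ Finset.univ.filter (fun i => m i ≠ 0), ‖c i‖ :=
      (Finset.sum_subtype (Finset.univ.filter (fun i => m i ≠ 0)) (fun x => by simp)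
        (fun i => ‖c i‖)).symm
    rw [e]
    exact Finset.sum_le_sum_of_subset_of_nonneg (Finset.filter_subset _ _)
      (fun i _ _ => norm_nonneg _)
  · intro x
    have e : ∑ i : {i : ι // m i ≠ 0}, c i * ee (m i * x) =
        ∑ i ∈ Finset.univ.filter (fun i => m i ≠ 0), c i * ee (m i * x) :=
      (Finset.sum_subtype (Finset.univ.filter (fun i => m i ≠ 0)) (fun x => by simp)
        (fun i => c i * ee (m i * x))).symm
    rw [e, hg x, ← Finset.sum_filter_add_sum_filter_not Finset.univ (fun i => m i = 0)]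
    have z : ∑ i ∈ Finset.univ.filter (fun i => m i = 0), c i * ee (m i * x) = 0 := by
      rw [← hconst]
      refine Finset.sum_congr rfl fun i hi => ?_
      rw [(Finset.mem_filter.mp hi).2, Int.cast_zero, zero_mul, ee_zero, mul_one]
    rw [z, zero_add]
-- END t4

-- BEGIN t5
theorem TP.toTQ {D : ℕ} {N : ℝ} {g : ℝ → ℝ} (h : TP D N g) : TQ D N g := by
  obtain ⟨ι, _, c, m, h1, h2, h3⟩ := h
  exact ⟨ι, _, c, m, fun i => (h1 i).2, h2, h3⟩

theorem TQ.abs_le {D : ℕ} {N : ℝ} {g : ℝ → ℝ} (h : TQ D N g) (x : ℝ) : |g x| ≤ N := by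
  obtain ⟨ι, _, c, m, h1, h2, h3⟩ := h
  have h4 : |g x| = ‖(g x : ℂ)‖ := (Complex.norm_real (g x)).symm
  rw [h4, h3 x]
  refine (norm_sum_le _ _).trans ((Finset.sum_le_sum fun i _ => ?_).trans h2)
  rw [norm_mul, norm_ee, mul_one]

theorem TQ.contDiff {D : ℕ} {N : ℝ} {g : ℝ → ℝ} (h : TQ D N g) : ContDiff ℝ ∞ g := by
  obtain ⟨ι, _, c, m, h1, h2, h3⟩ := h
  have h4 : g = fun x => (∑ i, c i * ee (m i * x)).re := by
    funext x
    rw [← h3 x, Complex.ofReal_re]
  have h5 : ContDiff ℝ ∞ (fun x : ℝ => ∑ i, c i * ee (m i * x)) := by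
    refine ContDiff.sum fun i _ => ?_
    refine contDiff_const.mul ?_
    have h6 : ContDiff ℝ ∞ (fun x : ℝ => (2 * π * ((m i * x : ℝ) : ℂ) * Complex.I : ℂ)) := by
      refine ContDiff.mul (ContDiff.mul contDiff_const ?_) contDiff_const
      exact Complex.ofRealCLM.contDiff.comp (contDiff_const.mul contDiff_id)
    exact h6.cexp
  rw [h4]
  exact Complex.reCLM.contDiff.comp h5

theorem TQ.per {D : ℕ} {N : ℝ} {g : ℝ → ℝ} (h : TQ D N g) (x : ℝ) (n : ℤ) : g (x + n) = g x := by
  obtain ⟨ι, _, c, m, h1, h2, h3⟩ := h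
  have h4 : (g (x + n) : ℂ) = (g x : ℂ) := by
    rw [h3, h3]
    refine Finset.sum_congr rfl fun i _ => ?_
    have h5 : ee (m i * (x + n)) = ee (m i * x) := by
      rw [mul_add, ee_add]
      have h6 : ee ((m i : ℝ) * (n : ℝ)) = 1 := by
        have h7 := ee_int (m i * n)
        push_cast at h7
        exact h7
      rw [h6, mul_one]
    rw [h5]
  exact Complex.ofReal_injective h4

theorem TP.smul {D : ℕ} {N : ℝ} {g : ℝ → ℝ} (h : TP D N g) (a : ℝ) :
    TP D (|a| * N) (fun x => a * g x) := by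
  obtain ⟨ι, hι, c, m, h1, h2, h3⟩ := h
  refine ⟨ι, hι, fun i => (a : ℂ) * c i, m, h1, ?_, fun x => ?_⟩
  · have h4 : ∑ i, ‖(a : ℂ) * c i‖ = |a| * ∑ i, ‖c i‖ := by
      rw [Finset.mul_sum]
      refine Finset.sum_congr rfl fun i _ => ?_
      rw [norm_mul, Complex.norm_real, Real.norm_eq_abs]
    rw [h4]
    exact mul_le_mul_of_nonneg_left h2 (abs_nonneg a)
  · rw [Complex.ofReal_mul, h3 x, Finset.mul_sum]
    refine Finset.sum_congr rfl fun i _ => ?_
    rw [mul_assoc]
-- END t5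

-- BEGIN t6
private theorem t6_min {h h' : ℝ → ℝ} {x : ℝ} (hd : ∀ s, HasDerivAt h (h' s) s)
    (hs : ∀ s, 0 ≤ h' s * (s - x)) (y : ℝ) : h x ≤ h y := by
  rcases lt_trichotomy x y with hxy | hxy | hxy
  · obtain ⟨c, hc, hc'⟩ := exists_hasDerivAt_eq_slope h h' hxy
      (fun s _ => (hd s).continuousAt.continuousWithinAt) (fun s _ => hd s)
    have h1 : 0 < c - x := by linarith [hc.1]
    have h2 : 0 ≤ h' c := by
      by_contra hn
      push Not at hn
      nlinarith [hs c]
    have h3 : 0 < y - x := by linarith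
    rw [eq_div_iff h3.ne'] at hc'
    nlinarith
  · rw [hxy]
  · obtain ⟨c, hc, hc'⟩ := exists_hasDerivAt_eq_slope h h' hxy
      (fun s _ => (hd s).continuousAt.continuousWithinAt) (fun s _ => hd s)
    have h1 : c - x < 0 := by linarith [hc.2]
    have h2 : h' c ≤ 0 := by
      by_contra hn
      push Not at hn
      nlinarith [hs c]
    have h3 : 0 < x - y := by linarith
    rw [eq_div_iff h3.ne'] at hc'
    nlinarith

private theorem t6_tay {f f' : ℝ → ℝ} {M : ℝ} (hf : ∀ x, HasDerivAt f (f' x) x)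
    (hl : ∀ x y, |f' x - f' y| ≤ M * |x - y|) (x y : ℝ) :
    |f y - f x - (y - x) * f' x| ≤ M / 2 * (y - x) ^ 2 := by
  have key : ∀ σ : ℝ, |σ| = 1 → σ * (f y - f x - (y - x) * f' x) ≤ M / 2 * (y - x) ^ 2 := by
    intro σ hσ
    have h1 := t6_min (h := fun s => M / 2 * (s - x) ^ 2 - σ * (f s - f x - (s - x) * f' x))
      (h' := fun s => M * (s - x) - σ * (f' s - f' x)) (x := x) (fun s => by
        have e1 : HasDerivAt (fun s : ℝ => s - x) 1 s := (hasDerivAt_id s).sub_const x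
        have e2 : HasDerivAt (fun s : ℝ => (s - x) ^ 2) (2 * (s - x)) s := by
          have := e1.fun_pow 2
          simpa using this
        have e3 := (e2.const_mul (M / 2)).sub
          ((((hf s).sub_const (f x)).sub (e1.mul_const (f' x))).const_mul σ)
        refine e3.congr_deriv ?_
        ring) (fun s => by
        have h2 := hl s x
        have h3 : |σ * (f' s - f' x) * (s - x)| ≤ M * (s - x) ^ 2 := by
          rw [abs_mul, abs_mul, hσ, one_mul]
          calc |f' s - f' x| * |s - x| ≤ M * |s - x| * |s - x| :=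
                mul_le_mul_of_nonneg_right h2 (abs_nonneg _)
            _ = M * (s - x) ^ 2 := by rw [mul_assoc, ← abs_mul, abs_mul_self]; ring
        have h4 := (abs_le.1 h3).2
        nlinarith) y
    simp only [sub_self] at h1
    have h5 : M / 2 * (0 : ℝ) ^ 2 - σ * (0 - 0 * f' x) = 0 := by ring
    rw [h5] at h1
    linarith
  rw [abs_le]
  constructor
  · have := key (-1) (by simp)
    linarith
  · have := key 1 (by simp)
    linarith

private theorem t6_lip (x y : ℝ) : ‖ee x - ee y‖ ≤ 2 * π * |x - y| := by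
  have h1 : ee x = ee y * ee (x - y) := by
    rw [← ee_add]
    congr 1
    ring
  have h2 : ee (x - y) = Complex.exp (Complex.I * ((2 * π * (x - y) : ℝ) : ℂ)) := by
    unfold ee
    congr 1
    push_cast
    ring
  have h3 : ee x - ee y = ee y * (ee (x - y) - 1) := by
    rw [h1]
    ring
  rw [h3, norm_mul, norm_ee, one_mul, h2]
  refine (Real.norm_exp_I_mul_ofReal_sub_one_le (x := 2 * π * (x - y))).trans ?_
  rw [Real.norm_eq_abs, abs_mul, abs_of_pos (by positivity : (0 : ℝ) < 2 * π)]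

private theorem t6_re {ι : Type} [Fintype ι] (c z : ι → ℂ) {N K : ℝ} (hN : ∑ i, ‖c i‖ ≤ N)
    (hK : 0 ≤ K) (hz : ∀ i, ‖z i‖ ≤ K) : |(∑ i, c i * z i).re| ≤ N * K := by
  refine (Complex.abs_re_le_norm _).trans ((norm_sum_le _ _).trans ?_)
  calc ∑ i, ‖c i * z i‖ ≤ ∑ i, ‖c i‖ * K := by
        refine Finset.sum_le_sum fun i _ => ?_
        rw [norm_mul]
        exact mul_le_mul_of_nonneg_left (hz i) (norm_nonneg _)
    _ = (∑ i, ‖c i‖) * K := by rw [Finset.sum_mul]
    _ ≤ N * K := mul_le_mul_of_nonneg_right hN hK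

private theorem t6_dt {ι : Type} [Fintype ι] (c : ι → ℂ) (m : ι → ℤ) (α β t : ℝ) :
    HasDerivAt (fun t => (∑ i, c i * ee (m i * (α + β * t))).re)
      (∑ i, c i * ((2 * π * (m i * β) * Complex.I) * ee (m i * (α + β * t)))).re t := by
  have h1 : ∀ i, HasDerivAt (fun t : ℝ => c i * ee (m i * (α + β * t)))
      (c i * ((2 * π * (m i * β) * Complex.I) * ee (m i * (α + β * t)))) t := by
    intro i
    have h2 := (hasDerivAt_ee (m i * β) (m i * α) t).const_mul (c i)
    have e : (fun t : ℝ => c i * ee (m i * (α + β * t))) =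
        fun t => c i * ee (m i * β * t + m i * α) := by
      funext t
      congr 2
      ring
    rw [e]
    refine h2.congr_deriv ?_
    have e2 : (m i : ℝ) * (α + β * t) = m i * β * t + m i * α := by ring
    rw [e2]
    push_cast
    ring
  have h3 := HasDerivAt.fun_sum (u := Finset.univ) fun i _ => h1 i
  exact Complex.reCLM.hasFDerivAt.comp_hasDerivAt t h3

/-- The primitive in `t` of `g (a φ + b t)` with its derivatives in `φ`: if `g` has degree at most
`D` and coefficient sum at most `N` and no constant term, `b > 0`, `|a| ≤ 1`, `1 ≤ D`, then there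
are `G, G1` (the primitive and its derivative in `φ`) bounded, together with the second
derivative in `φ`, by `(2 π D)^2 N / (2 π b)`. -/
theorem TP.primitive {D : ℕ} {N a b : ℝ} {g : ℝ → ℝ} (h : TP D N g) (hD : 1 ≤ D) (hb : 0 < b)
    (ha : |a| ≤ 1) : ∃ G G1 g1 : ℝ → ℝ → ℝ,
    (∀ φ t, HasDerivAt (G φ) (g (a * φ + b * t)) t) ∧
    (∀ φ t, HasDerivAt (G1 φ) (g1 φ t) t) ∧
    (∀ φ, Continuous (g1 φ)) ∧
    (∀ φ t, |G φ t| ≤ (2 * π * D) ^ 2 * N / (2 * π * b)) ∧
    (∀ φ t, |G1 φ t| ≤ (2 * π * D) ^ 2 * N / (2 * π * b)) ∧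
    (∀ φ φ' t, |G φ' t - G φ t - (φ' - φ) * G1 φ t| ≤
      (2 * π * D) ^ 2 * N / (2 * π * b) / 2 * (φ' - φ) ^ 2) ∧
    (∀ φ t (q : ℝ) (l : ℤ), b * q = l → G φ (t + q) = G φ t ∧ G1 φ (t + q) = G1 φ t) := by
  obtain ⟨ι, hι, c, m, hm, hN, hg⟩ := h
  have hN0 : 0 ≤ N := (Finset.sum_nonneg fun i _ => norm_nonneg (c i)).trans hN
  have hπ := Real.pi_pos
  have hπ3 := Real.pi_gt_three
  have hD1 : (1 : ℝ) ≤ D := by exact_mod_cast hD
  have hm0 : ∀ i, (m i : ℂ) ≠ 0 := fun i => by exact_mod_cast (hm i).1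
  have hm1 : ∀ i, (1 : ℝ) ≤ |(m i : ℝ)| := fun i => by
    have := Int.one_le_abs (hm i).1
    exact_mod_cast this
  have hmD : ∀ i, |(m i : ℝ)| ≤ D := fun i => by exact_mod_cast (hm i).2
  have hbC : (b : ℂ) ≠ 0 := by exact_mod_cast hb.ne'
  have hπC : (π : ℂ) ≠ 0 := by exact_mod_cast hπ.ne'
  -- the bound
  have hM1 : N * (1 / b) ≤ (2 * π * D) ^ 2 * N / (2 * π * b) := by
    rw [div_eq_mul_inv, div_eq_mul_inv, one_mul, mul_inv, mul_inv]
    have h2 : (2 * π * (D : ℝ)) ^ 2 * N * ((2 : ℝ)⁻¹ * π⁻¹ * b⁻¹) = N * b⁻¹ * (2 * π * D ^ 2) := by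
      field_simp
    rw [h2]
    have h3 : (1 : ℝ) ≤ 2 * π * D ^ 2 := by nlinarith
    have h4 : 0 ≤ N * b⁻¹ := by positivity
    nlinarith
  have hM2 : N * (2 * π * D / b) ≤ (2 * π * D) ^ 2 * N / (2 * π * b) := by
    have h2 : (2 * π * (D : ℝ)) ^ 2 * N / (2 * π * b) = N * (2 * π * D / b) * D := by
      field_simp
    rw [h2]
    have h4 : 0 ≤ N * (2 * π * D / b) := by positivity
    nlinarith
  set cG : ι → ℂ := fun i => c i * (1 / (2 * π * m i * b * Complex.I)) with hcG
  set cG1 : ι → ℂ := fun i => c i * (a / b) with hcG1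
  refine ⟨fun φ t => (∑ i, cG i * ee (m i * (a * φ + b * t))).re,
    fun φ t => (∑ i, cG1 i * ee (m i * (a * φ + b * t))).re,
    fun φ t => (∑ i, cG1 i * ((2 * π * (m i * b) * Complex.I) *
      ee (m i * (a * φ + b * t)))).re, ?_, ?_, ?_, ?_, ?_, ?_, ?_⟩
  · intro φ t
    have h1 := t6_dt cG m (a * φ) b t
    refine h1.congr_deriv ?_
    have h2 : (∑ i, cG i * ((2 * π * (m i * b) * Complex.I) * ee (m i * (a * φ + b * t))))
        = (g (a * φ + b * t) : ℂ) := by
      rw [hg]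
      refine Finset.sum_congr rfl fun i _ => ?_
      rw [hcG]
      have := hm0 i
      have hI := Complex.I_ne_zero
      field_simp
    rw [h2, Complex.ofReal_re]
  · intro φ t
    exact t6_dt cG1 m (a * φ) b t
  · intro φ
    refine Complex.continuous_re.comp ?_
    refine continuous_finsetSum _ fun i _ => ?_
    have := continuous_ee
    fun_prop
  · intro φ t
    have e : ∀ i, cG i * ee (m i * (a * φ + b * t)) =
        c i * ((1 / (2 * π * m i * b * Complex.I)) * ee (m i * (a * φ + b * t))) := by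
      intro i
      rw [hcG]
      ring
    simp only [e]
    refine (t6_re c _ hN (K := 1 / b) (by positivity) ?_).trans hM1
    intro i
    rw [norm_mul, norm_ee, mul_one, norm_div, norm_one, norm_mul, norm_mul, norm_mul, norm_mul,
      Complex.norm_I, mul_one, Complex.norm_real, Complex.norm_real, Complex.norm_intCast]
    rw [Real.norm_eq_abs, Real.norm_eq_abs, abs_of_pos hπ, abs_of_pos hb]
    have h2 : ‖(2 : ℂ)‖ = 2 := by simp
    rw [h2]
    refine one_div_le_one_div_of_le hb ?_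
    have h3 : (1 : ℝ) ≤ 2 * π * |(m i : ℝ)| := by nlinarith [hm1 i]
    nlinarith
  · intro φ t
    have e : ∀ i, cG1 i * ee (m i * (a * φ + b * t)) =
        c i * ((a / b) * ee (m i * (a * φ + b * t))) := by
      intro i
      rw [hcG1]
      ring
    simp only [e]
    refine (t6_re c _ hN (K := 1 / b) (by positivity) ?_).trans hM1
    intro i
    rw [norm_mul, norm_ee, mul_one, norm_div, Complex.norm_real, Complex.norm_real,
      Real.norm_eq_abs, Real.norm_eq_abs, abs_of_pos hb]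
    exact div_le_div_of_nonneg_right ha hb.le
  · intro φ φ' t
    refine t6_tay (f := fun φ => (∑ i, cG i * ee (m i * (a * φ + b * t))).re)
      (f' := fun φ => (∑ i, cG1 i * ee (m i * (a * φ + b * t))).re) ?_ ?_ φ φ'
    · intro x
      have h1 := t6_dt cG m (b * t) a x
      have e : ∀ y, (m : ι → ℤ) = m → ∀ i, (m i : ℝ) * (b * t + a * y) = m i * (a * y + b * t) :=
        fun y _ i => by ring
      simp only [e _ rfl] at h1
      refine h1.congr_deriv ?_
      congr 1
      refine Finset.sum_congr rfl fun i _ => ?_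
      rw [hcG, hcG1]
      have := hm0 i
      have hI := Complex.I_ne_zero
      field_simp
    · intro x y
      rw [← Complex.sub_re, ← Finset.sum_sub_distrib]
      have e : ∀ i, cG1 i * ee (m i * (a * x + b * t)) - cG1 i * ee (m i * (a * y + b * t)) =
          c i * ((a / b) * (ee (m i * (a * x + b * t)) - ee (m i * (a * y + b * t)))) := by
        intro i
        rw [hcG1]
        ring
      simp only [e]
      have h1 : N * ((2 * π * D / b) * |x - y|) ≤
          (2 * π * D) ^ 2 * N / (2 * π * b) * |x - y| := by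
        rw [← mul_assoc]
        exact mul_le_mul_of_nonneg_right hM2 (abs_nonneg _)
      refine (t6_re c _ hN (K := (2 * π * D / b) * |x - y|) (by positivity) ?_).trans h1
      intro i
      rw [norm_mul, norm_div, Complex.norm_real, Complex.norm_real,
        Real.norm_eq_abs, Real.norm_eq_abs, abs_of_pos hb]
      have h2 := t6_lip (m i * (a * x + b * t)) (m i * (a * y + b * t))
      have h3 : (m i : ℝ) * (a * x + b * t) - m i * (a * y + b * t) = m i * (a * (x - y)) := by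
        ring
      rw [h3, abs_mul, abs_mul] at h2
      have h4 : |(m i : ℝ)| * (|a| * |x - y|) ≤ D * (1 * |x - y|) :=
        mul_le_mul (hmD i) (mul_le_mul_of_nonneg_right ha (abs_nonneg _)) (by positivity)
          (by positivity)
      calc |a| / b * ‖ee (m i * (a * x + b * t)) - ee (m i * (a * y + b * t))‖
          ≤ 1 / b * (2 * π * (D * (1 * |x - y|))) := by
            refine mul_le_mul (div_le_div_of_nonneg_right ha hb.le) (h2.trans ?_) (norm_nonneg _)
              (by positivity)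
            exact mul_le_mul_of_nonneg_left h4 (by positivity)
        _ = (2 * π * D / b) * |x - y| := by
            field_simp
  · intro φ t q l hq
    have e : ∀ i, ee (m i * (a * φ + b * (t + q))) = ee (m i * (a * φ + b * t)) := by
      intro i
      have h1 : (m i : ℝ) * (a * φ + b * (t + q)) =
          m i * (a * φ + b * t) + ((m i * l : ℤ) : ℝ) := by
        push_cast
        rw [← hq]
        ring
      rw [h1, ee_add, ee_int, mul_one]
    simp only [e, and_self]
-- END t6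

-- BEGIN t7
theorem t7_avg {D : ℕ} {N b : ℝ} {g : ℝ → ℝ} (h : TP D N g) (hb : b ≠ 0) :
    ∃ C, ∀ a t, |∫ s in (0 : ℝ)..t, g (a + b * s)| ≤ C := by
  have hcont : Continuous g := (TP.toTQ h).contDiff.continuous
  obtain ⟨ι, _, c, m, h1, h2, h3⟩ := h
  refine ⟨2 * ∑ i, ‖c i‖ * ‖(2 * π * ((m i * b : ℝ) : ℂ) * Complex.I : ℂ)⁻¹‖, fun a t => ?_⟩
  set F : ℝ → ℂ := fun s => ∑ i, c i * (2 * π * ((m i * b : ℝ) : ℂ) * Complex.I : ℂ)⁻¹ *
    ee ((m i * b) * s + m i * a) with hF
  have hne : ∀ i, (2 * π * ((m i * b : ℝ) : ℂ) * Complex.I : ℂ) ≠ 0 := by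
    intro i
    have hm : (m i : ℝ) ≠ 0 := Int.cast_ne_zero.mpr (h1 i).1
    have hmb : (((m i * b : ℝ)) : ℂ) ≠ 0 := Complex.ofReal_ne_zero.mpr (mul_ne_zero hm hb)
    have hpi : (π : ℂ) ≠ 0 := Complex.ofReal_ne_zero.mpr Real.pi_ne_zero
    exact mul_ne_zero (mul_ne_zero (mul_ne_zero two_ne_zero hpi) hmb) Complex.I_ne_zero
  have hderiv : ∀ s, HasDerivAt F ((g (a + b * s) : ℝ) : ℂ) s := by
    intro s
    have h5 : HasDerivAt F (∑ i, c i * (2 * π * ((m i * b : ℝ) : ℂ) * Complex.I : ℂ)⁻¹ *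
        (2 * π * ((m i * b : ℝ) : ℂ) * Complex.I * ee ((m i * b) * s + m i * a))) s := by
      refine HasDerivAt.fun_sum fun i _ => ?_
      exact (hasDerivAt_ee (m i * b) (m i * a) s).const_mul _
    have h6 : ((g (a + b * s) : ℝ) : ℂ) = ∑ i, c i *
        (2 * π * ((m i * b : ℝ) : ℂ) * Complex.I : ℂ)⁻¹ *
        (2 * π * ((m i * b : ℝ) : ℂ) * Complex.I * ee ((m i * b) * s + m i * a)) := by
      rw [h3]
      refine Finset.sum_congr rfl fun i _ => ?_
      have h7 : (m i : ℝ) * (a + b * s) = (m i * b) * s + m i * a := by ring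
      rw [h7, mul_assoc (c i), inv_mul_cancel_left₀ (hne i)]
    rw [h6]
    exact h5
  have hint : IntervalIntegrable (fun s => ((g (a + b * s) : ℝ) : ℂ)) volume 0 t := by
    refine Continuous.intervalIntegrable ?_ 0 t
    exact Complex.continuous_ofReal.comp
      (hcont.comp (continuous_const.add (continuous_const.mul continuous_id)))
  have h8 := intervalIntegral.integral_eq_sub_of_hasDerivAt (fun s _ => hderiv s) hint
  have h9 : (((∫ s in (0 : ℝ)..t, g (a + b * s)) : ℝ) : ℂ) = F t - F 0 := by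
    rw [← h8, intervalIntegral.integral_ofReal]
  have hFb : ∀ s, ‖F s‖ ≤ ∑ i, ‖c i‖ * ‖(2 * π * ((m i * b : ℝ) : ℂ) * Complex.I : ℂ)⁻¹‖ := by
    intro s
    refine (norm_sum_le _ _).trans (Finset.sum_le_sum fun i _ => ?_)
    rw [norm_mul, norm_mul, norm_ee, mul_one]
  have h10 : |∫ s in (0 : ℝ)..t, g (a + b * s)| = ‖F t - F 0‖ := by
    rw [← h9, Complex.norm_real, Real.norm_eq_abs]
  rw [h10]
  refine (norm_sub_le _ _).trans ?_
  have h11 := hFb t
  have h12 := hFb 0
  linarith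

/-- time averages of a trigonometric polynomial without constant term along a nonresonant line -/
theorem TP.average {D : ℕ} {N a b : ℝ} {g : ℝ → ℝ} (h : TP D N g) (hb : b ≠ 0) :
    ∃ C, ∀ t, |∫ s in (0 : ℝ)..t, g (a + b * s)| ≤ C := by
  obtain ⟨C, hC⟩ := t7_avg h hb
  exact ⟨C, fun t => hC a t⟩

/-- the bound does not depend on the phase `a` -/
theorem TP.average' {D : ℕ} {N b : ℝ} {g : ℝ → ℝ} (h : TP D N g) (hb : b ≠ 0) :
    ∃ C, ∀ a t, |∫ s in (0 : ℝ)..t, g (a + b * s)| ≤ C := t7_avg h hb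
-- END t7

end Pool.Agent.AnQ2
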