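import Mathlib
import Pool.Agent.AnQ2.Tp

/-!
# The Fejer kernel (page, (2.7))
-/

namespace Pool.Agent.AnQ2

open Set Filter Topology Real MeasureTheory
open scoped ContDiff

/-- `L(x) = k^(-2) |∑_{l < k} e(l x)|^2` -/
noncomputable def fej (k : ℕ) (x : ℝ) : ℝ :=
  ‖∑ l ∈ Finset.range k, ee (l * x)‖ ^ 2 / (k : ℝ) ^ 2

-- BEGIN j1
theorem fej_nonneg (k : ℕ) (x : ℝ) : 0 ≤ fej k x := by
  unfold fej
  positivity

/-- the geometric sum -/
private theorem j1_geom (k : ℕ) (x : ℝ) :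
    (∑ l ∈ Finset.range k, ee (l * x)) * (ee x - 1) = ee (k * x) - 1 := by
  induction k with
  | zero => simp [ee_zero]
  | succ k ih =>
    rw [Finset.sum_range_succ, add_mul, ih]
    push_cast
    rw [show ((k : ℝ) + 1) * x = k * x + x by ring, ee_add]
    ring

private theorem j1_norm (x : ℝ) : ‖ee x - 1‖ ^ 2 = 4 * sin (π * x) ^ 2 := by
  rw [← Complex.normSq_eq_norm_sq, Complex.normSq_apply]
  simp only [Complex.sub_re, Complex.sub_im, Complex.one_re, Complex.one_im, sub_zero, ee_re, ee_im]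
  have h1 : cos (2 * π * x) = 1 - 2 * sin (π * x) ^ 2 := by
    rw [show 2 * π * x = 2 * (π * x) by ring, cos_two_mul, cos_sq']
    ring
  have h2 := sin_sq_add_cos_sq (2 * π * x)
  nlinarith [h1, h2]

theorem fej_mul_sin {k : ℕ} (hk : 1 ≤ k) (x : ℝ) :
    fej k x * sin (π * x) ^ 2 = sin (π * k * x) ^ 2 / (k : ℝ) ^ 2 := by
  have hk0 : (k : ℝ) ≠ 0 := by positivity
  have h1 := congrArg (fun w : ℂ => ‖w‖ ^ 2) (j1_geom k x)
  simp only [norm_mul, mul_pow, j1_norm] at h1
  unfold fej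
  rw [div_mul_eq_mul_div]
  congr 1
  have h2 : π * (k * x) = π * k * x := by ring
  rw [h2] at h1
  linarith

theorem fej_zero {k : ℕ} (hk : 1 ≤ k) : fej k 0 = 1 := by
  have hk0 : (k : ℝ) ≠ 0 := by positivity
  unfold fej
  have h1 : ∑ l ∈ Finset.range k, ee (l * 0) = (k : ℂ) := by
    simp [ee_zero]
  rw [h1, Complex.norm_natCast]
  exact div_self (pow_ne_zero 2 hk0)
-- END j1

-- BEGIN j2
private theorem j2_pow (y : ℝ) (j : ℕ) : ee (j * y) = ee y ^ j := by
  rw [ee, ee, ← Complex.exp_nat_mul]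
  congr 1
  push_cast
  ring

private theorem j2_ne {k : ℕ} (hk : 1 ≤ k) {d : ℤ} (hd : ¬ (k : ℤ) ∣ d) : ee (d / k) ≠ 1 := by
  intro h
  rw [ee, Complex.exp_eq_one_iff] at h
  obtain ⟨n, hn⟩ := h
  have hk0 : (k : ℂ) ≠ 0 := by exact_mod_cast (by omega : k ≠ 0)
  have h2 : (2 * π * Complex.I : ℂ) ≠ 0 := Complex.two_pi_I_ne_zero
  have h3 : ((d : ℂ) / k) * (2 * π * Complex.I) = n * (2 * π * Complex.I) := by
    rw [← hn]
    push_cast
    ring
  have h4 : (d : ℂ) / k = n := mul_right_cancel₀ h2 h3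
  rw [div_eq_iff hk0] at h4
  apply hd
  refine ⟨n, ?_⟩
  have h5 : (d : ℂ) = ((k * n : ℤ) : ℂ) := by
    rw [h4]
    push_cast
    ring
  exact_mod_cast h5

private theorem j2_geom {k : ℕ} (hk : 1 ≤ k) {d : ℤ} (hd : ¬ (k : ℤ) ∣ d) :
    ∑ j ∈ Finset.range k, ee (j * (d / k)) = 0 := by
  have h1 : ∀ j ∈ Finset.range k, ee (j * (d / k)) = ee (d / k) ^ j := fun j _ => j2_pow _ j
  rw [Finset.sum_congr rfl h1, geom_sum_eq (j2_ne hk hd), ← j2_pow]
  have hk0 : (k : ℝ) ≠ 0 := by exact_mod_cast (by omega : k ≠ 0)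
  have h2 : (k : ℝ) * ((d : ℝ) / k) = d := by field_simp
  rw [h2, ee_int, sub_self, zero_div]

private theorem j2_conj (y : ℝ) : (starRingEnd ℂ) (ee y) = ee (-y) := by
  rw [ee, ee, ← Complex.exp_conj]
  congr 1
  simp only [map_mul, Complex.conj_ofReal, Complex.conj_I, Complex.conj_ofNat]
  push_cast
  ring

private theorem j2_sq (k : ℕ) (y : ℝ) : ((fej k y : ℝ) : ℂ) =
    (∑ l ∈ Finset.range k, ∑ m ∈ Finset.range k, ee (((l : ℝ) - m) * y)) / (k : ℂ) ^ 2 := by
  rw [fej]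
  push_cast
  congr 1
  have h : ((‖∑ l ∈ Finset.range k, ee (l * y)‖ : ℝ) : ℂ) ^ 2 =
      (∑ l ∈ Finset.range k, ee (l * y)) * (starRingEnd ℂ) (∑ l ∈ Finset.range k, ee (l * y)) := by
    rw [Complex.mul_conj, Complex.normSq_eq_norm_sq]
    push_cast
    rfl
  rw [h, map_sum, Finset.sum_mul_sum]
  refine Finset.sum_congr rfl fun l _ => Finset.sum_congr rfl fun m _ => ?_
  rw [j2_conj, ← ee_add]
  congr 1
  ring

theorem fej_sum {k : ℕ} (hk : 1 ≤ k) (x : ℝ) :
    ∑ j ∈ Finset.range k, fej k (x - j / k) = 1 := by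
  have hk0 : (k : ℂ) ≠ 0 := by exact_mod_cast (by omega : k ≠ 0)
  have hin : ∀ l ∈ Finset.range k, ∀ m ∈ Finset.range k,
      ∑ j ∈ Finset.range k, ee (((l : ℝ) - m) * (x - j / k)) = if l = m then (k : ℂ) else 0 := by
    intro l hl m hm
    rw [Finset.mem_range] at hl hm
    have h1 : ∀ j ∈ Finset.range k, ee (((l : ℝ) - m) * (x - j / k)) =
        ee (((l : ℝ) - m) * x) * ee (j * (((m - l : ℤ) : ℝ) / k)) := by
      intro j _
      rw [← ee_add]
      congr 1
      push_cast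
      ring
    rw [Finset.sum_congr rfl h1, ← Finset.mul_sum]
    split_ifs with h
    · subst h
      have h2 : ∀ j ∈ Finset.range k, ee (j * (((l - l : ℤ) : ℝ) / k)) = 1 := by
        intro j _
        rw [sub_self, Int.cast_zero, zero_div, mul_zero, ee_zero]
      rw [Finset.sum_congr rfl h2, sub_self, zero_mul, ee_zero]
      simp
    · rw [j2_geom hk, mul_zero]
      rintro ⟨c, hc⟩
      have hc0 : c ≠ 0 := by
        rintro rfl
        apply h
        omega
      rcases lt_or_gt_of_ne hc0 with h3 | h3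
      · have : (k : ℤ) * c ≤ (k : ℤ) * (-1) := mul_le_mul_of_nonneg_left (by omega) (by omega)
        omega
      · have : (k : ℤ) * 1 ≤ (k : ℤ) * c := mul_le_mul_of_nonneg_left (by omega) (by omega)
        omega
  have key : ((∑ j ∈ Finset.range k, fej k (x - j / k) : ℝ) : ℂ) = 1 := by
    rw [Complex.ofReal_sum]
    rw [Finset.sum_congr rfl (fun (j : ℕ) _ => j2_sq k (x - (j : ℝ) / k)), ← Finset.sum_div,
      Finset.sum_comm]
    rw [Finset.sum_congr rfl fun l _ => Finset.sum_comm]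
    rw [Finset.sum_congr rfl fun l hl => Finset.sum_congr rfl fun m hm => hin l hl m hm]
    have h2 : ∀ l ∈ Finset.range k,
        ∑ m ∈ Finset.range k, (if l = m then (k : ℂ) else 0) = k := by
      intro l hl
      rw [Finset.sum_ite_eq, if_pos hl]
    rw [Finset.sum_congr rfl h2, Finset.sum_const, Finset.card_range, nsmul_eq_mul]
    field_simp
  exact_mod_cast key

theorem fej_node {k : ℕ} {i j : ℕ} (hi : i < k) (hj : j < k) (hij : i ≠ j) :
    fej k (i / k - j / k) = 0 := by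
  have hk : 1 ≤ k := by omega
  have h1 : ∑ l ∈ Finset.range k, ee (l * ((i : ℝ) / k - j / k)) = 0 := by
    have h2 : ∀ l ∈ Finset.range k, ee (l * ((i : ℝ) / k - j / k)) =
        ee (l * (((i - j : ℤ) : ℝ) / k)) := by
      intro l _
      congr 1
      push_cast
      ring
    rw [Finset.sum_congr rfl h2]
    apply j2_geom hk
    rintro ⟨c, hc⟩
    have hc0 : c ≠ 0 := by
      rintro rfl
      apply hij
      omega
    rcases lt_or_gt_of_ne hc0 with h3 | h3
    · have : (k : ℤ) * c ≤ (k : ℤ) * (-1) := mul_le_mul_of_nonneg_left (by omega) (by omega)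
      omega
    · have : (k : ℤ) * 1 ≤ (k : ℤ) * c := mul_le_mul_of_nonneg_left (by omega) (by omega)
      omega
  rw [fej, h1]
  simp

theorem fej_per (k : ℕ) (x : ℝ) (n : ℤ) : fej k (x + n) = fej k x := by
  have h : ∀ l ∈ Finset.range k, ee (l * (x + n)) = ee (l * x) := by
    intro l _
    have h1 : (l : ℝ) * (x + n) = l * x + ((l * n : ℤ) : ℝ) := by
      push_cast
      ring
    rw [h1, ee_add, ee_int, mul_one]
  rw [fej, fej, Finset.sum_congr rfl h]
-- END j2

-- BEGIN j3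
private theorem j3_conj (x : ℝ) : (starRingEnd ℂ) (ee x) = ee (-x) := by
  unfold ee
  rw [← Complex.exp_conj]
  congr 1
  simp only [map_mul, Complex.conj_I, Complex.conj_ofReal, Complex.ofReal_neg, map_ofNat]
  ring

private theorem j3_sq (k : ℕ) (x : ℝ) :
    ((‖∑ l ∈ Finset.range k, ee (l * x)‖ ^ 2 : ℝ) : ℂ) =
      ∑ a : Fin k, ∑ b : Fin k, ee ((((a : ℕ) : ℤ) - ((b : ℕ) : ℤ) : ℤ) * x) := by
  have h := Complex.mul_conj' (∑ l ∈ Finset.range k, ee (l * x))
  rw [Complex.ofReal_pow, ← h, map_sum, Finset.sum_mul_sum, Finset.sum_range]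
  refine Finset.sum_congr rfl fun a _ => ?_
  rw [Finset.sum_range]
  refine Finset.sum_congr rfl fun b _ => ?_
  rw [j3_conj, ← ee_add]
  congr 1
  push_cast
  ring

/-- degree at most `k - 1`, coefficient sum `1` -/
theorem fej_TQ {k : ℕ} (hk : 1 ≤ k) : TQ (k - 1) 1 (fej k) := by
  have hk0 : (0 : ℝ) < k := by exact_mod_cast hk
  refine ⟨Fin k × Fin k, inferInstance, fun _ => ((1 / (k : ℝ) ^ 2 : ℝ) : ℂ),
    fun p => (((p.1 : ℕ) : ℤ) - ((p.2 : ℕ) : ℤ)), ?_, ?_, ?_⟩
  · rintro ⟨⟨a, ha⟩, ⟨b, hb⟩⟩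
    simp only
    rw [Nat.cast_sub hk, abs_le]
    constructor <;> push_cast <;> omega
  · have h1 : ‖((1 / (k : ℝ) ^ 2 : ℝ) : ℂ)‖ = 1 / (k : ℝ) ^ 2 := by
      rw [Complex.norm_real, Real.norm_eq_abs, abs_of_pos (by positivity)]
    simp only [h1, Finset.sum_const, Finset.card_univ, Fintype.card_prod, Fintype.card_fin,
      nsmul_eq_mul]
    push_cast
    have : (k : ℝ) * k * (1 / (k : ℝ) ^ 2) = 1 := by field_simp
    rw [this]
  · intro x
    have h := j3_sq k x
    rw [Fintype.sum_prod_type]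
    simp only [← Finset.mul_sum]
    rw [← h]
    unfold fej
    push_cast
    ring

theorem fej_int {k : ℕ} (hk : 1 ≤ k) (a : ℝ) : ∫ x in (0 : ℝ)..1, fej k (x - a) = 1 / k := by
  have hk0 : (0 : ℝ) < k := by exact_mod_cast hk
  have hc : Continuous (fej k) := (TQ.contDiff (fej_TQ hk)).continuous
  have hp : Function.Periodic (fej k) 1 := by
    intro x
    have := fej_per k x 1
    simpa using this
  have hI : ∀ b : ℝ, ∫ x in (0 : ℝ)..1, fej k (x - b) = ∫ x in (0 : ℝ)..1, fej k x := by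
    intro b
    rw [intervalIntegral.integral_comp_sub_right (fun x => fej k x) b]
    have h := hp.intervalIntegral_add_eq (0 - b) 0
    rw [show (1 : ℝ) - b = 0 - b + 1 by ring]
    simpa using h
  have hs : ∫ x in (0 : ℝ)..1, (∑ j ∈ Finset.range k, fej k (x - j / k)) = 1 := by
    rw [intervalIntegral.integral_congr (g := fun _ => (1 : ℝ)) (fun x _ => fej_sum hk x)]
    simp
  have hi : ∀ j ∈ Finset.range k, IntervalIntegrable (fun x => fej k (x - j / k)) volume 0 1 :=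
    fun j _ => (hc.comp (continuous_id.sub continuous_const)).intervalIntegrable _ _
  rw [intervalIntegral.integral_finsetSum hi] at hs
  simp only [hI, Finset.sum_const, Finset.card_range, nsmul_eq_mul] at hs
  rw [hI a]
  field_simp
  linarith
-- END j3

end Pool.Agent.AnQ2
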