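import Mathlib

/-!
# The convex function `V(u) = 1 + u^2 / (1 + u^2)` and its derivative
-/

namespace Pool.Agent.AnQ2

open Set Filter Topology Real
open scoped ContDiff NNReal

noncomputable def VV (u : ℝ) : ℝ := 1 + u ^ 2 / (1 + u ^ 2)

noncomputable def VD (u : ℝ) : ℝ := 2 * u / (1 + u ^ 2) ^ 2

-- BEGIN v1
theorem one_le_VV (u : ℝ) : 1 ≤ VV u := by
  unfold VV
  have : 0 ≤ u ^ 2 / (1 + u ^ 2) := by positivity
  linarith

theorem VV_lt_two (u : ℝ) : VV u < 2 := by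
  unfold VV
  have h : 0 < 1 + u ^ 2 := by positivity
  have : u ^ 2 / (1 + u ^ 2) < 1 := by rw [div_lt_one h]; linarith
  linarith

theorem hasDerivAt_VV (u : ℝ) : HasDerivAt VV (VD u) u := by
  have h : (1 + u ^ 2) ≠ 0 := by positivity
  have h1 : HasDerivAt (fun x : ℝ => x ^ 2) (2 * u) u := by simpa using hasDerivAt_pow 2 u
  have h2 : HasDerivAt (fun x : ℝ => 1 + x ^ 2) (2 * u) u := by simpa using h1.const_add 1
  have h3 := (h1.div h2 h).const_add 1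
  have e : VD u = (2 * u * (1 + u ^ 2) - u ^ 2 * (2 * u)) / (1 + u ^ 2) ^ 2 := by
    unfold VD
    congr 1
    ring
  rw [e]
  exact h3

theorem contDiff_VV : ContDiff ℝ ∞ VV := by
  unfold VV
  exact contDiff_const.add ((contDiff_id.pow 2).div (contDiff_const.add (contDiff_id.pow 2))
    (fun x => by positivity))

theorem contDiff_VD : ContDiff ℝ ∞ VD := by
  unfold VD
  exact (contDiff_const.mul contDiff_id).div ((contDiff_const.add (contDiff_id.pow 2)).pow 2)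
    (fun x => by positivity)

private theorem v1_den (u : ℝ) : 1 ≤ (1 + u ^ 2) ^ 2 := by nlinarith [sq_nonneg u, sq_nonneg (u ^ 2)]

theorem abs_VD_le_one (u : ℝ) : |VD u| ≤ 1 := by
  unfold VD
  have h : (0 : ℝ) < (1 + u ^ 2) ^ 2 := by positivity
  rw [abs_div, abs_of_pos h, div_le_one h, abs_mul, abs_two]
  have h2 : 2 * |u| ≤ 1 + u ^ 2 := by nlinarith [sq_nonneg (|u| - 1), sq_abs u]
  nlinarith [sq_nonneg u, sq_nonneg (u ^ 2)]

theorem abs_VD_le (u : ℝ) : |VD u| ≤ 2 * |u| := by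
  unfold VD
  have h : (0 : ℝ) < (1 + u ^ 2) ^ 2 := by positivity
  rw [abs_div, abs_of_pos h, abs_mul, abs_two]
  exact div_le_self (by positivity) (v1_den u)

theorem VV_lip (u v : ℝ) : |VV u - VV v| ≤ |u - v| := by
  have h : (0 : ℝ) < (1 + u ^ 2) * (1 + v ^ 2) := by positivity
  have e : VV u - VV v = (u - v) * ((u + v) / ((1 + u ^ 2) * (1 + v ^ 2))) := by
    unfold VV
    have h1 : (1 + u ^ 2) ≠ 0 := by positivity
    have h2 : (1 + v ^ 2) ≠ 0 := by positivity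
    field_simp
    ring
  rw [e, abs_mul]
  have h3 : |(u + v) / ((1 + u ^ 2) * (1 + v ^ 2))| ≤ 1 := by
    rw [abs_div, abs_of_pos h, div_le_one h, abs_le]
    constructor <;> nlinarith [sq_nonneg (u - 1), sq_nonneg (u + 1), sq_nonneg (v - 1),
      sq_nonneg (v + 1), sq_nonneg (u * v), sq_nonneg u, sq_nonneg v]
  calc |u - v| * |(u + v) / ((1 + u ^ 2) * (1 + v ^ 2))| ≤ |u - v| * 1 :=
        mul_le_mul_of_nonneg_left h3 (abs_nonneg _)
    _ = |u - v| := mul_one _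
-- END v1

-- BEGIN v2
/-- exact remainder of the tangent line of `V` -/
theorem VV_tangent (u v : ℝ) : VV u - VV v - VD v * (u - v) =
    (u - v) ^ 2 * (1 - v ^ 2 - 2 * u * v) / ((1 + u ^ 2) * (1 + v ^ 2) ^ 2) := by
  unfold VV VD
  have h1 : (1 + u ^ 2) ≠ 0 := by positivity
  have h2 : (1 + v ^ 2) ≠ 0 := by positivity
  field_simp
  ring

private theorem v2_factor {u v : ℝ} (hu : |u| ≤ 1) (hv : |v| ≤ 1 / 10) :
    0 < 1 - v ^ 2 - 2 * u * v := by
  have h1 : |u * v| ≤ 1 * (1 / 10) := by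
    rw [abs_mul]
    exact mul_le_mul hu hv (abs_nonneg _) zero_le_one
  have h2 : v ^ 2 ≤ (1 / 10) ^ 2 := by
    rw [← sq_abs v]
    exact pow_le_pow_left₀ (abs_nonneg _) hv 2
  have h3 := (abs_le.1 h1).2
  nlinarith

theorem VV_tangent_nonneg {u v : ℝ} (hu : |u| ≤ 1) (hv : |v| ≤ 1 / 10) :
    0 ≤ VV u - VV v - VD v * (u - v) := by
  rw [VV_tangent]
  have h1 := (v2_factor hu hv).le
  have h2 : 0 < (1 + u ^ 2) * (1 + v ^ 2) ^ 2 := by positivity
  exact div_nonneg (mul_nonneg (sq_nonneg _) h1) h2.le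

theorem VV_tangent_eq_zero {u v : ℝ} (hu : |u| ≤ 1) (hv : |v| ≤ 1 / 10)
    (h : VV u - VV v - VD v * (u - v) = 0) : u = v := by
  rw [VV_tangent] at h
  have h1 := v2_factor hu hv
  have h2 : (1 + u ^ 2) * (1 + v ^ 2) ^ 2 ≠ 0 := by positivity
  rcases div_eq_zero_iff.1 h with h3 | h3
  · rcases mul_eq_zero.1 h3 with h4 | h4
    · exact sub_eq_zero.1 (pow_eq_zero_iff two_ne_zero |>.1 h4)
    · exact absurd h4 h1.ne'
  · exact absurd h3 h2

/-- `V'` is strictly increasing on `[-1/2, 1/2]` -/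
theorem VD_strictMonoOn : StrictMonoOn VD (Icc (-(1 / 2)) (1 / 2)) := by
  intro u hu v hv huv
  unfold VD
  have h1 : (0 : ℝ) < (1 + u ^ 2) ^ 2 := by positivity
  have h2 : (0 : ℝ) < (1 + v ^ 2) ^ 2 := by positivity
  rw [div_lt_div_iff₀ h1 h2]
  have hua : |u| ≤ 1 / 2 := abs_le.2 hu
  have hva : |v| ≤ 1 / 2 := abs_le.2 hv
  have hu2 : u ^ 2 ≤ 1 / 4 := by
    have := pow_le_pow_left₀ (abs_nonneg u) hua 2
    rw [sq_abs] at this
    linarith
  have hv2 : v ^ 2 ≤ 1 / 4 := by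
    have := pow_le_pow_left₀ (abs_nonneg v) hva 2
    rw [sq_abs] at this
    linarith
  have huv1 : |u * v| ≤ 1 / 4 := by
    rw [abs_mul]
    calc |u| * |v| ≤ 1 / 2 * (1 / 2) := mul_le_mul hua hva (abs_nonneg _) (by norm_num)
      _ = 1 / 4 := by norm_num
  obtain ⟨h3, h4⟩ := abs_le.1 huv1
  have h5 : u * v * (u ^ 2 + u * v + v ^ 2) ≤ 3 / 16 := by
    have h6 : |u * v * (u ^ 2 + u * v + v ^ 2)| ≤ 1 / 4 * (3 / 4) := by
      rw [abs_mul]
      refine mul_le_mul huv1 ?_ (abs_nonneg _) (by norm_num)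
      rw [abs_le]
      constructor <;> nlinarith [sq_nonneg u, sq_nonneg v]
    linarith [(abs_le.1 h6).2]
  have h7 : 0 < (v - u) * (1 - 2 * (u * v) - u * v * (u ^ 2 + u * v + v ^ 2)) :=
    mul_pos (by linarith) (by linarith)
  nlinarith [h7]

theorem VD_pos {u : ℝ} (h : 0 < u) : 0 < VD u := by
  unfold VD
  positivity

theorem VD_neg {u : ℝ} (h : u < 0) : VD u < 0 := by
  unfold VD
  exact div_neg_of_neg_of_pos (by linarith) (by positivity)

/-- `V' → 0` at infinity -/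
theorem VD_small {ε : ℝ} (hε : 0 < ε) : ∃ K > (0 : ℝ), ∀ u, K ≤ |u| → |VD u| ≤ ε := by
  refine ⟨1 / ε, by positivity, fun u hu => ?_⟩
  have hpos : 0 < |u| := lt_of_lt_of_le (by positivity) hu
  have h1 : (0 : ℝ) < (1 + u ^ 2) ^ 2 := by positivity
  unfold VD
  rw [abs_div, abs_of_pos h1, abs_mul, abs_two, div_le_iff₀ h1]
  have h2 : 1 ≤ ε * |u| := by
    rw [div_le_iff₀ hε] at hu
    linarith
  have h3 : |u| ^ 2 = u ^ 2 := sq_abs u
  have h4 : 2 * |u| ≤ ε * |u| * (2 * |u|) := by nlinarith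
  have h5 : ε * (2 * u ^ 2) ≤ ε * (1 + u ^ 2) ^ 2 := by
    apply mul_le_mul_of_nonneg_left _ hε.le
    nlinarith [sq_nonneg (u ^ 2)]
  calc 2 * |u| ≤ ε * |u| * (2 * |u|) := h4
    _ = ε * (2 * |u| ^ 2) := by ring
    _ = ε * (2 * u ^ 2) := by rw [h3]
    _ ≤ _ := h5

theorem VV_ge {u : ℝ} (h : 9 / 10 ≤ |u|) : 7 / 5 ≤ VV u := by
  unfold VV
  have h1 : (9 / 10 : ℝ) ^ 2 ≤ u ^ 2 := by
    rw [← sq_abs u]
    exact pow_le_pow_left₀ (by norm_num) h 2
  have h2 : 0 < 1 + u ^ 2 := by positivity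
  have h3 : 2 / 5 ≤ u ^ 2 / (1 + u ^ 2) := by
    rw [le_div_iff₀ h2]
    nlinarith
  linarith

theorem VV_le_sq (u : ℝ) : VV u ≤ 1 + u ^ 2 := by
  unfold VV
  have h1 : u ^ 2 / (1 + u ^ 2) ≤ u ^ 2 := div_le_self (sq_nonneg u) (by nlinarith [sq_nonneg u])
  linarith
-- END v2

end Pool.Agent.AnQ2
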