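import Mathlib
import Pool.Agent.AnQ2.Vf
import Pool.Agent.AnQ2.Tp

/-!
# One resonant level (page, section 2)
-/

namespace Pool.Agent.AnQ2

open Set Filter Topology Real MeasureTheory
open scoped ContDiff

/-- the data of one level -/
structure Lev where
  q : ℝ
  B : ℝ
  η : ℝ
  t1 : ℝ
  f : ℝ → ℝ → ℝ
  f1 : ℝ → ℝ → ℝ
  F : ℝ → ℝ → ℝ
  F1 : ℝ → ℝ → ℝ
  hq : 0 < q
  hB : 0 < B
  hη0 : 0 < η
  hη : η ≤ 1 / 100
  hBq : 4 * B * q ≤ η
  dF : ∀ φ t, HasDerivAt (F φ) (f φ t) t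
  dF1 : ∀ φ t, HasDerivAt (F1 φ) (f1 φ t) t
  cf : ∀ φ, ContDiff ℝ ∞ (f φ)
  cf1 : ∀ φ, Continuous (f1 φ)
  perF : ∀ φ t, F φ (t + q) = F φ t
  perF1 : ∀ φ t, F1 φ (t + q) = F1 φ t
  bF : ∀ φ t, |F φ t| ≤ η
  bF1 : ∀ φ t, |F1 φ t| ≤ η
  tay : ∀ φ φ' t, |F φ' t - F φ t - (φ' - φ) * F1 φ t| ≤ η / 2 * (φ' - φ) ^ 2
  shift : ∀ φ t, f (φ + 1) t = f φ (t + t1)

namespace Lev

variable (L : Lev)

/-- periodic solutions of the fibre equation -/
def Sol (φ lam : ℝ) (u : ℝ → ℝ) : Prop :=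
  (∀ t, HasDerivAt u (L.B * VV (u t) - L.f φ t - lam) t) ∧ ∀ t, u (t + L.q) = u t

-- BEGIN l0
theorem per_f (φ t : ℝ) : L.f φ (t + L.q) = L.f φ t := by
  have h1 : HasDerivAt (fun s => L.F φ (s + L.q)) (L.f φ (t + L.q)) t :=
    (L.dF φ (t + L.q)).comp_add_const t L.q
  have h2 : (fun s => L.F φ (s + L.q)) = L.F φ := by
    funext s
    exact L.perF φ s
  rw [h2] at h1
  exact h1.unique (L.dF φ t)

private theorem l0_int (L : Lev) (φ s t : ℝ) : ∫ r in s..t, L.f φ r = L.F φ t - L.F φ s :=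
  intervalIntegral.integral_eq_sub_of_hasDerivAt (fun x _ => L.dF φ x)
    ((L.cf φ).continuous.intervalIntegrable s t)

theorem int_f (φ : ℝ) : ∫ t in (0 : ℝ)..L.q, L.f φ t = 0 := by
  rw [l0_int]
  have h := L.perF φ 0
  rw [zero_add] at h
  rw [h, sub_self]

theorem abs_int_f (φ s t : ℝ) : |∫ r in s..t, L.f φ r| ≤ 2 * L.η := by
  rw [l0_int]
  have h1 := abs_le.1 (L.bF φ s)
  have h2 := abs_le.1 (L.bF φ t)
  rw [abs_le]
  constructor <;> linarith [h1.1, h1.2, h2.1, h2.2]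

private theorem l0_bdd {g : ℝ → ℝ} (hg : Continuous g) {q : ℝ} (hq : 0 < q)
    (hp : ∀ t, g (t + q) = g t) : ∃ C, ∀ t, |g t| ≤ C := by
  have hper : Function.Periodic g q := hp
  obtain ⟨C, hC⟩ := (isCompact_Icc (a := (0 : ℝ)) (b := q)).exists_bound_of_continuousOn
    hg.continuousOn
  refine ⟨C, fun t => ?_⟩
  obtain ⟨y, hy, hty⟩ := hper.exists_mem_Ico₀ hq t
  rw [hty]
  have := hC y ⟨hy.1, hy.2.le⟩
  rwa [Real.norm_eq_abs] at this

/-- `f` is bounded (it is continuous and periodic in `t`) -/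
theorem bdd_f (φ : ℝ) : ∃ C, ∀ t, |L.f φ t| ≤ C :=
  l0_bdd (L.cf φ).continuous L.hq (L.per_f φ)

/-- `f` is Lipschitz in `t` -/
theorem lip_f (φ : ℝ) : ∃ C, ∀ s t, |L.f φ s - L.f φ t| ≤ C * |s - t| := by
  have hd : Differentiable ℝ (L.f φ) := (L.cf φ).differentiable (by simp)
  have hc : Continuous (deriv (L.f φ)) := (L.cf φ).continuous_deriv (by simp)
  have hp : ∀ t, deriv (L.f φ) (t + L.q) = deriv (L.f φ) t := by
    intro t
    have h2 : (fun s => L.f φ (s + L.q)) = L.f φ := by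
      funext s
      exact L.per_f φ s
    have h3 : deriv (fun s => L.f φ (s + L.q)) t = deriv (L.f φ) (t + L.q) :=
      deriv_comp_add_const (L.f φ) L.q t
    rw [h2] at h3
    exact h3.symm
  obtain ⟨C, hC⟩ := l0_bdd hc L.hq hp
  refine ⟨C, fun s t => ?_⟩
  have := convex_univ.norm_image_sub_le_of_norm_deriv_le (f := L.f φ) (C := C)
    (fun x _ => hd x) (fun x _ => by rw [Real.norm_eq_abs]; exact hC x)
    (mem_univ t) (mem_univ s)
  simpa [Real.norm_eq_abs] using this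
-- END l0

variable {L}

-- BEGIN l1
theorem Sol.cont {φ lam : ℝ} {u : ℝ → ℝ} (h : L.Sol φ lam u) : Continuous u :=
  continuous_iff_continuousAt.2 fun t => (h.1 t).continuousAt

private theorem l1_diff {φ lam : ℝ} {u : ℝ → ℝ} (h : L.Sol φ lam u) (s t : ℝ) :
    u t - u s = (∫ r in s..t, (L.B * VV (u r) - lam)) - ∫ r in s..t, L.f φ r := by
  have cV : Continuous fun r => L.B * VV (u r) - lam :=
    (continuous_const.mul (contDiff_VV.continuous.comp h.cont)).sub continuous_const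
  have cf : Continuous (L.f φ) := (L.cf φ).continuous
  have h1 : ∫ r in s..t, (L.B * VV (u r) - L.f φ r - lam) = u t - u s :=
    intervalIntegral.integral_eq_sub_of_hasDerivAt (fun r _ => h.1 r)
      (((continuous_const.mul (contDiff_VV.continuous.comp h.cont)).sub cf).sub
        continuous_const |>.intervalIntegrable _ _)
  rw [← h1, ← intervalIntegral.integral_sub (cV.intervalIntegrable _ _) (cf.intervalIntegrable _ _)]
  congr 1
  funext r
  ring

/-- (2.1) -/
theorem Sol.mean {φ lam : ℝ} {u : ℝ → ℝ} (h : L.Sol φ lam u) :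
    L.q * lam = L.B * ∫ t in (0 : ℝ)..L.q, VV (u t) := by
  have h1 := l1_diff h 0 L.q
  rw [L.int_f φ] at h1
  have h2 : u L.q = u 0 := by simpa using h.2 0
  have cV : Continuous fun r => VV (u r) := contDiff_VV.continuous.comp h.cont
  have c1 : Continuous fun r => L.B * VV (u r) := continuous_const.mul cV
  have h3 : ∫ r in (0 : ℝ)..L.q, (L.B * VV (u r) - lam) =
      L.B * (∫ t in (0 : ℝ)..L.q, VV (u t)) - L.q * lam := by
    rw [intervalIntegral.integral_sub (c1.intervalIntegrable _ _)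
      (continuous_const.intervalIntegrable _ _), intervalIntegral.integral_const_mul,
      intervalIntegral.integral_const, smul_eq_mul, sub_zero]
  rw [h3, h2] at h1
  linarith

theorem Sol.lam_ge {φ lam : ℝ} {u : ℝ → ℝ} (h : L.Sol φ lam u) : L.B ≤ lam := by
  have hm := h.mean
  have cV : Continuous fun r => VV (u r) := contDiff_VV.continuous.comp h.cont
  have h1 : ∫ t in (0 : ℝ)..L.q, (1 : ℝ) ≤ ∫ t in (0 : ℝ)..L.q, VV (u t) :=
    intervalIntegral.integral_mono_on L.hq.le (continuous_const.intervalIntegrable _ _)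
      (cV.intervalIntegrable _ _) (fun t _ => one_le_VV _)
  rw [intervalIntegral.integral_const, smul_eq_mul, mul_one, sub_zero] at h1
  have h2 : L.q * L.B ≤ L.q * lam := by
    rw [hm, mul_comm]
    exact mul_le_mul_of_nonneg_left h1 L.hB.le
  exact le_of_mul_le_mul_left h2 L.hq

theorem Sol.lam_le {φ lam : ℝ} {u : ℝ → ℝ} (h : L.Sol φ lam u) : lam ≤ 2 * L.B := by
  have hm := h.mean
  have cV : Continuous fun r => VV (u r) := contDiff_VV.continuous.comp h.cont
  have h1 : ∫ t in (0 : ℝ)..L.q, VV (u t) ≤ ∫ t in (0 : ℝ)..L.q, (2 : ℝ) :=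
    intervalIntegral.integral_mono_on L.hq.le (cV.intervalIntegrable _ _)
      (continuous_const.intervalIntegrable _ _) (fun t _ => (VV_lt_two _).le)
  rw [intervalIntegral.integral_const, smul_eq_mul, sub_zero] at h1
  have h2 : L.q * lam ≤ L.q * (2 * L.B) := by
    rw [hm]
    calc L.B * ∫ t in (0 : ℝ)..L.q, VV (u t) ≤ L.B * (L.q * 2) :=
          mul_le_mul_of_nonneg_left h1 L.hB.le
      _ = L.q * (2 * L.B) := by ring
  exact le_of_mul_le_mul_left h2 L.hq

private theorem l1_osc {φ lam : ℝ} {u : ℝ → ℝ} (h : L.Sol φ lam u) {s t : ℝ}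
    (hst : |t - s| ≤ L.q) : |u t - u s| ≤ 3 * L.η := by
  rw [l1_diff h s t]
  have h1 : |∫ r in s..t, (L.B * VV (u r) - lam)| ≤ L.B * |t - s| := by
    have := intervalIntegral.norm_integral_le_of_norm_le_const (a := s) (b := t) (C := L.B)
      (f := fun r => L.B * VV (u r) - lam) (fun r _ => by
        rw [Real.norm_eq_abs, abs_le]
        have a1 := one_le_VV (u r)
        have a2 := (VV_lt_two (u r)).le
        have a3 := h.lam_ge
        have a4 := h.lam_le
        have a5 := L.hB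
        constructor <;> nlinarith)
    simpa [Real.norm_eq_abs] using this
  have h2 := L.abs_int_f φ s t
  have h3 : L.B * |t - s| ≤ L.B * L.q := mul_le_mul_of_nonneg_left hst L.hB.le
  have h4 := L.hBq
  have h5 := L.hη0
  calc |(∫ r in s..t, (L.B * VV (u r) - lam)) - ∫ r in s..t, L.f φ r|
      ≤ |∫ r in s..t, (L.B * VV (u r) - lam)| + |∫ r in s..t, L.f φ r| := abs_sub _ _
    _ ≤ L.B * L.q + 2 * L.η := by linarith
    _ ≤ 3 * L.η := by linarith

theorem Sol.osc {φ lam : ℝ} {u : ℝ → ℝ} (h : L.Sol φ lam u) (s t : ℝ) :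
    |u s - u t| ≤ 3 * L.η := by
  have hp : Function.Periodic u L.q := h.2
  obtain ⟨y, hy, hy2⟩ := hp.exists_mem_Ico L.hq s t
  rw [hy2]
  exact l1_osc h (by rw [abs_le]; constructor <;> linarith [hy.1, hy.2])
-- END l1

-- BEGIN l2
/-- (2.2) -/
theorem Sol.small {φ lam : ℝ} {u : ℝ → ℝ} (h : L.Sol φ lam u)
    (h0 : ∫ t in (0 : ℝ)..L.q, VD (u t) = 0) (t : ℝ) : |u t| ≤ 3 * L.η := by
  have hc : Continuous (fun s => VD (u s)) := contDiff_VD.continuous.comp h.cont
  by_contra hcon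
  push Not at hcon
  rcases le_or_gt 0 (u t) with hu | hu
  · rw [abs_of_nonneg hu] at hcon
    have hpos : ∀ s, 0 < u s := by
      intro s
      have h1 := h.osc s t
      rw [abs_le] at h1
      linarith [h1.1]
    have h2 : 0 < ∫ s in (0 : ℝ)..L.q, VD (u s) :=
      intervalIntegral.intervalIntegral_pos_of_pos_on (hc.intervalIntegrable _ _)
        (fun s _ => VD_pos (hpos s)) L.hq
    linarith
  · rw [abs_of_neg hu] at hcon
    have hneg : ∀ s, u s < 0 := by
      intro s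
      have h1 := h.osc s t
      rw [abs_le] at h1
      linarith [h1.2]
    have h2 : 0 < ∫ s in (0 : ℝ)..L.q, -VD (u s) :=
      intervalIntegral.intervalIntegral_pos_of_pos_on (hc.neg.intervalIntegrable _ _)
        (fun s _ => by have := VD_neg (hneg s); linarith) L.hq
    rw [intervalIntegral.integral_neg] at h2
    linarith

theorem Sol.lam_small {φ lam : ℝ} {u : ℝ → ℝ} (h : L.Sol φ lam u)
    (h0 : ∫ t in (0 : ℝ)..L.q, VD (u t) = 0) : lam ≤ (1 + 9 * L.η ^ 2) * L.B := by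
  have hc : Continuous (fun s => VV (u s)) := contDiff_VV.continuous.comp h.cont
  have h1 : ∫ s in (0 : ℝ)..L.q, VV (u s) ≤ ∫ _s in (0 : ℝ)..L.q, (1 + 9 * L.η ^ 2) := by
    refine intervalIntegral.integral_mono_on L.hq.le (hc.intervalIntegrable _ _)
      (continuous_const.intervalIntegrable _ _) (fun s _ => ?_)
    have h2 := VV_le_sq (u s)
    have h3 := h.small h0 s
    have h4 : u s ^ 2 ≤ (3 * L.η) ^ 2 := by
      rw [← sq_abs (u s)]
      exact pow_le_pow_left₀ (abs_nonneg _) h3 2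
    nlinarith
  rw [intervalIntegral.integral_const, sub_zero, smul_eq_mul] at h1
  have h5 := h.mean
  have h6 : L.q * lam ≤ L.q * ((1 + 9 * L.η ^ 2) * L.B) := by
    rw [h5]
    calc L.B * ∫ t in (0 : ℝ)..L.q, VV (u t) ≤ L.B * (L.q * (1 + 9 * L.η ^ 2)) :=
          mul_le_mul_of_nonneg_left h1 L.hB.le
      _ = L.q * ((1 + 9 * L.η ^ 2) * L.B) := by ring
  exact le_of_mul_le_mul_left h6 L.hq

/-- a solution that leaves `[-1, 1]` has a large drift -/
theorem Sol.lam_big {φ lam : ℝ} {u : ℝ → ℝ} (h : L.Sol φ lam u) {t : ℝ} (ht : 1 < |u t|) :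
    7 / 5 * L.B ≤ lam := by
  have hc : Continuous (fun s => VV (u s)) := contDiff_VV.continuous.comp h.cont
  have h1 : ∫ _s in (0 : ℝ)..L.q, (7 / 5 : ℝ) ≤ ∫ s in (0 : ℝ)..L.q, VV (u s) := by
    refine intervalIntegral.integral_mono_on L.hq.le (continuous_const.intervalIntegrable _ _)
      (hc.intervalIntegrable _ _) (fun s _ => ?_)
    apply VV_ge
    have h2 := h.osc t s
    have h3 := L.hη
    have h4 : |u t| - |u s| ≤ |u t - u s| := abs_sub_abs_le_abs_sub _ _
    linarith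
  rw [intervalIntegral.integral_const, sub_zero, smul_eq_mul] at h1
  have h5 := h.mean
  have h6 : L.q * (7 / 5 * L.B) ≤ L.q * lam := by
    rw [h5]
    calc L.q * (7 / 5 * L.B) = L.B * (L.q * (7 / 5)) := by ring
      _ ≤ L.B * ∫ t in (0 : ℝ)..L.q, VV (u t) := mul_le_mul_of_nonneg_left h1 L.hB.le
  exact le_of_mul_le_mul_left h6 L.hq
-- END l2

-- BEGIN l3
private theorem l3_shift_back (L : Lev) (φ t : ℝ) : L.f (φ - 1) (t + L.t1) = L.f φ t := by
  have := L.shift (φ - 1) t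
  rw [sub_add_cancel] at this
  exact this.symm

/-- time shifts -/
theorem Sol.shift_one {φ lam : ℝ} {u : ℝ → ℝ} (h : L.Sol (φ + 1) lam u) :
    L.Sol φ lam (fun t => u (t - L.t1)) := by
  refine ⟨fun t => ?_, fun t => ?_⟩
  · have h1 := (h.1 (t - L.t1)).comp t ((hasDerivAt_id t).sub_const L.t1)
    rw [L.shift φ (t - L.t1), sub_add_cancel, mul_one] at h1
    exact h1
  · have h2 := h.2 (t - L.t1)
    have e : t + L.q - L.t1 = t - L.t1 + L.q := by ring
    simp only
    rw [e, h2]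

theorem Sol.shift_one' {φ lam : ℝ} {u : ℝ → ℝ} (h : L.Sol φ lam u) :
    L.Sol (φ + 1) lam (fun t => u (t + L.t1)) := by
  refine ⟨fun t => ?_, fun t => ?_⟩
  · have h1 := (h.1 (t + L.t1)).comp t ((hasDerivAt_id t).add_const L.t1)
    rw [← L.shift φ t, mul_one] at h1
    exact h1
  · have h2 := h.2 (t + L.t1)
    have e : t + L.q + L.t1 = t + L.t1 + L.q := by ring
    simp only
    rw [e, h2]

theorem Sol.shift_int {φ lam : ℝ} {u : ℝ → ℝ} (h : L.Sol φ lam u) (N : ℤ) :
    L.Sol (φ - N) lam (fun t => u (t - N * L.t1)) := by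
  induction N using Int.induction_on with
  | zero => simpa using h
  | succ n ih =>
    have e : φ - ((n : ℤ) : ℝ) = φ - (((n : ℤ) + 1 : ℤ) : ℝ) + 1 := by push_cast; ring
    rw [e] at ih
    have h1 := Sol.shift_one ih
    refine cast (congrArg _ ?_) h1
    funext t
    congr 1
    push_cast
    ring
  | pred n ih =>
    have h1 := Sol.shift_one' ih
    have e : φ - ((-(n : ℤ) : ℤ) : ℝ) + 1 = φ - ((-(n : ℤ) - 1 : ℤ) : ℝ) := by push_cast; ring
    rw [e] at h1
    refine cast (congrArg _ ?_) h1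
    funext t
    congr 1
    push_cast
    ring

/-- integrals over a period do not depend on the starting point -/
theorem Sol.int_shift {φ lam : ℝ} {u : ℝ → ℝ} (h : L.Sol φ lam u) (a : ℝ) :
    ∫ t in (0 : ℝ)..L.q, VD (u (t - a)) = ∫ t in (0 : ℝ)..L.q, VD (u t) := by
  have hp : Function.Periodic (fun t => VD (u t)) L.q := fun t => by
    simp only
    rw [h.2 t]
  rw [intervalIntegral.integral_comp_sub_right (fun t => VD (u t)) a]
  have := hp.intervalIntegral_add_eq (0 - a) 0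
  rw [zero_add] at this
  rw [← this]
  congr 1
  ring
-- END l3

/-- the weight of a solution -/
noncomputable def om (L : Lev) (u : ℝ → ℝ) (t : ℝ) : ℝ := exp (-(L.B * ∫ s in (0 : ℝ)..t, VD (u s)))

-- BEGIN l4
theorem om_pos (u : ℝ → ℝ) (t : ℝ) : 0 < om L u t := exp_pos _

theorem hasDerivAt_om {u : ℝ → ℝ} (hu : Continuous u) (t : ℝ) :
    HasDerivAt (om L u) (-(L.B * VD (u t)) * om L u t) t := by
  have hc : Continuous (fun s => VD (u s)) := contDiff_VD.continuous.comp hu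
  have h1 : HasDerivAt (fun t => ∫ s in (0 : ℝ)..t, VD (u s)) (VD (u t)) t :=
    intervalIntegral.integral_hasDerivAt_right (hc.intervalIntegrable _ _)
      hc.stronglyMeasurable.stronglyMeasurableAtFilter hc.continuousAt
  have h2 : HasDerivAt (fun t => exp (-(L.B * ∫ s in (0 : ℝ)..t, VD (u s))))
      (exp (-(L.B * ∫ s in (0 : ℝ)..t, VD (u s))) * (-(L.B * VD (u t)))) t :=
    ((h1.const_mul L.B).neg).exp
  unfold om
  rw [mul_comm]
  exact h2

theorem om_per {φ lam : ℝ} {u : ℝ → ℝ} (h : L.Sol φ lam u)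
    (h0 : ∫ t in (0 : ℝ)..L.q, VD (u t) = 0) : om L u L.q = om L u 0 := by
  unfold om
  rw [h0, intervalIntegral.integral_same]

theorem l4_om_cont {u : ℝ → ℝ} (hu : Continuous u) : Continuous (om L u) :=
  continuous_iff_continuousAt.mpr fun t => (hasDerivAt_om hu t).continuousAt

theorem int_om_pos {u : ℝ → ℝ} (hu : Continuous u) : 0 < ∫ t in (0 : ℝ)..L.q, om L u t :=
  intervalIntegral.intervalIntegral_pos_of_pos_on ((l4_om_cont hu).intervalIntegrable _ _)
    (fun t _ => om_pos u t) L.hq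

/-- (2.5) -/
theorem int_om_small {φ lam : ℝ} {u : ℝ → ℝ} (h : L.Sol φ lam u)
    (h0 : ∫ t in (0 : ℝ)..L.q, VD (u t) = 0) {g G : ℝ → ℝ} {c : ℝ}
    (hG : ∀ t, HasDerivAt G (g t) t) (hg : Continuous g) (hper : G L.q = G 0)
    (hc : ∀ t, |G t| ≤ c) :
    |∫ t in (0 : ℝ)..L.q, om L u t * g t| ≤
      6 * L.B * L.η * c * ∫ t in (0 : ℝ)..L.q, om L u t := by
  have hu : Continuous u := h.cont
  have hGc : Continuous G := continuous_iff_continuousAt.mpr fun t => (hG t).continuousAt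
  have hom := l4_om_cont (L := L) hu
  have hVc : Continuous (fun s => VD (u s)) := contDiff_VD.continuous.comp hu
  have hparts := intervalIntegral.integral_mul_deriv_eq_deriv_mul (a := 0) (b := L.q)
    (u := om L u) (v := G) (u' := fun t => -(L.B * VD (u t)) * om L u t) (v' := g)
    (fun t _ => hasDerivAt_om hu t) (fun t _ => hG t)
    ((((continuous_const.mul hVc).neg).mul hom).intervalIntegrable _ _)
    (hg.intervalIntegrable _ _)
  rw [hparts, om_per h h0, hper, sub_self, zero_sub, abs_neg]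
  have hc0 : 0 ≤ c := (abs_nonneg _).trans (hc 0)
  have hb : ∀ t ∈ Set.uIoc (0 : ℝ) L.q, ‖-(L.B * VD (u t)) * om L u t * G t‖ ≤
      6 * L.B * L.η * c * om L u t := by
    intro t _
    rw [Real.norm_eq_abs, abs_mul, abs_mul, abs_neg, abs_mul, abs_of_pos L.hB,
      abs_of_pos (om_pos u t)]
    have h1 : |VD (u t)| ≤ 6 * L.η := by
      have := abs_VD_le (u t)
      have h3 := h.small h0 t
      linarith
    have h2 := hc t
    have hop := (om_pos (L := L) u t).le
    have hB := L.hB.le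
    have hη := L.hη0.le
    calc L.B * |VD (u t)| * om L u t * |G t|
        ≤ L.B * (6 * L.η) * om L u t * c := by
          apply mul_le_mul _ h2 (abs_nonneg _) (by positivity)
          exact mul_le_mul_of_nonneg_right (mul_le_mul_of_nonneg_left h1 hB) hop
      _ = 6 * L.B * L.η * c * om L u t := by ring
  have h4 := intervalIntegral.norm_integral_le_abs_of_norm_le
    (f := fun t => -(L.B * VD (u t)) * om L u t * G t)
    (g := fun t => 6 * L.B * L.η * c * om L u t) (μ := volume) (a := 0) (b := L.q)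
    ((ae_restrict_iff' measurableSet_uIoc).mpr (ae_of_all _ fun t ht => hb t ht))
    ((continuous_const.mul hom).intervalIntegrable _ _)
  rw [Real.norm_eq_abs] at h4
  refine h4.trans (le_of_eq ?_)
  rw [intervalIntegral.integral_const_mul, abs_of_nonneg]
  have hη := L.hη0.le
  have hB := L.hB.le
  have := (int_om_pos (L := L) hu).le
  positivity
-- END l4

-- BEGIN l5
/-- (2.4), the identity -/
theorem comparison {φ0 lam0 φ1 lam1 : ℝ} {u0 u1 : ℝ → ℝ} (h0 : L.Sol φ0 lam0 u0)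
    (hz : ∫ t in (0 : ℝ)..L.q, VD (u0 t) = 0) (h1 : L.Sol φ1 lam1 u1) :
    (lam1 - lam0) * (∫ t in (0 : ℝ)..L.q, om L u0 t) +
      (∫ t in (0 : ℝ)..L.q, om L u0 t * (L.f φ1 t - L.f φ0 t)) =
    L.B * ∫ t in (0 : ℝ)..L.q, om L u0 t * (VV (u1 t) - VV (u0 t) - VD (u0 t) * (u1 t - u0 t)) :=
  by
  have hu0 : Continuous u0 := h0.cont
  have hu1 : Continuous u1 := h1.cont
  have hom : Continuous (om L u0) :=
    continuous_iff_continuousAt.mpr fun t => (hasDerivAt_om hu0 t).continuousAt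
  have hf : ∀ φ, Continuous (L.f φ) := fun φ => (L.cf φ).continuous
  have hVV : Continuous VV := contDiff_VV.continuous
  have hVD : Continuous VD := contDiff_VD.continuous
  have hd : ∀ t, HasDerivAt (fun t => om L u0 t * (u1 t - u0 t))
      (L.B * (om L u0 t * (VV (u1 t) - VV (u0 t) - VD (u0 t) * (u1 t - u0 t))) -
        ((lam1 - lam0) * om L u0 t + om L u0 t * (L.f φ1 t - L.f φ0 t))) t := by
    intro t
    have h3 : HasDerivAt (fun t => om L u0 t * (u1 t - u0 t))
        (-(L.B * VD (u0 t)) * om L u0 t * (u1 t - u0 t) + om L u0 t *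
          ((L.B * VV (u1 t) - L.f φ1 t - lam1) - (L.B * VV (u0 t) - L.f φ0 t - lam0))) t :=
      (hasDerivAt_om (L := L) hu0 t).mul ((h1.1 t).sub (h0.1 t))
    have h4 : L.B * (om L u0 t * (VV (u1 t) - VV (u0 t) - VD (u0 t) * (u1 t - u0 t))) -
        ((lam1 - lam0) * om L u0 t + om L u0 t * (L.f φ1 t - L.f φ0 t)) =
        -(L.B * VD (u0 t)) * om L u0 t * (u1 t - u0 t) + om L u0 t *
          ((L.B * VV (u1 t) - L.f φ1 t - lam1) - (L.B * VV (u0 t) - L.f φ0 t - lam0)) := by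
      ring
    rw [h4]
    exact h3
  have hc1 : Continuous (fun t => om L u0 t * (VV (u1 t) - VV (u0 t) -
      VD (u0 t) * (u1 t - u0 t))) :=
    hom.mul (((hVV.comp hu1).sub (hVV.comp hu0)).sub ((hVD.comp hu0).mul (hu1.sub hu0)))
  have hc2 : Continuous (fun t => om L u0 t * (L.f φ1 t - L.f φ0 t)) :=
    hom.mul ((hf φ1).sub (hf φ0))
  have hc3 : Continuous (fun t => L.B * (om L u0 t * (VV (u1 t) - VV (u0 t) -
      VD (u0 t) * (u1 t - u0 t)))) := continuous_const.mul hc1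
  have hc4 : Continuous (fun t => (lam1 - lam0) * om L u0 t) := continuous_const.mul hom
  have hc5 : Continuous (fun t => (lam1 - lam0) * om L u0 t +
      om L u0 t * (L.f φ1 t - L.f φ0 t)) := hc4.add hc2
  have hint := intervalIntegral.integral_eq_sub_of_hasDerivAt (a := 0) (b := L.q)
    (fun t _ => hd t) ((hc3.sub hc5).intervalIntegrable _ _)
  have hp0 : u0 L.q = u0 0 := by simpa using h0.2 0
  have hp1 : u1 L.q = u1 0 := by simpa using h1.2 0
  rw [om_per h0 hz, hp0, hp1, sub_self] at hint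
  rw [intervalIntegral.integral_sub (hc3.intervalIntegrable _ _)
    (hc5.intervalIntegrable _ _), intervalIntegral.integral_const_mul,
    intervalIntegral.integral_add (hc4.intervalIntegrable _ _)
      (hc2.intervalIntegrable _ _), intervalIntegral.integral_const_mul] at hint
  linarith
-- END l5

-- BEGIN l6
/-- uniqueness at a critical parameter -/
theorem unique_crit {φ lam : ℝ} {u0 u1 : ℝ → ℝ} (h0 : L.Sol φ lam u0)
    (hz : ∫ t in (0 : ℝ)..L.q, VD (u0 t) = 0) (h1 : L.Sol φ lam u1) : u1 = u0 := by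
  have hη0 := L.hη0
  have hη := L.hη
  have hB := L.hB
  have hc0 : Continuous u0 := h0.cont
  have hc1 : Continuous u1 := h1.cont
  have hs0 : ∀ t, |u0 t| ≤ 1 / 10 := fun t => by
    have := h0.small hz t
    linarith
  have hlam : lam < 7 / 5 * L.B := by
    have h2 := h0.lam_small hz
    have h3 : L.η ^ 2 ≤ 1 / 10000 := by nlinarith
    nlinarith
  have hs1 : ∀ t, |u1 t| ≤ 1 := fun t => by
    by_contra hcon
    push Not at hcon
    have := h1.lam_big hcon
    linarith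
  have hcom : Continuous (om L u0) :=
    continuous_iff_continuousAt.2 fun t => (hasDerivAt_om hc0 t).continuousAt
  have hVV : Continuous VV := contDiff_VV.continuous
  have hVD : Continuous VD := contDiff_VD.continuous
  have hcg : Continuous fun t => om L u0 t *
      (VV (u1 t) - VV (u0 t) - VD (u0 t) * (u1 t - u0 t)) := by
    refine hcom.mul (((hVV.comp hc1).sub (hVV.comp hc0)).sub ?_)
    exact (hVD.comp hc0).mul (hc1.sub hc0)
  have hint : ∫ t in (0 : ℝ)..L.q, om L u0 t *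
      (VV (u1 t) - VV (u0 t) - VD (u0 t) * (u1 t - u0 t)) = 0 := by
    have h4 := comparison h0 hz h1
    simp only [sub_self, zero_mul, mul_zero, intervalIntegral.integral_zero, add_zero] at h4
    rcases mul_eq_zero.1 h4.symm with h5 | h5
    · exact absurd h5 hB.ne'
    · exact h5
  have hzero : ∀ t ∈ Icc (0 : ℝ) L.q, u1 t = u0 t := by
    intro t ht
    by_contra hne
    have hpos : 0 < ∫ t in (0 : ℝ)..L.q, om L u0 t *
        (VV (u1 t) - VV (u0 t) - VD (u0 t) * (u1 t - u0 t)) := by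
      refine intervalIntegral.integral_pos L.hq hcg.continuousOn (fun x _ => ?_) ⟨t, ht, ?_⟩
      · exact mul_nonneg (om_pos u0 x).le (VV_tangent_nonneg (hs1 x) (hs0 x))
      · refine mul_pos (om_pos u0 t) (lt_of_le_of_ne (VV_tangent_nonneg (hs1 t) (hs0 t)) ?_)
        intro h6
        exact hne (VV_tangent_eq_zero (hs1 t) (hs0 t) h6.symm)
    rw [hint] at hpos
    exact lt_irrefl _ hpos
  have hper : Function.Periodic (fun t => u1 t - u0 t) L.q := fun t => by
    simp only [h1.2 t, h0.2 t]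
  funext t
  obtain ⟨y, hy, hty⟩ := hper.exists_mem_Ico₀ L.hq t
  have h7 := hzero y ⟨hy.1, hy.2.le⟩
  replace hty : u1 t - u0 t = u1 y - u0 y := hty
  rw [h7, sub_self] at hty
  linarith
-- END l6

end Lev

/-- `sin (2 π x) / (2 π)` -/
noncomputable def ss (x : ℝ) : ℝ := sin (2 * π * x) / (2 * π)

-- BEGIN l7
theorem sub_ss_le {x : ℝ} (hx : |x| ≤ 1 / 2) : |x - ss x| ≤ 10 / 3 * x ^ 2 := by
  have hπ3 : (3 : ℝ) < π := pi_gt_three
  have hπ4 : π < 3.15 := pi_lt_d2
  -- `|y - sin y| ≤ |y|^3 / 4` for `y ≥ 0`-type bounds via `sin_gt_sub_cube` is only local; use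
  -- the general inequality `y - y ^ 3 / 6 ≤ sin y ≤ y` for `y ≥ 0`
  have key : ∀ y : ℝ, 0 ≤ y → y - sin y ≤ y ^ 3 / 6 := by
    intro y hy
    have hmono : MonotoneOn (fun y : ℝ => sin y - y + y ^ 3 / 6) (Ici 0) := by
      apply monotoneOn_of_deriv_nonneg (convex_Ici 0)
      · fun_prop
      · fun_prop
      · intro t _
        have hd : HasDerivAt (fun y : ℝ => sin y - y + y ^ 3 / 6) (cos t - 1 + 3 * t ^ 2 / 6) t := by
          have h1 := ((hasDerivAt_sin t).sub (hasDerivAt_id t)).add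
            ((hasDerivAt_pow 3 t).div_const 6)
          refine h1.congr_deriv ?_
          norm_num
        rw [hd.deriv]
        have := one_sub_sq_div_two_le_cos (x := t)
        nlinarith
    have h0 := hmono (mem_Ici.2 le_rfl) (mem_Ici.2 hy) hy
    simp only [sin_zero] at h0
    norm_num at h0
    linarith
  have key2 : ∀ y : ℝ, |y - sin y| ≤ |y| ^ 3 / 6 := by
    intro y
    rcases le_total 0 y with hy | hy
    · rw [abs_of_nonneg hy, abs_of_nonneg (by linarith [sin_le hy])]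
      exact key y hy
    · have h1 := key (-y) (by linarith)
      have h2 := sin_le (x := -y) (by linarith)
      rw [sin_neg] at h1 h2
      rw [abs_of_nonpos hy, abs_of_nonpos (by linarith)]
      linarith
  have h1 := key2 (2 * π * x)
  have e : x - ss x = (2 * π * x - sin (2 * π * x)) / (2 * π) := by
    rw [ss]; field_simp
  rw [e, abs_div, abs_of_pos (show (0 : ℝ) < 2 * π by positivity), div_le_iff₀ (by positivity)]
  refine h1.trans ?_
  have h2 : |2 * π * x| = 2 * π * |x| := by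
    rw [abs_mul, abs_of_pos (show (0 : ℝ) < 2 * π by positivity)]
  rw [h2, ← sq_abs x]
  have hx0 := abs_nonneg x
  have hπ2 : π ^ 2 ≤ 9.9225 := by nlinarith
  have h3 : (2 * π * |x|) ^ 3 / 6 = (4 * π ^ 2 / 6 * |x|) * (|x| ^ 2 * (2 * π)) := by ring
  rw [h3]
  have h4 : 4 * π ^ 2 / 6 * |x| ≤ 10 / 3 := by nlinarith
  calc (4 * π ^ 2 / 6 * |x|) * (|x| ^ 2 * (2 * π)) ≤ 10 / 3 * (|x| ^ 2 * (2 * π)) :=
        mul_le_mul_of_nonneg_right h4 (by positivity)
    _ = 10 / 3 * |x| ^ 2 * (2 * π) := by ring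

theorem sq_le_sin_sq {x : ℝ} (hx : |x| ≤ 1 / 2) : 4 * x ^ 2 ≤ sin (π * x) ^ 2 := by
  have hx0 := abs_nonneg x
  have h1 : 2 / π * (π * |x|) ≤ sin (π * |x|) :=
    mul_le_sin (by positivity) (by nlinarith [pi_pos])
  have h2 : 2 / π * (π * |x|) = 2 * |x| := by field_simp
  rw [h2] at h1
  have h3 : sin (π * x) ^ 2 = sin (π * |x|) ^ 2 := by
    rcases le_total 0 x with h | h
    · rw [abs_of_nonneg h]
    · rw [abs_of_nonpos h, mul_neg, sin_neg, neg_sq]
  rw [h3, ← sq_abs x]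
  have h4 := pow_le_pow_left₀ (by positivity) h1 2
  linarith [h4, mul_pow 2 |x| 2]

theorem abs_ss_le (x : ℝ) : |ss x| ≤ 1 / (2 * π) := by
  rw [ss, abs_div, abs_of_pos (show (0 : ℝ) < 2 * π by positivity)]
  exact div_le_div_of_nonneg_right (abs_sin_le_one _) (by positivity)
-- END l7

namespace Lev

variable {L : Lev}

/-- the slope at a critical solution -/
noncomputable def slope (L : Lev) (φ : ℝ) (u : ℝ → ℝ) : ℝ :=
  -(∫ t in (0 : ℝ)..L.q, om L u t * L.f1 φ t) / ∫ t in (0 : ℝ)..L.q, om L u t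

-- BEGIN l8
theorem abs_slope_le {φ lam : ℝ} {u : ℝ → ℝ} (h : L.Sol φ lam u)
    (h0 : ∫ t in (0 : ℝ)..L.q, VD (u t) = 0) : |slope L φ u| ≤ 6 * L.B * L.η ^ 2 := by
  have hpos := int_om_pos (L := L) h.cont
  have hs := int_om_small h h0 (L.dF1 φ) (L.cf1 φ)
    (by have := L.perF1 φ 0; rwa [zero_add] at this) (L.bF1 φ)
  unfold slope
  rw [abs_div, abs_neg, abs_of_pos hpos, div_le_iff₀ hpos]
  calc |∫ t in (0 : ℝ)..L.q, om L u t * L.f1 φ t|
      ≤ 6 * L.B * L.η * L.η * ∫ t in (0 : ℝ)..L.q, om L u t := hs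
    _ = 6 * L.B * L.η ^ 2 * ∫ t in (0 : ℝ)..L.q, om L u t := by ring

/-- (2.6) -/
theorem lower_bound {φ0 lam0 φ1 lam1 : ℝ} {u0 u1 : ℝ → ℝ} (h0 : L.Sol φ0 lam0 u0)
    (hz : ∫ t in (0 : ℝ)..L.q, VD (u0 t) = 0) (h1 : L.Sol φ1 lam1 u1)
    (hx : |φ1 - φ0| ≤ 1 / 2) :
    7 / 5 * L.B ≤ lam1 ∨ lam0 + slope L φ0 u0 * ss (φ1 - φ0) -
      6 * L.B * L.η ^ 2 * sin (π * (φ1 - φ0)) ^ 2 ≤ lam1 := by
  by_cases hbig : ∃ t, 1 < |u1 t|
  · obtain ⟨t, ht⟩ := hbig
    exact Or.inl (h1.lam_big ht)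
  right
  push Not at hbig
  have hq := L.hq
  have hB := L.hB
  have hη := L.hη
  have hη0 := L.hη0
  have hpos := int_om_pos (L := L) h0.cont
  have hom : Continuous (om L u0) :=
    continuous_iff_continuousAt.2 fun t => (hasDerivAt_om h0.cont t).continuousAt
  -- the right hand side of the comparison identity is nonnegative
  have hcmp := comparison h0 hz h1
  have hnn : 0 ≤ L.B * ∫ t in (0 : ℝ)..L.q,
      om L u0 t * (VV (u1 t) - VV (u0 t) - VD (u0 t) * (u1 t - u0 t)) := by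
    refine mul_nonneg hB.le (intervalIntegral.integral_nonneg hq.le fun t _ => ?_)
    refine mul_nonneg (om_pos u0 t).le (VV_tangent_nonneg (hbig t) ?_)
    have := h0.small hz t
    linarith
  -- the first order expansion
  have hg := int_om_small (c := L.η / 2 * (φ1 - φ0) ^ 2)
    (g := fun t => L.f φ1 t - L.f φ0 t - (φ1 - φ0) * L.f1 φ0 t)
    (G := fun t => L.F φ1 t - L.F φ0 t - (φ1 - φ0) * L.F1 φ0 t) h0 hz
    (fun t => ((L.dF φ1 t).sub (L.dF φ0 t)).sub ((L.dF1 φ0 t).const_mul _))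
    (((L.cf φ1).continuous.sub (L.cf φ0).continuous).sub (continuous_const.mul (L.cf1 φ0)))
    (by
      have e1 := L.perF φ1 0
      have e2 := L.perF φ0 0
      have e3 := L.perF1 φ0 0
      rw [zero_add] at e1 e2 e3
      simp only [e1, e2, e3])
    (fun t => L.tay φ0 φ1 t)
  have hsplit : (∫ t in (0 : ℝ)..L.q, om L u0 t * (L.f φ1 t - L.f φ0 t)) =
      (φ1 - φ0) * (∫ t in (0 : ℝ)..L.q, om L u0 t * L.f1 φ0 t) +
      ∫ t in (0 : ℝ)..L.q, om L u0 t * (L.f φ1 t - L.f φ0 t - (φ1 - φ0) * L.f1 φ0 t) := by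
    rw [← intervalIntegral.integral_const_mul, ← intervalIntegral.integral_add]
    · refine intervalIntegral.integral_congr fun t _ => ?_
      ring
    · exact (continuous_const.mul (hom.mul (L.cf1 φ0))).intervalIntegrable _ _
    · exact (hom.mul (((L.cf φ1).continuous.sub (L.cf φ0).continuous).sub
        (continuous_const.mul (L.cf1 φ0)))).intervalIntegrable _ _
  have hsl := abs_slope_le h0 hz
  have hslope : slope L φ0 u0 * (∫ t in (0 : ℝ)..L.q, om L u0 t) =
      -(∫ t in (0 : ℝ)..L.q, om L u0 t * L.f1 φ0 t) := by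
    unfold slope
    exact div_mul_cancel₀ _ hpos.ne'
  set Ω := ∫ t in (0 : ℝ)..L.q, om L u0 t with hΩ
  set I1 := ∫ t in (0 : ℝ)..L.q, om L u0 t * L.f1 φ0 t with hI1
  set I2 := ∫ t in (0 : ℝ)..L.q, om L u0 t * (L.f φ1 t - L.f φ0 t - (φ1 - φ0) * L.f1 φ0 t) with hI2
  set x := φ1 - φ0 with hxdef
  set S := slope L φ0 u0 with hS
  have hg' : I2 ≤ 3 * L.B * L.η ^ 2 * x ^ 2 * Ω := by
    have := (abs_le.1 hg).2
    calc I2 ≤ 6 * L.B * L.η * (L.η / 2 * x ^ 2) * Ω := this
      _ = 3 * L.B * L.η ^ 2 * x ^ 2 * Ω := by ring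
  rw [hsplit] at hcmp
  -- lam1 - lam0 ≥ S x - 3 B η² x²
  have key : S * x - 3 * L.B * L.η ^ 2 * x ^ 2 ≤ lam1 - lam0 := by
    have hI : I1 = -(S * Ω) := by linarith
    have : (S * x - 3 * L.B * L.η ^ 2 * x ^ 2) * Ω ≤ (lam1 - lam0) * Ω := by
      rw [hI] at hcmp
      nlinarith [hcmp, hnn, hg']
    exact le_of_mul_le_mul_right this hpos
  have h1' := sub_ss_le hx
  have h2' := sq_le_sin_sq hx
  have h3 : |S * (x - ss x)| ≤ 6 * L.B * L.η ^ 2 * (10 / 3 * x ^ 2) := by
    rw [abs_mul]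
    exact mul_le_mul hsl h1' (abs_nonneg _) (by positivity)
  have h4 := (abs_le.1 h3).1
  have h5 : 6 * L.B * L.η ^ 2 * (4 * x ^ 2) ≤ 6 * L.B * L.η ^ 2 * sin (π * x) ^ 2 :=
    mul_le_mul_of_nonneg_left h2' (by positivity)
  have h6 : 0 ≤ L.B * L.η ^ 2 * x ^ 2 := by positivity
  nlinarith [key, h4, h5, h6]
-- END l8

end Lev

end Pool.Agent.AnQ2
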