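import Mathlib
import Pool.Agent.AnQ2.Lev
import Pool.Agent.MP_1a349f_an.Ode

/-!
# Existence of a critical solution (page, (2.3))
-/

namespace Pool.Agent.AnQ2

open Set Filter Topology Real MeasureTheory
open scoped ContDiff NNReal


-- BEGIN x3
private theorem x3_unique {g : ℝ → ℝ → ℝ} {K : ℝ≥0} (hg : ∀ t, LipschitzWith K (g t))
    {u v : ℝ → ℝ} (hu : ∀ t, HasDerivAt u (g t (u t)) t)
    (hv : ∀ t, HasDerivAt v (g t (v t)) t) {s : ℝ} (h : u s = v s) : u = v :=
  ODE_solution_unique_univ (v := g) (s := fun _ => Set.univ) (K := K) (t₀ := s)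
    (fun t => (hg t).lipschitzOnWith) (fun t => ⟨hu t, mem_univ _⟩) (fun t => ⟨hv t, mem_univ _⟩) h

/-- two solutions of the same scalar equation with Lipschitz right side which are ordered at time
`0` are ordered for all times -/
theorem scalar_order {g : ℝ → ℝ → ℝ} {K : ℝ≥0} (hg : ∀ t, LipschitzWith K (g t))
    {u v : ℝ → ℝ} (hu : ∀ t, HasDerivAt u (g t (u t)) t)
    (hv : ∀ t, HasDerivAt v (g t (v t)) t) (h : u 0 < v 0) (t : ℝ) : u t < v t := by
  by_contra hc
  have hcu : Continuous u := continuous_iff_continuousAt.2 fun t => (hu t).continuousAt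
  have hcv : Continuous v := continuous_iff_continuousAt.2 fun t => (hv t).continuousAt
  have hcw : Continuous (fun t => v t - u t) := hcv.sub hcu
  have hpre : IsPreconnected (Set.univ : Set ℝ) := isPreconnected_univ
  obtain ⟨s, _, hs⟩ := hpre.intermediate_value (mem_univ t) (mem_univ 0) hcw.continuousOn
    (show (0 : ℝ) ∈ Icc (v t - u t) (v 0 - u 0) from ⟨by linarith [not_lt.1 hc], by linarith⟩)
  have hs' : u s = v s := by
    have : v s - u s = 0 := hs
    linarith
  have := x3_unique hg hu hv hs'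
  rw [this] at h
  exact lt_irrefl _ h

/-- uniqueness -/
theorem scalar_unique {g : ℝ → ℝ → ℝ} {K : ℝ≥0} (hg : ∀ t, LipschitzWith K (g t))
    {u v : ℝ → ℝ} (hu : ∀ t, HasDerivAt u (g t (u t)) t)
    (hv : ∀ t, HasDerivAt v (g t (v t)) t) {s : ℝ} (h : u s = v s) : u = v :=
  x3_unique hg hu hv h
-- END x3


-- BEGIN x5
/-- a solution over one period with equal values at the ends extends to a periodic one -/
theorem Lev.sol_of_return (L : Lev) {φ lam : ℝ} {u : ℝ → ℝ}
    (hu : ∀ t, HasDerivAt u (L.B * VV (u t) - L.f φ t - lam) t) (h : u L.q = u 0) :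
    L.Sol φ lam u := by
  refine ⟨hu, ?_⟩
  have hv : ∀ t, HasDerivAt (fun t => u (t + L.q))
      (L.B * VV (u (t + L.q)) - L.f φ t - lam) t := by
    intro t
    have h1 := (hu (t + L.q)).comp_add_const t L.q
    rw [L.per_f φ t] at h1
    exact h1
  have hK : ∀ t : ℝ, LipschitzWith (Real.toNNReal L.B)
      (fun y : ℝ => L.B * VV y - L.f φ t - lam) := by
    intro t
    refine LipschitzWith.of_dist_le_mul ?_
    intro x y
    rw [Real.dist_eq, Real.dist_eq, Real.coe_toNNReal _ L.hB.le]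
    have h2 : L.B * VV x - L.f φ t - lam - (L.B * VV y - L.f φ t - lam)
        = L.B * (VV x - VV y) := by ring
    rw [h2, abs_mul, abs_of_pos L.hB]
    exact mul_le_mul_of_nonneg_left (VV_lip x y) L.hB.le
  have h3 := scalar_unique (g := fun t y => L.B * VV y - L.f φ t - lam) hK
    (u := fun t => u (t + L.q)) (v := u) hv hu (s := 0) (by simpa using h)
  intro t
  exact congrFun h3 t
-- END x5


-- BEGIN x7
theorem x7_closed (q : ℝ) :
    IsClosed {u : BoundedContinuousFunction ℝ ℝ | ∀ t, u (t + q) = u t} := by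
  have h : {u : BoundedContinuousFunction ℝ ℝ | ∀ t, u (t + q) = u t} =
      ⋂ t : ℝ, {u : BoundedContinuousFunction ℝ ℝ | u (t + q) = u t} := by
    ext u
    simp
  rw [h]
  refine isClosed_iInter fun t => ?_
  exact isClosed_eq (continuous_eval_const (t + q)) (continuous_eval_const t)

/-- the Picard operator -/
noncomputable def x7_T (q B : ℝ) (G : ℝ → ℝ) (c : ℝ) (u : ℝ → ℝ) (t : ℝ) : ℝ :=
  c + B * (∫ s in (0 : ℝ)..t, VV (u s)) - t / q * (B * ∫ s in (0 : ℝ)..q, VV (u s)) -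
    (G t - G 0)

theorem x7_deriv {q B : ℝ} {G g : ℝ → ℝ} (hG : ∀ t, HasDerivAt G (g t) t) (c : ℝ)
    {u : ℝ → ℝ} (hu : Continuous u) (t : ℝ) :
    HasDerivAt (x7_T q B G c u)
      (B * VV (u t) - g t - (B * ∫ s in (0 : ℝ)..q, VV (u s)) / q) t := by
  have h1 : HasDerivAt (fun t => ∫ s in (0 : ℝ)..t, VV (u s)) (VV (u t)) t :=
    ((contDiff_VV.continuous.comp hu).integral_hasStrictDerivAt 0 t).hasDerivAt
  have h2 := ((h1.const_mul B).const_add c)
  have h3 : HasDerivAt (fun t : ℝ => t / q * (B * ∫ s in (0 : ℝ)..q, VV (u s)))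
      (1 / q * (B * ∫ s in (0 : ℝ)..q, VV (u s))) t :=
    ((hasDerivAt_id t).div_const q).mul_const _
  have h4 := (h2.sub h3).sub ((hG t).sub_const (G 0))
  have e : B * VV (u t) - 1 / q * (B * ∫ s in (0 : ℝ)..q, VV (u s)) - g t =
      B * VV (u t) - g t - (B * ∫ s in (0 : ℝ)..q, VV (u s)) / q := by ring
  rw [e] at h4
  exact h4

theorem x7_per {q B : ℝ} (hq : 0 < q) {G : ℝ → ℝ} (hG : ∀ t, G (t + q) = G t) (c : ℝ)
    {u : ℝ → ℝ} (hu : Continuous u) (hp : ∀ t, u (t + q) = u t) (t : ℝ) :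
    x7_T q B G c u (t + q) = x7_T q B G c u t := by
  have hc : Continuous fun s => VV (u s) := contDiff_VV.continuous.comp hu
  have hper : Function.Periodic (fun s => VV (u s)) q := fun s => by
    show VV (u (s + q)) = VV (u s)
    rw [hp]
  have h1 : ∫ s in (0 : ℝ)..(t + q), VV (u s) =
      (∫ s in (0 : ℝ)..t, VV (u s)) + ∫ s in (0 : ℝ)..q, VV (u s) := by
    rw [← intervalIntegral.integral_add_adjacent_intervals
      (hc.intervalIntegrable 0 t) (hc.intervalIntegrable t (t + q))]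
    congr 1
    have := hper.intervalIntegral_add_eq t 0
    rwa [zero_add] at this
  unfold x7_T
  rw [h1, hG, add_div, div_self hq.ne']
  ring

/-- the Picard operator on periodic functions -/
noncomputable def x7_TT {q B : ℝ} (hq : 0 < q) {G g : ℝ → ℝ} (hG : ∀ t, G (t + q) = G t)
    (hGd : ∀ t, HasDerivAt G (g t) t) (c : ℝ)
    (u : {u : BoundedContinuousFunction ℝ ℝ // ∀ t, u (t + q) = u t}) :
    {u : BoundedContinuousFunction ℝ ℝ // ∀ t, u (t + q) = u t} :=
  ⟨⟨⟨x7_T q B G c u.1, continuous_iff_continuousAt.2 fun t =>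
      (x7_deriv hGd c u.1.continuous t).continuousAt⟩,
    Metric.isBounded_range_iff.1 (Function.Periodic.isBounded_of_continuous
      (x7_per hq hG c u.1.continuous u.2) hq.ne' (continuous_iff_continuousAt.2 fun t =>
      (x7_deriv hGd c u.1.continuous t).continuousAt))⟩,
    x7_per hq hG c u.1.continuous u.2⟩

theorem x7_apply {q B : ℝ} (hq : 0 < q) {G g : ℝ → ℝ} (hG : ∀ t, G (t + q) = G t)
    (hGd : ∀ t, HasDerivAt G (g t) t) (c : ℝ)
    (u : {u : BoundedContinuousFunction ℝ ℝ // ∀ t, u (t + q) = u t}) (t : ℝ) :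
    (x7_TT (B := B) hq hG hGd c u).1 t = x7_T q B G c u.1 t := rfl

theorem x7_contr {q B : ℝ} (hq : 0 < q) (hB : 0 < B) (hBq : 4 * B * q ≤ 1)
    {G g : ℝ → ℝ} (hG : ∀ t, G (t + q) = G t)
    (hGd : ∀ t, HasDerivAt G (g t) t) (c : ℝ) :
    ContractingWith (1 / 2) (x7_TT (B := B) hq hG hGd c) := by
  refine ⟨by norm_num, LipschitzWith.of_dist_le_mul fun u v => ?_⟩
  show dist (x7_TT (B := B) hq hG hGd c u).1 (x7_TT (B := B) hq hG hGd c v).1 ≤
    ((1 / 2 : ℝ≥0) : ℝ) * dist u.1 v.1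
  set d := dist u.1 v.1 with hd
  have hd0 : 0 ≤ d := dist_nonneg
  rw [BoundedContinuousFunction.dist_le (by positivity)]
  have key : ∀ t ∈ Ico 0 q, |x7_T q B G c u.1 t - x7_T q B G c v.1 t| ≤ 1 / 2 * d := by
    intro t ht
    have hcu : Continuous fun s => VV (u.1 s) := contDiff_VV.continuous.comp u.1.continuous
    have hcv : Continuous fun s => VV (v.1 s) := contDiff_VV.continuous.comp v.1.continuous
    have hb : ∀ x, |VV (u.1 x) - VV (v.1 x)| ≤ d := by
      intro x
      refine (VV_lip _ _).trans ?_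
      rw [← Real.dist_eq]
      exact BoundedContinuousFunction.dist_coe_le_dist x
    have h1 : ∀ r, 0 ≤ r → r ≤ q →
        |(∫ s in (0 : ℝ)..r, VV (u.1 s)) - ∫ s in (0 : ℝ)..r, VV (v.1 s)| ≤ d * q := by
      intro r hr hrq
      rw [← intervalIntegral.integral_sub (hcu.intervalIntegrable 0 r)
        (hcv.intervalIntegrable 0 r)]
      have h2 := intervalIntegral.norm_integral_le_of_norm_le_const (a := 0) (b := r)
        (f := fun s => VV (u.1 s) - VV (v.1 s)) (C := d) (fun x _ => by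
          rw [Real.norm_eq_abs]; exact hb x)
      rw [Real.norm_eq_abs, sub_zero, abs_of_nonneg hr] at h2
      exact h2.trans (mul_le_mul_of_nonneg_left hrq hd0)
    have h2 := abs_le.1 (h1 t ht.1 ht.2.le)
    have h3 := abs_le.1 (h1 q hq.le le_rfl)
    have h4 : 0 ≤ t / q := div_nonneg ht.1 hq.le
    have h5 : t / q ≤ 1 := by
      rw [div_le_one hq]
      exact ht.2.le
    have e : x7_T q B G c u.1 t - x7_T q B G c v.1 t =
        B * ((∫ s in (0 : ℝ)..t, VV (u.1 s)) - ∫ s in (0 : ℝ)..t, VV (v.1 s)) -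
        t / q * (B * ((∫ s in (0 : ℝ)..q, VV (u.1 s)) - ∫ s in (0 : ℝ)..q, VV (v.1 s))) := by
      unfold x7_T
      ring
    rw [e]
    set I1 := (∫ s in (0 : ℝ)..t, VV (u.1 s)) - ∫ s in (0 : ℝ)..t, VV (v.1 s)
    set I2 := (∫ s in (0 : ℝ)..q, VV (u.1 s)) - ∫ s in (0 : ℝ)..q, VV (v.1 s)
    have a1 : |B * I1| ≤ B * (d * q) := by
      rw [abs_mul, abs_of_pos hB]
      exact mul_le_mul_of_nonneg_left (abs_le.2 h2) hB.le
    have a2 : |t / q * (B * I2)| ≤ B * (d * q) := by
      rw [abs_mul, abs_mul, abs_of_pos hB, abs_of_nonneg h4]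
      calc t / q * (B * |I2|) ≤ 1 * (B * (d * q)) := by
            refine mul_le_mul h5 (mul_le_mul_of_nonneg_left (abs_le.2 h3) hB.le)
              (by positivity) zero_le_one
        _ = B * (d * q) := one_mul _
    have a3 : |B * I1 - t / q * (B * I2)| ≤ |B * I1| + |t / q * (B * I2)| := abs_sub _ _
    have a4 : B * (d * q) = (B * q) * d := by ring
    have a5 : (B * q) * d ≤ 1 / 4 * d := mul_le_mul_of_nonneg_right (by linarith) hd0
    linarith
  intro t
  rw [Real.dist_eq, x7_apply, x7_apply]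
  have hp : Function.Periodic (fun t => x7_T q B G c u.1 t - x7_T q B G c v.1 t) q := by
    intro t
    show x7_T q B G c u.1 (t + q) - x7_T q B G c v.1 (t + q) = _
    rw [x7_per hq hG c u.1.continuous u.2, x7_per hq hG c v.1.continuous v.2]
  obtain ⟨s, hs, e⟩ := hp.exists_mem_Ico₀ hq t
  have e' : x7_T q B G c u.1 t - x7_T q B G c v.1 t =
    x7_T q B G c u.1 s - x7_T q B G c v.1 s := e
  rw [e']
  refine (key s hs).trans (le_of_eq ?_)
  norm_num

/-- (2.3) -/
theorem Lev.exists_crit (L : Lev) (φ : ℝ) : ∃ (lam : ℝ) (u : ℝ → ℝ), L.Sol φ lam u ∧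
    ∫ t in (0 : ℝ)..L.q, VD (u t) = 0 := by
  have hq := L.hq
  have hB := L.hB
  have hη := L.hη0
  have hη1 := L.hη
  have hBq : 4 * L.B * L.q ≤ 1 := by linarith [L.hBq]
  have : CompleteSpace {u : BoundedContinuousFunction ℝ ℝ // ∀ t, u (t + L.q) = u t} :=
    (x7_closed L.q).completeSpace_coe
  have : Nonempty {u : BoundedContinuousFunction ℝ ℝ // ∀ t, u (t + L.q) = u t} :=
    ⟨⟨0, fun _ => rfl⟩⟩
  have hcon := fun c : ℝ => x7_contr hq hB hBq (L.perF φ) (L.dF φ) c
  set U : ℝ → {u : BoundedContinuousFunction ℝ ℝ // ∀ t, u (t + L.q) = u t} :=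
    fun c => (hcon c).fixedPoint with hU
  have hfix : ∀ c, x7_TT (B := L.B) hq (L.perF φ) (L.dF φ) c (U c) = U c :=
    fun c => (hcon c).fixedPoint_isFixedPt
  have hval : ∀ c t, (U c).1 t = x7_T L.q L.B (L.F φ) c (U c).1 t := by
    intro c t
    have := congrArg (fun w : {u : BoundedContinuousFunction ℝ ℝ // ∀ t, u (t + L.q) = u t} =>
      w.1 t) (hfix c)
    exact this.symm
  have hlip : ∀ c c', dist (U c) (U c') ≤ 2 * |c - c'| := by
    intro c c'
    have h1 := (hcon c).fixedPoint_lipschitz_in_map (hcon c') (C := |c - c'|) ?_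
    · refine h1.trans (le_of_eq ?_)
      have e : (1 : ℝ) - ((1 / 2 : ℝ≥0) : ℝ) = 1 / 2 := by norm_num
      rw [e]
      ring
    · intro w
      show dist (x7_TT (B := L.B) hq (L.perF φ) (L.dF φ) c w).1
        (x7_TT (B := L.B) hq (L.perF φ) (L.dF φ) c' w).1 ≤ |c - c'|
      rw [BoundedContinuousFunction.dist_le (abs_nonneg _)]
      intro t
      rw [Real.dist_eq, x7_apply, x7_apply]
      apply le_of_eq
      congr 1
      unfold x7_T
      ring
  have hUc : Continuous U := by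
    refine LipschitzWith.continuous (K := 2) (LipschitzWith.of_dist_le_mul fun c c' => ?_)
    rw [Real.dist_eq]
    exact hlip c c'
  have hsol : ∀ c, L.Sol φ ((L.B * ∫ s in (0 : ℝ)..L.q, VV ((U c).1 s)) / L.q) (U c).1 := by
    intro c
    refine ⟨fun t => ?_, (U c).2⟩
    have h1 := x7_deriv (B := L.B) (q := L.q) (L.dF φ) c (U c).1.continuous t
    have e : x7_T L.q L.B (L.F φ) c (U c).1 = ⇑(U c).1 := by
      funext t
      exact (hval c t).symm
    rw [e] at h1
    exact h1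
  have hU0 : ∀ c, (U c).1 0 = c := by
    intro c
    rw [hval c 0]
    unfold x7_T
    simp
  have hΦ : Continuous fun c => ∫ t in (0 : ℝ)..L.q, VD ((U c).1 t) := by
    refine intervalIntegral.continuous_parametric_intervalIntegral_of_continuous' ?_ 0 L.q
    show Continuous fun p : ℝ × ℝ => VD ((U p.1).1 p.2)
    refine contDiff_VD.continuous.comp ?_
    exact (continuous_subtype_val.comp (hUc.comp continuous_fst)).eval continuous_snd
  have hpos : 0 ≤ ∫ t in (0 : ℝ)..L.q, VD ((U (1 / 4)).1 t) := by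
    refine intervalIntegral.integral_nonneg hq.le fun t _ => ?_
    have h1 := (abs_le.1 (Lev.Sol.osc (hsol (1 / 4)) t 0)).1
    rw [hU0] at h1
    exact (VD_pos (by linarith)).le
  have hneg : ∫ t in (0 : ℝ)..L.q, VD ((U (-(1 / 4))).1 t) ≤ 0 := by
    have h2 : 0 ≤ ∫ t in (0 : ℝ)..L.q, - VD ((U (-(1 / 4))).1 t) := by
      refine intervalIntegral.integral_nonneg hq.le fun t _ => ?_
      have h1 := (abs_le.1 (Lev.Sol.osc (hsol (-(1 / 4))) t 0)).2
      rw [hU0] at h1
      have := VD_neg (u := (U (-(1 / 4))).1 t) (by linarith)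
      linarith
    rw [intervalIntegral.integral_neg] at h2
    linarith
  obtain ⟨c, hc⟩ := mem_range_of_exists_le_of_exists_ge hΦ ⟨-(1 / 4), hneg⟩ ⟨1 / 4, hpos⟩
  exact ⟨_, (U c).1, hsol c, hc⟩
-- END x7

end Pool.Agent.AnQ2
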