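import Mathlib
import Pool.Agent.AnQ2.LevEx
import Pool.Agent.AnQ2.Fej

/-!
# The interpolated drift and the closed orbits of one level (page, (2.8), (2.9))
-/

namespace Pool.Agent.AnQ2

open Set Filter Topology Real MeasureTheory
open scoped ContDiff

namespace Lev

variable (L : Lev)

/-- the critical drift at `φ` -/
noncomputable def cl (φ : ℝ) : ℝ := (L.exists_crit φ).choose

/-- the critical solution at `φ` -/
noncomputable def cu (φ : ℝ) : ℝ → ℝ := (L.exists_crit φ).choose_spec.choose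

theorem cu_sol (φ : ℝ) : L.Sol φ (L.cl φ) (L.cu φ) := (L.exists_crit φ).choose_spec.choose_spec.1

theorem cu_zero (φ : ℝ) : ∫ t in (0 : ℝ)..L.q, VD (L.cu φ t) = 0 :=
  (L.exists_crit φ).choose_spec.choose_spec.2

/-- the interpolation of the critical drifts and slopes at the nodes `j / k` -/
noncomputable def HH (k : ℕ) (x : ℝ) : ℝ := ∑ j ∈ Finset.range k,
  fej k (x - j / k) * (L.cl (j / k) + slope L (j / k) (L.cu (j / k)) * ss (x - j / k))

noncomputable def AA (k : ℕ) : ℝ := ∫ x in (0 : ℝ)..1, L.HH k x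

/-- the drift function of the level -/
noncomputable def Lam (k : ℕ) (x : ℝ) : ℝ := L.HH k x - 2 * L.AA k * sin (π * k * x) ^ 2

variable {L}

-- BEGIN m1
theorem cl_bounds (φ : ℝ) : L.B ≤ L.cl φ ∧ L.cl φ ≤ 11 / 10 * L.B := by
  refine ⟨(L.cu_sol φ).lam_ge, ?_⟩
  have h1 := (L.cu_sol φ).lam_small (L.cu_zero φ)
  have h2 : 9 * L.η ^ 2 ≤ 1 / 10 := by
    have h3 := L.hη
    have h4 := L.hη0
    nlinarith
  have h5 : (1 + 9 * L.η ^ 2) * L.B ≤ (1 + 1 / 10) * L.B :=
    mul_le_mul_of_nonneg_right (by linarith) L.hB.le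
  linarith

theorem slope_bound (φ : ℝ) : |slope L φ (L.cu φ)| ≤ L.B / 100 := by
  have h1 := abs_slope_le (L.cu_sol φ) (L.cu_zero φ)
  have h2 : 6 * L.η ^ 2 ≤ 1 / 100 := by
    have h3 := L.hη
    have h4 := L.hη0
    nlinarith
  have h5 : (6 * L.η ^ 2) * L.B ≤ 1 / 100 * L.B :=
    mul_le_mul_of_nonneg_right h2 L.hB.le
  calc |slope L φ (L.cu φ)| ≤ 6 * L.B * L.η ^ 2 := h1
    _ = (6 * L.η ^ 2) * L.B := by ring
    _ ≤ 1 / 100 * L.B := h5
    _ = L.B / 100 := by ring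

theorem m1_ss (x : ℝ) : |ss x| ≤ 1 := by
  refine (abs_ss_le x).trans ?_
  have h1 := Real.pi_gt_three
  rw [div_le_one (by positivity)]
  linarith

theorem m1_term (φ y : ℝ) : L.cl φ + slope L φ (L.cu φ) * ss y ≤ 6 / 5 * L.B := by
  have h1 := (L.cl_bounds φ).2
  have h2 : |slope L φ (L.cu φ) * ss y| ≤ L.B / 100 * 1 := by
    rw [abs_mul]
    exact mul_le_mul (slope_bound φ) (m1_ss y) (abs_nonneg _) (by have := L.hB; positivity)
  have h3 := (abs_le.1 h2).2
  have h4 := L.hB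
  linarith

theorem HH_lt {k : ℕ} (hk : 1 ≤ k) (x : ℝ) : L.HH k x < 7 / 5 * L.B := by
  have h1 : L.HH k x ≤ ∑ j ∈ Finset.range k, fej k (x - j / k) * (6 / 5 * L.B) := by
    unfold HH
    exact Finset.sum_le_sum fun j _ => mul_le_mul_of_nonneg_left (m1_term _ _) (fej_nonneg _ _)
  rw [← Finset.sum_mul, fej_sum hk x, one_mul] at h1
  have h4 := L.hB
  linarith

theorem m1_TQ (φ a : ℝ) : TQ 1 (2 * L.B)
    (fun x => L.cl φ + slope L φ (L.cu φ) * ss (x - a)) := by
  have h1 : TQ 1 |L.cl φ| (fun _ => L.cl φ) := (TQ.const _).mono (by norm_num) le_rfl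
  have h2 : TQ 1 (|slope L φ (L.cu φ) / (2 * π)| * 1)
      (fun x => slope L φ (L.cu φ) / (2 * π) * Real.sin (2 * π * (1 : ℕ) * (x - a))) :=
    (TQ.sin 1 a).smul _
  have h3 := h1.add h2
  have h4 : (fun x => L.cl φ + slope L φ (L.cu φ) / (2 * π) *
      Real.sin (2 * π * (1 : ℕ) * (x - a))) =
      fun x => L.cl φ + slope L φ (L.cu φ) * ss (x - a) := by
    funext x
    unfold ss
    push_cast
    rw [mul_one]
    ring
  rw [h4] at h3
  refine h3.mono le_rfl ?_
  have h5 := L.cl_bounds φ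
  have h6 := slope_bound (L := L) φ
  have h7 := L.hB
  have h8 := Real.pi_gt_three
  have h9 : |slope L φ (L.cu φ) / (2 * π)| ≤ L.B / 100 := by
    rw [abs_div, abs_of_pos (by positivity : (0 : ℝ) < 2 * π), div_le_iff₀ (by positivity)]
    refine h6.trans ?_
    have : L.B / 100 * 1 ≤ L.B / 100 * (2 * π) :=
      mul_le_mul_of_nonneg_left (by linarith) (by positivity)
    linarith
  rw [abs_of_pos (by linarith : (0 : ℝ) < L.cl φ), mul_one]
  linarith

theorem HH_TQ {k : ℕ} (hk : 1 ≤ k) : TQ k (2 * k * L.B) (L.HH k) := by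
  have h1 : ∀ j < k, TQ k (2 * L.B) (fun x => fej k (x - j / k) *
      (L.cl (j / k) + slope L (j / k) (L.cu (j / k)) * ss (x - j / k))) := by
    intro j _
    have h2 := ((fej_TQ hk).shift ((j : ℝ) / k)).mul (m1_TQ (L := L) ((j : ℝ) / k) ((j : ℝ) / k))
      zero_le_one
    refine h2.mono (by omega) (by linarith)
  have h3 := TQ.sum k (g := fun (j : ℕ) (x : ℝ) => fej k (x - j / k) *
      (L.cl (j / k) + slope L (j / k) (L.cu (j / k)) * ss (x - j / k))) h1
  refine TQ.mono h3 le_rfl (le_of_eq (by ring))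

theorem HH_node {k j : ℕ} (hj : j < k) : L.HH k (j / k) = L.cl (j / k) := by
  unfold HH
  rw [Finset.sum_eq_single j]
  · rw [sub_self, fej_zero (by omega), one_mul]
    simp [ss]
  · intro i hi hij
    rw [fej_node hj (Finset.mem_range.1 hi) (Ne.symm hij), zero_mul]
  · intro h
    exact absurd (Finset.mem_range.2 hj) h
-- END m1

-- BEGIN m2
private theorem m2_cont {k : ℕ} (hk : 1 ≤ k) : Continuous (L.HH k) :=
  (HH_TQ hk).contDiff.continuous

private theorem m2_lower {k : ℕ} (hk : 1 ≤ k) (x : ℝ) : L.B / 2 ≤ L.HH k x := by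
  have hB := L.hB
  unfold HH
  have h1 : L.B / 2 = ∑ j ∈ Finset.range k, fej k (x - j / k) * (L.B / 2) := by
    rw [← Finset.sum_mul, fej_sum hk, one_mul]
  rw [h1]
  refine Finset.sum_le_sum ?_
  intro j _
  refine mul_le_mul_of_nonneg_left ?_ (fej_nonneg _ _)
  have h2 := (cl_bounds (L := L) ((j : ℝ) / k)).1
  have h3 := slope_bound (L := L) ((j : ℝ) / k)
  have h4 := abs_ss_le (x - (j : ℝ) / k)
  have h5 : 1 / (2 * π) ≤ 1 := by
    rw [div_le_one (by positivity)]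
    have := Real.pi_gt_three
    linarith
  have h6 : |slope L ((j : ℝ) / k) (L.cu ((j : ℝ) / k)) * ss (x - (j : ℝ) / k)| ≤
      L.B / 100 * 1 := by
    rw [abs_mul]
    exact mul_le_mul h3 (h4.trans h5) (abs_nonneg _) (by positivity)
  have h7 := (abs_le.1 h6).1
  linarith

theorem AA_ge {k : ℕ} (hk : 1 ≤ k) : L.B / 2 ≤ L.AA k := by
  unfold AA
  have h1 : ∫ _ in (0 : ℝ)..1, L.B / 2 = L.B / 2 := by simp
  rw [← h1]
  exact intervalIntegral.integral_mono_on (by norm_num) intervalIntegrable_const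
    ((m2_cont hk).intervalIntegrable _ _) (fun x _ => m2_lower hk x)

theorem AA_le {k : ℕ} (hk : 1 ≤ k) : L.AA k ≤ 7 / 5 * L.B := by
  unfold AA
  have h1 : ∫ _ in (0 : ℝ)..1, 7 / 5 * L.B = 7 / 5 * L.B := by simp
  rw [← h1]
  exact intervalIntegral.integral_mono_on (by norm_num)
    ((m2_cont hk).intervalIntegrable _ _) intervalIntegrable_const (fun x _ => (HH_lt hk x).le)

private theorem m2_eq (k : ℕ) (x : ℝ) :
    L.Lam k x = L.HH k x + -L.AA k + L.AA k * Real.cos (2 * π * k * (x - 0)) := by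
  unfold Lam
  have h1 : 2 * π * k * (x - 0) = 2 * (π * k * x) := by ring
  rw [h1, Real.cos_two_mul, Real.cos_sq']
  ring

private theorem m2_cos {k : ℕ} (hk : 1 ≤ k) :
    ∫ x in (0 : ℝ)..1, Real.cos (2 * π * k * (x - 0)) = 0 := by
  have hk' : (k : ℝ) ≠ 0 := by
    have : 0 < k := hk
    positivity
  have hc : (2 * π * k : ℝ) ≠ 0 := by
    have := Real.pi_ne_zero
    positivity
  have h1 : ∀ x ∈ Set.uIcc (0 : ℝ) 1, HasDerivAt
      (fun x => Real.sin (2 * π * k * (x - 0)) / (2 * π * k)) (Real.cos (2 * π * k * (x - 0))) x := by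
    intro x _
    have h2 : HasDerivAt (fun x : ℝ => 2 * π * k * (x - 0)) (2 * π * k) x := by
      simpa using ((hasDerivAt_id x).sub_const 0).const_mul (2 * π * k)
    have h3 := (h2.sin).div_const (2 * π * k)
    refine h3.congr_deriv ?_
    field_simp
  have hcont : Continuous (fun x : ℝ => Real.cos (2 * π * k * (x - 0))) := by fun_prop
  rw [intervalIntegral.integral_eq_sub_of_hasDerivAt h1 (hcont.intervalIntegrable _ _)]
  have h4 : 2 * π * k * ((1 : ℝ) - 0) = ((2 * k : ℕ) : ℝ) * π := by push_cast; ring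
  rw [h4, Real.sin_nat_mul_pi]
  simp

theorem Lam_TP {k : ℕ} (hk : 1 ≤ k) : TP k (8 * k * L.B) (L.Lam k) := by
  have hB := L.hB
  have hk1 : (1 : ℝ) ≤ k := by exact_mod_cast hk
  have hA0 : 0 ≤ L.AA k := le_trans (by positivity) (AA_ge hk)
  have h1 := HH_TQ (L := L) hk
  have h2 : TQ k |-L.AA k| (fun _ => -L.AA k) := (TQ.const (-L.AA k)).mono (Nat.zero_le _) le_rfl
  have h3 := (TQ.cos k 0).smul (L.AA k)
  have h4 := (h1.add h2).add h3
  have hfun : (fun x => L.HH k x + -L.AA k + L.AA k * Real.cos (2 * π * k * (x - 0))) =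
      L.Lam k := by
    funext x
    exact (m2_eq k x).symm
  rw [hfun] at h4
  have h5 : TQ k (8 * k * L.B) (L.Lam k) := by
    refine h4.mono le_rfl ?_
    rw [abs_neg, abs_of_nonneg hA0, mul_one]
    have h6 := AA_le (L := L) hk
    have h7 : L.B ≤ k * L.B := by nlinarith
    nlinarith
  refine h5.toTP ?_
  have h8 : ∫ x in (0 : ℝ)..1, L.Lam k x =
      ∫ x in (0 : ℝ)..1, (L.HH k x + -L.AA k + L.AA k * Real.cos (2 * π * k * (x - 0))) := by
    refine intervalIntegral.integral_congr ?_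
    intro x _
    exact m2_eq k x
  have hcont : Continuous (fun x : ℝ => L.AA k * Real.cos (2 * π * k * (x - 0))) := by fun_prop
  have hcont2 : Continuous (fun x : ℝ => L.HH k x + -L.AA k) := (m2_cont hk).add continuous_const
  rw [h8, intervalIntegral.integral_add (hcont2.intervalIntegrable _ _)
    (hcont.intervalIntegrable _ _), intervalIntegral.integral_add
    ((m2_cont hk).intervalIntegrable _ _) intervalIntegrable_const,
    intervalIntegral.integral_const_mul, m2_cos hk]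
  simp [AA]

theorem Lam_node {k j : ℕ} (hj : j < k) : L.Lam k (j / k) = L.cl (j / k) := by
  have hk : (k : ℝ) ≠ 0 := by
    have : 0 < k := by omega
    positivity
  unfold Lam
  have h1 : π * k * ((j : ℝ) / k) = j * π := by
    field_simp
  rw [HH_node hj, h1, Real.sin_nat_mul_pi]
  simp

theorem Lam_per {k : ℕ} (hk : 1 ≤ k) (x : ℝ) (n : ℤ) : L.Lam k (x + n) = L.Lam k x :=
  (Lam_TP (L := L) hk).toTQ.per x n
-- END m2

-- BEGIN m3
private theorem m3_ss (x : ℝ) (N : ℤ) : ss (x - N) = ss x := by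
  unfold ss
  have : 2 * π * (x - N) = 2 * π * x - N * (2 * π) := by ring
  rw [this, Real.sin_sub_int_mul_two_pi]

private theorem m3_sin (x : ℝ) (N : ℤ) : sin (x - N * π) ^ 2 = sin x ^ 2 := by
  rw [Real.sin_sub_int_mul_pi, mul_pow]
  have : ((-1 : ℝ) ^ N) ^ 2 = 1 := by
    rw [← zpow_natCast, ← zpow_mul, mul_comm, zpow_mul]
    simp
  rw [this, one_mul]

/-- the averaged lower bound -/
theorem lam_ge_HH {k : ℕ} (hk : 1 ≤ k) {φ lam : ℝ} {u : ℝ → ℝ} (h : L.Sol φ lam u)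
    (hl : lam < 7 / 5 * L.B) :
    L.HH k φ - 6 * L.B * L.η ^ 2 * sin (π * k * φ) ^ 2 / k ≤ lam := by
  have hk0 : (0 : ℝ) < k := by exact_mod_cast hk
  have key : ∀ j : ℕ, L.cl (j / k) + slope L (j / k) (L.cu (j / k)) * ss (φ - j / k) -
      6 * L.B * L.η ^ 2 * sin (π * (φ - j / k)) ^ 2 ≤ lam := by
    intro j
    set N : ℤ := round (φ - j / k) with hN
    have hx : |(φ - N) - (j : ℝ) / k| ≤ 1 / 2 := by
      have := abs_sub_round (φ - (j : ℝ) / k)
      rw [← hN] at this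
      rw [show (φ - N) - (j : ℝ) / k = φ - j / k - N by ring]
      exact this
    rcases lower_bound (L.cu_sol (j / k)) (L.cu_zero (j / k)) (h.shift_int N) hx with h1 | h1
    · exact absurd hl (not_lt.mpr h1)
    · have e1 : φ - (N : ℝ) - j / k = φ - j / k - N := by ring
      rw [e1, m3_ss, show π * (φ - j / k - (N : ℝ)) = π * (φ - j / k) - N * π by ring,
        m3_sin] at h1
      exact h1
  have hsum : ∑ j ∈ Finset.range k, fej k (φ - j / k) *
      (L.cl (j / k) + slope L (j / k) (L.cu (j / k)) * ss (φ - j / k) -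
        6 * L.B * L.η ^ 2 * sin (π * (φ - j / k)) ^ 2) ≤
      ∑ j ∈ Finset.range k, fej k (φ - j / k) * lam :=
    Finset.sum_le_sum fun j _ => mul_le_mul_of_nonneg_left (key j) (fej_nonneg k _)
  rw [← Finset.sum_mul, fej_sum hk, one_mul] at hsum
  have hsin : ∀ j : ℕ, fej k (φ - j / k) * sin (π * (φ - j / k)) ^ 2 =
      sin (π * k * φ) ^ 2 / (k : ℝ) ^ 2 := by
    intro j
    rw [fej_mul_sin hk]
    have e : π * k * (φ - j / k) = π * k * φ - ((j : ℕ) : ℤ) * π := by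
      push_cast
      field_simp
    rw [e, m3_sin]
  have hexp : ∑ j ∈ Finset.range k, fej k (φ - j / k) *
      (L.cl (j / k) + slope L (j / k) (L.cu (j / k)) * ss (φ - j / k) -
        6 * L.B * L.η ^ 2 * sin (π * (φ - j / k)) ^ 2) =
      L.HH k φ - 6 * L.B * L.η ^ 2 * sin (π * k * φ) ^ 2 / k := by
    have e : ∀ j ∈ Finset.range k, fej k (φ - j / k) *
      (L.cl (j / k) + slope L (j / k) (L.cu (j / k)) * ss (φ - j / k) -
        6 * L.B * L.η ^ 2 * sin (π * (φ - j / k)) ^ 2) =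
      fej k (φ - j / k) * (L.cl (j / k) + slope L (j / k) (L.cu (j / k)) * ss (φ - j / k)) -
        6 * L.B * L.η ^ 2 * (sin (π * k * φ) ^ 2 / (k : ℝ) ^ 2) := by
      intro j _
      rw [← hsin j]
      ring
    rw [Finset.sum_congr rfl e, Finset.sum_sub_distrib, Finset.sum_const, Finset.card_range,
      nsmul_eq_mul]
    unfold HH
    congr 1
    field_simp
  rw [hexp] at hsum
  exact hsum
-- END m3

-- BEGIN m4
/-- closed orbits sit over the nodes -/
theorem sol_node {k : ℕ} (hk : 1 ≤ k) {φ : ℝ} {u : ℝ → ℝ} (h : L.Sol φ (L.Lam k φ) u) :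
    ∃ j : ℤ, k * φ = j := by
  have hB := L.hB
  have hA : L.B / 2 ≤ L.AA k := AA_ge hk
  have hH : L.HH k φ < 7 / 5 * L.B := HH_lt hk φ
  have hs0 : 0 ≤ sin (π * k * φ) ^ 2 := sq_nonneg _
  have hLam : L.Lam k φ = L.HH k φ - 2 * L.AA k * sin (π * k * φ) ^ 2 := rfl
  have h1 : 0 ≤ L.AA k * sin (π * k * φ) ^ 2 := mul_nonneg (by linarith) hs0
  have hl : L.Lam k φ < 7 / 5 * L.B := by
    rw [hLam]
    linarith
  have h2 := lam_ge_HH hk h hl
  have hk1 : (1 : ℝ) ≤ k := by exact_mod_cast hk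
  have h3 : 6 * L.B * L.η ^ 2 * sin (π * k * φ) ^ 2 / k ≤
      6 * L.B * L.η ^ 2 * sin (π * k * φ) ^ 2 :=
    div_le_self (by positivity) hk1
  have hη2 : L.η ^ 2 ≤ 1 / 10000 := by
    have h4 := L.hη0
    have h5 := L.hη
    nlinarith
  have h6 : 6 * L.B * L.η ^ 2 * sin (π * k * φ) ^ 2 ≤ L.B / 100 * sin (π * k * φ) ^ 2 := by
    apply mul_le_mul_of_nonneg_right _ hs0
    nlinarith
  have h7 : L.B / 2 * sin (π * k * φ) ^ 2 ≤ L.AA k * sin (π * k * φ) ^ 2 :=
    mul_le_mul_of_nonneg_right hA hs0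
  have h8 : L.B * sin (π * k * φ) ^ 2 ≤ 0 := by
    rw [hLam] at h2
    nlinarith
  have h9 : sin (π * k * φ) ^ 2 ≤ 0 := by
    by_contra hc
    have := mul_pos hB (not_le.1 hc)
    linarith
  have h10 : sin (π * k * φ) = 0 := by
    have : sin (π * k * φ) ^ 2 = 0 := le_antisymm h9 hs0
    exact pow_eq_zero_iff (two_ne_zero) |>.1 this
  obtain ⟨j, hj⟩ := Real.sin_eq_zero_iff.1 h10
  refine ⟨j, ?_⟩
  have h11 : π * ((k : ℝ) * φ - j) = 0 := by linear_combination -hj
  rcases mul_eq_zero.1 h11 with h12 | h12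
  · exact absurd h12 Real.pi_ne_zero
  · linarith

/-- over a node there is a solution, it is unique and critical -/
theorem node_exists {k : ℕ} (hk : 1 ≤ k) (j : ℤ) :
    ∃ u, L.Sol (j / k) (L.Lam k (j / k)) u ∧ ∫ t in (0 : ℝ)..L.q, VD (u t) = 0 := by
  have hk0 : (0 : ℤ) < k := by exact_mod_cast hk
  obtain ⟨i, hi⟩ : ∃ i : ℕ, (i : ℤ) = j % k :=
    ⟨(j % k).toNat, Int.toNat_of_nonneg (Int.emod_nonneg _ hk0.ne')⟩
  have hik : i < k := by
    have := Int.emod_lt_of_pos j hk0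
    omega
  have hj : (j : ℤ) = i + k * (j / k) := by
    have := Int.emod_add_mul_ediv j k
    omega
  obtain ⟨N, hN⟩ : ∃ N : ℤ, N = j / k := ⟨_, rfl⟩
  rw [← hN] at hj
  have hkR : (k : ℝ) ≠ 0 := by
    have : (0 : ℝ) < k := by exact_mod_cast hk
    exact this.ne'
  have hjR : (j : ℝ) / k = (i : ℝ) / k + N := by
    have : (j : ℝ) = i + k * N := by exact_mod_cast hj
    rw [this]
    field_simp
  rw [hjR, Lam_per hk, Lam_node hik]
  have h1 := (L.cu_sol ((i : ℝ) / k)).shift_int (-N)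
  have h2 : (i : ℝ) / k - ((-N : ℤ) : ℝ) = (i : ℝ) / k + N := by
    push_cast
    ring
  rw [h2] at h1
  refine ⟨_, h1, ?_⟩
  rw [(L.cu_sol ((i : ℝ) / k)).int_shift]
  exact L.cu_zero _
-- END m4

-- BEGIN m5
/-- (2.9), summary -/
theorem main (L : Lev) {k : ℕ} (hk : 1 ≤ k) : ∃ Lm : ℝ → ℝ, TP k (8 * k * L.B) Lm ∧
    (∀ j : ℤ, ∃ u, L.Sol (j / k) (Lm (j / k)) u) ∧
    ∀ φ u, L.Sol φ (Lm φ) u → (∃ j : ℤ, k * φ = j) ∧ (∫ t in (0 : ℝ)..L.q, VD (u t) = 0) ∧
      ∀ u', L.Sol φ (Lm φ) u' → u' = u := by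
  refine ⟨L.Lam k, Lam_TP hk, fun j => ?_, fun φ u h => ?_⟩
  · obtain ⟨u, hu, _⟩ := node_exists (L := L) hk j
    exact ⟨u, hu⟩
  · obtain ⟨j, hj⟩ := sol_node hk h
    have hk0 : (k : ℝ) ≠ 0 := by
      have : (0 : ℝ) < k := by exact_mod_cast (lt_of_lt_of_le Nat.zero_lt_one hk)
      exact this.ne'
    have hφ : φ = (j : ℝ) / k := by
      rw [eq_div_iff hk0, ← hj]
      ring
    subst hφ
    obtain ⟨u0, hu0, hz⟩ := node_exists (L := L) hk j
    have e := unique_crit hu0 hz h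
    refine ⟨⟨j, hj⟩, ?_, fun u' h' => ?_⟩
    · rw [e]
      exact hz
    · rw [e]
      exact unique_crit hu0 hz h'
-- END m5

end Lev

end Pool.Agent.AnQ2
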