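import Mathlib

/-!
# The numbers of the construction (page, section 0)

`aa n` are the exponents, `qq n = 10 ^ aa n`, `kk n = 3 ^ (qq n) ^ 6`, `tt n = 10 ^ (-aa n)`,
`rn n = p_n / q_n` the convergents, `rho` their limit, `sg n = 10 (rho - rn n)` the resonant levels.
-/

namespace Pool.Agent.AnQ2

open Set Filter Topology Real

theorem exists_aa : ∃ a : ℕ → ℕ, a 0 = 1 ∧
    ∀ n, a (n + 1) = 1000 * (n + 1) * 3 ^ ((10 ^ a n) ^ 6) * 10 ^ a n * a n :=
  ⟨fun n => Nat.rec 1 (fun n b => 1000 * (n + 1) * 3 ^ ((10 ^ b) ^ 6) * 10 ^ b * b) n,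
    rfl, fun _ => rfl⟩

noncomputable def aa : ℕ → ℕ := exists_aa.choose

noncomputable def qq (n : ℕ) : ℕ := 10 ^ aa n

noncomputable def kk (n : ℕ) : ℕ := 3 ^ (qq n ^ 6)

theorem aa_zero : aa 0 = 1 := exists_aa.choose_spec.1

theorem aa_succ (n : ℕ) : aa (n + 1) = 1000 * (n + 1) * kk n * qq n * aa n :=
  exists_aa.choose_spec.2 n

/-- `10 ^ (-a_n)` -/
noncomputable def tt (n : ℕ) : ℝ := (1 / 10 : ℝ) ^ aa n

/-- the convergents `p_n / q_n` -/
noncomputable def rn (n : ℕ) : ℝ := ∑ i ∈ Finset.range (n + 1), tt i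

/-- the numerators -/
noncomputable def pp (n : ℕ) : ℕ := ∑ i ∈ Finset.range (n + 1), 10 ^ (aa n - aa i)

noncomputable def rho : ℝ := ∑' i, tt i

/-- the resonant levels -/
noncomputable def sg (n : ℕ) : ℝ := 10 * (rho - rn n)

noncomputable def BB (n : ℕ) : ℝ := sg n ^ 2

noncomputable def zt (m : ℕ) (s : ℝ) : ℝ := ∏ i ∈ Finset.range m, (s - sg i) ^ 2

/-- the bound of the coefficient sum of the `n`-th trigonometric polynomial -/
noncomputable def NN (n : ℕ) : ℝ := 8 * kk n * BB n / zt n (sg n)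

/-- the detuning of the `m`-th phase at level `n` -/
noncomputable def dl (m n : ℕ) : ℝ := qq m * (rn n - rn m)

-- BEGIN n1
theorem aa_pos (n : ℕ) : 1 ≤ aa n := by
  induction n with
  | zero => rw [aa_zero]
  | succ n ih =>
    rw [aa_succ]
    have h1 : 0 < kk n := by unfold kk; positivity
    have h2 : 0 < qq n := by unfold qq; positivity
    have : 0 < 1000 * (n + 1) * kk n * qq n * aa n := by positivity
    omega

theorem qq_pos (n : ℕ) : 10 ≤ qq n := by
  unfold qq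
  calc 10 = 10 ^ 1 := by norm_num
    _ ≤ 10 ^ aa n := Nat.pow_le_pow_right (by norm_num) (aa_pos n)

theorem kk_pos (n : ℕ) : 3 ≤ kk n := by
  unfold kk
  have h : 1 ≤ qq n ^ 6 := Nat.one_le_pow _ _ (by have := qq_pos n; omega)
  calc 3 = 3 ^ 1 := by norm_num
    _ ≤ 3 ^ (qq n ^ 6) := Nat.pow_le_pow_right (by norm_num) h

theorem aa_lt_succ (n : ℕ) : 1000 * aa n ≤ aa (n + 1) := by
  rw [aa_succ]
  have h1 : 1 ≤ kk n := by have := kk_pos n; omega
  have h2 : 1 ≤ qq n := by have := qq_pos n; omega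
  have h3 : 1 ≤ (n + 1) * kk n * qq n := Nat.mul_pos (Nat.mul_pos (Nat.succ_pos n) h1) h2
  calc 1000 * aa n = 1000 * 1 * aa n := by ring
    _ ≤ 1000 * ((n + 1) * kk n * qq n) * aa n := by gcongr
    _ = 1000 * (n + 1) * kk n * qq n * aa n := by ring

theorem aa_strictMono : StrictMono aa :=
  strictMono_nat_of_lt_succ fun n => by
    have h1 := aa_lt_succ n
    have h2 := aa_pos n
    omega

theorem le_aa (n : ℕ) : n + 1 ≤ aa n := by
  induction n with
  | zero => exact aa_pos 0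
  | succ n ih =>
    have h1 := aa_lt_succ n
    omega

theorem qq_mono {m n : ℕ} (h : m ≤ n) : qq m ≤ qq n := by
  unfold qq
  exact Nat.pow_le_pow_right (by norm_num) (aa_strictMono.monotone h)

theorem succ_le_qq (n : ℕ) : n + 1 ≤ qq n := by
  unfold qq
  exact (le_aa n).trans (Nat.lt_pow_self (by norm_num)).le

theorem tt_eq (n : ℕ) : tt n = 1 / (qq n : ℝ) := by
  unfold tt qq
  rw [one_div_pow]
  push_cast
  rfl

theorem tt_pos (n : ℕ) : 0 < tt n := by
  unfold tt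
  positivity
-- END n1

-- BEGIN n2
/-- the tail is dominated by its first term -/
theorem tt_succ_le (n : ℕ) : tt (n + 1) ≤ tt n / 10 := by
  have h : tt n / 10 = (1 / 10 : ℝ) ^ (aa n + 1) := by
    unfold tt
    rw [pow_succ]
    ring
  rw [h]
  unfold tt
  exact pow_le_pow_of_le_one (by norm_num) (by norm_num) (aa_strictMono (Nat.lt_succ_self n))

private theorem n2_le (n k : ℕ) : tt (n + k) ≤ tt n * (1 / 10 : ℝ) ^ k := by
  induction k with
  | zero => simp
  | succ k ih =>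
    calc tt (n + (k + 1)) = tt (n + k + 1) := by rw [Nat.add_assoc]
      _ ≤ tt (n + k) / 10 := tt_succ_le _
      _ ≤ (tt n * (1 / 10 : ℝ) ^ k) / 10 := by gcongr
      _ = tt n * (1 / 10 : ℝ) ^ (k + 1) := by rw [pow_succ]; ring

theorem summable_tt : Summable tt := by
  have hg : Summable fun k : ℕ => tt 0 * (1 / 10 : ℝ) ^ k :=
    (summable_geometric_of_lt_one (by norm_num) (by norm_num)).mul_left _
  refine Summable.of_nonneg_of_le (fun k => (tt_pos k).le) (fun k => ?_) hg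
  simpa using n2_le 0 k

/-- `∑_{i > n} 10^(-a_i) ≤ 2 * 10^(-a_{n+1})` and it is at least its first term -/
theorem rho_sub_rn (n : ℕ) : tt (n + 1) ≤ rho - rn n ∧ rho - rn n ≤ 2 * tt (n + 1) := by
  have hs : rho - rn n = ∑' i, tt (i + (n + 1)) := by
    unfold rho rn
    rw [← summable_tt.sum_add_tsum_nat_add (n + 1)]
    ring
  have hsum : Summable fun i => tt (i + (n + 1)) := (summable_nat_add_iff (n + 1)).2 summable_tt
  rw [hs]
  constructor
  · have h := hsum.le_tsum 0 (fun j _ => (tt_pos _).le)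
    simpa using h
  · have hg : Summable fun k : ℕ => tt (n + 1) * (1 / 10 : ℝ) ^ k :=
      (summable_geometric_of_lt_one (by norm_num) (by norm_num)).mul_left _
    calc ∑' i, tt (i + (n + 1)) ≤ ∑' k : ℕ, tt (n + 1) * (1 / 10 : ℝ) ^ k := by
          refine hsum.tsum_le_tsum (fun k => ?_) hg
          rw [Nat.add_comm]
          exact n2_le (n + 1) k
      _ = tt (n + 1) * (1 - 1 / 10 : ℝ)⁻¹ := by
          rw [tsum_mul_left, tsum_geometric_of_lt_one (by norm_num) (by norm_num)]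
      _ ≤ 2 * tt (n + 1) := by
          have := tt_pos (n + 1)
          have h9 : (1 - 1 / 10 : ℝ)⁻¹ ≤ 2 := by norm_num
          nlinarith
-- END n2

-- BEGIN n3
private theorem n3_succ (n : ℕ) : pp (n + 1) = 10 ^ (aa (n + 1) - aa n) * pp n + 1 := by
  have hmono := aa_strictMono.monotone
  unfold pp
  rw [Finset.sum_range_succ, Nat.sub_self, pow_zero, Finset.mul_sum]
  congr 1
  refine Finset.sum_congr rfl fun i hi => ?_
  have h1 : aa i ≤ aa n := hmono (Nat.lt_succ_iff.mp (Finset.mem_range.mp hi))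
  have h2 : aa n ≤ aa (n + 1) := hmono (Nat.le_succ n)
  rw [← pow_add]
  congr 1
  omega

private theorem n3_zero : pp 0 = 1 := by
  simp [pp]

theorem rn_eq (n : ℕ) : rn n = (pp n : ℝ) / (qq n : ℝ) := by
  have hmono := aa_strictMono.monotone
  unfold rn pp qq tt
  rw [Nat.cast_sum, Finset.sum_div]
  refine Finset.sum_congr rfl fun i hi => ?_
  have h1 : aa i ≤ aa n := hmono (Nat.lt_succ_iff.mp (Finset.mem_range.mp hi))
  have h3 : (10 : ℝ) ^ aa n = 10 ^ (aa n - aa i) * 10 ^ aa i := by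
    rw [← pow_add]
    congr 1
    omega
  push_cast
  rw [h3, one_div, inv_pow]
  have h4 : (10 : ℝ) ^ (aa n - aa i) ≠ 0 := by positivity
  have h5 : (10 : ℝ) ^ aa i ≠ 0 := by positivity
  field_simp

theorem pp_coprime (n : ℕ) : Nat.Coprime (pp n) (qq n) := by
  unfold qq
  refine Nat.Coprime.pow_right _ ?_
  cases n with
  | zero => rw [n3_zero]; exact Nat.coprime_one_left 10
  | succ n =>
    rw [n3_succ]
    have h1 : aa n < aa (n + 1) := aa_strictMono (Nat.lt_succ_self n)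
    obtain ⟨d, hd⟩ : ∃ d, aa (n + 1) - aa n = d + 1 := ⟨aa (n + 1) - aa n - 1, by omega⟩
    have h2 : 10 ^ (aa (n + 1) - aa n) * pp n + 1 = 1 + (10 ^ d * pp n) * 10 := by
      rw [hd, pow_succ]
      ring
    rw [h2, Nat.coprime_add_mul_right_left]
    exact Nat.coprime_one_left 10

theorem pp_pos (n : ℕ) : 0 < pp n := by
  cases n with
  | zero => rw [n3_zero]; exact Nat.one_pos
  | succ n => rw [n3_succ]; exact Nat.succ_pos _

private theorem n3_lt (n : ℕ) : pp n + 1 ≤ qq n := by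
  induction n with
  | zero =>
    rw [n3_zero]
    have := qq_pos 0
    omega
  | succ n ih =>
    rw [n3_succ]
    have h1 : aa n < aa (n + 1) := aa_strictMono (Nat.lt_succ_self n)
    have h2 : qq (n + 1) = 10 ^ (aa (n + 1) - aa n) * qq n := by
      unfold qq
      rw [← pow_add]
      congr 1
      omega
    have h3 : 2 ≤ 10 ^ (aa (n + 1) - aa n) := by
      obtain ⟨d, hd⟩ : ∃ d, aa (n + 1) - aa n = d + 1 := ⟨aa (n + 1) - aa n - 1, by omega⟩
      rw [hd, pow_succ]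
      have : 1 ≤ 10 ^ d := Nat.one_le_pow _ _ (by norm_num)
      omega
    rw [h2]
    generalize 10 ^ (aa (n + 1) - aa n) = c at h3 ⊢
    calc c * pp n + 1 + 1 = c * pp n + 2 := by ring
      _ ≤ c * pp n + c := by omega
      _ = c * (pp n + 1) := by ring
      _ ≤ c * qq n := Nat.mul_le_mul_left _ ih

theorem pp_le (n : ℕ) : pp n ≤ qq n := (Nat.le_succ _).trans (n3_lt n)
-- END n3

-- BEGIN n4
private theorem n4_tt_anti {m n : ℕ} (h : m ≤ n) : tt n ≤ tt m := by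
  unfold tt
  exact pow_le_pow_of_le_one (by norm_num) (by norm_num) (aa_strictMono.monotone h)

private theorem n4_tt_small (n : ℕ) : tt (n + 1) ≤ (tt n) ^ 2 / 100 := by
  have h1 : 2 * aa n + 2 ≤ aa (n + 1) := by
    have h2 := aa_pos n
    have h3 := aa_lt_succ n
    omega
  have h4 : tt (n + 1) ≤ (1 / 10 : ℝ) ^ (2 * aa n + 2) := by
    unfold tt
    exact pow_le_pow_of_le_one (by norm_num) (by norm_num) h1
  have h5 : (1 / 10 : ℝ) ^ (2 * aa n + 2) = (tt n) ^ 2 / 100 := by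
    unfold tt
    rw [pow_add, mul_comm 2 (aa n), pow_mul]
    norm_num
    ring
  rw [← h5]
  exact h4

theorem sg_bounds (n : ℕ) : 10 * tt (n + 1) ≤ sg n ∧ sg n ≤ 20 * tt (n + 1) := by
  have h := rho_sub_rn n
  unfold sg
  constructor <;> linarith [h.1, h.2]

theorem sg_pos (n : ℕ) : 0 < sg n := by
  have h := (sg_bounds n).1
  have h2 := tt_pos (n + 1)
  linarith

theorem sg_lt_one (n : ℕ) : sg n < 1 := by
  have h := (sg_bounds n).2
  have h2 : tt (n + 1) ≤ (1 / 10 : ℝ) ^ 2 := by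
    unfold tt
    refine pow_le_pow_of_le_one (by norm_num) (by norm_num) ?_
    have := le_aa (n + 1)
    omega
  norm_num at h2
  linarith

theorem sg_le_sq (n : ℕ) : sg n ≤ 1 / (qq n : ℝ) ^ 2 := by
  have h := (sg_bounds n).2
  have h2 := n4_tt_small n
  have h3 : (tt n) ^ 2 = 1 / (qq n : ℝ) ^ 2 := by
    rw [tt_eq, div_pow, one_pow]
  have h4 : 0 < (tt n) ^ 2 := pow_pos (tt_pos n) 2
  rw [← h3]
  linarith

theorem sg_half {m n : ℕ} (h : m < n) : sg n ≤ sg m / 2 := by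
  have h1 := (sg_bounds n).2
  have h2 := (sg_bounds m).1
  have h3 : tt (n + 1) ≤ tt (m + 1 + 1) := n4_tt_anti (by omega)
  have h4 := tt_succ_le (m + 1)
  have h5 := tt_pos (m + 1)
  linarith

theorem sg_inj {m n : ℕ} (h : sg m = sg n) : m = n := by
  rcases lt_trichotomy m n with h1 | h1 | h1
  · have h2 := sg_half h1
    have h3 := sg_pos m
    linarith
  · exact h1
  · have h2 := sg_half h1
    have h3 := sg_pos n
    linarith

theorem sg_tendsto : Tendsto sg atTop (𝓝 0) := by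
  have h1 : Tendsto (fun n => 20 * tt (n + 1)) atTop (𝓝 (20 * 0)) := by
    refine Tendsto.const_mul 20 ?_
    exact (tendsto_add_atTop_iff_nat (f := tt) 1).2 summable_tt.tendsto_atTop_zero
  rw [mul_zero] at h1
  exact squeeze_zero (fun n => (sg_pos n).le) (fun n => (sg_bounds n).2) h1

theorem BB_pos (n : ℕ) : 0 < BB n := by
  unfold BB
  exact pow_pos (sg_pos n) 2
-- END n4

-- BEGIN n5
theorem rho_irrational : Irrational rho := by
  rintro ⟨r, hr⟩
  have hQ : 0 < r.den := r.den_pos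
  have hQ' : (0 : ℝ) < r.den := by exact_mod_cast hQ
  have hrho : rho * r.den = r.num := by
    rw [← hr]
    exact_mod_cast Rat.mul_den_eq_num r
  set n := r.den with hn
  have hq : (n : ℝ) + 1 ≤ qq n := by exact_mod_cast succ_le_qq n
  have hq0 : (0 : ℝ) < qq n := by linarith
  have h1 : 0 < rho - rn n := by
    have := (sg_pos n)
    rw [sg] at this
    linarith
  have h2 : rho - rn n ≤ 1 / (10 * (qq n : ℝ) ^ 2) := by
    have h := sg_le_sq n
    rw [sg] at h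
    rw [le_div_iff₀ (by positivity)] at h ⊢
    linarith
  have h3 : rn n * qq n = pp n := by
    rw [rn_eq]
    field_simp
  have h4 : (n : ℝ) * qq n * (rho - rn n) = ((r.num * qq n - n * pp n : ℤ) : ℝ) := by
    push_cast
    rw [← hrho, ← h3]
    ring
  have h5 : (0 : ℝ) < ((r.num * qq n - n * pp n : ℤ) : ℝ) := by
    rw [← h4]
    positivity
  have h6 : ((r.num * qq n - n * pp n : ℤ) : ℝ) < 1 := by
    rw [← h4]
    calc (n : ℝ) * qq n * (rho - rn n) ≤ n * qq n * (1 / (10 * (qq n : ℝ) ^ 2)) := by gcongr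
      _ = n / (10 * qq n) := by field_simp
      _ < 1 := by
        rw [div_lt_one (by positivity)]
        linarith
  have h7 : (0 : ℤ) < r.num * qq n - n * pp n := by exact_mod_cast h5
  have h8 : r.num * qq n - n * pp n < (1 : ℤ) := by exact_mod_cast h6
  omega
-- END n5

-- BEGIN n6
theorem n6_gap {i m : ℕ} (h : i < m) : sg i / 2 ≤ sg i - sg m := by
  have := sg_half h
  linarith

theorem zt_pos (m : ℕ) : 0 < zt m (sg m) := by
  unfold zt
  refine Finset.prod_pos ?_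
  intro i hi
  have h1 := n6_gap (Finset.mem_range.mp hi)
  have h2 := sg_pos i
  have h3 : sg m - sg i ≠ 0 := by
    intro h
    linarith
  positivity

theorem zt_nonneg (m : ℕ) (s : ℝ) : 0 ≤ zt m s := by
  unfold zt
  exact Finset.prod_nonneg fun i _ => sq_nonneg _

theorem zt_zero {m n : ℕ} (h : n < m) : zt m (sg n) = 0 := by
  unfold zt
  refine Finset.prod_eq_zero (Finset.mem_range.mpr h) ?_
  simp

/-- formula (0.3) -/
theorem zt_le {m n : ℕ} (h : m < n) : zt m (sg n) ≤ 4 ^ m * zt m (sg m) := by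
  unfold zt
  have h4 : (4 : ℝ) ^ m = ∏ _i ∈ Finset.range m, (4 : ℝ) := by simp
  rw [h4, ← Finset.prod_mul_distrib]
  refine Finset.prod_le_prod (fun i _ => sq_nonneg _) ?_
  intro i hi
  have hi' : i < m := Finset.mem_range.mp hi
  have h1 := n6_gap hi'
  have h2 := sg_pos i
  have h3 := sg_pos n
  have h5 := n6_gap (lt_trans hi' h)
  have h6 : 0 ≤ sg i - sg n := by linarith
  have h7 : sg i - sg n ≤ 2 * (sg i - sg m) := by linarith
  have h8 : (sg i - sg n) ^ 2 ≤ (2 * (sg i - sg m)) ^ 2 := pow_le_pow_left₀ h6 h7 2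
  have h9 : (sg n - sg i) ^ 2 = (sg i - sg n) ^ 2 := by ring
  have h10 : 4 * (sg m - sg i) ^ 2 = (2 * (sg i - sg m)) ^ 2 := by ring
  rw [h9, h10]
  exact h8

theorem zt_lower (m : ℕ) : (1 / 10 : ℝ) ^ (2 * m * aa m) ≤ zt m (sg m) := by
  unfold zt
  have h4 : (1 / 10 : ℝ) ^ (2 * m * aa m) = ∏ _i ∈ Finset.range m, (tt m) ^ 2 := by
    rw [Finset.prod_const, Finset.card_range]
    unfold tt
    rw [← pow_mul, ← pow_mul]
    congr 1
    ring
  rw [h4]
  refine Finset.prod_le_prod (fun i _ => sq_nonneg _) ?_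
  intro i hi
  have hi' : i < m := Finset.mem_range.mp hi
  have h1 := n6_gap hi'
  have h2 := (sg_bounds i).1
  have h3 : tt m ≤ tt (i + 1) := by
    unfold tt
    exact pow_le_pow_of_le_one (by norm_num) (by norm_num) (aa_strictMono.monotone hi')
  have h5 := tt_pos m
  have h6 : tt m ≤ sg i - sg m := by linarith
  have h7 : (tt m) ^ 2 ≤ (sg i - sg m) ^ 2 := pow_le_pow_left₀ h5.le h6 2
  have h8 : (sg m - sg i) ^ 2 = (sg i - sg m) ^ 2 := by ring
  rw [h8]
  exact h7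

theorem NN_pos (n : ℕ) : 0 < NN n := by
  unfold NN
  have h1 : (0 : ℝ) < kk n := by
    have := kk_pos n
    exact_mod_cast (by omega : 0 < kk n)
  exact div_pos (mul_pos (mul_pos (by norm_num) h1) (BB_pos n)) (zt_pos n)
-- END n6

-- BEGIN n7
theorem n7_mul (m : ℕ) : (qq m : ℝ) * rn m = pp m := by
  have h1 : (0 : ℝ) < qq m := by
    have := qq_pos m
    exact_mod_cast (by omega : 0 < qq m)
  rw [rn_eq]
  field_simp

/-- formula (0.4) -/
theorem dl_lower {m n : ℕ} (h : m < n) : tt (m + 1) ≤ dl m n := by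
  unfold dl
  have h1 : (1 : ℝ) ≤ qq m := by
    have := qq_pos m
    exact_mod_cast (by omega : 1 ≤ qq m)
  have h2 : tt (m + 1) ≤ rn n - rn m := by
    have h3 : rn (m + 1) ≤ rn n := by
      unfold rn
      refine Finset.sum_le_sum_of_subset_of_nonneg ?_ ?_
      · exact Finset.range_mono (by omega)
      · intro i _ _
        exact (tt_pos i).le
    have h4 : rn (m + 1) = rn m + tt (m + 1) := by
      unfold rn
      rw [Finset.sum_range_succ]
    linarith
  have h5 := tt_pos (m + 1)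
  calc tt (m + 1) ≤ rn n - rn m := h2
    _ = 1 * (rn n - rn m) := (one_mul _).symm
    _ ≤ qq m * (rn n - rn m) := by
        apply mul_le_mul_of_nonneg_right h1
        linarith

theorem dl_eq (m n : ℕ) : dl m n = qq m * rn n - pp m := by
  unfold dl
  rw [mul_sub, n7_mul]

/-- all phases of lower index are detuned away from a resonant level -/
theorem detuned {s : ℝ} {m : ℕ} (h : s ≠ sg m) : (qq m : ℝ) * (rho - s / 10) - pp m ≠ 0 := by
  have h1 : (0 : ℝ) < qq m := by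
    have := qq_pos m
    exact_mod_cast (by omega : 0 < qq m)
  rw [← n7_mul m]
  have h2 : (qq m : ℝ) * (rho - s / 10) - qq m * rn m = qq m * ((sg m - s) / 10) := by
    unfold sg
    ring
  rw [h2]
  refine mul_ne_zero h1.ne' ?_
  intro h3
  apply h
  have h4 : sg m - s = 0 := by linarith
  linarith
-- END n7

-- BEGIN n8
private theorem n8_P (m : ℕ) :
    ∃ P : ℕ, aa (m + 1) = 1000 * P ∧ m + 1 ≤ P ∧ kk m ≤ P ∧ m * aa m ≤ P ∧ kk m * qq m ≤ P ∧
      aa m ≤ P := by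
  have h1 : 1 ≤ kk m := by have := kk_pos m; omega
  have h2 : 1 ≤ qq m := by have := qq_pos m; omega
  have h3 : 1 ≤ aa m := aa_pos m
  have hm : 1 ≤ m + 1 := by omega
  refine ⟨(m + 1) * kk m * qq m * aa m, by rw [aa_succ]; ring, ?_, ?_, ?_, ?_, ?_⟩
  · calc m + 1 = (m + 1) * 1 * 1 * 1 := by ring
      _ ≤ (m + 1) * kk m * qq m * aa m := by gcongr
  · calc kk m = 1 * kk m * 1 * 1 := by ring
      _ ≤ (m + 1) * kk m * qq m * aa m := by gcongr
  · calc m * aa m = m * 1 * 1 * aa m := by ring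
      _ ≤ (m + 1) * kk m * qq m * aa m := by gcongr; omega
  · calc kk m * qq m = 1 * kk m * qq m * 1 := by ring
      _ ≤ (m + 1) * kk m * qq m * aa m := by gcongr
  · calc aa m = 1 * 1 * 1 * aa m := by ring
      _ ≤ (m + 1) * kk m * qq m * aa m := by gcongr

private theorem n8_kk (m : ℕ) : (kk m : ℝ) ≤ 10 ^ kk m := by
  exact_mod_cast (Nat.lt_pow_self (n := kk m) (a := 10) (by norm_num)).le

private theorem n8_tt (m : ℕ) : tt m * 10 ^ aa m = 1 := by
  unfold tt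
  rw [← mul_pow]
  norm_num

private theorem n8_BB (m : ℕ) : BB m ≤ 400 * tt (m + 1) ^ 2 := by
  unfold BB
  have h := (sg_bounds m).2
  have h1 := sg_pos m
  calc sg m ^ 2 ≤ (20 * tt (m + 1)) ^ 2 := pow_le_pow_left₀ h1.le h 2
    _ = 400 * tt (m + 1) ^ 2 := by ring

private theorem n8_term {m n : ℕ} (h : m < n) :
    (2 * π * kk m) ^ 2 * (zt m (sg n) * NN m) / (2 * π * dl m n) ≤
      1 / 1000 * (1 / 2 : ℝ) ^ (m + 1) := by
  obtain ⟨P, hP, h1, h2, h3, h4, h5⟩ := n8_P m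
  have ht := tt_pos (m + 1)
  have hd := dl_lower h
  have hd0 : 0 < dl m n := lt_of_lt_of_le ht hd
  have hz := zt_pos m
  have hk : (0 : ℝ) < kk m := by
    have := kk_pos m
    exact_mod_cast (by omega : 0 < kk m)
  have e1 : zt m (sg n) * NN m ≤ 4 ^ m * (8 * kk m * (400 * tt (m + 1) ^ 2)) := by
    calc zt m (sg n) * NN m ≤ (4 ^ m * zt m (sg m)) * NN m :=
          mul_le_mul_of_nonneg_right (zt_le h) (NN_pos m).le
      _ = 4 ^ m * (8 * kk m * BB m) := by
          unfold NN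
          field_simp
      _ ≤ 4 ^ m * (8 * kk m * (400 * tt (m + 1) ^ 2)) := by
          have := n8_BB m
          gcongr
  have hpi : π ≤ 3.15 := pi_lt_d2.le
  have e2 : (2 * π * kk m) ^ 2 * (zt m (sg n) * NN m) / (2 * π * dl m n) ≤
      20200 * (4 ^ m * (kk m : ℝ) ^ 3 * tt (m + 1)) := by
    rw [div_le_iff₀ (by positivity)]
    calc (2 * π * kk m) ^ 2 * (zt m (sg n) * NN m)
        ≤ (2 * π * kk m) ^ 2 * (4 ^ m * (8 * kk m * (400 * tt (m + 1) ^ 2))) := by gcongr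
      _ = (6400 * π) * (2 * π) * (4 ^ m * (kk m : ℝ) ^ 3 * tt (m + 1)) * tt (m + 1) := by ring
      _ ≤ 20200 * (2 * π) * (4 ^ m * (kk m : ℝ) ^ 3 * tt (m + 1)) * dl m n := by
          have : 6400 * π ≤ 20200 := by nlinarith
          gcongr
      _ = 20200 * (4 ^ m * (kk m : ℝ) ^ 3 * tt (m + 1)) * (2 * π * dl m n) := by ring
  refine e2.trans ?_
  have hk3 : (kk m : ℝ) ^ 3 ≤ 10 ^ (3 * kk m) := by
    calc (kk m : ℝ) ^ 3 ≤ (10 ^ kk m) ^ 3 := pow_le_pow_left₀ hk.le (n8_kk m) 3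
      _ = 10 ^ (3 * kk m) := by rw [← pow_mul]; ring_nf
  have h4m : (4 : ℝ) ^ m ≤ 10 ^ m := pow_le_pow_left₀ (by norm_num) (by norm_num) m
  have h2m : (2 : ℝ) ^ (m + 1) ≤ 10 ^ (m + 1) := pow_le_pow_left₀ (by norm_num) (by norm_num) _
  have hfin : 1000 * (2 : ℝ) ^ (m + 1) * (20200 * (4 ^ m * (kk m : ℝ) ^ 3)) ≤
      10 ^ aa (m + 1) := by
    calc 1000 * (2 : ℝ) ^ (m + 1) * (20200 * (4 ^ m * (kk m : ℝ) ^ 3))
        ≤ 10 ^ 3 * 10 ^ (m + 1) * (10 ^ 5 * (10 ^ m * 10 ^ (3 * kk m))) := by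
          gcongr <;> norm_num
      _ = 10 ^ (3 + (m + 1) + (5 + (m + 3 * kk m))) := by
          simp only [pow_add]
      _ ≤ 10 ^ aa (m + 1) := pow_le_pow_right₀ (by norm_num) (by omega)
  have hh : (1 / 2 : ℝ) ^ (m + 1) * 2 ^ (m + 1) = 1 := by
    rw [← mul_pow]; norm_num
  have key : 20200 * (4 ^ m * (kk m : ℝ) ^ 3 * tt (m + 1)) * (1000 * 2 ^ (m + 1)) ≤ 1 := by
    calc 20200 * (4 ^ m * (kk m : ℝ) ^ 3 * tt (m + 1)) * (1000 * 2 ^ (m + 1))
        = tt (m + 1) * (1000 * (2 : ℝ) ^ (m + 1) * (20200 * (4 ^ m * (kk m : ℝ) ^ 3))) := by ring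
      _ ≤ tt (m + 1) * 10 ^ aa (m + 1) := by gcongr
      _ = 1 := n8_tt (m + 1)
  have h2p : (0 : ℝ) < 2 ^ (m + 1) := by positivity
  calc 20200 * (4 ^ m * (kk m : ℝ) ^ 3 * tt (m + 1))
      = 20200 * (4 ^ m * (kk m : ℝ) ^ 3 * tt (m + 1)) * (1000 * 2 ^ (m + 1)) *
          (1 / 1000 * (1 / 2 : ℝ) ^ (m + 1)) := by
        have : (1 / 2 : ℝ) ^ (m + 1) = 1 / 2 ^ (m + 1) := by
          rw [one_div_pow]
        rw [this]
        field_simp
    _ ≤ 1 * (1 / 1000 * (1 / 2 : ℝ) ^ (m + 1)) := by gcongr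
    _ = 1 / 1000 * (1 / 2 : ℝ) ^ (m + 1) := one_mul _

private theorem n8_geom (n : ℕ) : ∑ m ∈ Finset.range n, (1 / 2 : ℝ) ^ (m + 1) ≤ 1 := by
  have : ∑ m ∈ Finset.range n, (1 / 2 : ℝ) ^ (m + 1) = 1 - (1 / 2 : ℝ) ^ n := by
    induction n with
    | zero => simp
    | succ n ih =>
      rw [Finset.sum_range_succ, ih, pow_succ]
      ring
  rw [this]
  have : (0 : ℝ) ≤ (1 / 2 : ℝ) ^ n := by positivity
  linarith

/-- the numerical bound behind (3.1) -/
theorem sum_small (n : ℕ) :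
    ∑ m ∈ Finset.range n, (2 * π * kk m) ^ 2 * (zt m (sg n) * NN m) / (2 * π * dl m n) ≤ 1 / 1000 := by
  calc ∑ m ∈ Finset.range n, (2 * π * kk m) ^ 2 * (zt m (sg n) * NN m) / (2 * π * dl m n)
      ≤ ∑ m ∈ Finset.range n, 1 / 1000 * (1 / 2 : ℝ) ^ (m + 1) :=
        Finset.sum_le_sum fun m hm => n8_term (Finset.mem_range.mp hm)
    _ = 1 / 1000 * ∑ m ∈ Finset.range n, (1 / 2 : ℝ) ^ (m + 1) := by rw [Finset.mul_sum]
    _ ≤ 1 / 1000 * 1 := by
        have := n8_geom n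
        gcongr
    _ = 1 / 1000 := mul_one _
-- END n8

-- BEGIN n9
private theorem n9_tt (m : ℕ) : tt m * 10 ^ aa m = 1 := by
  unfold tt
  rw [← mul_pow]
  norm_num

private theorem n9_BB (m : ℕ) : BB m ≤ 400 * tt (m + 1) ^ 2 := by
  unfold BB
  have h := (sg_bounds m).2
  have h1 := sg_pos m
  calc sg m ^ 2 ≤ (20 * tt (m + 1)) ^ 2 := pow_le_pow_left₀ h1.le h 2
    _ = 400 * tt (m + 1) ^ 2 := by ring

private theorem n9_P (m : ℕ) :
    ∃ P : ℕ, aa (m + 1) = 1000 * P ∧ m + 1 ≤ P ∧ kk m ≤ P ∧ m * aa m ≤ P ∧ kk m * qq m ≤ P ∧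
      aa m ≤ P := by
  have h1 : 1 ≤ kk m := by have := kk_pos m; omega
  have h2 : 1 ≤ qq m := by have := qq_pos m; omega
  have h3 : 1 ≤ aa m := aa_pos m
  have hm : 1 ≤ m + 1 := by omega
  refine ⟨(m + 1) * kk m * qq m * aa m, by rw [aa_succ]; ring, ?_, ?_, ?_, ?_, ?_⟩
  · calc m + 1 = (m + 1) * 1 * 1 * 1 := by ring
      _ ≤ (m + 1) * kk m * qq m * aa m := by gcongr
  · calc kk m = 1 * kk m * 1 * 1 := by ring
      _ ≤ (m + 1) * kk m * qq m * aa m := by gcongr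
  · calc m * aa m = m * 1 * 1 * aa m := by ring
      _ ≤ (m + 1) * kk m * qq m * aa m := by gcongr; omega
  · calc kk m * qq m = 1 * kk m * qq m * 1 := by ring
      _ ≤ (m + 1) * kk m * qq m * aa m := by gcongr
  · calc aa m = 1 * 1 * 1 * aa m := by ring
      _ ≤ (m + 1) * kk m * qq m * aa m := by gcongr

theorem BBqq_small (n : ℕ) : 4 * BB n * qq n ≤ 1 / 1000 := by
  have ht := tt_pos (n + 1)
  have ht1 := n9_tt (n + 1)
  have hq : (qq n : ℝ) = 10 ^ aa n := by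
    unfold qq
    push_cast
    rfl
  obtain ⟨P, hP, h1, h2, h3, h4, h5⟩ := n9_P n
  have hfin : 1600 * (qq n : ℝ) * 1000 ≤ (10 ^ aa (n + 1)) ^ 2 := by
    calc 1600 * (qq n : ℝ) * 1000 ≤ 10 ^ 4 * 10 ^ aa n * 10 ^ 3 := by
          rw [hq]
          gcongr <;> norm_num
      _ = 10 ^ (4 + aa n + 3) := by simp only [pow_add]
      _ ≤ 10 ^ (aa (n + 1) * 2) := pow_le_pow_right₀ (by norm_num) (by omega)
      _ = (10 ^ aa (n + 1)) ^ 2 := by rw [pow_mul]
  have hBB := n9_BB n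
  have hq0 : (0 : ℝ) ≤ qq n := by positivity
  have key : tt (n + 1) ^ 2 * (1600 * (qq n : ℝ) * 1000) ≤ 1 := by
    calc tt (n + 1) ^ 2 * (1600 * (qq n : ℝ) * 1000)
        ≤ tt (n + 1) ^ 2 * (10 ^ aa (n + 1)) ^ 2 := by gcongr
      _ = (tt (n + 1) * 10 ^ aa (n + 1)) ^ 2 := by ring
      _ = 1 := by rw [ht1]; norm_num
  calc 4 * BB n * qq n ≤ 4 * (400 * tt (n + 1) ^ 2) * qq n := by gcongr
    _ = tt (n + 1) ^ 2 * (1600 * (qq n : ℝ) * 1000) / 1000 := by ring
    _ ≤ 1 / 1000 := by gcongr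

/-- the bound behind analyticity (1.1) -/
theorem W_small (m : ℕ) :
    9 ^ m * (NN m * exp (2 * kk m * qq m)) ≤ (1 / 2 : ℝ) ^ (m + 1) := by
  obtain ⟨P, hP, h1, h2, h3, h4, h5⟩ := n9_P m
  have ht := tt_pos (m + 1)
  have ht1 := n9_tt (m + 1)
  have hz := zt_pos m
  have hzl := zt_lower m
  have hk : (0 : ℝ) < kk m := by
    have := kk_pos m
    exact_mod_cast (by omega : 0 < kk m)
  have hkk : (kk m : ℝ) ≤ 10 ^ kk m := by
    exact_mod_cast (Nat.lt_pow_self (n := kk m) (a := 10) (by norm_num)).le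
  have hBB := n9_BB m
  have hu : (1 / 10 : ℝ) ^ (2 * m * aa m) * 10 ^ (2 * m * aa m) = 1 := by
    rw [← mul_pow]; norm_num
  have hzinv : 1 / zt m (sg m) ≤ 10 ^ (2 * m * aa m) := by
    rw [div_le_iff₀ hz]
    calc (1 : ℝ) = (1 / 10 : ℝ) ^ (2 * m * aa m) * 10 ^ (2 * m * aa m) := hu.symm
      _ ≤ zt m (sg m) * 10 ^ (2 * m * aa m) := by gcongr
      _ = 10 ^ (2 * m * aa m) * zt m (sg m) := mul_comm _ _
  have hN : NN m ≤ 8 * 10 ^ kk m * (400 * tt (m + 1) ^ 2) * 10 ^ (2 * m * aa m) := by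
    calc NN m = 8 * kk m * BB m * (1 / zt m (sg m)) := by
          unfold NN
          ring
      _ ≤ 8 * 10 ^ kk m * (400 * tt (m + 1) ^ 2) * 10 ^ (2 * m * aa m) := by
          have := (BB_pos m).le
          gcongr
  have hexp : exp (2 * kk m * qq m) ≤ 10 ^ (2 * (kk m * qq m)) := by
    have e1 : (2 * kk m * qq m : ℝ) = ((2 * (kk m * qq m) : ℕ) : ℝ) := by
      push_cast
      ring
    rw [e1, ← Real.exp_one_pow]
    have : exp 1 ≤ 10 := by
      have := Real.exp_one_lt_d9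
      linarith
    exact pow_le_pow_left₀ (exp_pos 1).le this _
  have h9 : (9 : ℝ) ^ m ≤ 10 ^ m := pow_le_pow_left₀ (by norm_num) (by norm_num) m
  have h2m : (2 : ℝ) ^ (m + 1) ≤ 10 ^ (m + 1) := pow_le_pow_left₀ (by norm_num) (by norm_num) _
  have hfin : (10 : ℝ) ^ m * (3200 * 10 ^ kk m * 10 ^ (2 * m * aa m) * 10 ^ (2 * (kk m * qq m))) *
      2 ^ (m + 1) ≤ (10 ^ aa (m + 1)) ^ 2 := by
    calc (10 : ℝ) ^ m * (3200 * 10 ^ kk m * 10 ^ (2 * m * aa m) * 10 ^ (2 * (kk m * qq m))) *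
          2 ^ (m + 1)
        ≤ 10 ^ m * (10 ^ 4 * 10 ^ kk m * 10 ^ (2 * m * aa m) * 10 ^ (2 * (kk m * qq m))) *
          10 ^ (m + 1) := by
          gcongr
          norm_num
      _ = 10 ^ (m + (4 + kk m + 2 * m * aa m + 2 * (kk m * qq m)) + (m + 1)) := by
          simp only [pow_add]
      _ ≤ 10 ^ (aa (m + 1) * 2) := by
          refine pow_le_pow_right₀ (by norm_num) ?_
          have h6 : 2 * m * aa m = 2 * (m * aa m) := by ring
          rw [h6]
          omega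
      _ = (10 ^ aa (m + 1)) ^ 2 := by rw [pow_mul]
  have key : (9 : ℝ) ^ m * (NN m * exp (2 * kk m * qq m)) * 2 ^ (m + 1) ≤ 1 := by
    have hN0 := (NN_pos m).le
    calc (9 : ℝ) ^ m * (NN m * exp (2 * kk m * qq m)) * 2 ^ (m + 1)
        ≤ 10 ^ m * ((8 * 10 ^ kk m * (400 * tt (m + 1) ^ 2) * 10 ^ (2 * m * aa m)) *
            10 ^ (2 * (kk m * qq m))) * 2 ^ (m + 1) := by
          gcongr
      _ = tt (m + 1) ^ 2 * (10 ^ m * (3200 * 10 ^ kk m * 10 ^ (2 * m * aa m) *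
            10 ^ (2 * (kk m * qq m))) * 2 ^ (m + 1)) := by ring
      _ ≤ tt (m + 1) ^ 2 * (10 ^ aa (m + 1)) ^ 2 := by gcongr
      _ = (tt (m + 1) * 10 ^ aa (m + 1)) ^ 2 := by ring
      _ = 1 := by rw [ht1]; norm_num
  have h2p : (0 : ℝ) < 2 ^ (m + 1) := by positivity
  rw [one_div_pow, le_div_iff₀ h2p]
  exact key
-- END n9

end Pool.Agent.AnQ2
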