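import Mathlib
import Pool.Agent.AnQ2.Num
import Pool.Agent.AnQ2.LevMain

/-!
# The recursive choice of the trigonometric polynomials (page, section 3)
-/

namespace Pool.Agent.AnQ2

open Set Filter Topology Real MeasureTheory
open scoped ContDiff

/-- the lower terms at level `n`, along the orbit with parameter `φ` -/
noncomputable def fl (G : ℕ → ℝ → ℝ) (n : ℕ) (φ t : ℝ) : ℝ :=
  ∑ m ∈ Finset.range n, zt m (sg n) * G m (qq m / qq n * φ + dl m n * t)

/-- periodic solutions at level `n` -/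
def PSol (G : ℕ → ℝ → ℝ) (g : ℝ → ℝ) (n : ℕ) (φ : ℝ) (u : ℝ → ℝ) : Prop :=
  (∀ t, HasDerivAt u (BB n * VV (u t) - fl G n φ t - zt n (sg n) * g φ) t) ∧
    ∀ t, u (t + qq n) = u t

/-- the property required from the `n`-th polynomial -/
def LP (G : ℕ → ℝ → ℝ) (n : ℕ) (g : ℝ → ℝ) : Prop :=
  TP (kk n) (NN n) g ∧ (∀ j : ℤ, ∃ u, PSol G g n (j / kk n) u) ∧
    ∀ φ u, PSol G g n φ u → (∃ j : ℤ, kk n * φ = j) ∧
      (∫ t in (0 : ℝ)..qq n, VD (u t) = 0) ∧ ∀ u', PSol G g n φ u' → u' = u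

-- BEGIN g1
theorem dl_mul_qq (m n : ℕ) : ∃ l : ℤ, dl m n * qq n = l := by
  refine ⟨(qq m : ℤ) * pp n - (pp m : ℤ) * qq n, ?_⟩
  have hq : (qq n : ℝ) ≠ 0 := by
    have := qq_pos n
    positivity
  rw [dl_eq, rn_eq]
  push_cast
  field_simp

/-- the time shift which corresponds to `φ → φ + 1` -/
theorem fl_shift (n : ℕ) : ∃ t1 : ℤ, ∀ (G : ℕ → ℝ → ℝ),
    (∀ m < n, TP (kk m) (NN m) (G m)) → ∀ φ t, fl G n (φ + 1) t = fl G n φ (t + t1) := by
  have hq : (qq n : ℝ) ≠ 0 := by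
    have := qq_pos n
    positivity
  obtain ⟨u, v, huv⟩ : ∃ u v : ℤ, (pp n : ℤ) * u + (qq n : ℤ) * v = 1 := by
    have h := Nat.Coprime.isCoprime (pp_coprime n)
    obtain ⟨a, b, hab⟩ := h
    exact ⟨a, b, by linarith [mul_comm a (pp n : ℤ), mul_comm b (qq n : ℤ)]⟩
  have huv' : (pp n : ℝ) * u + (qq n : ℝ) * v = 1 := by exact_mod_cast huv
  refine ⟨u, ?_⟩
  intro G hG φ t
  unfold fl
  refine Finset.sum_congr rfl fun m hm => ?_
  have hper := (hG m (Finset.mem_range.mp hm)).toTQ.per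
  congr 1
  have key : (qq m : ℝ) / qq n * (φ + 1) + dl m n * t =
      (qq m : ℝ) / qq n * φ + dl m n * (t + u) + (((qq m : ℤ) * v + (pp m : ℤ) * u : ℤ) : ℝ) := by
    rw [dl_eq, rn_eq]
    push_cast
    field_simp
    linear_combination (-(qq m : ℝ)) * huv'
  rw [key, hper]
-- END g1

-- BEGIN g2
theorem g2_key (G : ℕ → ℝ → ℝ) (n : ℕ) (h : ∀ m < n, TP (kk m) (NN m) (G m)) (m : ℕ) :
    ∃ P P1 p1 : ℝ → ℝ → ℝ, m < n →
    (∀ φ t, HasDerivAt (P φ) (G m (qq m / qq n * φ + dl m n * t)) t) ∧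
    (∀ φ t, HasDerivAt (P1 φ) (p1 φ t) t) ∧
    (∀ φ, Continuous (p1 φ)) ∧
    (∀ φ t, |P φ t| ≤ (2 * π * kk m) ^ 2 * NN m / (2 * π * dl m n)) ∧
    (∀ φ t, |P1 φ t| ≤ (2 * π * kk m) ^ 2 * NN m / (2 * π * dl m n)) ∧
    (∀ φ φ' t, |P φ' t - P φ t - (φ' - φ) * P1 φ t| ≤
      (2 * π * kk m) ^ 2 * NN m / (2 * π * dl m n) / 2 * (φ' - φ) ^ 2) ∧
    (∀ φ t, P φ (t + qq n) = P φ t ∧ P1 φ (t + qq n) = P1 φ t) := by
  by_cases hm : m < n
  · have h1 : (1 : ℕ) ≤ kk m := le_trans (by norm_num) (kk_pos m)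
    have h2 : 0 < dl m n := lt_of_lt_of_le (tt_pos (m + 1)) (dl_lower hm)
    have hq : (0 : ℝ) < qq n := by
      have := qq_pos n
      exact_mod_cast lt_of_lt_of_le (by norm_num) this
    have h3 : |(qq m : ℝ) / qq n| ≤ 1 := by
      rw [abs_of_nonneg (by positivity), div_le_one hq]
      exact_mod_cast qq_mono hm.le
    obtain ⟨P, P1, p1, a1, a2, a3, a4, a5, a6, a7⟩ := (h m hm).primitive h1 h2 h3
    obtain ⟨l, hl⟩ := dl_mul_qq m n
    exact ⟨P, P1, p1, fun _ => ⟨a1, a2, a3, a4, a5, a6, fun φ t => a7 φ t (qq n) l hl⟩⟩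
  · exact ⟨fun _ _ => 0, fun _ _ => 0, fun _ _ => 0, fun h => absurd h hm⟩

theorem g2_sum (n : ℕ) :
    ∑ m ∈ Finset.range n, zt m (sg n) * ((2 * π * kk m) ^ 2 * NN m / (2 * π * dl m n))
      ≤ 1 / 1000 := by
  refine le_trans (le_of_eq ?_) (sum_small n)
  refine Finset.sum_congr rfl fun m _ => ?_
  ring

theorem g2_abs (n : ℕ) {P : ℕ → ℝ} {c : ℝ} (hc : 0 ≤ c)
    (h : ∀ m < n, |P m| ≤ (2 * π * kk m) ^ 2 * NN m / (2 * π * dl m n) * c) :
    |∑ m ∈ Finset.range n, zt m (sg n) * P m| ≤ 1 / 1000 * c := by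
  refine (Finset.abs_sum_le_sum_abs _ _).trans ?_
  refine le_trans ?_ (mul_le_mul_of_nonneg_right (g2_sum n) hc)
  rw [Finset.sum_mul]
  refine Finset.sum_le_sum fun m hm => ?_
  rw [abs_mul, abs_of_nonneg (zt_nonneg m _), mul_assoc]
  exact mul_le_mul_of_nonneg_left (h m (Finset.mem_range.1 hm)) (zt_nonneg m _)

/-- the data of level `n` -/
theorem lev_exists (G : ℕ → ℝ → ℝ) (n : ℕ) (h : ∀ m < n, TP (kk m) (NN m) (G m)) :
    ∃ L : Lev, L.q = qq n ∧ L.B = BB n ∧ ∀ φ t, L.f φ t = fl G n φ t := by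
  choose P P1 p1 hP using g2_key G n h
  obtain ⟨t1, ht1⟩ := fl_shift n
  have hq : (0 : ℝ) < qq n := by
    have := qq_pos n
    exact_mod_cast lt_of_lt_of_le (by norm_num) this
  refine ⟨{ q := qq n, B := BB n, η := 1 / 1000, t1 := t1
            f := fl G n
            f1 := fun φ t => ∑ m ∈ Finset.range n, zt m (sg n) * p1 m φ t
            F := fun φ t => ∑ m ∈ Finset.range n, zt m (sg n) * P m φ t
            F1 := fun φ t => ∑ m ∈ Finset.range n, zt m (sg n) * P1 m φ t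
            hq := hq
            hB := BB_pos n
            hη0 := by norm_num
            hη := by norm_num
            hBq := BBqq_small n
            dF := ?_
            dF1 := ?_
            cf := ?_
            cf1 := ?_
            perF := ?_
            perF1 := ?_
            bF := ?_
            bF1 := ?_
            tay := ?_
            shift := ht1 G h }, rfl, rfl, fun _ _ => rfl⟩
  · intro φ t
    exact HasDerivAt.fun_sum fun m hm =>
      ((hP m (Finset.mem_range.1 hm)).1 φ t).const_mul (zt m (sg n))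
  · intro φ t
    exact HasDerivAt.fun_sum fun m hm =>
      ((hP m (Finset.mem_range.1 hm)).2.1 φ t).const_mul (zt m (sg n))
  · intro φ
    refine ContDiff.sum fun m hm => ?_
    have h1 := (h m (Finset.mem_range.1 hm)).toTQ.contDiff
    exact contDiff_const.mul (h1.comp (contDiff_const.add (contDiff_const.mul contDiff_id)))
  · intro φ
    exact continuous_finsetSum _ fun m hm =>
      continuous_const.mul ((hP m (Finset.mem_range.1 hm)).2.2.1 φ)
  · intro φ t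
    refine Finset.sum_congr rfl fun m hm => ?_
    rw [((hP m (Finset.mem_range.1 hm)).2.2.2.2.2.2 φ t).1]
  · intro φ t
    refine Finset.sum_congr rfl fun m hm => ?_
    rw [((hP m (Finset.mem_range.1 hm)).2.2.2.2.2.2 φ t).2]
  · intro φ t
    have := g2_abs n (P := fun m => P m φ t) zero_le_one (fun m hm => by
      rw [mul_one]; exact (hP m hm).2.2.2.1 φ t)
    simpa using this
  · intro φ t
    have := g2_abs n (P := fun m => P1 m φ t) zero_le_one (fun m hm => by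
      rw [mul_one]; exact (hP m hm).2.2.2.2.1 φ t)
    simpa using this
  · intro φ φ' t
    have := g2_abs n (P := fun m => P m φ' t - P m φ t - (φ' - φ) * P1 m φ t)
      (c := (φ' - φ) ^ 2 / 2) (by positivity) (fun m hm => by
        refine ((hP m hm).2.2.2.2.2.1 φ φ' t).trans (le_of_eq ?_)
        ring)
    have e : (∑ m ∈ Finset.range n, zt m (sg n) * P m φ' t)
        - (∑ m ∈ Finset.range n, zt m (sg n) * P m φ t)
        - (φ' - φ) * (∑ m ∈ Finset.range n, zt m (sg n) * P1 m φ t)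
        = ∑ m ∈ Finset.range n, zt m (sg n) * (P m φ' t - P m φ t - (φ' - φ) * P1 m φ t) := by
      rw [Finset.mul_sum, ← Finset.sum_sub_distrib, ← Finset.sum_sub_distrib]
      refine Finset.sum_congr rfl fun m _ => ?_
      ring
    rw [e]
    refine this.trans (le_of_eq ?_)
    ring
-- END g2

-- BEGIN g3
theorem level_step (G : ℕ → ℝ → ℝ) (n : ℕ) (h : ∀ m < n, TP (kk m) (NN m) (G m)) :
    ∃ g, LP G n g := by
  obtain ⟨L, hLq, hLB, hLf⟩ := lev_exists G n h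
  have hk : 1 ≤ kk n := le_trans (by norm_num) (kk_pos n)
  obtain ⟨Lm, hTP, hex, hun⟩ := L.main hk
  have hz := zt_pos n
  have hz0 : zt n (sg n) ≠ 0 := hz.ne'
  have hiff : ∀ φ u, PSol G (fun x => (zt n (sg n))⁻¹ * Lm x) n φ u ↔ L.Sol φ (Lm φ) u := by
    intro φ u
    unfold PSol Lev.Sol
    have e : zt n (sg n) * ((zt n (sg n))⁻¹ * Lm φ) = Lm φ := by
      rw [← mul_assoc, mul_inv_cancel₀ hz0, one_mul]
    simp only [e, hLq, hLB, hLf]
  refine ⟨fun x => (zt n (sg n))⁻¹ * Lm x, ?_, ?_, ?_⟩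
  · have h1 := hTP.smul (zt n (sg n))⁻¹
    have e : |(zt n (sg n))⁻¹| * (8 * (kk n : ℝ) * L.B) = NN n := by
      rw [abs_of_pos (inv_pos.2 hz), NN, hLB]
      field_simp
    rw [e] at h1
    exact h1
  · intro j
    obtain ⟨u, hu⟩ := hex j
    exact ⟨u, (hiff _ _).2 hu⟩
  · intro φ u hu
    obtain ⟨h1, h2, h3⟩ := hun φ u ((hiff _ _).1 hu)
    rw [hLq] at h2
    exact ⟨h1, h2, fun u' hu' => h3 u' ((hiff _ _).1 hu')⟩
-- END g3

-- BEGIN g4
theorem LP_congr {G G' : ℕ → ℝ → ℝ} {n : ℕ} {g : ℝ → ℝ} (h : ∀ m < n, G m = G' m)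
    (hg : LP G n g) : LP G' n g := by
  have hfl : fl G n = fl G' n := by
    funext φ t
    unfold fl
    refine Finset.sum_congr rfl fun m hm => ?_
    rw [h m (Finset.mem_range.1 hm)]
  have hP : ∀ φ u, PSol G g n φ u ↔ PSol G' g n φ u := by
    intro φ u
    unfold PSol
    rw [hfl]
  refine ⟨hg.1, fun j => ?_, fun φ u hu => ?_⟩
  · obtain ⟨u, hu⟩ := hg.2.1 j
    exact ⟨u, (hP _ _).1 hu⟩
  · obtain ⟨h1, h2, h3⟩ := hg.2.2 φ u ((hP _ _).2 hu)
    exact ⟨h1, h2, fun u' hu' => h3 u' ((hP _ _).2 hu')⟩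

private theorem g4_step (n : ℕ) (s : {G : ℕ → ℝ → ℝ // ∀ m < n, LP G m (G m)}) :
    ∃ s' : {G : ℕ → ℝ → ℝ // ∀ m < n + 1, LP G m (G m)}, ∀ m < n, s'.1 m = s.1 m := by
  obtain ⟨G, hG⟩ := s
  obtain ⟨g, hg⟩ := level_step G n fun m hm => (hG m hm).1
  have key : ∀ m < n, Function.update G n g m = G m := fun m hm =>
    Function.update_of_ne (Nat.ne_of_lt hm) _ _
  refine ⟨⟨Function.update G n g, fun m hm => ?_⟩, key⟩
  rcases Nat.lt_succ_iff_lt_or_eq.1 hm with hm | hm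
  · rw [key m hm]
    exact LP_congr (fun k hk => (key k (hk.trans hm)).symm) (hG m hm)
  · subst hm
    rw [Function.update_self]
    exact LP_congr (fun k hk => (key k hk).symm) hg

private noncomputable def g4_seq :
    (n : ℕ) → {G : ℕ → ℝ → ℝ // ∀ m < n, LP G m (G m)}
  | 0 => ⟨fun _ _ => 0, fun m hm => absurd hm (Nat.not_lt_zero m)⟩
  | n + 1 => (g4_step n (g4_seq n)).choose

private theorem g4_seq_succ (n m : ℕ) (hm : m < n) : (g4_seq (n + 1)).1 m = (g4_seq n).1 m :=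
  (g4_step n (g4_seq n)).choose_spec m hm

private theorem g4_seq_eq (m n : ℕ) (hm : m < n) : (g4_seq n).1 m = (g4_seq (m + 1)).1 m := by
  induction n with
  | zero => exact absurd hm (Nat.not_lt_zero m)
  | succ n ih =>
    rcases Nat.lt_succ_iff_lt_or_eq.1 hm with hm | hm
    · rw [g4_seq_succ n m hm, ih hm]
    · subst hm
      rfl

theorem exists_GG : ∃ G : ℕ → ℝ → ℝ, ∀ n, LP G n (G n) := by
  refine ⟨fun n => (g4_seq (n + 1)).1 n, fun n => ?_⟩
  exact LP_congr (fun m hm => g4_seq_eq m (n + 1) (Nat.lt_succ_of_lt hm))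
    ((g4_seq (n + 1)).2 n (Nat.lt_succ_self n))
-- END g4

noncomputable def GG : ℕ → ℝ → ℝ := exists_GG.choose

theorem GG_spec (n : ℕ) : LP GG n (GG n) := exists_GG.choose_spec n

theorem GG_TP (n : ℕ) : TP (kk n) (NN n) (GG n) := (GG_spec n).1

end Pool.Agent.AnQ2
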