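import Mathlib
import Pool.Agent.AnQ2.Gn
import Pool.Agent.MP_1a349f_an.Ode

/-!
# Analyticity of the resonant term `R` (page, (1.1))
-/

namespace Pool.Agent.AnQ2

open Set Filter Topology Real MeasureTheory
open scoped ContDiff NNReal ENNReal
open Pool.Agent.MP_1a349f_an (Per tr)

/-- finite Fourier sums on `ℝ^6` with weighted coefficient sum at most `N` -/
def WC (N : ℝ) (f : (Fin 6 → ℝ) → ℝ) : Prop :=
  ∃ (ι : Type) (_ : Fintype ι) (c : ι → ℂ) (k : ι → Fin 6 → ℤ),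
    ∑ i, ‖c i‖ * exp (∑ j, |(k i j : ℝ)|) ≤ N ∧ ∀ x, (f x : ℂ) = ∑ i, c i * ee (∑ j, k i j * x j)

-- BEGIN w1
theorem WC.mono {N N' : ℝ} {f : (Fin 6 → ℝ) → ℝ} (h : WC N f) (hN : N ≤ N') : WC N' f := by
  obtain ⟨ι, hι, c, k, hs, hf⟩ := h
  exact ⟨ι, hι, c, k, hs.trans hN, hf⟩

theorem WC.const (a : ℝ) : WC |a| (fun _ => a) := by
  refine ⟨Unit, inferInstance, fun _ => (a : ℂ), fun _ _ => 0, ?_, fun x => ?_⟩
  · simp
  · simp [ee_zero]

theorem WC.mul {N N' : ℝ} {f f' : (Fin 6 → ℝ) → ℝ} (h : WC N f) (h' : WC N' f') (hN : 0 ≤ N) :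
    WC (N * N') (fun x => f x * f' x) := by
  obtain ⟨ι, hι, c, k, hs, hf⟩ := h
  obtain ⟨ι', hι', c', k', hs', hf'⟩ := h'
  refine ⟨ι × ι', inferInstance, fun p => c p.1 * c' p.2, fun p j => k p.1 j + k' p.2 j, ?_,
    fun x => ?_⟩
  · have h1 : ∑ p : ι × ι', ‖c p.1 * c' p.2‖ * exp (∑ j, |((k p.1 j + k' p.2 j : ℤ) : ℝ)|) ≤
        ∑ p : ι × ι', (‖c p.1‖ * exp (∑ j, |(k p.1 j : ℝ)|)) *
          (‖c' p.2‖ * exp (∑ j, |(k' p.2 j : ℝ)|)) := by
      refine Finset.sum_le_sum fun p _ => ?_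
      have h2 : exp (∑ j, |((k p.1 j + k' p.2 j : ℤ) : ℝ)|) ≤
          exp (∑ j, |(k p.1 j : ℝ)|) * exp (∑ j, |(k' p.2 j : ℝ)|) := by
        rw [← Real.exp_add, ← Finset.sum_add_distrib]
        refine Real.exp_le_exp.2 (Finset.sum_le_sum fun j _ => ?_)
        rw [Int.cast_add]
        exact abs_add_le _ _
      have h3 : 0 ≤ ‖c p.1‖ * ‖c' p.2‖ := by positivity
      rw [norm_mul]
      calc ‖c p.1‖ * ‖c' p.2‖ * exp (∑ j, |((k p.1 j + k' p.2 j : ℤ) : ℝ)|)
          ≤ ‖c p.1‖ * ‖c' p.2‖ *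
            (exp (∑ j, |(k p.1 j : ℝ)|) * exp (∑ j, |(k' p.2 j : ℝ)|)) :=
            mul_le_mul_of_nonneg_left h2 h3
        _ = _ := by ring
    refine h1.trans ?_
    rw [Fintype.sum_prod_type]
    simp only
    rw [← Fintype.sum_mul_sum]
    refine mul_le_mul hs hs' ?_ hN
    exact Finset.sum_nonneg fun i _ => by positivity
  · simp only
    rw [Complex.ofReal_mul, hf x, hf' x, Fintype.sum_prod_type, Fintype.sum_mul_sum]
    refine Finset.sum_congr rfl fun i _ => Finset.sum_congr rfl fun i' _ => ?_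
    have h4 : ∑ j, ((k i j + k' i' j : ℤ) : ℝ) * x j =
        ∑ j, (k i j : ℝ) * x j + ∑ j, (k' i' j : ℝ) * x j := by
      rw [← Finset.sum_add_distrib]
      refine Finset.sum_congr rfl fun j _ => ?_
      rw [Int.cast_add]
      ring
    rw [h4, ee_add]
    ring

theorem WC.abs_le {N : ℝ} {f : (Fin 6 → ℝ) → ℝ} (h : WC N f) (x : Fin 6 → ℝ) : |f x| ≤ N := by
  obtain ⟨ι, hι, c, k, hs, hf⟩ := h
  have h1 : |f x| = ‖((f x : ℝ) : ℂ)‖ := by
    rw [Complex.norm_real, Real.norm_eq_abs]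
  rw [h1, hf x]
  refine (norm_sum_le _ _).trans (le_trans (Finset.sum_le_sum fun i _ => ?_) hs)
  rw [norm_mul, norm_ee, mul_one]
  refine le_mul_of_one_le_right (norm_nonneg _) ?_
  exact Real.one_le_exp (Finset.sum_nonneg fun j _ => abs_nonneg _)

theorem WC.per {N : ℝ} {f : (Fin 6 → ℝ) → ℝ} (h : WC N f) : Per f := by
  obtain ⟨ι, hι, c, k, hs, hf⟩ := h
  intro m x
  apply Complex.ofReal_injective
  rw [hf (tr m x), hf x]
  refine Finset.sum_congr rfl fun i _ => ?_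
  have h1 : ∑ j, (k i j : ℝ) * tr m x j =
      ∑ j, (k i j : ℝ) * x j + ((∑ j, k i j * m j : ℤ) : ℝ) := by
    rw [Int.cast_sum, ← Finset.sum_add_distrib]
    refine Finset.sum_congr rfl fun j _ => ?_
    unfold Pool.Agent.MP_1a349f_an.tr
    rw [Int.cast_mul]
    ring
  rw [h1, ee_add, ee_int, mul_one]

theorem WC.cont {N : ℝ} {f : (Fin 6 → ℝ) → ℝ} (h : WC N f) : Continuous f := by
  obtain ⟨ι, hι, c, k, hs, hf⟩ := h
  have h1 : f = fun x => (∑ i, c i * ee (∑ j, (k i j : ℝ) * x j)).re := by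
    funext x
    rw [← hf x, Complex.ofReal_re]
  rw [h1]
  refine Complex.continuous_re.comp (continuous_finsetSum _ fun i _ => ?_)
  refine continuous_const.mul (continuous_ee.comp ?_)
  exact continuous_finsetSum _ fun j _ => continuous_const.mul (continuous_apply j)
-- END w1

-- BEGIN w2
private theorem w2_norm (i : Fin 3) :
    ∑ j : Fin 6, |(((if j = 2 then (![0, 1, -1] : Fin 3 → ℤ) i else 0 : ℤ) : ℤ) : ℝ)| =
      |(((![0, 1, -1] : Fin 3 → ℤ) i : ℤ) : ℝ)| := by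
  rw [Finset.sum_eq_single (2 : Fin 6)]
  · simp
  · intro j _ hj
    simp [hj]
  · intro h
    exact absurd (Finset.mem_univ _) h

private theorem w2_lin (i : Fin 3) (x : Fin 6 → ℝ) :
    ∑ j : Fin 6, (((if j = 2 then (![0, 1, -1] : Fin 3 → ℤ) i else 0 : ℤ) : ℤ) : ℝ) * x j =
      (((![0, 1, -1] : Fin 3 → ℤ) i : ℤ) : ℝ) * x 2 := by
  rw [Finset.sum_eq_single (2 : Fin 6)]
  · simp
  · intro j _ hj
    simp [hj]
  · intro h
    exact absurd (Finset.mem_univ _) h

theorem WC_sin {s : ℝ} (h0 : 0 ≤ s) (h1 : s ≤ 1) : WC 3 (fun x => sin (π * x 2) ^ 2 - s) := by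
  refine ⟨Fin 3, inferInstance, ![((1 / 2 - s : ℝ) : ℂ), -1 / 4, -1 / 4],
    fun i j => if j = 2 then (![0, 1, -1] : Fin 3 → ℤ) i else 0, ?_, ?_⟩
  · rw [Fin.sum_univ_three, w2_norm, w2_norm, w2_norm]
    have e1 : exp 1 < 2.7182818286 := exp_one_lt_d9
    have e2 : |1 / 2 - s| ≤ 1 / 2 := abs_le.mpr ⟨by linarith, by linarith⟩
    have e3 : ‖(-1 / 4 : ℂ)‖ = 1 / 4 := by
      rw [norm_div, norm_neg, norm_one]
      norm_num
    have e4 : ‖((1 / 2 - s : ℝ) : ℂ)‖ = |1 / 2 - s| := by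
      rw [Complex.norm_real, Real.norm_eq_abs]
    simp only [Matrix.cons_val_zero, Matrix.cons_val_one, Matrix.cons_val_two, Matrix.head_cons,
      Matrix.tail_cons, Int.cast_zero, Int.cast_one, Int.cast_neg, abs_zero,
      abs_neg, abs_one, exp_zero, mul_one]
    rw [e3, e4]
    linarith
  · intro x
    rw [Fin.sum_univ_three, w2_lin, w2_lin, w2_lin]
    simp only [Matrix.cons_val_zero, Matrix.cons_val_one, Matrix.cons_val_two, Matrix.head_cons,
      Matrix.tail_cons, Int.cast_zero, Int.cast_one, Int.cast_neg, zero_mul,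
      one_mul, ee_zero, mul_one, neg_mul]
    apply Complex.ext
    · have h5 : sin (π * x 2) ^ 2 = 1 / 2 - cos (2 * π * x 2) / 2 := by
        rw [sin_sq_eq_half_sub]
        ring_nf
      simp only [Complex.add_re, Complex.mul_re, Complex.ofReal_re, ee_re, ee_im]
      have h6 : (-1 / 4 : ℂ).re = -1 / 4 := by norm_num
      have h7 : (-1 / 4 : ℂ).im = 0 := by norm_num
      have h8 : cos (2 * π * -x 2) = cos (2 * π * x 2) := by
        rw [mul_neg, cos_neg]
      rw [h5]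
      simp only [h6, h7, h8]
      ring
    · have h7 : (-1 / 4 : ℂ).im = 0 := by norm_num
      have h6 : (-1 / 4 : ℂ).re = -1 / 4 := by norm_num
      have h8 : sin (2 * π * -x 2) = -sin (2 * π * x 2) := by
        rw [mul_neg, sin_neg]
      simp only [Complex.add_im, Complex.mul_im, Complex.ofReal_im, ee_re, ee_im]
      simp only [h6, h7, h8]
      ring

theorem WC_zt (m : ℕ) : WC (9 ^ m) (fun x => zt m (sin (π * x 2) ^ 2)) := by
  induction m with
  | zero =>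
    have h := WC.const 1
    have h2 : (fun x : Fin 6 → ℝ => zt 0 (sin (π * x 2) ^ 2)) = fun _ => 1 := by
      funext x
      simp [zt]
    rw [h2]
    exact h.mono (by norm_num)
  | succ m ih =>
    have h1 := WC_sin (sg_pos m).le (sg_lt_one m).le
    have h2 := h1.mul h1 (by norm_num)
    have h3 := ih.mul h2 (by positivity)
    have h4 : (fun x : Fin 6 → ℝ => zt (m + 1) (sin (π * x 2) ^ 2)) =
        fun x => zt m (sin (π * x 2) ^ 2) *
          ((sin (π * x 2) ^ 2 - sg m) * (sin (π * x 2) ^ 2 - sg m)) := by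
      funext x
      simp only [zt]
      rw [Finset.prod_range_succ]
      ring
    rw [h4]
    exact h3.mono (le_of_eq (by ring))
-- END w2

-- BEGIN w3
theorem WC_TP {D : ℕ} {N : ℝ} {g : ℝ → ℝ} (h : TP D N g) {q p : ℕ} (hpq : p ≤ q) :
    WC (N * exp (2 * D * q)) (fun x => g (q * x 1 - p * x 0)) := by
  obtain ⟨ι, hι, c, m, hm, hN, hg⟩ := h
  refine ⟨ι, hι, c, fun i => ![-(m i * p), m i * q, 0, 0, 0, 0], ?_, ?_⟩
  · have hpq' : (p : ℝ) ≤ q := by exact_mod_cast hpq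
    have key : ∀ i, ∑ j, |(((![-(m i * p), m i * q, 0, 0, 0, 0] : Fin 6 → ℤ) j : ℤ) : ℝ)| ≤
        2 * D * q := by
      intro i
      have h1 : |(m i : ℝ)| ≤ D := by
        have := (hm i).2
        exact_mod_cast this
      simp only [Fin.sum_univ_six, Matrix.cons_val_zero, Matrix.cons_val_one, Matrix.cons_val,
        Int.cast_neg, Int.cast_mul, Int.cast_natCast, Int.cast_zero, abs_zero, abs_neg, abs_mul,
        Nat.abs_cast, add_zero]
      have hq : (0 : ℝ) ≤ q := Nat.cast_nonneg q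
      have hp : (0 : ℝ) ≤ p := Nat.cast_nonneg p
      nlinarith [mul_le_mul_of_nonneg_right h1 hq, mul_le_mul_of_nonneg_right h1 hp,
        mul_le_mul_of_nonneg_left hpq' (Nat.cast_nonneg (α := ℝ) D)]
    calc ∑ i, ‖c i‖ * exp (∑ j, |(((![-(m i * p), m i * q, 0, 0, 0, 0] : Fin 6 → ℤ) j : ℤ) : ℝ)|)
        ≤ ∑ i, ‖c i‖ * exp (2 * D * q) := by
          refine Finset.sum_le_sum fun i _ => ?_
          exact mul_le_mul_of_nonneg_left (exp_le_exp.2 (key i)) (norm_nonneg _)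
      _ = (∑ i, ‖c i‖) * exp (2 * D * q) := by rw [Finset.sum_mul]
      _ ≤ N * exp (2 * D * q) := mul_le_mul_of_nonneg_right hN (exp_pos _).le
  · intro x
    rw [hg]
    refine Finset.sum_congr rfl fun i _ => ?_
    congr 2
    simp only [Fin.sum_univ_six, Matrix.cons_val_zero, Matrix.cons_val_one, Matrix.cons_val,
      Int.cast_neg, Int.cast_mul, Int.cast_natCast, Int.cast_zero, zero_mul, add_zero]
    ring
-- END w3

-- BEGIN w4
/-- sums of analytic functions with summable power series are analytic -/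
theorem analyticAt_tsum {E F : Type*} [NormedAddCommGroup E] [NormedSpace ℝ E]
    [NormedAddCommGroup F] [NormedSpace ℝ F] [CompleteSpace F] {ι : Type*} (f : ι → E → F)
    (p : ι → FormalMultilinearSeries ℝ E F) (x : E) {r : ℝ≥0} (hr : 0 < r)
    (hf : ∀ i, ∀ y, ‖y‖ < r → HasSum (fun n => p i n fun _ => y) (f i (x + y))) (b : ι → ℝ)
    (hb : Summable b) (hs : ∀ i, Summable fun n => ‖p i n‖ * (r : ℝ) ^ n)
    (hle : ∀ i, ∑' n, ‖p i n‖ * (r : ℝ) ^ n ≤ b i) :
    AnalyticAt ℝ (fun y => ∑' i, f i y) x := by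
  have hr0 : (0 : ℝ) < r := hr
  have hterm : ∀ i n, ‖p i n‖ * (r : ℝ) ^ n ≤ b i := fun i n =>
    ((hs i).le_tsum n (fun _ _ => by positivity)).trans (hle i)
  have hb0 : ∀ i, 0 ≤ b i := fun i => le_trans (by positivity) (hterm i 0)
  have hsumn : ∀ n, Summable fun i => ‖p i n‖ := by
    intro n
    refine Summable.of_nonneg_of_le (fun i => norm_nonneg _) (fun i => ?_)
      (hb.mul_right ((r : ℝ) ^ n)⁻¹)
    rw [← div_eq_mul_inv, le_div_iff₀ (pow_pos hr0 n)]
    exact hterm i n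
  have hsumn' : ∀ n, Summable fun i => p i n := fun n => (hsumn n).of_norm
  set P : FormalMultilinearSeries ℝ E F := fun n => ∑' i, p i n with hP
  have hrad : (r : ℝ≥0∞) ≤ P.radius := by
    refine P.le_radius_of_bound (∑' i, b i) (fun n => ?_)
    have h1 : ‖P n‖ ≤ ∑' i, ‖p i n‖ := norm_tsum_le_tsum_norm (hsumn n)
    calc ‖P n‖ * (r : ℝ) ^ n ≤ (∑' i, ‖p i n‖) * (r : ℝ) ^ n :=
          mul_le_mul_of_nonneg_right h1 (by positivity)
      _ = ∑' i, ‖p i n‖ * (r : ℝ) ^ n := by rw [tsum_mul_right]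
      _ ≤ ∑' i, b i := Summable.tsum_le_tsum (fun i => hterm i n)
          ((hsumn n).mul_right _) hb
  have hball : HasFPowerSeriesOnBall (fun y => ∑' i, f i y) P x r := by
    refine ⟨hrad, by exact_mod_cast hr, ?_⟩
    intro y hy
    have hy' : ‖y‖ < r := by
      rw [Metric.mem_eball, edist_zero_right] at hy
      have : ‖y‖ₑ < (r : ℝ≥0∞) := hy
      rw [enorm_lt_coe] at this
      exact this
    -- the double family
    have hbound : ∀ i n, ‖p i n fun _ => y‖ ≤ ‖p i n‖ * (r : ℝ) ^ n := by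
      intro i n
      refine ((p i n).le_opNorm _).trans ?_
      rw [Finset.prod_const, Finset.card_univ, Fintype.card_fin]
      exact mul_le_mul_of_nonneg_left
        (pow_le_pow_left₀ (norm_nonneg _) hy'.le n) (norm_nonneg _)
    have hsum2 : Summable fun q : ι × ℕ => ‖p q.1 q.2‖ * (r : ℝ) ^ q.2 := by
      rw [summable_prod_of_nonneg (fun q => by positivity)]
      refine ⟨fun i => hs i, ?_⟩
      exact Summable.of_nonneg_of_le (fun i => tsum_nonneg (fun n => by positivity)) hle hb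
    have hsum3 : Summable fun q : ι × ℕ => p q.1 q.2 fun _ => y :=
      Summable.of_norm_bounded hsum2 (fun q => hbound q.1 q.2)
    obtain ⟨S, hS⟩ := hsum3
    have h1 : HasSum (fun i => f i (x + y)) S :=
      hS.prod_fiberwise (fun i => hf i y hy')
    have h2 : HasSum (fun q : ℕ × ι => p q.2 q.1 fun _ => y) S :=
      (Equiv.prodComm ℕ ι).hasSum_iff.2 hS
    have h3 : ∀ n, HasSum (fun i => p i n fun _ => y) (P n fun _ => y) := by
      intro n
      have h4 := (hsumn' n).hasSum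
      exact h4.mapL (ContinuousMultilinearMap.apply ℝ (fun _ : Fin n => E) F (fun _ => y))
    have h5 : HasSum (fun n => P n fun _ => y) S := h2.prod_fiberwise h3
    have h6 : (∑' i, f i (x + y)) = S := h1.tsum_eq
    show HasSum (fun n => P n fun _ => y) (∑' i, f i (x + y))
    rw [h6]
    exact h5
  exact hball.analyticAt
-- END w4

-- BEGIN w5
/-- the power series of an exponential of a linear form -/
theorem exp_series {E : Type*} [NormedAddCommGroup E] [NormedSpace ℝ E] (L : E →L[ℝ] ℂ) (c : ℂ)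
    (x : E) : ∃ p : FormalMultilinearSeries ℝ E ℂ,
    (∀ n, ‖p n‖ ≤ ‖c * Complex.exp (L x)‖ * ‖L‖ ^ n / n.factorial) ∧
    ∀ y, HasSum (fun n => p n fun _ => y) (c * Complex.exp (L (x + y))) := by
  refine ⟨fun n => ((c * Complex.exp (L x)) / (n.factorial : ℂ)) •
    (ContinuousMultilinearMap.mkPiAlgebraFin ℝ n ℂ).compContinuousLinearMap (fun _ => L),
    fun n => ?_, fun y => ?_⟩
  · rw [norm_smul, norm_div, Complex.norm_natCast]
    have h1 : ‖(ContinuousMultilinearMap.mkPiAlgebraFin ℝ n ℂ).compContinuousLinearMap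
        (fun _ => L)‖ ≤ ‖L‖ ^ n := by
      refine (ContinuousMultilinearMap.norm_compContinuousLinearMap_le _ _).trans ?_
      rw [ContinuousMultilinearMap.norm_mkPiAlgebraFin, one_mul]
      simp
    calc ‖c * Complex.exp (L x)‖ / (n.factorial : ℝ) *
          ‖(ContinuousMultilinearMap.mkPiAlgebraFin ℝ n ℂ).compContinuousLinearMap (fun _ => L)‖
        ≤ ‖c * Complex.exp (L x)‖ / (n.factorial : ℝ) * ‖L‖ ^ n :=
          mul_le_mul_of_nonneg_left h1 (by positivity)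
      _ = ‖c * Complex.exp (L x)‖ * ‖L‖ ^ n / n.factorial := by ring
  · have h2 := NormedSpace.expSeries_div_hasSum_exp (L y)
    rw [← Complex.exp_eq_exp_ℂ] at h2
    have h3 := h2.mul_left (c * Complex.exp (L x))
    rw [map_add, Complex.exp_add, ← mul_assoc]
    refine h3.congr_fun ?_
    intro n
    change ((c * Complex.exp (L x)) / (n.factorial : ℂ)) •
      ((ContinuousMultilinearMap.mkPiAlgebraFin ℝ n ℂ).compContinuousLinearMap
        (fun _ => L)) (fun _ => y) = _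
    rw [ContinuousMultilinearMap.compContinuousLinearMap_apply,
      ContinuousMultilinearMap.mkPiAlgebraFin_apply, List.ofFn_const, List.prod_replicate,
      smul_eq_mul]
    ring
-- END w5

-- BEGIN w6
private noncomputable def w6_L (k : Fin 6 → ℤ) : (Fin 6 → ℝ) →L[ℝ] ℂ :=
  ((2 * π * Complex.I : ℂ) • Complex.ofRealCLM).comp
    (∑ j, (k j : ℝ) • ContinuousLinearMap.proj (R := ℝ) (φ := fun _ : Fin 6 => ℝ) j)

private theorem w6_L_apply (k : Fin 6 → ℤ) (x : Fin 6 → ℝ) :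
    w6_L k x = 2 * π * ((∑ j, k j * x j : ℝ) : ℂ) * Complex.I := by
  simp [w6_L]
  ring

private theorem w6_exp (k : Fin 6 → ℤ) (x : Fin 6 → ℝ) :
    Complex.exp (w6_L k x) = ee (∑ j, k j * x j) := by
  rw [w6_L_apply, ee]

private theorem w6_norm_exp (k : Fin 6 → ℤ) (x : Fin 6 → ℝ) : ‖Complex.exp (w6_L k x)‖ = 1 := by
  rw [w6_L_apply, Complex.norm_exp]
  simp

private theorem w6_norm (k : Fin 6 → ℤ) : ‖w6_L k‖ ≤ 7 * ∑ j, |(k j : ℝ)| := by
  have h0 : 0 ≤ ∑ j, |(k j : ℝ)| := Finset.sum_nonneg fun j _ => abs_nonneg _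
  refine ContinuousLinearMap.opNorm_le_bound _ (by positivity) fun x => ?_
  rw [w6_L_apply]
  have h1 : ‖(2 * π * ((∑ j, k j * x j : ℝ) : ℂ) * Complex.I : ℂ)‖ = 2 * π * |∑ j, k j * x j| := by
    have hπ : ‖(π : ℂ)‖ = π := by rw [Complex.norm_real, Real.norm_eq_abs, abs_of_pos pi_pos]
    have h2 : ‖(2 : ℂ)‖ = 2 := by norm_num
    rw [norm_mul, norm_mul, norm_mul, Complex.norm_I, hπ, Complex.norm_real, h2, Real.norm_eq_abs,
      mul_one]
  rw [h1]
  have h2 : |∑ j, k j * x j| ≤ (∑ j, |(k j : ℝ)|) * ‖x‖ := by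
    refine (Finset.abs_sum_le_sum_abs _ _).trans ?_
    rw [Finset.sum_mul]
    refine Finset.sum_le_sum fun j _ => ?_
    rw [abs_mul]
    exact mul_le_mul_of_nonneg_left (by simpa using norm_le_pi_norm x j) (abs_nonneg _)
  have h3 : 2 * π ≤ 7 := by have := pi_lt_d2; linarith
  calc 2 * π * |∑ j, k j * x j| ≤ 7 * ((∑ j, |(k j : ℝ)|) * ‖x‖) :=
        mul_le_mul h3 h2 (abs_nonneg _) (by norm_num)
    _ = _ := by ring

/-- a sum of finite Fourier sums with summable weighted coefficient sums is analytic -/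
theorem analytic_of_WC {f : ℕ → (Fin 6 → ℝ) → ℝ} {b : ℕ → ℝ} (hf : ∀ m, WC (b m) (f m))
    (hb : Summable b) : AnalyticOnNhd ℝ (fun x => ∑' m, f m x) univ := by
  intro x _
  choose ι hι c k hN hfx using hf
  have hS : ∀ m i, ∃ p : FormalMultilinearSeries ℝ (Fin 6 → ℝ) ℂ,
      (∀ n, ‖p n‖ ≤ ‖c m i‖ * (7 * ∑ j, |(k m i j : ℝ)|) ^ n / n.factorial) ∧
      ∀ y, HasSum (fun n => p n fun _ => y) (c m i * ee (∑ j, k m i j * (x + y) j)) := by
    intro m i
    obtain ⟨p, hp1, hp2⟩ := exp_series (w6_L (k m i)) (c m i) x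
    refine ⟨p, fun n => (hp1 n).trans ?_, fun y => ?_⟩
    · rw [norm_mul, w6_norm_exp, mul_one]
      have := pow_le_pow_left₀ (norm_nonneg _) (w6_norm (k m i)) n
      gcongr
    · rw [← w6_exp]; exact hp2 y
  choose p hp1 hp2 using hS
  have hr : (0 : ℝ≥0) < 1 / 7 := by norm_num
  have key : ∀ m i n, ‖p m i n‖ * (((1 / 7 : ℝ≥0) : ℝ)) ^ n ≤
      ‖c m i‖ * ((∑ j, |(k m i j : ℝ)|) ^ n / n.factorial) := by
    intro m i n
    have h1 := mul_le_mul_of_nonneg_right (hp1 m i n) (by positivity : (0:ℝ) ≤ (((1 / 7 : ℝ≥0) : ℝ)) ^ n)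
    refine h1.trans (le_of_eq ?_)
    have h7 : (((1 / 7 : ℝ≥0) : ℝ)) = 1 / 7 := by norm_num
    rw [h7, mul_pow, div_pow, one_pow]
    have : (7 : ℝ) ^ n ≠ 0 := by positivity
    field_simp
  have hsumE : ∀ m i, HasSum (fun n : ℕ => ‖c m i‖ * ((∑ j, |(k m i j : ℝ)|) ^ n / n.factorial))
      (‖c m i‖ * exp (∑ j, |(k m i j : ℝ)|)) := by
    intro m i
    refine HasSum.mul_left _ ?_
    rw [Real.exp_eq_exp_ℝ]
    exact NormedSpace.expSeries_div_hasSum_exp (𝔸 := ℝ) _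
  have hsum1 : ∀ m, HasSum (fun n : ℕ => ∑ i, ‖c m i‖ * ((∑ j, |(k m i j : ℝ)|) ^ n / n.factorial))
      (∑ i, ‖c m i‖ * exp (∑ j, |(k m i j : ℝ)|)) := fun m => hasSum_sum fun i _ => hsumE m i
  have hkey2 : ∀ m n, ‖∑ i, p m i n‖ * (((1 / 7 : ℝ≥0) : ℝ)) ^ n ≤
      ∑ i, ‖c m i‖ * ((∑ j, |(k m i j : ℝ)|) ^ n / n.factorial) := by
    intro m n
    calc ‖∑ i, p m i n‖ * (((1 / 7 : ℝ≥0) : ℝ)) ^ n
        ≤ (∑ i, ‖p m i n‖) * (((1 / 7 : ℝ≥0) : ℝ)) ^ n :=
          mul_le_mul_of_nonneg_right (norm_sum_le _ _) (by positivity)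
      _ = ∑ i, ‖p m i n‖ * (((1 / 7 : ℝ≥0) : ℝ)) ^ n := Finset.sum_mul _ _ _
      _ ≤ _ := Finset.sum_le_sum fun i _ => key m i n
  have hsumm : ∀ m, Summable fun n => ‖∑ i, p m i n‖ * (((1 / 7 : ℝ≥0) : ℝ)) ^ n := fun m =>
    Summable.of_nonneg_of_le (fun n => by positivity) (hkey2 m) (hsum1 m).summable
  have hA : AnalyticAt ℝ (fun y => ∑' m, (f m y : ℂ)) x := by
    refine analyticAt_tsum (fun m y => (f m y : ℂ)) (fun m n => ∑ i, p m i n) x hr ?_ b hb hsumm ?_
    · intro m y _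
      have h1 : HasSum (fun n => ∑ i, (p m i n fun _ => y))
          (∑ i, c m i * ee (∑ j, k m i j * (x + y) j)) := hasSum_sum fun i _ => hp2 m i y
      have h2 : (fun n => (∑ i, p m i n) fun _ => y) = fun n => ∑ i, (p m i n fun _ => y) := by
        funext n
        simp
      simp only [h2, hfx m (x + y)]
      exact h1
    · intro m
      refine (hsumm m).tsum_le_tsum (hkey2 m) (hsum1 m).summable |>.trans ?_
      rw [(hsum1 m).tsum_eq]
      exact hN m
  have hre : (fun y => ∑' m, f m y) = fun y => Complex.reCLM (∑' m, (f m y : ℂ)) := by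
    funext y
    rw [← Complex.ofReal_tsum]
    simp
  rw [hre]
  exact (Complex.reCLM.analyticAt _).comp hA
-- END w6

/-- the `m`-th term of `R` -/
noncomputable def Tm (m : ℕ) (x y s : ℝ) : ℝ := zt m (sin (π * s) ^ 2) * GG m (qq m * y - pp m * x)

/-- the resonant term -/
noncomputable def RR (x y s : ℝ) : ℝ := ∑' m, Tm m x y s

-- BEGIN r1
theorem Tm_WC (m : ℕ) : WC ((1 / 2) ^ (m + 1)) (fun z => Tm m (z 0) (z 1) (z 2)) :=
  ((WC_zt m).mul (WC_TP (GG_TP m) (pp_le m)) (by positivity)).mono (W_small m)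

theorem Tm_le (m : ℕ) (x y s : ℝ) : |Tm m x y s| ≤ (1 / 2) ^ (m + 1) := by
  have h := (Tm_WC m).abs_le ![x, y, s, 0, 0, 0]
  simpa using h

theorem r1_summable : Summable fun m : ℕ => (1 / 2 : ℝ) ^ (m + 1) :=
  (summable_nat_add_iff (f := fun m : ℕ => (1 / 2 : ℝ) ^ m) 1).2 summable_geometric_two

theorem r1_tsum : ∑' m : ℕ, (1 / 2 : ℝ) ^ (m + 1) = 1 := by
  have h := (summable_geometric_two).tsum_eq_zero_add
  rw [tsum_geometric_two] at h
  simp only [pow_zero] at h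
  linarith

theorem summable_Tm (x y s : ℝ) : Summable fun m => Tm m x y s :=
  Summable.of_norm_bounded r1_summable fun m => by
    rw [Real.norm_eq_abs]; exact Tm_le m x y s

theorem RR_le (x y s : ℝ) : |RR x y s| ≤ 1 := by
  rw [← r1_tsum, ← Real.norm_eq_abs]
  exact tsum_of_norm_bounded r1_summable.hasSum fun m => by
    rw [Real.norm_eq_abs]; exact Tm_le m x y s

theorem RR_analytic : AnalyticOnNhd ℝ (fun z : Fin 6 → ℝ => RR (z 0) (z 1) (z 2)) univ :=
  analytic_of_WC Tm_WC r1_summable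

theorem RR_per : Per (fun z : Fin 6 → ℝ => RR (z 0) (z 1) (z 2)) := by
  intro k x
  exact tsum_congr fun m => (Tm_WC m).per k x

theorem RR_cont : Continuous (fun p : ℝ × ℝ × ℝ => RR p.1 p.2.1 p.2.2) := by
  have h1 : Continuous (fun z : Fin 6 → ℝ => RR (z 0) (z 1) (z 2)) := by
    rw [← continuousOn_univ]; exact RR_analytic.continuousOn
  have h2 : Continuous (fun p : ℝ × ℝ × ℝ => (![p.1, p.2.1, p.2.2, 0, 0, 0] : Fin 6 → ℝ)) := by
    refine continuous_pi fun i => ?_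
    fin_cases i <;> simp <;> fun_prop
  have h3 := h1.comp h2
  simpa [Function.comp_def] using h3
-- END r1

-- BEGIN r2
/-- at level `n` the terms of index larger than `n` vanish -/
theorem RR_level {n : ℕ} {s : ℝ} (hs : sin (π * s) ^ 2 = sg n) (x y : ℝ) :
    RR x y s = fl GG n (qq n * y - pp n * x) x + zt n (sg n) * GG n (qq n * y - pp n * x) := by
  have h1 : RR x y s = ∑ m ∈ Finset.range (n + 1), Tm m x y s := by
    refine tsum_eq_sum fun m hm => ?_
    have : n < m := by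
      rw [Finset.mem_range] at hm; omega
    rw [Tm, hs, zt_zero this, zero_mul]
  rw [h1, Finset.sum_range_succ, fl]
  congr 1
  · refine Finset.sum_congr rfl fun m _ => ?_
    rw [Tm, hs]
    congr 2
    have hq : (qq n : ℝ) ≠ 0 := by
      have h := qq_pos n
      have : 0 < qq n := by omega
      exact_mod_cast this.ne'
    rw [dl_eq, rn_eq]
    field_simp
    ring
  · rw [Tm, hs]
-- END r2

-- BEGIN r3
private theorem r3_term {s : ℝ} (hs : ∀ n, sin (π * s) ^ 2 ≠ sg n) (m : ℕ) :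
    ∃ C, ∀ x y t, |∫ r in (0 : ℝ)..t,
      Tm m (x + r) (y + (rho - sin (π * s) ^ 2 / 10) * r) s| ≤ C := by
  obtain ⟨C, hC⟩ := TP.average' (GG_TP m) (detuned (hs m))
  refine ⟨|zt m (sin (π * s) ^ 2)| * C, fun x y t => ?_⟩
  have h1 : ∀ r : ℝ, Tm m (x + r) (y + (rho - sin (π * s) ^ 2 / 10) * r) s =
      zt m (sin (π * s) ^ 2) * GG m ((qq m * y - pp m * x) +
        ((qq m : ℝ) * (rho - sin (π * s) ^ 2 / 10) - pp m) * r) := by
    intro r
    unfold Tm
    congr 2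
    ring
  have h2 : (∫ r in (0 : ℝ)..t, Tm m (x + r) (y + (rho - sin (π * s) ^ 2 / 10) * r) s) =
      zt m (sin (π * s) ^ 2) * ∫ r in (0 : ℝ)..t, GG m ((qq m * y - pp m * x) +
        ((qq m : ℝ) * (rho - sin (π * s) ^ 2 / 10) - pp m) * r) := by
    rw [← intervalIntegral.integral_const_mul]
    exact intervalIntegral.integral_congr fun r _ => h1 r
  rw [h2, abs_mul]
  exact mul_le_mul_of_nonneg_left (hC _ _) (abs_nonneg _)

private theorem r3_cont (m : ℕ) (x y v s : ℝ) :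
    Continuous fun r : ℝ => Tm m (x + r) (y + v * r) s := by
  have h := (TP.toTQ (GG_TP m)).contDiff.continuous
  unfold Tm
  exact continuous_const.mul (h.comp (by fun_prop))

private theorem r3_tail (M : ℕ) (x y s : ℝ) :
    |RR x y s - ∑ m ∈ Finset.range M, Tm m x y s| ≤ (1 / 2) ^ M := by
  have h0 := (summable_Tm x y s).sum_add_tsum_nat_add M
  have h1 : RR x y s - ∑ m ∈ Finset.range M, Tm m x y s = ∑' m, Tm (m + M) x y s := by
    unfold RR
    linarith
  have h2 : HasSum (fun m : ℕ => (1 / 2 : ℝ) ^ M * ((1 / 2) ^ m / 2)) ((1 / 2) ^ M * 1) := by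
    refine HasSum.mul_left _ ?_
    have h := hasSum_geometric_two.div_const (2 : ℝ)
    simpa using h
  have h3 : ‖∑' m, Tm (m + M) x y s‖ ≤ (1 / 2) ^ M * 1 := by
    refine tsum_of_norm_bounded h2 fun m => ?_
    rw [Real.norm_eq_abs]
    refine (Tm_le (m + M) x y s).trans (le_of_eq ?_)
    rw [pow_succ, pow_add]
    ring
  rw [h1, ← Real.norm_eq_abs]
  simpa using h3

/-- averages of `R` at nonresonant levels vanish -/
theorem RR_average {s : ℝ} (hs : ∀ n, sin (π * s) ^ 2 ≠ sg n) {ε : ℝ} (hε : 0 < ε) :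
    ∃ C, ∀ x y t, 0 ≤ t →
      |∫ r in (0 : ℝ)..t, RR (x + r) (y + (rho - sin (π * s) ^ 2 / 10) * r) s| ≤ ε * t + C := by
  obtain ⟨M, hM⟩ := exists_pow_lt_of_lt_one hε (by norm_num : (1 / 2 : ℝ) < 1)
  choose C hC using fun m => r3_term hs m
  refine ⟨∑ m ∈ Finset.range M, C m, fun x y t ht => ?_⟩
  have hcR : Continuous fun r : ℝ => RR (x + r) (y + (rho - sin (π * s) ^ 2 / 10) * r) s :=
    RR_cont.comp (g := fun p : ℝ × ℝ × ℝ => RR p.1 p.2.1 p.2.2)
      (f := fun r : ℝ => (x + r, y + (rho - sin (π * s) ^ 2 / 10) * r, s)) (by fun_prop)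
  have hcT : ∀ m, Continuous fun r : ℝ =>
      Tm m (x + r) (y + (rho - sin (π * s) ^ 2 / 10) * r) s :=
    fun m => r3_cont m x y _ s
  have hcS : Continuous fun r : ℝ => ∑ m ∈ Finset.range M,
      Tm m (x + r) (y + (rho - sin (π * s) ^ 2 / 10) * r) s :=
    continuous_finsetSum _ fun m _ => hcT m
  have e1 : (∫ r in (0 : ℝ)..t, RR (x + r) (y + (rho - sin (π * s) ^ 2 / 10) * r) s) =
      (∫ r in (0 : ℝ)..t, (RR (x + r) (y + (rho - sin (π * s) ^ 2 / 10) * r) s -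
        ∑ m ∈ Finset.range M, Tm m (x + r) (y + (rho - sin (π * s) ^ 2 / 10) * r) s)) +
      ∑ m ∈ Finset.range M, ∫ r in (0 : ℝ)..t,
        Tm m (x + r) (y + (rho - sin (π * s) ^ 2 / 10) * r) s := by
    rw [intervalIntegral.integral_sub (hcR.intervalIntegrable _ _) (hcS.intervalIntegrable _ _),
      intervalIntegral.integral_finsetSum fun m _ => (hcT m).intervalIntegrable _ _]
    ring
  have e2 : ‖∫ r in (0 : ℝ)..t, (RR (x + r) (y + (rho - sin (π * s) ^ 2 / 10) * r) s -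
        ∑ m ∈ Finset.range M, Tm m (x + r) (y + (rho - sin (π * s) ^ 2 / 10) * r) s)‖ ≤
      (1 / 2) ^ M * |t - 0| :=
    intervalIntegral.norm_integral_le_of_norm_le_const fun r _ => by
      rw [Real.norm_eq_abs]
      exact r3_tail M _ _ s
  rw [sub_zero, abs_of_nonneg ht, Real.norm_eq_abs] at e2
  have e3 : |∑ m ∈ Finset.range M, ∫ r in (0 : ℝ)..t,
        Tm m (x + r) (y + (rho - sin (π * s) ^ 2 / 10) * r) s| ≤
      ∑ m ∈ Finset.range M, C m :=
    (Finset.abs_sum_le_sum_abs _ _).trans (Finset.sum_le_sum fun m _ => hC m x y t)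
  have e4 : (1 / 2) ^ M * t ≤ ε * t := mul_le_mul_of_nonneg_right hM.le ht
  rw [e1]
  exact (abs_add_le _ _).trans (by linarith)
-- END r3

end Pool.Agent.AnQ2
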