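import Mathlib
import Pool.Agent.AnQ2.Vf

/-!
# Averages of `V'` along solutions of the fibre equation (page, (6.6))
-/

namespace Pool.Agent.AnQ2

open Set Filter Topology Real MeasureTheory

theorem ratio_le (a b : ℝ) : (1 + a ^ 2) / (1 + b ^ 2) ≤ 2 * (1 + (a - b) ^ 2) := by
  have hb : 0 < 1 + b ^ 2 := by positivity
  rw [div_le_iff₀ hb]
  nlinarith [sq_nonneg (a - 2 * b), sq_nonneg b, sq_nonneg (a - b), mul_nonneg (sq_nonneg (a - b)) (sq_nonneg b)]

/-- the difference quotient of `V` -/
theorem ces_VV_sub (u v : ℝ) :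
    VV u - VV v = (u - v) * ((u + v) / ((1 + u ^ 2) * (1 + v ^ 2))) := by
  have hu : (1 + u ^ 2) ≠ 0 := by positivity
  have hv : (1 + v ^ 2) ≠ 0 := by positivity
  unfold VV
  field_simp
  ring

theorem ces_quot_le_one (u v : ℝ) : |(u + v) / ((1 + u ^ 2) * (1 + v ^ 2))| ≤ 1 := by
  have h : 0 < (1 + u ^ 2) * (1 + v ^ 2) := by positivity
  rw [abs_div, abs_of_pos h, div_le_one h, abs_le]
  constructor <;> nlinarith [sq_nonneg (u + 1), sq_nonneg (v + 1), sq_nonneg (u - 1),
    sq_nonneg (v - 1), mul_nonneg (sq_nonneg u) (sq_nonneg v)]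

/-- the exact form of the difference of two solutions -/
theorem ode_diff {B lam : ℝ} {f u0 u1 : ℝ → ℝ}
    (h0 : ∀ t, HasDerivAt u0 (B * VV (u0 t) - f t - lam) t)
    (h1 : ∀ t, HasDerivAt u1 (B * VV (u1 t) - f t - lam) t) (t : ℝ) :
    u1 t - u0 t = (u1 0 - u0 0) *
      exp (B * ∫ s in (0 : ℝ)..t, (u1 s + u0 s) / ((1 + u1 s ^ 2) * (1 + u0 s ^ 2))) := by
  have c0 : Continuous u0 := continuous_iff_continuousAt.2 fun t => (h0 t).continuousAt
  have c1 : Continuous u1 := continuous_iff_continuousAt.2 fun t => (h1 t).continuousAt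
  set g : ℝ → ℝ := fun s => (u1 s + u0 s) / ((1 + u1 s ^ 2) * (1 + u0 s ^ 2)) with hg
  have cg : Continuous g := by
    rw [hg]
    exact (c1.add c0).div ((continuous_const.add (c1.pow 2)).mul (continuous_const.add (c0.pow 2)))
      (fun s => by positivity)
  set I : ℝ → ℝ := fun t => ∫ s in (0 : ℝ)..t, g s with hI
  have hId : ∀ t, HasDerivAt I (g t) t := fun t =>
    intervalIntegral.integral_hasDerivAt_right (cg.intervalIntegrable _ _)
      (cg.stronglyMeasurableAtFilter _ _) cg.continuousAt
  have key : ∀ t, HasDerivAt (fun t => (u1 t - u0 t) * exp (-(B * I t))) 0 t := by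
    intro t
    have e1 := ((h1 t).sub (h0 t))
    have e2 : HasDerivAt (fun t => exp (-(B * I t))) (exp (-(B * I t)) * (-(B * g t))) t :=
      (((hId t).const_mul B).neg).exp
    have e3 := e1.mul e2
    refine e3.congr_deriv ?_
    have e4 : B * VV (u1 t) - f t - lam - (B * VV (u0 t) - f t - lam)
        = B * ((u1 t - u0 t) * g t) := by
      have := ces_VV_sub (u1 t) (u0 t)
      rw [hg]
      linear_combination B * this
    simp only [Pi.sub_apply]
    rw [e4]
    ring
  have hconst : (u1 t - u0 t) * exp (-(B * I t)) = (u1 0 - u0 0) * exp (-(B * I 0)) :=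
    is_const_of_deriv_eq_zero (fun t => (key t).differentiableAt) (fun t => (key t).deriv) t 0
  have hI0 : I 0 = 0 := by simp [hI]
  rw [hI0] at hconst
  have h3 : exp (-(B * I t)) * exp (B * I t) = 1 := by
    rw [← exp_add]; simp
  calc u1 t - u0 t = (u1 t - u0 t) * exp (-(B * I t)) * exp (B * I t) := by
        rw [mul_assoc, h3, mul_one]
    _ = (u1 0 - u0 0) * exp (B * I t) := by rw [hconst]; simp

theorem ode_gronwall {B lam : ℝ} {f u0 u1 : ℝ → ℝ}
    (h0 : ∀ t, HasDerivAt u0 (B * VV (u0 t) - f t - lam) t)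
    (h1 : ∀ t, HasDerivAt u1 (B * VV (u1 t) - f t - lam) t) (t : ℝ) :
    |u1 t - u0 t| ≤ |u1 0 - u0 0| * exp (|B| * |t|) := by
  rw [ode_diff h0 h1 t, abs_mul, abs_exp]
  apply mul_le_mul_of_nonneg_left _ (abs_nonneg _)
  apply exp_le_exp.2
  refine (le_abs_self _).trans ?_
  rw [abs_mul]
  apply mul_le_mul_of_nonneg_left _ (abs_nonneg _)
  have := intervalIntegral.norm_integral_le_of_norm_le_const (a := 0) (b := t) (C := 1)
    (f := fun s => (u1 s + u0 s) / ((1 + u1 s ^ 2) * (1 + u0 s ^ 2)))
    (fun s _ => by rw [Real.norm_eq_abs]; exact ces_quot_le_one _ _)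
  rw [Real.norm_eq_abs, sub_zero, one_mul] at this
  exact this

/-- from period averages to all intervals -/
theorem ces_int {v : ℝ → ℝ} (hv : Continuous v) {C0 q : ℝ} (hq : 0 < q) (hC : ∀ x, |v x| ≤ C0)
    (h : Tendsto (fun k : ℕ => ∫ x in (k * q)..((k + 1) * q), v x) atTop (𝓝 0)) :
    ∀ δ > 0, ∃ C, ∀ s t, 0 ≤ s → s ≤ t → |∫ x in s..t, v x| ≤ δ * (t - s) + C := by
  intro δ hδ
  have hC0 : 0 ≤ C0 := (abs_nonneg _).trans (hC 0)
  have hδq : 0 < δ * q := mul_pos hδ hq
  rw [Metric.tendsto_atTop] at h
  obtain ⟨k0, hk0⟩ := h (δ * q) hδq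
  have hii : ∀ a b, IntervalIntegrable v volume a b := fun a b => hv.intervalIntegrable a b
  have hbd : ∀ a b : ℝ, |∫ x in a..b, v x| ≤ C0 * |b - a| := by
    intro a b
    have := intervalIntegral.norm_integral_le_of_norm_le_const (a := a) (b := b) (C := C0)
      (f := v) (fun s _ => by rw [Real.norm_eq_abs]; exact hC s)
    rwa [Real.norm_eq_abs] at this
  -- whole periods
  have hper : ∀ n k : ℕ, k0 ≤ k → |∫ x in (k * q)..((k + n : ℕ) * q), v x| ≤ δ * (n * q) := by
    intro n k hk
    induction n with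
    | zero => simp
    | succ n ih =>
      have h1 := hk0 (k + n) (by omega)
      rw [Real.dist_eq, sub_zero] at h1
      have h2 : ∫ x in (k * q)..((k + (n + 1) : ℕ) * q), v x
          = (∫ x in (k * q)..((k + n : ℕ) * q), v x)
            + ∫ x in (((k + n : ℕ) : ℝ) * q)..((((k + n : ℕ) : ℝ) + 1) * q), v x := by
        rw [intervalIntegral.integral_add_adjacent_intervals (hii _ _) (hii _ _)]
        congr 1
        push_cast; ring
      rw [h2]
      have h3 := abs_add_le (∫ x in (k * q)..((k + n : ℕ) * q), v x)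
        (∫ x in (((k + n : ℕ) : ℝ) * q)..((((k + n : ℕ) : ℝ) + 1) * q), v x)
      push_cast at h1 ih h3 ⊢
      nlinarith
  refine ⟨C0 * ((k0 + 1) * q) + C0 * q + C0 * q + δ * q, ?_⟩
  intro s t hs hst
  -- s' = max s (k0 q), and the period indices
  set s' : ℝ := max s (k0 * q) with hs'
  have hs's : s ≤ s' := le_max_left _ _
  have hs'k : k0 * q ≤ s' := le_max_right _ _
  by_cases hts : t ≤ s'
  · -- short interval or early
    have h4 : |∫ x in s..t, v x| ≤ C0 * |t - s| := hbd s t
    rw [abs_of_nonneg (sub_nonneg.2 hst)] at h4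
    by_cases h5 : t ≤ k0 * q
    · have h6 : C0 * (t - s) ≤ C0 * ((k0 + 1) * q) := by
        apply mul_le_mul_of_nonneg_left _ hC0
        nlinarith
      have : 0 ≤ δ * (t - s) := mul_nonneg hδ.le (sub_nonneg.2 hst)
      have : 0 ≤ C0 * q := by positivity
      linarith
    · have h7 : s' = s ∨ s' = k0 * q := by
        rcases max_choice s (k0 * q) with h | h
        · left; exact h
        · right; exact h
      rcases h7 with h7 | h7
      · have h8 : t = s := le_antisymm (by rw [h7] at hts; exact hts) hst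
        rw [h8]; simp only [intervalIntegral.integral_same, abs_zero, sub_self, mul_zero, zero_add]
        positivity
      · exact absurd (by rw [h7] at hts; exact hts) h5
  · have hts : s' < t := not_le.1 hts
    set i : ℕ := ⌈s' / q⌉₊ with hi
    set j : ℕ := ⌊t / q⌋₊ with hj
    have hs'0 : 0 ≤ s' := hs.trans hs's
    have i1 : s' ≤ i * q := by
      have := Nat.le_ceil (s' / q)
      rwa [div_le_iff₀ hq] at this
    have i2 : (i : ℝ) * q ≤ s' + q := by
      have := (Nat.ceil_lt_add_one (div_nonneg hs'0 hq.le)).le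
      have h9 : (i : ℝ) ≤ s' / q + 1 := this
      have := mul_le_mul_of_nonneg_right h9 hq.le
      rwa [add_mul, one_mul, div_mul_cancel₀ _ hq.ne'] at this
    have j1 : (j : ℝ) * q ≤ t := by
      have := Nat.floor_le (div_nonneg (hs.trans hst) hq.le)
      rwa [le_div_iff₀ hq] at this
    have j2 : t ≤ j * q + q := by
      have := (Nat.lt_floor_add_one (t / q)).le
      rw [div_le_iff₀ hq] at this
      linarith
    have ik : k0 ≤ i := by
      have h9 : (k0 : ℝ) * q ≤ i * q := hs'k.trans i1
      have h10 := le_of_mul_le_mul_right h9 hq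
      exact_mod_cast h10
    have hfirst : |∫ x in s..s', v x| ≤ C0 * (k0 * q) := by
      refine (hbd s s').trans ?_
      apply mul_le_mul_of_nonneg_left _ hC0
      rw [abs_of_nonneg (sub_nonneg.2 hs's)]
      rcases max_choice s (k0 * q) with h | h
      · have : s' = s := h
        rw [this, sub_self]; positivity
      · have : s' = k0 * q := h
        rw [this]; linarith
    have hsplit : ∀ a b c : ℝ, ∫ x in a..c, v x = (∫ x in a..b, v x) + ∫ x in b..c, v x :=
      fun a b c => (intervalIntegral.integral_add_adjacent_intervals (hii _ _) (hii _ _)).symm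
    by_cases hij : i ≤ j
    · have h11 := hper (j - i) i ik
      have h12 : ((i + (j - i) : ℕ) : ℝ) = j := by
        have : i + (j - i) = j := by omega
        exact_mod_cast this
      rw [h12] at h11
      have h13 : ((j - i : ℕ) : ℝ) = (j : ℝ) - i := by
        push_cast [Nat.cast_sub hij]; ring
      rw [h13] at h11
      have h14 : ∫ x in s..t, v x = (∫ x in s..s', v x) + ((∫ x in s'..(i * q), v x)
          + ((∫ x in (i * q)..(j * q), v x) + ∫ x in (j * q)..t, v x)) := by
        rw [hsplit s s' t, hsplit s' (i * q) t, hsplit (i * q) (j * q) t]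
      have h15 : |∫ x in s'..(i * q), v x| ≤ C0 * q := by
        refine (hbd _ _).trans ?_
        apply mul_le_mul_of_nonneg_left _ hC0
        rw [abs_of_nonneg (sub_nonneg.2 i1)]; linarith
      have h16 : |∫ x in (j * q)..t, v x| ≤ C0 * q := by
        refine (hbd _ _).trans ?_
        apply mul_le_mul_of_nonneg_left _ hC0
        rw [abs_of_nonneg (sub_nonneg.2 j1)]; linarith
      rw [h14]
      have h17 : δ * (((j : ℝ) - i) * q) ≤ δ * (t - s) := by
        apply mul_le_mul_of_nonneg_left _ hδ.le
        nlinarith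
      have h18 := abs_add_le (∫ x in s..s', v x) ((∫ x in s'..(i * q), v x)
          + ((∫ x in (i * q)..(j * q), v x) + ∫ x in (j * q)..t, v x))
      have h19 := abs_add_le (∫ x in s'..(i * q), v x)
        ((∫ x in (i * q)..(j * q), v x) + ∫ x in (j * q)..t, v x)
      have h20 := abs_add_le (∫ x in (i * q)..(j * q), v x) (∫ x in (j * q)..t, v x)
      have h21 : 0 ≤ C0 * q := by positivity
      have h22 : 0 ≤ C0 * (k0 * q) := by positivity
      nlinarith
    · have hji : (j : ℝ) + 1 ≤ i := by exact_mod_cast (not_le.1 hij)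
      have h23 : t - s' ≤ q := by nlinarith
      have h24 : |∫ x in s'..t, v x| ≤ C0 * q := by
        refine (hbd _ _).trans ?_
        apply mul_le_mul_of_nonneg_left _ hC0
        rw [abs_of_nonneg (sub_nonneg.2 hts.le)]; exact h23
      rw [hsplit s s' t]
      have h25 := abs_add_le (∫ x in s..s', v x) (∫ x in s'..t, v x)
      have h26 : 0 ≤ δ * (t - s) := mul_nonneg hδ.le (sub_nonneg.2 hst)
      have h21 : 0 ≤ C0 * q := by positivity
      have h27 : 0 < δ * q := hδq
      nlinarith

theorem ces_continuous_VD : Continuous VD := contDiff_VD.continuous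

/-- `V'` tends to `0` along an escaping path -/
theorem ces_VD_tendsto {l : Filter ℕ} {x : ℕ → ℝ} (h : Tendsto (fun k => |x k|) l atTop) :
    Tendsto (fun k => VD (x k)) l (𝓝 0) := by
  rw [Metric.tendsto_nhds]
  intro ε hε
  obtain ⟨K, hK, hK'⟩ := VD_small (half_pos hε)
  filter_upwards [h.eventually_ge_atTop K] with k hk
  rw [Real.dist_eq, sub_zero]
  exact (hK' _ hk).trans_lt (half_lt_self hε)

theorem ces_of_pointwise {u : ℝ → ℝ} (hu : Continuous u) {q : ℝ} (hq : 0 < q) {w : ℝ → ℝ}
    (h : ∀ t ∈ Icc 0 q, Tendsto (fun k : ℕ => VD (u (t + k * q))) atTop (𝓝 (w t)))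
    (hw : ∫ t in (0 : ℝ)..q, w t = 0) :
    ∀ δ > 0, ∃ C, ∀ s t, 0 ≤ s → s ≤ t → |∫ x in s..t, VD (u x)| ≤ δ * (t - s) + C := by
  apply ces_int (v := fun x => VD (u x)) (ces_continuous_VD.comp hu) hq (fun x => abs_VD_le_one _)
  have h1 : ∀ k : ℕ, ∫ x in (k * q)..((k + 1) * q), VD (u x)
      = ∫ t in (0 : ℝ)..q, VD (u (t + k * q)) := by
    intro k
    rw [intervalIntegral.integral_comp_add_right (fun x => VD (u x)) (k * q)]
    congr 1 <;> ring
  simp_rw [h1]
  suffices key : Tendsto (fun k : ℕ => ∫ t in (0 : ℝ)..q, VD (u (t + k * q))) atTop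
      (𝓝 (∫ t in (0 : ℝ)..q, w t)) by rwa [hw] at key
  apply intervalIntegral.tendsto_integral_filter_of_dominated_convergence (fun _ => (1 : ℝ))
  · filter_upwards with k
    exact ((ces_continuous_VD.comp hu).comp (continuous_id.add continuous_const)).aestronglyMeasurable
  · filter_upwards with k
    filter_upwards with t _
    rw [Real.norm_eq_abs]; exact abs_VD_le_one _
  · exact intervalIntegrable_const
  · filter_upwards with t ht
    rw [uIoc_of_le hq.le] at ht
    exact h t ⟨ht.1.le, ht.2⟩

/-- escaping solutions have zero average of `V'` -/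
theorem esc_avg {u : ℝ → ℝ} (hu : Continuous u) (h : Tendsto (fun t => |u t|) atTop atTop) :
    ∀ δ > 0, ∃ C, ∀ s t, 0 ≤ s → s ≤ t → |∫ x in s..t, VD (u x)| ≤ δ * (t - s) + C := by
  apply ces_of_pointwise hu one_pos (w := fun _ => 0)
  · intro t _
    apply ces_VD_tendsto
    have h2 : Tendsto (fun k : ℕ => t + k * (1 : ℝ)) atTop atTop := by
      apply tendsto_atTop_add_const_left
      simpa using tendsto_natCast_atTop_atTop
    exact h.comp h2
  · simp

/-- one half of `ret_avg`: the return values do not decrease -/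
theorem ret_avg_aux {B q lam : ℝ} (hq : 0 < q) {f u : ℝ → ℝ} (hf : Continuous f)
    (hper : ∀ t, f (t + q) = f t)
    (hu : ∀ t, HasDerivAt u (B * VV (u t) - f t - lam) t)
    (hcrit : ∀ w : ℝ → ℝ, (∀ t, HasDerivAt w (B * VV (w t) - f t - lam) t) →
      (∀ t, w (t + q) = w t) → ∫ t in (0 : ℝ)..q, VD (w t) = 0)
    (hmon : u 0 ≤ u q) :
    ∀ δ > 0, ∃ C, ∀ s t, 0 ≤ s → s ≤ t → |∫ x in s..t, VD (u x)| ≤ δ * (t - s) + C := by
  have cu : Continuous u := continuous_iff_continuousAt.2 fun t => (hu t).continuousAt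
  have hperk : ∀ (k : ℕ) t, f (t + k * q) = f t := by
    intro k
    induction k with
    | zero => intro t; simp
    | succ k ih =>
      intro t
      have : t + ((k + 1 : ℕ) : ℝ) * q = (t + q) + k * q := by push_cast; ring
      rw [this, ih, hper]
  set U : ℕ → ℝ → ℝ := fun k t => u (t + k * q) with hU
  have hUd : ∀ k t, HasDerivAt (U k) (B * VV (U k t) - f t - lam) t := by
    intro k t
    have h1 := (hu (t + k * q)).comp_add_const t (k * q)
    rw [hperk k t] at h1
    exact h1
  have hstep : ∀ k t, U (k + 1) t = U k (t + q) := by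
    intro k t
    simp only [hU]
    congr 1
    push_cast; ring
  -- monotone
  have hnext : ∀ k, ∃ c, 0 ≤ c ∧ U (k + 1) 0 - U k 0 = (u q - u 0) * c := by
    intro k
    have h0 := ode_diff hu (hUd 1) (k * q)
    refine ⟨exp (B * ∫ s in (0 : ℝ)..(k * q), (U 1 s + u s) / ((1 + U 1 s ^ 2) * (1 + u s ^ 2))),
      (exp_pos _).le, ?_⟩
    · have e1 : U (k + 1) 0 = U 1 (k * q) := by
        simp only [hU]; congr 1; push_cast; ring
      have e2 : U k 0 = u (k * q) := by simp only [hU]; congr 1; ring
      have e3 : U 1 0 = u q := by simp only [hU]; congr 1; push_cast; ring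
      rw [e1, e2, ← e3, h0]
  have hmono : Monotone (fun k => U k 0) := by
    apply monotone_nat_of_le_succ
    intro k
    obtain ⟨c, hc, h1⟩ := hnext k
    have : 0 ≤ (u q - u 0) * c := mul_nonneg (sub_nonneg.2 hmon) hc
    linarith
  rcases tendsto_of_monotone hmono with hinf | ⟨y, hy⟩
  · -- unbounded
    obtain ⟨Cf, hCf⟩ : ∃ Cf, ∀ t ∈ Icc 0 q, |f t| ≤ Cf := by
      obtain ⟨C, hC⟩ := isCompact_Icc.exists_bound_of_continuousOn (s := Icc 0 q) hf.continuousOn
      exact ⟨C, fun t ht => by have := hC t ht; rwa [Real.norm_eq_abs] at this⟩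
    apply ces_of_pointwise cu hq (w := fun _ => 0)
    · intro t ht
      apply ces_VD_tendsto
      have hlow : ∀ k, U k 0 - (|B| * 2 + Cf + |lam|) * q ≤ |U k t| := by
        intro k
        have hmv : ‖U k t - U k 0‖ ≤ (|B| * 2 + Cf + |lam|) * ‖t - 0‖ := by
          apply (convex_Icc (0:ℝ) q).norm_image_sub_le_of_norm_hasDerivWithin_le
            (f := U k) (f' := fun s => B * VV (U k s) - f s - lam)
          · intro s _; exact (hUd k s).hasDerivWithinAt
          · intro s hs
            rw [Real.norm_eq_abs]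
            have a1 : |B * VV (U k s)| ≤ |B| * 2 := by
              rw [abs_mul]
              apply mul_le_mul_of_nonneg_left _ (abs_nonneg _)
              rw [abs_of_nonneg (by linarith [one_le_VV (U k s)])]
              exact (VV_lt_two _).le
            have a2 := hCf s hs
            have a3 := abs_sub (B * VV (U k s) - f s) lam
            have a4 := abs_sub (B * VV (U k s)) (f s)
            linarith
          · exact ⟨le_rfl, hq.le⟩
          · exact ht
        rw [sub_zero, Real.norm_eq_abs, Real.norm_eq_abs, abs_of_nonneg ht.1] at hmv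
        have hCf0 : 0 ≤ Cf := (abs_nonneg _).trans (hCf 0 ⟨le_rfl, hq.le⟩)
        have a5 : (|B| * 2 + Cf + |lam|) * t ≤ (|B| * 2 + Cf + |lam|) * q :=
          mul_le_mul_of_nonneg_left ht.2 (by positivity)
        have a6 := (abs_le.1 hmv).1
        have a7 := le_abs_self (U k t)
        linarith
      apply tendsto_atTop_mono hlow
      exact tendsto_atTop_add_const_right _ _ hinf
    · simp
  · -- bounded: the limit is a periodic solution
    have hcau : ∀ t, ∃ w, Tendsto (fun k => U k t) atTop (𝓝 w) := by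
      intro t
      apply cauchySeq_tendsto_of_complete
      have hc0 : CauchySeq (fun k => U k 0) := hy.cauchySeq
      rw [Metric.cauchySeq_iff] at hc0 ⊢
      intro ε hε
      obtain ⟨N, hN⟩ := hc0 (ε / exp (|B| * |t|)) (div_pos hε (exp_pos _))
      refine ⟨N, fun m hm n hn => ?_⟩
      have h1 := ode_gronwall (hUd n) (hUd m) t
      have h2 := hN m hm n hn
      rw [Real.dist_eq] at h2 ⊢
      calc |U m t - U n t| ≤ |U m 0 - U n 0| * exp (|B| * |t|) := h1
        _ < ε / exp (|B| * |t|) * exp (|B| * |t|) := by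
            exact mul_lt_mul_of_pos_right h2 (exp_pos _)
        _ = ε := by field_simp
    choose w hw using hcau
    have hw0 : w 0 = y := tendsto_nhds_unique (hw 0) hy
    have hgr : ∀ k t, |U k t - w t| ≤ |U k 0 - w 0| * exp (|B| * |t|) := by
      intro k t
      have h1 : Tendsto (fun j => |U k t - U j t|) atTop (𝓝 |U k t - w t|) :=
        (tendsto_const_nhds.sub (hw t)).abs
      have h2 : Tendsto (fun j => |U k 0 - U j 0| * exp (|B| * |t|)) atTop
          (𝓝 (|U k 0 - w 0| * exp (|B| * |t|))) :=
        ((tendsto_const_nhds.sub (hw 0)).abs).mul_const _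
      exact le_of_tendsto_of_tendsto' h1 h2 (fun j => ode_gronwall (hUd j) (hUd k) t)
    have hwper : ∀ t, w (t + q) = w t := by
      intro t
      have h1 : Tendsto (fun k => U (k + 1) t) atTop (𝓝 (w t)) :=
        (tendsto_add_atTop_iff_nat 1).2 (hw t)
      have h2 : Tendsto (fun k => U (k + 1) t) atTop (𝓝 (w (t + q))) := by
        simp_rw [hstep]
        exact hw (t + q)
      exact tendsto_nhds_unique h2 h1
    have hwd : ∀ t, HasDerivAt w (B * VV (w t) - f t - lam) t := by
      intro t
      set R : ℝ := |t| + 1 with hR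
      have htR : t ∈ Ioo (-R) R := by
        rw [mem_Ioo, ← abs_lt, hR]; linarith
      have hunif : TendstoUniformlyOn (fun k s => B * VV (U k s) - f s - lam)
          (fun s => B * VV (w s) - f s - lam) atTop (Ioo (-R) R) := by
        rw [Metric.tendstoUniformlyOn_iff]
        intro ε hε
        have h3 : Tendsto (fun k => |B| * (|U k 0 - w 0| * exp (|B| * R))) atTop (𝓝 0) := by
          have h4 : Tendsto (fun k => |U k 0 - w 0|) atTop (𝓝 0) := by
            have := ((hw 0).sub_const (w 0)).abs
            simpa using this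
          have := (h4.mul_const (exp (|B| * R))).const_mul |B|
          simpa using this
        filter_upwards [h3.eventually_lt_const hε] with k hk s hs
        rw [Real.dist_eq]
        have h5 : B * VV (w s) - f s - lam - (B * VV (U k s) - f s - lam)
            = B * (VV (w s) - VV (U k s)) := by ring
        rw [h5, abs_mul]
        refine lt_of_le_of_lt ?_ hk
        apply mul_le_mul_of_nonneg_left _ (abs_nonneg _)
        refine (VV_lip _ _).trans ?_
        rw [abs_sub_comm]
        refine (hgr k s).trans ?_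
        apply mul_le_mul_of_nonneg_left _ (abs_nonneg _)
        apply exp_le_exp.2
        apply mul_le_mul_of_nonneg_left _ (abs_nonneg _)
        exact (abs_lt.2 hs).le
      exact hasDerivAt_of_tendstoUniformlyOn isOpen_Ioo hunif
        (Eventually.of_forall fun k s _ => hUd k s) (fun s _ => hw s) htR
    apply ces_of_pointwise cu hq (w := fun t => VD (w t))
    · intro t _
      exact (ces_continuous_VD.tendsto (w t)).comp (hw t)
    · exact hcrit w hwd hwper

theorem ces_VV_neg (u : ℝ) : VV (-u) = VV u := by unfold VV; simp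

theorem ces_VD_neg (u : ℝ) : VD (-u) = -VD u := by unfold VD; simp; ring

/-- **Cesaro**: if all periodic solutions of a periodic fibre equation are critical, then the
average of `V'` along every solution is zero. -/
theorem ret_avg {B q lam : ℝ} (hq : 0 < q) {f u : ℝ → ℝ} (hf : Continuous f)
    (hper : ∀ t, f (t + q) = f t)
    (hu : ∀ t, HasDerivAt u (B * VV (u t) - f t - lam) t)
    (hcrit : ∀ w : ℝ → ℝ, (∀ t, HasDerivAt w (B * VV (w t) - f t - lam) t) →
      (∀ t, w (t + q) = w t) → ∫ t in (0 : ℝ)..q, VD (w t) = 0) :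
    ∀ δ > 0, ∃ C, ∀ s t, 0 ≤ s → s ≤ t → |∫ x in s..t, VD (u x)| ≤ δ * (t - s) + C := by
  rcases le_total (u 0) (u q) with h | h
  · exact ret_avg_aux hq hf hper hu hcrit h
  · have key := ret_avg_aux (B := -B) (q := q) (lam := -lam) hq (f := fun t => -f t)
      (u := fun t => -u t) hf.neg (fun t => by simp only [hper])
      (fun t => by
        refine (hu t).neg.congr_deriv ?_
        rw [ces_VV_neg]; ring)
      (fun w hw hwp => by
        have h1 := hcrit (fun t => -w t) (fun t => by
          refine (hw t).neg.congr_deriv ?_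
          rw [ces_VV_neg]; ring) (fun t => by simp only [hwp])
        have h2 : ∫ t in (0 : ℝ)..q, VD (-w t) = -∫ t in (0 : ℝ)..q, VD (w t) := by
          rw [← intervalIntegral.integral_neg]
          congr 1; ext t; exact ces_VD_neg _
        rw [h2] at h1
        linarith)
      (by simpa using h)
    intro δ hδ
    obtain ⟨C, hC⟩ := key δ hδ
    refine ⟨C, fun s t hs hst => ?_⟩
    have h3 := hC s t hs hst
    have h4 : ∫ x in s..t, VD (-u x) = -∫ x in s..t, VD (u x) := by
      rw [← intervalIntegral.integral_neg]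
      congr 1; ext t; exact ces_VD_neg _
    rwa [h4, abs_neg] at h3

end Pool.Agent.AnQ2
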