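import Mathlib

/-!
# The kick functions of the horseshoe
-/

namespace Pool.Agent.AnQ2

open Real

noncomputable def kc : ℝ := 1 / ∫ t in (0 : ℝ)..1, cos (π * t) ^ 32

noncomputable def ka (t : ℝ) : ℝ := kc * cos (π * (t - 1 / 4)) ^ 32

noncomputable def kb (t : ℝ) : ℝ := kc * cos (π * (t - 3 / 4)) ^ 32

end Pool.Agent.AnQ2
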