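import Mathlib
import Pool.Agent.AnQ2.An
import Pool.Agent.AnQ2.Kick
import Pool.Agent.MP_1a349f_an.Equiv

/-!
# The vector fields (page, section 1)
-/

namespace Pool.Agent.AnQ2

open Set Filter Topology Real MeasureTheory
open scoped ContDiff NNReal ENNReal
open Pool.Agent.MP_1a349f_an

/-- the drift function of the fibre, as a function of the level coordinate -/
noncomputable def rz (s : ℝ) : ℝ := rho - sin (π * s) ^ 2 / 10

/-- the analytic field `X` on `ℝ^6` -/
noncomputable def XX (z : Fin 6 → ℝ) : Fin 6 → ℝ :=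
  ![1,
    cos (π * z 5) ^ 2 * √2 + sin (π * z 5) ^ 2 * rz (z 2),
    cos (π * z 5) ^ 2 * √3,
    cos (π * z 5) ^ 2 * (6 * ka (z 0) * sin (π * z 4) ^ 2) +
      sin (π * z 5) ^ 2 * (sin (π * z 3) ^ 2 * cos (π * z 4) ^ 2),
    cos (π * z 5) ^ 2 * (6 * kb (z 0) * sin (π * z 3) ^ 2) +
      sin (π * z 5) ^ 2 * (π⁻¹ * cos (π * z 4) ^ 2 *
        (sin (π * z 2) ^ 4 * (1 + sin (π * z 4) ^ 2) - RR (z 0) (z 1) (z 2))),
    sin (2 * π * z 5) ^ 2]

/-- the slow-down function -/
noncomputable def FF (z : Fin 6 → ℝ) : ℝ :=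
  (sin (π * z 0) ^ 2 + sin (π * z 1) ^ 2 + sin (π * z 2) ^ 2) / 12

/-- speed of the flow with positive entropy -/
noncomputable def hA (z : Fin 6 → ℝ) : ℝ :=
  FF z * cos (π * z 5) ^ 2 + FF z ^ 4 * sin (π * z 5) ^ 2

/-- speed of the flow with zero entropy -/
noncomputable def hB (z : Fin 6 → ℝ) : ℝ := FF z ^ 2

noncomputable def VA (z : Fin 6 → ℝ) : Fin 6 → ℝ := hA z • XX z

noncomputable def VB (z : Fin 6 → ℝ) : Fin 6 → ℝ := hB z • XX z

noncomputable def VF (z : Fin 6 → ℝ) : Fin 6 → ℝ := FF z • XX z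

-- BEGIN y1
private theorem y1_proj (i : Fin 6) (z : Fin 6 → ℝ) :
    AnalyticAt ℝ (fun z : Fin 6 → ℝ => z i) z :=
  (ContinuousLinearMap.proj (R := ℝ) (φ := fun _ : Fin 6 => ℝ) i).analyticAt z

private theorem y1_sin (c : ℝ) (i : Fin 6) (z : Fin 6 → ℝ) :
    AnalyticAt ℝ (fun z : Fin 6 → ℝ => sin (c * z i)) z :=
  AnalyticAt.fun_comp (g := Real.sin) analyticAt_sin (analyticAt_const.mul (y1_proj i z))

private theorem y1_cos (c : ℝ) (i : Fin 6) (z : Fin 6 → ℝ) :
    AnalyticAt ℝ (fun z : Fin 6 → ℝ => cos (c * z i)) z :=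
  AnalyticAt.fun_comp (g := Real.cos) analyticAt_cos (analyticAt_const.mul (y1_proj i z))

private theorem y1_cos' (c d : ℝ) (i : Fin 6) (z : Fin 6 → ℝ) :
    AnalyticAt ℝ (fun z : Fin 6 → ℝ => cos (c * (z i - d))) z :=
  AnalyticAt.fun_comp (g := Real.cos) analyticAt_cos
    (analyticAt_const.mul ((y1_proj i z).sub analyticAt_const))

private theorem y1_FF (z : Fin 6 → ℝ) : AnalyticAt ℝ FF z := by
  have h := ((((y1_sin π 0 z).pow 2).add ((y1_sin π 1 z).pow 2)).add
    ((y1_sin π 2 z).pow 2)).div_const (c := (12 : ℝ))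
  exact h

theorem XX_analytic : AnalyticOnNhd ℝ XX univ := by
  intro z _
  rw [analyticAt_pi_iff]
  intro i
  fin_cases i
  · exact analyticAt_const
  · exact (((y1_cos π 5 z).pow 2).mul analyticAt_const).add (((y1_sin π 5 z).pow 2).mul
      (analyticAt_const.sub (((y1_sin π 2 z).pow 2).div_const)))
  · exact ((y1_cos π 5 z).pow 2).mul analyticAt_const
  · exact (((y1_cos π 5 z).pow 2).mul ((analyticAt_const.mul (analyticAt_const.mul
      ((y1_cos' π (1 / 4) 0 z).pow 32))).mul ((y1_sin π 4 z).pow 2))).add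
      (((y1_sin π 5 z).pow 2).mul (((y1_sin π 3 z).pow 2).mul ((y1_cos π 4 z).pow 2)))
  · exact (((y1_cos π 5 z).pow 2).mul ((analyticAt_const.mul (analyticAt_const.mul
      ((y1_cos' π (3 / 4) 0 z).pow 32))).mul ((y1_sin π 3 z).pow 2))).add
      (((y1_sin π 5 z).pow 2).mul ((analyticAt_const.mul ((y1_cos π 4 z).pow 2)).mul
        ((((y1_sin π 2 z).pow 4).mul (analyticAt_const.add ((y1_sin π 4 z).pow 2))).sub
          (RR_analytic z (mem_univ _)))))
  · exact (y1_sin (2 * π) 5 z).pow 2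

theorem FF_analytic : AnalyticOnNhd ℝ FF univ := fun z _ => y1_FF z

theorem hA_analytic : AnalyticOnNhd ℝ hA univ := fun z _ =>
  ((y1_FF z).mul ((y1_cos π 5 z).pow 2)).add (((y1_FF z).pow 4).mul ((y1_sin π 5 z).pow 2))

theorem VA_analytic : AnalyticOnNhd ℝ VA univ := fun z hz =>
  (hA_analytic z hz).smul (XX_analytic z hz)

theorem VB_analytic : AnalyticOnNhd ℝ VB univ := fun z hz =>
  ((y1_FF z).pow 2).smul (XX_analytic z hz)

theorem VF_analytic : AnalyticOnNhd ℝ VF univ := fun z hz =>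
  (y1_FF z).smul (XX_analytic z hz)
-- END y1

-- BEGIN y2
theorem y2_one (k : ℤ) : ((-1 : ℝ) ^ k) ^ 2 = 1 := by
  rcases Int.even_or_odd k with h | h
  · rw [h.neg_one_zpow]; norm_num
  · rw [h.neg_one_zpow]; norm_num

theorem y2_sin (x : ℝ) (k : ℤ) : sin (π * (x + k)) ^ 2 = sin (π * x) ^ 2 := by
  rw [show π * (x + k) = π * x + k * π by ring, sin_add_int_mul_pi, mul_pow, y2_one, one_mul]

theorem y2_cos (x : ℝ) (k : ℤ) : cos (π * (x + k)) ^ 2 = cos (π * x) ^ 2 := by
  rw [show π * (x + k) = π * x + k * π by ring, cos_add_int_mul_pi, mul_pow, y2_one, one_mul]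

theorem XX_per : Per XX := by
  intro k x
  have hs : ∀ i, sin (π * tr k x i) ^ 2 = sin (π * x i) ^ 2 := fun i => y2_sin _ _
  have hc : ∀ i, cos (π * tr k x i) ^ 2 = cos (π * x i) ^ 2 := fun i => y2_cos _ _
  have hs4 : sin (π * tr k x 2) ^ 4 = sin (π * x 2) ^ 4 := by
    rw [show (4 : ℕ) = 2 * 2 from rfl, pow_mul, pow_mul, hs]
  have hR : RR (tr k x 0) (tr k x 1) (tr k x 2) = RR (x 0) (x 1) (x 2) := RR_per k x
  have ha : ka (tr k x 0) = ka (x 0) := by
    unfold ka
    rw [show (32 : ℕ) = 2 * 16 from rfl, pow_mul, pow_mul,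
      show tr k x 0 - 1 / 4 = (x 0 - 1 / 4) + (k 0 : ℤ) by simp only [tr]; ring, y2_cos]
  have hb : kb (tr k x 0) = kb (x 0) := by
    unfold kb
    rw [show (32 : ℕ) = 2 * 16 from rfl, pow_mul, pow_mul,
      show tr k x 0 - 3 / 4 = (x 0 - 3 / 4) + (k 0 : ℤ) by simp only [tr]; ring, y2_cos]
  have h5 : sin (2 * π * tr k x 5) ^ 2 = sin (2 * π * x 5) ^ 2 := by
    have h := y2_sin (2 * x 5) (2 * k 5)
    rw [show 2 * π * x 5 = π * (2 * x 5) by ring, ← h]
    congr 2
    simp only [tr]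
    push_cast
    ring
  have hrz : rz (tr k x 2) = rz (x 2) := by unfold rz; rw [hs]
  unfold XX
  rw [hs 3, hs 4, hs 5, hc 4, hc 5, hs4, hR, ha, hb, h5, hrz]

theorem FF_per : Per FF := by
  intro k x
  have hs : ∀ i, sin (π * tr k x i) ^ 2 = sin (π * x i) ^ 2 := fun i => y2_sin _ _
  unfold FF
  rw [hs 0, hs 1, hs 2]

theorem hA_per : Per hA := by
  intro k x
  have hs : sin (π * tr k x 5) ^ 2 = sin (π * x 5) ^ 2 := y2_sin _ _
  have hc : cos (π * tr k x 5) ^ 2 = cos (π * x 5) ^ 2 := y2_cos _ _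
  unfold hA
  rw [hs, hc, FF_per k x]

theorem hB_per : Per hB := by
  intro k x
  unfold hB
  rw [FF_per k x]

theorem FF_cont : Continuous FF := by
  unfold FF
  fun_prop

theorem hA_cont : Continuous hA := by
  have h := FF_cont
  unfold hA
  fun_prop

theorem hB_cont : Continuous hB := by
  have h := FF_cont
  unfold hB
  fun_prop
-- END y2

-- BEGIN y3
theorem y3_good {V : (Fin 6 → ℝ) → (Fin 6 → ℝ)} (h : AnalyticOnNhd ℝ V univ) (hp : Per V) :
    Good V :=
  ⟨h.contDiff, hp⟩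

theorem good_XX : Good XX := y3_good XX_analytic XX_per

theorem good_VA : Good VA := y3_good VA_analytic fun k z => by
  unfold VA
  rw [hA_per, XX_per]

theorem good_VB : Good VB := y3_good VB_analytic fun k z => by
  unfold VB
  rw [hB_per, XX_per]

theorem good_VF : Good VF := y3_good VF_analytic fun k z => by
  unfold VF
  rw [FF_per, XX_per]

theorem contDiff_omega_VA : ContDiff ℝ ω VA := VA_analytic.contDiff

theorem contDiff_omega_VB : ContDiff ℝ ω VB := VB_analytic.contDiff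
-- END y3

-- BEGIN y4
theorem FF_nonneg (z : Fin 6 → ℝ) : 0 ≤ FF z := by
  unfold FF; positivity

theorem FF_le (z : Fin 6 → ℝ) : FF z ≤ 1 / 4 := by
  unfold FF
  have h0 := sin_sq_le_one (π * z 0)
  have h1 := sin_sq_le_one (π * z 1)
  have h2 := sin_sq_le_one (π * z 2)
  linarith

theorem FF_eq_zero {z : Fin 6 → ℝ} :
    FF z = 0 ↔ sin (π * z 0) = 0 ∧ sin (π * z 1) = 0 ∧ sin (π * z 2) = 0 := by
  unfold FF
  constructor
  · intro h
    have h0 := sq_nonneg (sin (π * z 0))
    have h1 := sq_nonneg (sin (π * z 1))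
    have h2 := sq_nonneg (sin (π * z 2))
    refine ⟨?_, ?_, ?_⟩ <;> apply pow_eq_zero_iff (two_ne_zero) |>.1 <;> linarith
  · rintro ⟨h0, h1, h2⟩
    rw [h0, h1, h2]; norm_num

theorem hA_eq (z : Fin 6 → ℝ) :
    hA z = (cos (π * z 5) ^ 2 + FF z ^ 3 * sin (π * z 5) ^ 2) * FF z := by
  unfold hA; ring

theorem hB_eq (z : Fin 6 → ℝ) : hB z = FF z * FF z := by
  unfold hB; ring

theorem hA_nonneg (z : Fin 6 → ℝ) : 0 ≤ hA z := by
  have := FF_nonneg z
  unfold hA; positivity

theorem hB_nonneg (z : Fin 6 → ℝ) : 0 ≤ hB z := by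
  unfold hB; positivity

theorem hA_pos {z : Fin 6 → ℝ} (h : 0 < FF z) : 0 < hA z := by
  rw [hA_eq]
  apply mul_pos _ h
  have hs := sin_sq_add_cos_sq (π * z 5)
  by_cases hc : cos (π * z 5) = 0
  · rw [hc] at hs ⊢
    have h1 : sin (π * z 5) ^ 2 = 1 := by nlinarith
    rw [h1]; positivity
  · have h1 : 0 < cos (π * z 5) ^ 2 := by positivity
    have h2 : 0 ≤ FF z ^ 3 * sin (π * z 5) ^ 2 := by positivity
    linarith

theorem hB_pos {z : Fin 6 → ℝ} (h : 0 < FF z) : 0 < hB z := by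
  unfold hB; positivity

theorem hA_zero {z : Fin 6 → ℝ} (h : FF z = 0) : hA z = 0 := by
  rw [hA_eq, h, mul_zero]

theorem hB_zero {z : Fin 6 → ℝ} (h : FF z = 0) : hB z = 0 := by
  rw [hB_eq, h, mul_zero]

theorem hA_le (z : Fin 6 → ℝ) : hA z ≤ 1 := by
  have h0 := FF_nonneg z
  have h1 := FF_le z
  have hc := cos_sq_le_one (π * z 5)
  have hs := sin_sq_le_one (π * z 5)
  have hc0 := sq_nonneg (cos (π * z 5))
  have hs0 := sq_nonneg (sin (π * z 5))
  have h3 : FF z * cos (π * z 5) ^ 2 ≤ 1 / 4 * 1 := mul_le_mul h1 hc hc0 (by norm_num)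
  have h5 : FF z ^ 4 ≤ (1 / 4) ^ 4 := pow_le_pow_left₀ h0 h1 4
  have h4 : FF z ^ 4 * sin (π * z 5) ^ 2 ≤ (1 / 4) ^ 4 * 1 :=
    mul_le_mul h5 hs hs0 (by norm_num)
  unfold hA
  linarith

theorem hB_le (z : Fin 6 → ℝ) : hB z ≤ 1 := by
  have h0 := FF_nonneg z
  have h1 := FF_le z
  unfold hB
  nlinarith
-- END y4

/-! ### The class of speeds -/

/-- the two speeds `hA`, `hB` and what is used about them -/
structure Spd (h : (Fin 6 → ℝ) → ℝ) : Prop where
  good : Good (fun z => h z • XX z)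
  per : Per h
  cont : Continuous h
  nonneg : ∀ z, 0 ≤ h z
  le : ∀ z, h z ≤ 1
  pos : ∀ z, 0 < FF z → 0 < h z
  zero : ∀ z, FF z = 0 → h z = 0
  indep : ∀ z (e : ℝ), h (z + e • (Pi.single 3 1 : Fin 6 → ℝ)) = h z

-- BEGIN y5
private theorem y5_comp (z : Fin 6 → ℝ) (e : ℝ) {i : Fin 6} (hi : i ≠ 3) :
    (z + e • (Pi.single 3 1 : Fin 6 → ℝ)) i = z i := by
  simp [hi]

private theorem y5_FF (z : Fin 6 → ℝ) (e : ℝ) :
    FF (z + e • (Pi.single 3 1 : Fin 6 → ℝ)) = FF z := by
  unfold FF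
  rw [y5_comp z e (i := 0) (by decide), y5_comp z e (i := 1) (by decide),
    y5_comp z e (i := 2) (by decide)]

theorem spd_A : Spd hA where
  good := good_VA
  per := hA_per
  cont := hA_cont
  nonneg := hA_nonneg
  le := hA_le
  pos := fun _ h => hA_pos h
  zero := fun _ h => hA_zero h
  indep := fun z e => by
    unfold hA
    rw [y5_FF, y5_comp z e (i := 5) (by decide)]

theorem spd_B : Spd hB where
  good := good_VB
  per := hB_per
  cont := hB_cont
  nonneg := hB_nonneg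
  le := hB_le
  pos := fun _ h => hB_pos h
  zero := fun _ h => hB_zero h
  indep := fun z e => by
    unfold hB
    rw [y5_FF]
-- END y5

-- BEGIN y6
private theorem y6_clock {h : (Fin 6 → ℝ) → ℝ} (hh : Spd h) (z : Fin 6 → ℝ) (t : ℝ) :
    HasDerivAt (fun t => flow (fun z => h z • XX z) t z 0)
      (h (flow (fun z => h z • XX z) t z)) t := by
  have h1 := hasDerivAt_pi.1 (hh.good.hasDerivAt_flow z t) 0
  have h2 : ∀ w, (h w • XX w) 0 = h w := by
    intro w
    simp [XX]
  rw [h2] at h1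
  exact h1

/-- Lemma TC of the page: the orbits of `h X` run along the orbits of `X` -/
theorem Spd.tc {h : (Fin 6 → ℝ) → ℝ} (hh : Spd h) (z : Fin 6 → ℝ) (t : ℝ) :
    flow (fun z => h z • XX z) t z = flow XX (flow (fun z => h z • XX z) t z 0 - z 0) z := by
  obtain ⟨K, hK⟩ := good_XX.exists_lipschitz
  have h1 : ∀ t, HasDerivAt (fun t => flow (fun z => h z • XX z) t z)
      (h (flow (fun z => h z • XX z) t z) • XX (flow (fun z => h z • XX z) t z)) t :=
    fun t => hh.good.hasDerivAt_flow z t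
  have h2 : ∀ t, HasDerivAt (fun t => flow XX (flow (fun z => h z • XX z) t z 0 - z 0) z)
      (h (flow (fun z => h z • XX z) t z) •
        XX (flow XX (flow (fun z => h z • XX z) t z 0 - z 0) z)) t := by
    intro t
    exact (good_XX.hasDerivAt_flow z _).scomp t ((y6_clock hh z t).sub_const (z 0))
  have h3 : ∀ t, LipschitzOnWith K
      (fun w => h (flow (fun z => h z • XX z) t z) • XX w) univ := by
    intro t
    apply LipschitzWith.lipschitzOnWith
    apply LipschitzWith.of_dist_le_mul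
    intro x y
    have h4 := hK.dist_le_mul x y
    rw [dist_eq_norm] at h4 ⊢
    rw [← smul_sub, norm_smul, Real.norm_eq_abs, abs_of_nonneg (hh.nonneg _)]
    calc h (flow (fun z => h z • XX z) t z) * ‖XX x - XX y‖ ≤ 1 * ‖XX x - XX y‖ :=
          mul_le_mul_of_nonneg_right (hh.le _) (norm_nonneg _)
      _ ≤ K * dist x y := by rw [one_mul]; exact h4
  have h5 := ODE_solution_unique_univ (t₀ := 0)
    (v := fun t w => h (flow (fun z => h z • XX z) t z) • XX w) (s := fun _ => univ)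
    (f := fun t => flow (fun z => h z • XX z) t z)
    (g := fun t => flow XX (flow (fun z => h z • XX z) t z 0 - z 0) z) h3
    (fun t => ⟨h1 t, mem_univ _⟩) (fun t => ⟨h2 t, mem_univ _⟩) (by
      rw [hh.good.flow_zero, sub_self, good_XX.flow_zero])
  exact congrFun h5 t

/-- the clock -/
theorem Spd.hasDerivAt_zero {h : (Fin 6 → ℝ) → ℝ} (hh : Spd h) (z : Fin 6 → ℝ) (t : ℝ) :
    HasDerivAt (fun t => flow (fun z => h z • XX z) t z 0)
      (h (flow (fun z => h z • XX z) t z)) t := y6_clock hh z t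

theorem Spd.clock_pos {h : (Fin 6 → ℝ) → ℝ} (hh : Spd h) {z : Fin 6 → ℝ} (hz : 0 < FF z) {t : ℝ}
    (ht : 0 < t) : 0 < flow (fun z => h z • XX z) t z 0 - z 0 := by
  have hc : Continuous fun t => h (flow (fun z => h z • XX z) t z) :=
    hh.cont.comp (hh.good.continuous_flow z)
  have h1 : ∫ s in (0 : ℝ)..t, h (flow (fun z => h z • XX z) s z) =
      flow (fun z => h z • XX z) t z 0 - flow (fun z => h z • XX z) 0 z 0 :=
    intervalIntegral.integral_eq_sub_of_hasDerivAt (fun s _ => y6_clock hh z s)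
      (hc.intervalIntegrable _ _)
  have h2 : flow (fun z => h z • XX z) 0 z = z := hh.good.flow_zero z
  have h3 : 0 < ∫ s in (0 : ℝ)..t, h (flow (fun z => h z • XX z) s z) := by
    apply intervalIntegral.integral_pos ht hc.continuousOn (fun x _ => hh.nonneg _)
    refine ⟨0, ⟨le_refl _, ht.le⟩, ?_⟩
    rw [h2]
    exact hh.pos z hz
  rw [h1, h2] at h3
  exact h3
-- END y6

-- BEGIN y7
/-- Along an orbit of `X` on which `F` is bounded below the time change is onto. -/
theorem Spd.onto {h : (Fin 6 → ℝ) → ℝ} (hh : Spd h) {z : Fin 6 → ℝ}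
    (hz : ∀ s, 0 < FF (flow XX s z)) :
    ∃ τ : ℝ ≃o ℝ, τ 0 = 0 ∧ (∀ t, HasDerivAt (fun t => τ t) (h (flow XX (τ t) z)) t) ∧
      (∀ t, flow (fun z => h z • XX z) t z = flow XX (τ t) z) ∧
      ∀ s, τ.symm s = ∫ u in (0 : ℝ)..s, (h (flow XX u z))⁻¹ := by
  obtain ⟨τ, h0, h1, h2⟩ := exists_time_change (fun s => h (flow XX s z))
    (hh.cont.comp (good_XX.continuous_flow z)) (fun s => hh.pos _ (hz s)) 1 (fun s => hh.le _)
  refine ⟨τ, h0, h1, fun t => ?_, h2⟩
  have h3 : ∀ t, HasDerivAt (fun t => flow XX (τ t) z)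
      ((fun z => h z • XX z) (flow XX (τ t) z)) t := fun t =>
    (good_XX.hasDerivAt_flow z (τ t)).scomp t (h1 t)
  have h4 := hh.good.eq_flow h3 t
  rw [h0, good_XX.flow_zero] at h4
  exact h4.symm
-- END y7

-- BEGIN y8
/-- both flows are time changes of the flow of `F X` -/
theorem flows_equiv2 (z : Fin 6 → ℝ) :
    ∃ τ : ℝ ≃o ℝ, τ 0 = 0 ∧ ∀ t, flow VA t z = flow VB (τ t) z := by
  by_cases hz : FF z = 0
  · refine ⟨OrderIso.refl ℝ, rfl, fun t => ?_⟩
    have h1 : VA z = 0 := by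
      change hA z • XX z = 0
      rw [hA_zero hz, zero_smul]
    have h2 : VB z = 0 := by
      change hB z • XX z = 0
      rw [hB_zero hz, zero_smul]
    rw [good_VA.flow_of_zero h1, good_VB.flow_of_zero h2]
  · have hpos : ∀ s, 0 < FF (flow VF s z) := by
      intro s
      rcases (FF_nonneg (flow VF s z)).lt_or_eq with h0 | h0
      · exact h0
      · exfalso
        have h1 : VF (flow VF s z) = 0 := by
          change FF (flow VF s z) • XX (flow VF s z) = 0
          rw [← h0, zero_smul]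
        have h2 := good_VF.flow_of_zero_at h1 s
        rw [h2] at h0
        exact hz h0.symm
    have hcF : Continuous fun s => FF (flow VF s z) :=
      FF_cont.comp (good_VF.continuous_flow z)
    have hc5 : Continuous fun s => flow VF s z 5 :=
      (continuous_apply 5).comp (good_VF.continuous_flow z)
    have hkc : Continuous fun s => cos (π * flow VF s z 5) ^ 2 +
        FF (flow VF s z) ^ 3 * sin (π * flow VF s z 5) ^ 2 :=
      ((continuous_cos.comp (continuous_const.mul hc5)).pow 2).add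
        ((hcF.pow 3).mul ((continuous_sin.comp (continuous_const.mul hc5)).pow 2))
    have hkpos : ∀ s, 0 < cos (π * flow VF s z 5) ^ 2 +
        FF (flow VF s z) ^ 3 * sin (π * flow VF s z 5) ^ 2 := by
      intro s
      have h1 := sin_sq_add_cos_sq (π * flow VF s z 5)
      have h2 : 0 < FF (flow VF s z) ^ 3 := pow_pos (hpos s) 3
      rcases (sq_nonneg (cos (π * flow VF s z 5))).lt_or_eq with h3 | h3
      · exact add_pos_of_pos_of_nonneg h3 (mul_nonneg h2.le (sq_nonneg _))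
      · rw [← h3, add_zero] at h1
        rw [← h3, h1, zero_add, mul_one]
        exact h2
    have hkle : ∀ s, cos (π * flow VF s z 5) ^ 2 +
        FF (flow VF s z) ^ 3 * sin (π * flow VF s z 5) ^ 2 ≤ 1 := by
      intro s
      have h1 := sin_sq_add_cos_sq (π * flow VF s z 5)
      have h2 : FF (flow VF s z) ^ 3 ≤ 1 :=
        pow_le_one₀ (FF_nonneg _) ((FF_le _).trans (by norm_num))
      have h3 : FF (flow VF s z) ^ 3 * sin (π * flow VF s z 5) ^ 2 ≤
          1 * sin (π * flow VF s z 5) ^ 2 :=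
        mul_le_mul_of_nonneg_right h2 (sq_nonneg _)
      linarith
    obtain ⟨τA, hA0, -, hAf⟩ := good_VA.time_change good_VF z
      (fun s => cos (π * flow VF s z 5) ^ 2 + FF (flow VF s z) ^ 3 * sin (π * flow VF s z 5) ^ 2)
      hkc hkpos 1 hkle (fun s => by
        change hA (flow VF s z) • XX (flow VF s z) = _ • (FF (flow VF s z) • XX (flow VF s z))
        rw [smul_smul, hA_eq])
    obtain ⟨τB, hB0, -, hBf⟩ := good_VB.time_change good_VF z
      (fun s => FF (flow VF s z)) hcF hpos (1 / 4) (fun s => FF_le _) (fun s => by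
        change hB (flow VF s z) • XX (flow VF s z) = _ • (FF (flow VF s z) • XX (flow VF s z))
        rw [smul_smul, hB_eq])
    refine ⟨τA.trans τB.symm, ?_, fun t => ?_⟩
    · rw [OrderIso.trans_apply, hA0, OrderIso.symm_apply_eq, hB0]
    · rw [hAf t, hBf, OrderIso.trans_apply, OrderIso.apply_symm_apply]
-- END y8

end Pool.Agent.AnQ2
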