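import Mathlib
import Pool.Agent.AnQ2.Xf

/-!
# The flow of `X` on `z5 = 0` and `z5 = 1/2` (page, section 4)
-/

namespace Pool.Agent.AnQ2

open Set Filter Topology Real MeasureTheory
open scoped ContDiff NNReal ENNReal
open Pool.Agent.MP_1a349f_an

-- BEGIN k0
/-- a scalar equation `u' = a(t) p(u)` preserves the zeros of `p` -/
theorem scalar_zero {p : ℝ → ℝ} {K : ℝ≥0} (hp : LipschitzWith K p) {a u : ℝ → ℝ} {C : ℝ}
    (ha : ∀ t, |a t| ≤ C) (hu : ∀ t, HasDerivAt u (a t * p (u t)) t) {s : ℝ}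
    (h : p (u s) = 0) (t : ℝ) : u t = u s := by
  have hC : 0 ≤ C := (abs_nonneg _).trans (ha 0)
  lift C to ℝ≥0 using hC
  have h1 : ∀ t : ℝ, LipschitzOnWith (C * K) (fun x => a t * p x) univ := by
    intro t
    refine LipschitzOnWith.of_dist_le_mul fun x _ y _ => ?_
    rw [Real.dist_eq, ← mul_sub, abs_mul, NNReal.coe_mul, mul_assoc]
    have h2 := hp.dist_le_mul x y
    rw [Real.dist_eq] at h2
    exact mul_le_mul (ha t) h2 (abs_nonneg _) C.2
  have h2 : ∀ t : ℝ, HasDerivAt (fun _ : ℝ => u s) (a t * p (u s)) t := fun t => by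
    rw [h, mul_zero]
    exact hasDerivAt_const t (u s)
  have h3 : u = fun _ => u s := ODE_solution_unique_univ (v := fun t x => a t * p x)
    (s := fun _ => univ) (t₀ := s) h1 (fun t => ⟨hu t, trivial⟩) (fun t => ⟨h2 t, trivial⟩) rfl
  exact congrFun h3 t

theorem lip_sin_sq (c : ℝ) : ∃ K : ℝ≥0, LipschitzWith K (fun x => sin (c * x) ^ 2) := by
  have hd : ∀ x, HasDerivAt (fun x => sin (c * x) ^ 2) (2 * sin (c * x) * (cos (c * x) * c)) x := by
    intro x
    have h1 : HasDerivAt (fun x : ℝ => c * x) c x := by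
      simpa using (hasDerivAt_id x).const_mul c
    simpa using (h1.sin).fun_pow 2
  refine ⟨⟨2 * |c|, by positivity⟩, lipschitzWith_of_nnnorm_deriv_le
    (fun x => (hd x).differentiableAt) fun x => ?_⟩
  rw [(hd x).deriv]
  have h1 := abs_sin_le_one (c * x)
  have h2 := abs_cos_le_one (c * x)
  change |2 * sin (c * x) * (cos (c * x) * c)| ≤ 2 * |c|
  rw [abs_mul, abs_mul, abs_mul, abs_of_pos (show (0 : ℝ) < 2 by norm_num)]
  have h3 : |cos (c * x)| * |c| ≤ |c| := mul_le_of_le_one_left (abs_nonneg c) h2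
  have h4 : |sin (c * x)| * (|cos (c * x)| * |c|) ≤ |cos (c * x)| * |c| :=
    mul_le_of_le_one_left (by positivity) h1
  nlinarith

theorem lip_cos_sq (c : ℝ) : ∃ K : ℝ≥0, LipschitzWith K (fun x => cos (c * x) ^ 2) := by
  have hd : ∀ x, HasDerivAt (fun x => cos (c * x) ^ 2)
      (2 * cos (c * x) * (-sin (c * x) * c)) x := by
    intro x
    have h1 : HasDerivAt (fun x : ℝ => c * x) c x := by
      simpa using (hasDerivAt_id x).const_mul c
    simpa using (h1.cos).fun_pow 2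
  refine ⟨⟨2 * |c|, by positivity⟩, lipschitzWith_of_nnnorm_deriv_le
    (fun x => (hd x).differentiableAt) fun x => ?_⟩
  rw [(hd x).deriv]
  have h1 := abs_sin_le_one (c * x)
  have h2 := abs_cos_le_one (c * x)
  change |2 * cos (c * x) * (-sin (c * x) * c)| ≤ 2 * |c|
  rw [abs_mul, abs_mul, abs_mul, abs_neg, abs_of_pos (show (0 : ℝ) < 2 by norm_num)]
  have h3 : |sin (c * x)| * |c| ≤ |c| := mul_le_of_le_one_left (abs_nonneg c) h1
  have h4 : |cos (c * x)| * (|sin (c * x)| * |c|) ≤ |sin (c * x)| * |c| :=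
    mul_le_of_le_one_left (by positivity) h2
  nlinarith
-- END k0

-- BEGIN k1
theorem X_deriv (z : Fin 6 → ℝ) (t : ℝ) (i : Fin 6) :
    HasDerivAt (fun t => flow XX t z i) (XX (flow XX t z) i) t :=
  hasDerivAt_pi.1 (good_XX.hasDerivAt_flow z t) i

theorem X_zero (z : Fin 6 → ℝ) (t : ℝ) : flow XX t z 0 = z 0 + t := by
  have h1 : ∀ s, HasDerivAt (fun s => flow XX s z 0 - s) 0 s := by
    intro s
    have h2 := (X_deriv z s 0).sub (hasDerivAt_id s)
    have h3 : XX (flow XX s z) 0 - 1 = 0 := by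
      simp [XX]
    rw [h3] at h2
    exact h2
  have h4 := is_const_of_deriv_eq_zero (fun s => (h1 s).differentiableAt)
    (fun s => (h1 s).deriv) t 0
  simp only [good_XX.flow_zero, sub_zero] at h4
  linarith

theorem X_cont (z : Fin 6 → ℝ) (i : Fin 6) : Continuous fun t => flow XX t z i :=
  (continuous_apply i).comp (good_XX.continuous_flow z)
-- END k1

-- BEGIN k2
private theorem k2_deriv (z : Fin 6 → ℝ) (t : ℝ) :
    HasDerivAt (fun t => flow XX t z 5) (sin (2 * π * flow XX t z 5) ^ 2) t := by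
  have h := X_deriv z t 5
  have h2 : XX (flow XX t z) 5 = sin (2 * π * flow XX t z 5) ^ 2 := by
    simp [XX]
  rw [h2] at h
  exact h

private theorem k2_const {z : Fin 6 → ℝ} {s : ℝ} (h : sin (2 * π * flow XX s z 5) = 0) (t : ℝ) :
    flow XX t z 5 = flow XX s z 5 := by
  obtain ⟨K, hK⟩ := lip_sin_sq (2 * π)
  exact scalar_zero (a := fun _ => 1) (u := fun t => flow XX t z 5) (C := 1) hK
    (fun _ => by simp) (fun t => by simpa using k2_deriv z t) (s := s) (by simp [h]) t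

private theorem k2_ne {z : Fin 6 → ℝ} (h : sin (2 * π * z 5) ≠ 0) (t : ℝ) :
    sin (2 * π * flow XX t z 5) ≠ 0 := by
  intro h1
  have h2 := k2_const h1 0
  rw [good_XX.flow_zero] at h2
  rw [← h2] at h1
  exact h h1

private theorem k2_int (n : ℤ) : sin (2 * π * ((n : ℝ) / 2)) = 0 := by
  have : 2 * π * ((n : ℝ) / 2) = n * π := by ring
  rw [this]
  exact sin_int_mul_pi n

/-- the level `z5` where `sin 2 π z5 = 0` is invariant -/
theorem X5_const {z : Fin 6 → ℝ} (h : sin (2 * π * z 5) = 0) (t : ℝ) : flow XX t z 5 = z 5 := by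
  have h1 := k2_const (z := z) (s := 0) (by rw [good_XX.flow_zero]; exact h) t
  rwa [good_XX.flow_zero] at h1

theorem X5_mono (z : Fin 6 → ℝ) : Monotone fun t => flow XX t z 5 :=
  monotone_of_deriv_nonneg (fun t => (k2_deriv z t).differentiableAt)
    (fun t => by rw [(k2_deriv z t).deriv]; positivity)

theorem X5_strictMono {z : Fin 6 → ℝ} (h : sin (2 * π * z 5) ≠ 0) :
    StrictMono fun t => flow XX t z 5 :=
  strictMono_of_deriv_pos (fun t => by
    rw [(k2_deriv z t).deriv]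
    have := k2_ne h t
    positivity)

theorem X5_mem {z : Fin 6 → ℝ} {n : ℤ} (h : z 5 ∈ Ioo ((n : ℝ) / 2) ((n + 1 : ℝ) / 2)) (t : ℝ) :
    flow XX t z 5 ∈ Ioo ((n : ℝ) / 2) ((n + 1 : ℝ) / 2) := by
  have hu0 : (fun t => flow XX t z 5) 0 = z 5 := by simp only [good_XX.flow_zero]
  have key : ∀ c : ℤ, (∃ s, flow XX s z 5 = (c : ℝ) / 2) → z 5 = (c : ℝ) / 2 := by
    rintro c ⟨s, hs⟩
    have h1 := k2_const (z := z) (s := s) (by rw [hs]; exact k2_int c) 0
    rw [good_XX.flow_zero] at h1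
    rw [h1, hs]
  have hcont : Continuous fun t => flow XX t z 5 := X_cont z 5
  have hr : ∀ a b y : ℝ, y ∈ uIcc (flow XX a z 5) (flow XX b z 5) → ∃ s, flow XX s z 5 = y := by
    intro a b y hy
    obtain ⟨s, -, hs⟩ := intermediate_value_uIcc (f := fun t => flow XX t z 5) hcont.continuousOn hy
    exact ⟨s, hs⟩
  constructor
  · by_contra h1
    rw [not_lt] at h1
    have h2 := key n (hr t 0 _ (by
      simp only [good_XX.flow_zero]
      exact ⟨(min_le_left _ _).trans h1, h.1.le.trans (le_max_right _ _)⟩))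
    exact absurd h.1 (by rw [h2]; exact lt_irrefl _)
  · by_contra h1
    rw [not_lt] at h1
    have h3 : ((n + 1 : ℤ) : ℝ) / 2 = ((n : ℝ) + 1) / 2 := by push_cast; ring
    have h2 := key (n + 1) (hr 0 t _ (by
      simp only [good_XX.flow_zero, h3]
      exact ⟨(min_le_left _ _).trans h.2.le, h1.trans (le_max_right _ _)⟩))
    rw [h3] at h2
    exact absurd h.2 (by rw [h2]; exact lt_irrefl _)

/-- every `z5` with `sin 2 π z5 ≠ 0` lies in such an interval -/
theorem exists_half {x : ℝ} (h : sin (2 * π * x) ≠ 0) :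
    ∃ n : ℤ, x ∈ Ioo ((n : ℝ) / 2) ((n + 1 : ℝ) / 2) := by
  refine ⟨⌊2 * x⌋, ?_, ?_⟩
  · have h1 : (⌊2 * x⌋ : ℝ) ≤ 2 * x := Int.floor_le _
    have h2 : (⌊2 * x⌋ : ℝ) ≠ 2 * x := by
      intro h3
      apply h
      have h4 : x = (⌊2 * x⌋ : ℝ) / 2 := by linarith
      rw [h4]
      exact k2_int _
    have h5 := lt_of_le_of_ne h1 h2
    linarith
  · have h1 := Int.lt_floor_add_one (2 * x)
    linarith
-- END k2

-- BEGIN k3
private theorem k3_lin {f : ℝ → ℝ} {c : ℝ} (hf : ∀ t, HasDerivAt f c t) (t : ℝ) :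
    f t = f 0 + c * t := by
  have h1 : ∀ s, HasDerivAt (fun t => f t - c * t) 0 s := by
    intro s
    have h2 := (hf s).fun_sub ((hasDerivAt_id s).const_mul c)
    have h4 : c - c * 1 = 0 := by ring
    rw [h4] at h2
    exact h2
  have h3 := is_const_of_deriv_eq_zero (fun s => (h1 s).differentiableAt)
    (fun s => (h1 s).deriv) t 0
  simp only [mul_zero, sub_zero] at h3
  linarith

private theorem k3_at0 (z : Fin 6 → ℝ) : flow XX 0 z = z := good_XX.flow_zero z

theorem K1_coord {z : Fin 6 → ℝ} (h : sin (π * z 5) = 0) (t : ℝ) :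
    flow XX t z 5 = z 5 ∧ flow XX t z 1 = z 1 + √2 * t ∧ flow XX t z 2 = z 2 + √3 * t := by
  have h5 : ∀ s, flow XX s z 5 = z 5 := by
    intro s
    refine X5_const ?_ s
    rw [show 2 * π * z 5 = 2 * (π * z 5) by ring, sin_two_mul, h]
    ring
  have hc : cos (π * z 5) ^ 2 = 1 := by
    have h6 := sin_sq_add_cos_sq (π * z 5)
    rw [h] at h6
    linarith
  refine ⟨h5 t, ?_, ?_⟩
  · have h7 : ∀ s, HasDerivAt (fun t => flow XX t z 1) (√2) s := by
      intro s
      have h8 := X_deriv z s 1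
      have h9 : XX (flow XX s z) 1 = √2 := by
        simp only [XX, Matrix.cons_val_one, Matrix.cons_val_zero]
        rw [h5 s, hc, h]
        ring
      rwa [h9] at h8
    have h10 := k3_lin h7 t
    simp only [k3_at0] at h10
    exact h10
  · have h7 : ∀ s, HasDerivAt (fun t => flow XX t z 2) (√3) s := by
      intro s
      have h8 := X_deriv z s 2
      have h9 : XX (flow XX s z) 2 = √3 := by
        simp only [XX, Matrix.cons_val]
        rw [h5 s, hc]
        ring
      rwa [h9] at h8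
    have h10 := k3_lin h7 t
    simp only [k3_at0] at h10
    exact h10

theorem K2_coord {z : Fin 6 → ℝ} (h : cos (π * z 5) = 0) (t : ℝ) :
    flow XX t z 5 = z 5 ∧ flow XX t z 2 = z 2 ∧ flow XX t z 1 = z 1 + rz (z 2) * t := by
  have h5 : ∀ s, flow XX s z 5 = z 5 := by
    intro s
    refine X5_const ?_ s
    rw [show 2 * π * z 5 = 2 * (π * z 5) by ring, sin_two_mul, h]
    ring
  have hs : sin (π * z 5) ^ 2 = 1 := by
    have h6 := sin_sq_add_cos_sq (π * z 5)
    rw [h] at h6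
    linarith
  have h2 : ∀ s, flow XX s z 2 = z 2 := by
    intro s
    have h7 : ∀ s, HasDerivAt (fun t => flow XX t z 2) 0 s := by
      intro s
      have h8 := X_deriv z s 2
      have h9 : XX (flow XX s z) 2 = 0 := by
        simp only [XX, Matrix.cons_val]
        rw [h5 s, h]
        ring
      rwa [h9] at h8
    have h10 := k3_lin h7 s
    simp only [k3_at0, zero_mul, add_zero] at h10
    exact h10
  refine ⟨h5 t, h2 t, ?_⟩
  have h7 : ∀ s, HasDerivAt (fun t => flow XX t z 1) (rz (z 2)) s := by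
    intro s
    have h8 := X_deriv z s 1
    have h9 : XX (flow XX s z) 1 = rz (z 2) := by
      simp only [XX, Matrix.cons_val_one, Matrix.cons_val_zero]
      rw [h5 s, hs, h, h2 s]
      ring
    rwa [h9] at h8
  have h10 := k3_lin h7 t
  simp only [k3_at0] at h10
  exact h10

theorem sin5_of_cos {z : Fin 6 → ℝ} (h : cos (π * z 5) = 0) : sin (π * z 5) ^ 2 = 1 := by
  have h6 := sin_sq_add_cos_sq (π * z 5)
  rw [h] at h6
  linarith
-- END k3

-- BEGIN k4
/-- the fibre angle on `z5 = 1/2` -/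
private theorem k4_deriv {z : Fin 6 → ℝ} (h : cos (π * z 5) = 0) (t : ℝ) :
    HasDerivAt (fun t => flow XX t z 4)
      ((π⁻¹ * (sin (π * z 2) ^ 4 * (1 + sin (π * flow XX t z 4) ^ 2) -
        RR (z 0 + t) (z 1 + rz (z 2) * t) (z 2))) * cos (π * flow XX t z 4) ^ 2) t := by
  have h1 := X_deriv z t 4
  have h5 := K2_coord h t
  have h0 := X_zero z t
  have e : XX (flow XX t z) 4 = (π⁻¹ * (sin (π * z 2) ^ 4 * (1 + sin (π * flow XX t z 4) ^ 2) -
        RR (z 0 + t) (z 1 + rz (z 2) * t) (z 2))) * cos (π * flow XX t z 4) ^ 2 := by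
    have e1 : XX (flow XX t z) 4 = cos (π * flow XX t z 5) ^ 2 *
        (6 * kb (flow XX t z 0) * sin (π * flow XX t z 3) ^ 2) +
      sin (π * flow XX t z 5) ^ 2 * (π⁻¹ * cos (π * flow XX t z 4) ^ 2 *
        (sin (π * flow XX t z 2) ^ 4 * (1 + sin (π * flow XX t z 4) ^ 2) -
          RR (flow XX t z 0) (flow XX t z 1) (flow XX t z 2))) := rfl
    rw [e1, h5.1, h5.2.1, h5.2.2, h0, h, sin5_of_cos h]
    ring
  rw [e] at h1
  exact h1

private theorem k4_bound (z : Fin 6 → ℝ) (t : ℝ) :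
    |π⁻¹ * (sin (π * z 2) ^ 4 * (1 + sin (π * flow XX t z 4) ^ 2) -
        RR (z 0 + t) (z 1 + rz (z 2) * t) (z 2))| ≤ 3 := by
  have h1 := abs_le.1 (RR_le (z 0 + t) (z 1 + rz (z 2) * t) (z 2))
  have h2 : π⁻¹ ≤ 1 := by
    have := Real.pi_gt_three
    exact inv_le_one_of_one_le₀ (by linarith)
  have h3 : 0 ≤ π⁻¹ := by positivity
  have h4 : sin (π * z 2) ^ 2 ≤ 1 := sin_sq_le_one _
  have h5 : sin (π * flow XX t z 4) ^ 2 ≤ 1 := sin_sq_le_one _
  have h6 : 0 ≤ sin (π * z 2) ^ 2 := sq_nonneg _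
  have h7 : 0 ≤ sin (π * flow XX t z 4) ^ 2 := sq_nonneg _
  have h8 : sin (π * z 2) ^ 4 ≤ 1 := by nlinarith
  have h9 : 0 ≤ sin (π * z 2) ^ 4 := by positivity
  rw [abs_mul, abs_of_nonneg h3]
  have h10 : |sin (π * z 2) ^ 4 * (1 + sin (π * flow XX t z 4) ^ 2) -
        RR (z 0 + t) (z 1 + rz (z 2) * t) (z 2)| ≤ 3 := by
    rw [abs_le]
    constructor <;> nlinarith
  nlinarith [abs_nonneg (sin (π * z 2) ^ 4 * (1 + sin (π * flow XX t z 4) ^ 2) -
        RR (z 0 + t) (z 1 + rz (z 2) * t) (z 2))]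

private theorem k4_const {z : Fin 6 → ℝ} (h : cos (π * z 5) = 0) {s : ℝ}
    (h4 : cos (π * flow XX s z 4) = 0) (t : ℝ) : flow XX t z 4 = flow XX s z 4 := by
  obtain ⟨K, hK⟩ := lip_cos_sq π
  exact scalar_zero hK (a := fun t => π⁻¹ * (sin (π * z 2) ^ 4 * (1 + sin (π * flow XX t z 4) ^ 2) -
        RR (z 0 + t) (z 1 + rz (z 2) * t) (z 2))) (u := fun t => flow XX t z 4) (C := 3)
    (k4_bound z) (k4_deriv h) (s := s) (by simp only [h4]; norm_num) t

/-- `z4 = 1/2` is invariant on `z5 = 1/2` -/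
theorem K2_half {z : Fin 6 → ℝ} (h : cos (π * z 5) = 0) (h4 : cos (π * z 4) = 0) (t : ℝ) :
    flow XX t z 4 = z 4 ∧ flow XX t z 3 = z 3 := by
  have h0 : flow XX 0 z = z := good_XX.flow_zero z
  have hc : ∀ t, flow XX t z 4 = z 4 := by
    intro t
    have := k4_const h (s := 0) (by rw [h0]; exact h4) t
    rw [h0] at this
    exact this
  refine ⟨hc t, ?_⟩
  have hd : ∀ t, HasDerivAt (fun t => flow XX t z 3) 0 t := by
    intro t
    have h1 := X_deriv z t 3
    have h5 := K2_coord h t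
    have e : XX (flow XX t z) 3 = 0 := by
      have e1 : XX (flow XX t z) 3 = cos (π * flow XX t z 5) ^ 2 *
          (6 * ka (flow XX t z 0) * sin (π * flow XX t z 4) ^ 2) +
        sin (π * flow XX t z 5) ^ 2 *
          (sin (π * flow XX t z 3) ^ 2 * cos (π * flow XX t z 4) ^ 2) := rfl
      rw [e1, h5.1, hc t, h, h4]
      ring
    rw [e] at h1
    exact h1
  have := is_const_of_deriv_eq_zero (f := fun t => flow XX t z 3)
    (fun t => (hd t).differentiableAt) (fun t => (hd t).deriv) t 0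
  simp only [h0] at this
  exact this

theorem K2_cos {z : Fin 6 → ℝ} (h : cos (π * z 5) = 0) (h4 : cos (π * z 4) ≠ 0) (t : ℝ) :
    cos (π * flow XX t z 4) ≠ 0 := by
  intro hc
  apply h4
  have h0 : flow XX 0 z = z := good_XX.flow_zero z
  have := k4_const h (s := t) hc 0
  rw [h0] at this
  rw [this]
  exact hc
-- END k4

/-- the fibre coordinate `Y = tan π z4` along the orbit -/
noncomputable def YY (z : Fin 6 → ℝ) (t : ℝ) : ℝ := tan (π * flow XX t z 4)

-- BEGIN k5
/-- the fibre equation -/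
theorem hasDerivAt_YY {z : Fin 6 → ℝ} (h : cos (π * z 5) = 0) (h4 : cos (π * z 4) ≠ 0) (t : ℝ) :
    HasDerivAt (YY z) (sin (π * z 2) ^ 4 * VV (YY z t) -
      RR (z 0 + t) (z 1 + rz (z 2) * t) (z 2)) t := by
  have hc := K2_cos h h4 t
  have h1 := X_deriv z t 4
  have h5 := K2_coord h t
  have h0 := X_zero z t
  have e : XX (flow XX t z) 4 = π⁻¹ * cos (π * flow XX t z 4) ^ 2 *
      (sin (π * z 2) ^ 4 * (1 + sin (π * flow XX t z 4) ^ 2) -
        RR (z 0 + t) (z 1 + rz (z 2) * t) (z 2)) := by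
    have e1 : XX (flow XX t z) 4 = cos (π * flow XX t z 5) ^ 2 *
        (6 * kb (flow XX t z 0) * sin (π * flow XX t z 3) ^ 2) +
      sin (π * flow XX t z 5) ^ 2 * (π⁻¹ * cos (π * flow XX t z 4) ^ 2 *
        (sin (π * flow XX t z 2) ^ 4 * (1 + sin (π * flow XX t z 4) ^ 2) -
          RR (flow XX t z 0) (flow XX t z 1) (flow XX t z 2))) := rfl
    rw [e1, h5.1, h5.2.1, h5.2.2, h0, h, sin5_of_cos h]
    ring
  rw [e] at h1
  have h2 : HasDerivAt (fun t => π * flow XX t z 4) _ t := h1.const_mul π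
  have h3 := (Real.hasDerivAt_tan hc).comp t h2
  have h6 : HasDerivAt (YY z) _ t := h3
  have e2 : VV (YY z t) = 1 + sin (π * flow XX t z 4) ^ 2 := by
    have hs := Real.sin_sq_add_cos_sq (π * flow XX t z 4)
    have hc2 : cos (π * flow XX t z 4) ^ 2 ≠ 0 := pow_ne_zero 2 hc
    simp only [VV, YY]
    rw [Real.tan_eq_sin_div_cos, div_pow]
    have e3 : 1 + sin (π * flow XX t z 4) ^ 2 / cos (π * flow XX t z 4) ^ 2 =
        1 / cos (π * flow XX t z 4) ^ 2 := by
      field_simp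
      linarith
    rw [e3]
    field_simp
  refine h6.congr_deriv ?_
  rw [e2]
  have hpi : π ≠ 0 := Real.pi_ne_zero
  field_simp

theorem YY_flow (z : Fin 6 → ℝ) (s t : ℝ) : YY (flow XX s z) t = YY z (s + t) := by
  simp only [YY]
  rw [add_comm s t, good_XX.flow_add t s z]

theorem YY_tr (k : Fin 6 → ℤ) (z : Fin 6 → ℝ) (t : ℝ) : YY (tr k z) t = YY z t := by
  simp only [YY]
  rw [good_XX.flow_tr k t z]
  have e : π * tr k (flow XX t z) 4 = π * flow XX t z 4 + (k 4 : ℝ) * π := by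
    simp only [tr]
    ring
  rw [e, Real.tan_add_int_mul_pi]
-- END k5

-- BEGIN k6
private theorem k6_deriv {z : Fin 6 → ℝ} (h : cos (π * z 5) = 0) (t : ℝ) :
    HasDerivAt (fun t => flow XX t z 3)
      (cos (π * flow XX t z 4) ^ 2 * sin (π * flow XX t z 3) ^ 2) t := by
  have h5 : flow XX t z 5 = z 5 := (K2_coord h t).1
  have h1 := X_deriv z t 3
  have e : XX (flow XX t z) 3 = cos (π * flow XX t z 4) ^ 2 * sin (π * flow XX t z 3) ^ 2 := by
    have e1 : XX (flow XX t z) 3 = cos (π * flow XX t z 5) ^ 2 *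
        (6 * ka (flow XX t z 0) * sin (π * flow XX t z 4) ^ 2) +
        sin (π * flow XX t z 5) ^ 2 *
          (sin (π * flow XX t z 3) ^ 2 * cos (π * flow XX t z 4) ^ 2) := rfl
    rw [e1, h5, h, sin5_of_cos h]
    ring
  rw [e] at h1
  exact h1

private theorem k6_zero (z : Fin 6 → ℝ) : flow XX 0 z 3 = z 3 := by
  rw [good_XX.flow_zero]

private theorem k6_stop {z : Fin 6 → ℝ} (h : cos (π * z 5) = 0) {s : ℝ}
    (h3 : sin (π * flow XX s z 3) = 0) (t : ℝ) : flow XX t z 3 = flow XX s z 3 := by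
  obtain ⟨K, hK⟩ := lip_sin_sq π
  refine scalar_zero (p := fun x => sin (π * x) ^ 2) (K := K) hK
    (a := fun t => cos (π * flow XX t z 4) ^ 2) (u := fun t => flow XX t z 3) (C := 1) ?_ ?_
    (s := s) ?_ t
  · intro t
    rw [abs_of_nonneg (sq_nonneg _)]
    have := cos_sq_le_one (π * flow XX t z 4)
    exact this
  · intro t
    exact k6_deriv h t
  · simp only [h3]
    norm_num

theorem K2_3_const {z : Fin 6 → ℝ} (h : cos (π * z 5) = 0) (h3 : sin (π * z 3) = 0) (t : ℝ) :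
    flow XX t z 3 = z 3 := by
  have := k6_stop h (s := 0) (by rw [k6_zero]; exact h3) t
  rw [this, k6_zero]

theorem K2_3_strictMono {z : Fin 6 → ℝ} (h : cos (π * z 5) = 0) (h4 : cos (π * z 4) ≠ 0)
    (h3 : sin (π * z 3) ≠ 0) : StrictMono fun t => flow XX t z 3 := by
  refine strictMono_of_deriv_pos fun t => ?_
  rw [(k6_deriv h t).deriv]
  have h1 : cos (π * flow XX t z 4) ≠ 0 := K2_cos h h4 t
  have h2 : sin (π * flow XX t z 3) ≠ 0 := by
    intro h0
    have := k6_stop h h0 0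
    rw [k6_zero] at this
    rw [← this] at h0
    exact h3 h0
  positivity

theorem K2_3_mem {z : Fin 6 → ℝ} (h : cos (π * z 5) = 0) {n : ℤ}
    (h3 : z 3 ∈ Ioo (n : ℝ) (n + 1)) (t : ℝ) : flow XX t z 3 ∈ Ioo (n : ℝ) (n + 1) := by
  have hc : Continuous fun t => flow XX t z 3 := X_cont z 3
  have hno : ∀ (m : ℤ) (s : ℝ), flow XX s z 3 = m → z 3 = m := by
    intro m s hs
    have h0 : sin (π * flow XX s z 3) = 0 := by
      rw [hs, mul_comm]
      exact sin_int_mul_pi m
    have := k6_stop h h0 0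
    rw [k6_zero, hs] at this
    exact this
  constructor
  · by_contra hle
    rw [not_lt] at hle
    obtain ⟨s, hs⟩ := mem_range_of_exists_le_of_exists_ge hc ⟨t, hle⟩
      ⟨0, by show (n : ℝ) ≤ flow XX 0 z 3; rw [k6_zero]; exact h3.1.le⟩
    have := hno n s hs
    exact absurd h3.1 (by rw [this]; exact lt_irrefl _)
  · by_contra hle
    rw [not_lt] at hle
    obtain ⟨s, hs⟩ := mem_range_of_exists_le_of_exists_ge hc
      ⟨0, by show flow XX 0 z 3 ≤ (n : ℝ) + 1; rw [k6_zero]; exact h3.2.le⟩ ⟨t, hle⟩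
    have := hno (n + 1) s (by push_cast; exact hs)
    exact absurd h3.2 (by rw [this]; push_cast; exact lt_irrefl _)
-- END k6

end Pool.Agent.AnQ2
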