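import Mathlib
import Pool.Agent.AnQ2.K2

/-!
# Closed orbits of `X` (page, (4.1) - (4.4))
-/

namespace Pool.Agent.AnQ2

open Set Filter Topology Real MeasureTheory
open scoped ContDiff NNReal ENNReal
open Pool.Agent.MP_1a349f_an

/-- closed points of the flow of `X` on the torus, upstairs -/
def XC (z : Fin 6 → ℝ) : Prop := ∃ T > 0, ∃ k : Fin 6 → ℤ, flow XX T z = tr k z

/-- the phase of level `n` -/
noncomputable def ph (n : ℕ) (z : Fin 6 → ℝ) : ℝ := qq n * z 1 - pp n * z 0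

/-- the isolated closed orbits -/
structure TyB (n : ℕ) (z : Fin 6 → ℝ) : Prop where
  c5 : cos (π * z 5) = 0
  c4 : cos (π * z 4) ≠ 0
  c3 : sin (π * z 3) = 0
  lv : sin (π * z 2) ^ 2 = sg n
  node : ∃ j : ℤ, kk n * ph n z = j
  per : ∀ t, YY z (t + qq n) = YY z t

-- BEGIN c1
theorem XC_K2 {z : Fin 6 → ℝ} (h : XC z) : cos (π * z 5) = 0 := by
  obtain ⟨T, hT, k, hk⟩ := h
  have e : ∀ i, flow XX T z i = z i + k i := fun i => by rw [hk]; rfl
  by_cases h5 : sin (2 * π * z 5) = 0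
  · have h6 : sin (2 * π * z 5) = 2 * sin (π * z 5) * cos (π * z 5) := by
      rw [← Real.sin_two_mul]
      congr 1
      ring
    rw [h6] at h5
    rcases mul_eq_zero.mp h5 with h7 | h7
    · exfalso
      have h8 : sin (π * z 5) = 0 := by
        rcases mul_eq_zero.mp h7 with h9 | h9
        · norm_num at h9
        · exact h9
      have h9 := (K1_coord h8 T).2.1
      have h10 := X_zero z T
      rw [e 1] at h9
      rw [e 0] at h10
      have h11 : T = (k 0 : ℝ) := by linarith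
      have h12 : (k 1 : ℝ) = √2 * (k 0 : ℝ) := by
        rw [← h11]
        linarith
      have h13 : (k 0 : ℝ) ≠ 0 := by
        rw [← h11]
        exact hT.ne'
      have h14 : √2 = ((k 1 : ℚ) / (k 0 : ℚ) : ℚ) := by
        push_cast
        rw [eq_div_iff h13]
        exact h12.symm
      exact irrational_sqrt_two ⟨_, h14.symm⟩
    · exact h7
  · exfalso
    obtain ⟨n, hn⟩ := exists_half h5
    have h6 := X5_mem hn T
    have h7 : flow XX 0 z 5 < flow XX T z 5 := X5_strictMono h5 hT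
    rw [good_XX.flow_zero] at h7
    rw [e 5] at h6 h7
    have h8 : (0 : ℝ) < (k 5 : ℝ) := by linarith
    have h9 : (k 5 : ℝ) < 1 := by
      have h10 := h6.2
      have h11 := hn.1
      linarith
    have h10 : (0 : ℤ) < k 5 := by exact_mod_cast h8
    have h11 : k 5 < (1 : ℤ) := by exact_mod_cast h9
    omega
-- END c1

-- BEGIN c2
theorem closed_sin3 {z : Fin 6 → ℝ} {T : ℝ} {k : Fin 6 → ℤ} (hT : 0 < T)
    (hk : flow XX T z = tr k z) (h5 : cos (π * z 5) = 0) (h4 : cos (π * z 4) ≠ 0) :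
    sin (π * z 3) = 0 ∧ ∀ t, YY z (t + T) = YY z t := by
  constructor
  · by_contra h3
    have hmono := K2_3_strictMono h5 h4 h3 hT
    have h0 : flow XX 0 z 3 = z 3 := by rw [good_XX.flow_zero]
    have hT3 : flow XX T z 3 = z 3 + k 3 := by rw [hk]; rfl
    simp only [h0, hT3] at hmono
    have hfl : (⌊z 3⌋ : ℝ) ≠ z 3 := by
      intro h
      apply h3
      rw [← h, mul_comm]
      exact sin_int_mul_pi _
    have hmem : z 3 ∈ Ioo ((⌊z 3⌋ : ℤ) : ℝ) ((⌊z 3⌋ : ℤ) + 1) :=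
      ⟨lt_of_le_of_ne (Int.floor_le _) hfl, Int.lt_floor_add_one _⟩
    have hmem' := K2_3_mem h5 hmem T
    rw [hT3] at hmem'
    have h1 : (0 : ℝ) < k 3 := by linarith
    have h2 : (k 3 : ℝ) < 1 := by
      have := hmem'.2
      have := hmem.1
      linarith
    have h1' : 0 < k 3 := by exact_mod_cast h1
    have h2' : k 3 < 1 := by exact_mod_cast h2
    omega
  · intro t
    rw [add_comm t T, ← YY_flow, hk, YY_tr]
-- END c2

-- BEGIN c3
private theorem c3_cont {R : ℝ → ℝ → ℝ → ℝ}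
    (h : Continuous fun p : ℝ × ℝ × ℝ => R p.1 p.2.1 p.2.2) (a b c s : ℝ) :
    Continuous fun r : ℝ => R (a + r) (b + c * r) s := by
  have h1 : Continuous fun r : ℝ => ((a + r, b + c * r, s) : ℝ × ℝ × ℝ) := by
    fun_prop
  exact h.comp h1

/-- (4.1) -/
theorem YY_tendsto {z : Fin 6 → ℝ} (h5 : cos (π * z 5) = 0) (h4 : cos (π * z 4) ≠ 0)
    (h2 : sin (π * z 2) ≠ 0) (hs : ∀ n, sin (π * z 2) ^ 2 ≠ sg n) :
    Tendsto (YY z) atTop atTop := by
  have hB : 0 < sin (π * z 2) ^ 4 := by positivity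
  obtain ⟨C, hC⟩ := RR_average (s := z 2) hs (ε := sin (π * z 2) ^ 4 / 2) (by positivity)
  have hRc : Continuous fun r : ℝ => RR (z 0 + r) (z 1 + rz (z 2) * r) (z 2) :=
    c3_cont RR_cont _ _ _ _
  have hI : ∀ t, HasDerivAt
      (fun t => ∫ r in (0 : ℝ)..t, RR (z 0 + r) (z 1 + rz (z 2) * r) (z 2))
      (RR (z 0 + t) (z 1 + rz (z 2) * t) (z 2)) t := fun t =>
    (hRc.integral_hasStrictDerivAt 0 t).hasDerivAt
  have hf : ∀ t, HasDerivAt (fun t => YY z t - sin (π * z 2) ^ 4 * t +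
      ∫ r in (0 : ℝ)..t, RR (z 0 + r) (z 1 + rz (z 2) * r) (z 2))
      (sin (π * z 2) ^ 4 * VV (YY z t) - RR (z 0 + t) (z 1 + rz (z 2) * t) (z 2) -
        sin (π * z 2) ^ 4 * 1 + RR (z 0 + t) (z 1 + rz (z 2) * t) (z 2)) t := fun t =>
    (((hasDerivAt_YY h5 h4 t).sub ((hasDerivAt_id t).const_mul _)).add (hI t))
  have hm : Monotone (fun t => YY z t - sin (π * z 2) ^ 4 * t +
      ∫ r in (0 : ℝ)..t, RR (z 0 + r) (z 1 + rz (z 2) * r) (z 2)) := by
    apply monotone_of_deriv_nonneg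
    · exact fun t => (hf t).differentiableAt
    · intro t
      rw [(hf t).deriv]
      have h1 := mul_le_mul_of_nonneg_left (one_le_VV (YY z t)) hB.le
      linarith
  have hlow : ∀ t, 0 ≤ t → sin (π * z 2) ^ 4 / 2 * t + (YY z 0 - C) ≤ YY z t := by
    intro t ht
    have h1 := hm ht
    simp only [intervalIntegral.integral_same, mul_zero, sub_zero, add_zero] at h1
    have h3 := hC (z 0) (z 1) t ht
    have h4 := (le_abs_self _).trans h3
    have h5 : ∫ r in (0 : ℝ)..t, RR (z 0 + r) (z 1 + rz (z 2) * r) (z 2) =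
      ∫ r in (0 : ℝ)..t, RR (z 0 + r) (z 1 + (rho - sin (π * z 2) ^ 2 / 10) * r) (z 2) := rfl
    rw [h5] at h1
    linarith
  refine tendsto_atTop_mono' _ ?_
    (tendsto_atTop_add_const_right atTop (YY z 0 - C)
      (tendsto_id.const_mul_atTop (half_pos hB)))
  filter_upwards [eventually_ge_atTop 0] with t ht
  exact hlow t ht
-- END c3

-- BEGIN c4
theorem closed_sin2 {z : Fin 6 → ℝ} (h : XC z) (h5 : cos (π * z 5) = 0) : sin (π * z 2) ≠ 0 := by
  intro h2
  obtain ⟨T, hT, k, hk⟩ := h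
  obtain ⟨-, -, e1⟩ := K2_coord h5 T
  have hr : rz (z 2) = rho := by
    simp [rz, h2]
  have a0 : z 0 + T = z 0 + k 0 := by
    rw [← X_zero z T, hk]
    rfl
  have a1 : z 1 + rho * T = z 1 + k 1 := by
    rw [← hr, ← e1, hk]
    rfl
  have hTk : T = k 0 := by linarith
  have hk0 : ((k 0 : ℤ) : ℝ) ≠ 0 := by
    rw [← hTk]
    exact hT.ne'
  have hq : rho = ((k 1 / k 0 : ℚ) : ℝ) := by
    have h1 : rho * (k 0 : ℝ) = k 1 := by
      rw [← hTk]
      linarith
    push_cast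
    rw [eq_div_iff hk0, h1]
  exact rho_irrational ⟨_, hq.symm⟩
-- END c4

-- BEGIN c5
/-- the closed orbits off `z4 = 1/2` are at the levels `σ_n` -/
theorem closed_level {z : Fin 6 → ℝ} (h : XC z) (h5 : cos (π * z 5) = 0)
    (h4 : cos (π * z 4) ≠ 0) : ∃ n, sin (π * z 2) ^ 2 = sg n := by
  by_contra hcon
  push Not at hcon
  have h2 : sin (π * z 2) ≠ 0 := closed_sin2 h h5
  obtain ⟨T, hT, k, hk⟩ := h
  have hper := (closed_sin3 hT hk h5 h4).2
  have htend := YY_tendsto h5 h4 h2 hcon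
  have hN : ∀ N : ℕ, YY z (N * T) = YY z 0 := by
    intro N
    induction N with
    | zero => simp
    | succ N ih =>
      rw [← ih, ← hper (N * T)]
      congr 1
      push_cast
      ring
  have hseq : Tendsto (fun N : ℕ => (N : ℝ) * T) atTop atTop :=
    tendsto_natCast_atTop_atTop.atTop_mul_const hT
  have h1 := htend.comp hseq
  have h2' : (YY z ∘ fun N : ℕ => (N : ℝ) * T) = fun _ => YY z 0 := funext hN
  rw [h2'] at h1
  exact not_tendsto_const_atTop (YY z 0) atTop h1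

/-- at level `n` the times of return are multiples of `q_n` -/
theorem closed_mult {z : Fin 6 → ℝ} {n : ℕ} {T : ℝ} {k : Fin 6 → ℤ} (hT : 0 < T)
    (hk : flow XX T z = tr k z) (h5 : cos (π * z 5) = 0) (hn : sin (π * z 2) ^ 2 = sg n) :
    ∃ N : ℕ, 1 ≤ N ∧ T = N * qq n := by
  have e0 : T = (k 0 : ℝ) := by
    have h1 := X_zero z T
    rw [hk] at h1
    simp only [MP_1a349f_an.tr] at h1
    linarith
  have hrz : rz (z 2) = rn n := by
    unfold rz
    rw [hn]
    unfold sg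
    ring
  have e1 : rn n * T = (k 1 : ℝ) := by
    have h1 := (K2_coord h5 T).2.2
    rw [hk, hrz] at h1
    simp only [MP_1a349f_an.tr] at h1
    linarith
  have hq : (0 : ℝ) < qq n := by
    have := qq_pos n
    exact_mod_cast (by omega : 0 < qq n)
  have e2 : ((pp n : ℤ) * k 0 : ℤ) = k 1 * qq n := by
    have h1 : (pp n : ℝ) / qq n * k 0 = k 1 := by
      rw [← rn_eq, ← e0]
      exact e1
    have h2 : (pp n : ℝ) * k 0 = k 1 * qq n := by
      rw [← h1]
      field_simp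
    exact_mod_cast h2
  have hdvd : (qq n : ℤ) ∣ k 0 := by
    have hco : IsCoprime (qq n : ℤ) (pp n : ℤ) := by
      rw [Int.isCoprime_iff_gcd_eq_one]
      exact_mod_cast (pp_coprime n).symm
    exact hco.dvd_of_dvd_mul_left ⟨k 1, by rw [e2]; ring⟩
  obtain ⟨m, hm⟩ := hdvd
  have hk0 : 0 < k 0 := by
    rw [e0] at hT
    exact_mod_cast hT
  have hmpos : 0 < m := by
    have hqi : (0 : ℤ) < qq n := by exact_mod_cast hq
    rw [hm] at hk0
    exact (mul_pos_iff_of_pos_left hqi).1 hk0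
  refine ⟨m.toNat, by omega, ?_⟩
  rw [e0, hm]
  have hcast : ((m.toNat : ℕ) : ℝ) = (m : ℝ) := by
    have : ((m.toNat : ℕ) : ℤ) = m := Int.toNat_of_nonneg hmpos.le
    exact_mod_cast this
  rw [hcast]
  push_cast
  ring
-- END c5

-- BEGIN c6
/-- an increasing return map with a periodic point fixes it -/
theorem return_fix {g : ℝ → ℝ → ℝ} {K : ℝ≥0} (hg : ∀ t, LipschitzWith K (g t)) {q : ℝ}
    (hq : ∀ t x, g (t + q) x = g t x) {u : ℝ → ℝ} (hu : ∀ t, HasDerivAt u (g t (u t)) t)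
    {N : ℕ} (hN : 1 ≤ N) (h : u (N * q) = u 0) : ∀ t, u (t + q) = u t := by
  have hv : ∀ t, HasDerivAt (fun t => u (t + q)) (g t (u (t + q))) t := by
    intro t
    have h1 := (hu (t + q)).comp_add_const t q
    rw [hq] at h1
    exact h1
  have h0 : u q = u 0 := by
    rcases lt_trichotomy (u 0) (u q) with hlt | heq | hgt
    · exfalso
      have h2 : ∀ t, u t < u (t + q) := by
        intro t
        have h3 : u 0 < (fun t => u (t + q)) 0 := by
          simp only [zero_add]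
          exact hlt
        exact scalar_order hg hu hv h3 t
      have h4 : ∀ j : ℕ, 1 ≤ j → u 0 < u (j * q) := by
        intro j hj
        induction j, hj using Nat.le_induction with
        | base => rw [Nat.cast_one, one_mul]; exact hlt
        | succ j hj ih =>
          have h5 := h2 (j * q)
          have h6 : ((j + 1 : ℕ) : ℝ) * q = j * q + q := by push_cast; ring
          rw [h6]
          exact ih.trans h5
      have h7 := h4 N hN
      rw [h] at h7
      exact lt_irrefl _ h7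
    · exact heq.symm
    · exfalso
      have h2 : ∀ t, u (t + q) < u t := by
        intro t
        have h3 : (fun t => u (t + q)) 0 < u 0 := by
          simp only [zero_add]
          exact hgt
        exact scalar_order hg hv hu h3 t
      have h4 : ∀ j : ℕ, 1 ≤ j → u (j * q) < u 0 := by
        intro j hj
        induction j, hj using Nat.le_induction with
        | base => rw [Nat.cast_one, one_mul]; exact hgt
        | succ j hj ih =>
          have h5 := h2 (j * q)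
          have h6 : ((j + 1 : ℕ) : ℝ) * q = j * q + q := by push_cast; ring
          rw [h6]
          exact h5.trans ih
      have h7 := h4 N hN
      rw [h] at h7
      exact lt_irrefl _ h7
  have h8 : (fun t => u (t + q)) 0 = u 0 := by
    simp only [zero_add]
    exact h0
  have h9 := scalar_unique hg hv hu h8
  intro t
  exact congrFun h9 t
-- END c6

-- BEGIN c7
/-- (4.2): the fibre equation at level `n` in the time `z0` -/
theorem level_eq {z : Fin 6 → ℝ} {n : ℕ} (h5 : cos (π * z 5) = 0) (h4 : cos (π * z 4) ≠ 0)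
    (hn : sin (π * z 2) ^ 2 = sg n) (t : ℝ) :
    HasDerivAt (fun t => YY z (t - z 0)) (BB n * VV (YY z (t - z 0)) - fl GG n (ph n z) t -
      zt n (sg n) * GG n (ph n z)) t := by
  have hq : (qq n : ℝ) ≠ 0 := by
    have h1 := qq_pos n
    exact_mod_cast (by omega : qq n ≠ 0)
  have hr : rz (z 2) = rn n := by
    unfold rz
    rw [hn]
    unfold sg
    ring
  have hp : qq n * (z 1 + rz (z 2) * (t - z 0)) - pp n * (z 0 + (t - z 0)) = ph n z := by
    rw [hr, rn_eq, ph]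
    field_simp
    ring
  have h4' : sin (π * z 2) ^ 4 = BB n := by
    rw [BB, ← hn]
    ring
  have h := (hasDerivAt_YY h5 h4 (t - z 0)).comp_sub_const t (z 0)
  have hR := RR_level hn (z 0 + (t - z 0)) (z 1 + rz (z 2) * (t - z 0))
  rw [hp, show z 0 + (t - z 0) = t by ring] at hR
  rw [h4', show z 0 + (t - z 0) = t by ring, hR] at h
  refine h.congr_deriv ?_
  ring

theorem rz_level {s : ℝ} {n : ℕ} (hn : sin (π * s) ^ 2 = sg n) : rz s = rn n := by
  unfold rz
  rw [hn]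
  unfold sg
  ring

/-- conversely a solution of the level equation gives the fibre coordinate -/
theorem level_unique {z : Fin 6 → ℝ} {n : ℕ} (h5 : cos (π * z 5) = 0) (h4 : cos (π * z 4) ≠ 0)
    (hn : sin (π * z 2) ^ 2 = sg n) {u : ℝ → ℝ}
    (hu : ∀ t, HasDerivAt u (BB n * VV (u t) - fl GG n (ph n z) t - zt n (sg n) * GG n (ph n z)) t)
    {s : ℝ} (h : YY z (s - z 0) = u s) : ∀ t, YY z (t - z 0) = u t := by
  have hg : ∀ t, LipschitzWith (⟨BB n, (BB_pos n).le⟩ : ℝ≥0)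
      (fun x => BB n * VV x - fl GG n (ph n z) t - zt n (sg n) * GG n (ph n z)) := by
    intro t
    refine LipschitzWith.of_dist_le_mul fun x y => ?_
    rw [Real.dist_eq, Real.dist_eq]
    have e : BB n * VV x - fl GG n (ph n z) t - zt n (sg n) * GG n (ph n z) -
        (BB n * VV y - fl GG n (ph n z) t - zt n (sg n) * GG n (ph n z)) =
        BB n * (VV x - VV y) := by ring
    rw [e, abs_mul, abs_of_pos (BB_pos n)]
    exact mul_le_mul_of_nonneg_left (VV_lip x y) (BB_pos n).le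
  have key : (fun t => YY z (t - z 0)) = u :=
    scalar_unique (g := fun t x => BB n * VV x - fl GG n (ph n z) t - zt n (sg n) * GG n (ph n z))
      hg (fun t => level_eq h5 h4 hn t) hu (s := s) h
  intro t
  exact congrFun key t
-- END c7

-- BEGIN c8
theorem c8_fl_per (n : ℕ) (φ t : ℝ) : fl GG n φ (t + qq n) = fl GG n φ t := by
  unfold fl
  refine Finset.sum_congr rfl fun m _ => ?_
  obtain ⟨l, hl⟩ := dl_mul_qq m n
  have h1 : (qq m / qq n * φ + dl m n * (t + qq n) : ℝ) = (qq m / qq n * φ + dl m n * t) + l := by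
    rw [← hl]; ring
  rw [h1, (GG_TP m).toTQ.per]

/-- (4.3) -/
theorem classify {z : Fin 6 → ℝ} (h : XC z) :
    (cos (π * z 5) = 0 ∧ cos (π * z 4) = 0) ∨ ∃ n, TyB n z := by
  have h5 := XC_K2 h
  by_cases h4 : cos (π * z 4) = 0
  · exact Or.inl ⟨h5, h4⟩
  · right
    obtain ⟨n, hn⟩ := closed_level h h5 h4
    obtain ⟨T, hT, k, hk⟩ := h
    obtain ⟨N, hN, hTN⟩ := closed_mult hT hk h5 hn
    obtain ⟨h3, hper⟩ := closed_sin3 hT hk h5 h4
    have hlev := level_eq h5 h4 hn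
    set g : ℝ → ℝ → ℝ := fun t x => BB n * VV x - fl GG n (ph n z) t -
      zt n (sg n) * GG n (ph n z) with hg
    have hlip : ∀ t, LipschitzWith (Real.toNNReal |BB n|) (g t) := by
      intro t
      refine LipschitzWith.of_dist_le_mul fun x y => ?_
      rw [Real.coe_toNNReal _ (abs_nonneg _), Real.dist_eq, Real.dist_eq]
      have h1 : g t x - g t y = BB n * (VV x - VV y) := by simp only [hg]; ring
      rw [h1, abs_mul]
      exact mul_le_mul_of_nonneg_left (VV_lip x y) (abs_nonneg _)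
    have hq : ∀ t x, g (t + qq n) x = g t x := by
      intro t x
      simp only [hg, c8_fl_per]
    have hret : (fun t => YY z (t - z 0)) (N * qq n) = (fun t => YY z (t - z 0)) 0 := by
      have h2 : ((N : ℝ) * qq n - z 0) = (0 - z 0) + T := by rw [hTN]; ring
      simp only [h2]
      exact hper _
    have hfix := return_fix hlip hq hlev hN hret
    refine ⟨n, ⟨h5, h4, h3, hn, ?_, ?_⟩⟩
    · have hps : PSol GG (GG n) n (ph n z) (fun t => YY z (t - z 0)) := ⟨hlev, hfix⟩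
      exact ((GG_spec n).2.2 _ _ hps).1
    · intro t
      have h6 := hfix (t + z 0)
      have h7 : t + z 0 + qq n - z 0 = t + qq n := by ring
      have h8 : t + z 0 - z 0 = t := by ring
      simp only [h7, h8] at h6
      exact h6
-- END c8

-- BEGIN b1
theorem TyB.psol {n : ℕ} {z : Fin 6 → ℝ} (h : TyB n z) :
    PSol GG (GG n) n (ph n z) (fun t => YY z (t - z 0)) := by
  refine ⟨fun t => level_eq h.c5 h.c4 h.lv t, fun t => ?_⟩
  have h1 := h.per (t - z 0)
  have h2 : t + (qq n : ℝ) - z 0 = t - z 0 + qq n := by ring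
  simp only [h2]
  exact h1

/-- every periodic solution at a level is critical -/
theorem TyB.crit {n : ℕ} {z : Fin 6 → ℝ} (h : TyB n z) :
    ∫ t in (0 : ℝ)..qq n, VD (YY z t) = 0 := by
  have h1 := ((GG_spec n).2.2 _ _ h.psol).2.1
  have h2 : (∫ t in (0 : ℝ)..qq n, VD (YY z (t - z 0))) =
      ∫ t in (0 - z 0)..(qq n - z 0), VD (YY z t) :=
    intervalIntegral.integral_comp_sub_right (fun t => VD (YY z t)) (z 0)
  have h3 : Function.Periodic (fun t => VD (YY z t)) (qq n : ℝ) := fun t => by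
    simp only [h.per t]
  have h4 := h3.intervalIntegral_add_eq (0 - z 0) 0
  have e1 : 0 - z 0 + (qq n : ℝ) = qq n - z 0 := by ring
  have e2 : (0 : ℝ) + (qq n : ℝ) = qq n := by ring
  rw [e1, e2] at h4
  rw [← h4, ← h2]
  exact h1

theorem TyB.FF_pos {n : ℕ} {z : Fin 6 → ℝ} (h : TyB n z) (t : ℝ) : 0 < FF (flow XX t z) := by
  have h1 : MP_1a349f_an.flow XX t z 2 = z 2 := (K2_coord h.c5 t).2.1
  have h2 : 0 < sin (π * MP_1a349f_an.flow XX t z 2) ^ 2 := by
    rw [h1, h.lv]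
    exact sg_pos n
  unfold FF
  have h3 := sq_nonneg (sin (π * MP_1a349f_an.flow XX t z 0))
  have h4 := sq_nonneg (sin (π * MP_1a349f_an.flow XX t z 1))
  positivity
-- END b1

-- BEGIN b2
private theorem b2_qq (n : ℕ) : (qq n : ℝ) ≠ 0 := by
  have h := qq_pos n
  have h1 : (10 : ℝ) ≤ qq n := by exact_mod_cast h
  linarith

theorem ph_flow {n : ℕ} {z : Fin 6 → ℝ} (h5 : cos (π * z 5) = 0)
    (hn : sin (π * z 2) ^ 2 = sg n) (t : ℝ) : ph n (flow XX t z) = ph n z := by
  have h1 := (K2_coord h5 t).2.2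
  have h2 := X_zero z t
  have h3 : rz (z 2) = (pp n : ℝ) / (qq n : ℝ) := by rw [rz_level hn, rn_eq]
  have h4 := b2_qq n
  unfold ph
  rw [h1, h2, h3]
  field_simp
  ring

theorem ph_tr (n : ℕ) (k : Fin 6 → ℤ) (z : Fin 6 → ℝ) : ∃ l : ℤ, ph n (tr k z) = ph n z + l := by
  refine ⟨(qq n : ℤ) * k 1 - (pp n : ℤ) * k 0, ?_⟩
  unfold ph MP_1a349f_an.tr
  push_cast
  ring

private theorem b2_cos (x : ℝ) (k : ℤ) : cos (π * (x + k)) = 0 ↔ cos (π * x) = 0 := by
  have h : cos (π * (x + k)) = (-1) ^ k * cos (π * x) := by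
    rw [mul_add, mul_comm π (k : ℝ)]
    exact Real.cos_add_int_mul_pi _ _
  rw [h]
  constructor
  · intro h1
    rcases mul_eq_zero.1 h1 with h2 | h2
    · exact absurd h2 (zpow_ne_zero _ (by norm_num))
    · exact h2
  · intro h1
    rw [h1, mul_zero]

private theorem b2_sin (x : ℝ) (k : ℤ) : sin (π * (x + k)) = (-1) ^ k * sin (π * x) := by
  rw [mul_add, mul_comm π (k : ℝ)]
  exact Real.sin_add_int_mul_pi _ _

private theorem b2_sin_sq (x : ℝ) (k : ℤ) : sin (π * (x + k)) ^ 2 = sin (π * x) ^ 2 := by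
  rw [b2_sin, mul_pow, ← zpow_natCast, ← zpow_mul, mul_comm k, zpow_mul]
  norm_num

theorem TyB.flow {n : ℕ} {z : Fin 6 → ℝ} (h : TyB n z) (t : ℝ) : TyB n (flow XX t z) := by
  refine ⟨?_, K2_cos h.c5 h.c4 t, ?_, ?_, ?_, fun s => ?_⟩
  · rw [(K2_coord h.c5 t).1]
    exact h.c5
  · rw [K2_3_const h.c5 h.c3 t]
    exact h.c3
  · rw [(K2_coord h.c5 t).2.1]
    exact h.lv
  · rw [ph_flow h.c5 h.lv t]
    exact h.node
  · rw [YY_flow, YY_flow, ← add_assoc]
    exact h.per (t + s)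

theorem TyB.tr {n : ℕ} {z : Fin 6 → ℝ} (h : TyB n z) (k : Fin 6 → ℤ) : TyB n (tr k z) := by
  refine ⟨(b2_cos _ _).2 h.c5, fun h1 => h.c4 ((b2_cos _ _).1 h1), ?_, ?_, ?_, fun s => ?_⟩
  · change sin (π * (z 3 + k 3)) = 0
    rw [b2_sin, h.c3, mul_zero]
  · change sin (π * (z 2 + k 2)) ^ 2 = sg n
    rw [b2_sin_sq, h.lv]
  · obtain ⟨j, hj⟩ := h.node
    obtain ⟨l, hl⟩ := ph_tr n k z
    refine ⟨j + kk n * l, ?_⟩
    rw [hl, mul_add, hj]
    push_cast
    ring
  · rw [YY_tr, YY_tr]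
    exact h.per s
-- END b2

-- BEGIN b3
private theorem b3_tan {a b : ℝ} (ha : cos a ≠ 0) (hb : cos b ≠ 0) (h : tan a = tan b) :
    ∃ m : ℤ, a = b + m * π := by
  have h1 : sin (a - b) = 0 := by
    rw [sin_sub]
    rw [tan_eq_sin_div_cos, tan_eq_sin_div_cos, div_eq_div_iff ha hb] at h
    linarith
  obtain ⟨m, hm⟩ := sin_eq_zero_iff.1 h1
  exact ⟨m, by linarith⟩

theorem TyB.closed {n : ℕ} {z : Fin 6 → ℝ} (h : TyB n z) :
    ∃ k : Fin 6 → ℤ, MP_1a349f_an.flow XX (qq n) z = MP_1a349f_an.tr k z := by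
  have h0 : MP_1a349f_an.flow XX 0 z = z := good_XX.flow_zero z
  have hc := K2_cos h.c5 h.c4
  have hY : YY z (qq n) = YY z 0 := by
    have := h.per 0
    rwa [zero_add] at this
  rw [YY, YY] at hY
  obtain ⟨m, hm⟩ := b3_tan (hc _) (hc _) hY
  rw [h0] at hm
  have hm' : MP_1a349f_an.flow XX (qq n) z 4 = z 4 + m := by
    have hpi := pi_pos.ne'
    field_simp at hm
    linarith
  obtain ⟨e5, e2, e1⟩ := K2_coord h.c5 (qq n : ℝ)
  have e0 := X_zero z (qq n : ℝ)
  have e3 := K2_3_const h.c5 h.c3 (qq n : ℝ)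
  have hr : rz (z 2) * qq n = pp n := by
    have hq : (qq n : ℝ) ≠ 0 := by
      have := qq_pos n
      positivity
    rw [rz_level h.lv, rn_eq]
    field_simp
  refine ⟨![(qq n : ℤ), (pp n : ℤ), 0, 0, m, 0], ?_⟩
  funext i
  rw [MP_1a349f_an.tr]
  fin_cases i
  · simpa using e0
  · simpa [hr] using e1
  · simpa using e2
  · simpa using e3
  · simpa using hm'
  · simpa using e5

theorem TyB.min {n : ℕ} {z : Fin 6 → ℝ} (h : TyB n z) {T : ℝ} (hT : 0 < T) {k : Fin 6 → ℤ}
    (hk : MP_1a349f_an.flow XX T z = MP_1a349f_an.tr k z) : (qq n : ℝ) ≤ T := by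
  obtain ⟨N, hN, hT'⟩ := closed_mult hT hk h.c5 h.lv
  rw [hT']
  have h1 : (1 : ℝ) ≤ N := by exact_mod_cast hN
  have h2 : (0 : ℝ) ≤ qq n := Nat.cast_nonneg _
  nlinarith
-- END b3

-- BEGIN b4
private theorem b4_int (n : ℕ) (l : ℤ) : ∃ a b : ℤ, (qq n : ℤ) * b - (pp n : ℤ) * a = l := by
  have h : IsCoprime ((pp n : ℕ) : ℤ) ((qq n : ℕ) : ℤ) := Nat.isCoprime_iff_coprime.2 (pp_coprime n)
  obtain ⟨u, v, huv⟩ := h
  refine ⟨-(l * u), l * v, ?_⟩
  linear_combination l * huv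

private theorem b4_tan {x y : ℝ} (hx : cos (π * x) ≠ 0) (hy : cos (π * y) ≠ 0)
    (h : tan (π * x) = tan (π * y)) : ∃ l : ℤ, x = y + l := by
  rw [tan_eq_sin_div_cos, tan_eq_sin_div_cos, div_eq_div_iff hx hy] at h
  have h1 : sin (π * x - π * y) = 0 := by
    rw [sin_sub]
    linarith
  obtain ⟨l, hl⟩ := sin_eq_zero_iff.1 h1
  refine ⟨l, ?_⟩
  have h2 : π * (x - y - l) = 0 := by linear_combination -hl
  rcases mul_eq_zero.1 h2 with h3 | h3
  · exact absurd h3 pi_ne_zero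
  · linarith

private theorem b4_sin {x y : ℝ} (hx : sin (π * x) = 0) (hy : sin (π * y) = 0) :
    ∃ l : ℤ, x = y + l := by
  have h1 : sin (π * x - π * y) = 0 := by
    rw [sin_sub, hx, hy]
    ring
  obtain ⟨l, hl⟩ := sin_eq_zero_iff.1 h1
  refine ⟨l, ?_⟩
  have h2 : π * (x - y - l) = 0 := by linear_combination -hl
  rcases mul_eq_zero.1 h2 with h3 | h3
  · exact absurd h3 pi_ne_zero
  · linarith

private theorem b4_cos {x y : ℝ} (hx : cos (π * x) = 0) (hy : cos (π * y) = 0) :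
    ∃ l : ℤ, x = y + l := by
  have h1 : sin (π * x - π * y) = 0 := by
    rw [sin_sub, hx, hy]
    ring
  obtain ⟨l, hl⟩ := sin_eq_zero_iff.1 h1
  refine ⟨l, ?_⟩
  have h2 : π * (x - y - l) = 0 := by linear_combination -hl
  rcases mul_eq_zero.1 h2 with h3 | h3
  · exact absurd h3 pi_ne_zero
  · linarith

/-- (4.4) -/
theorem TyB.same_orbit {n : ℕ} {z z' : Fin 6 → ℝ} (h : TyB n z) (h' : TyB n z')
    (h2 : ∃ l : ℤ, z' 2 = z 2 + l) (hp : ∃ l : ℤ, ph n z' = ph n z + l) :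
    ∃ (t : ℝ) (k : Fin 6 → ℤ), MP_1a349f_an.flow XX t z = MP_1a349f_an.tr k z' := by
  obtain ⟨l2, hl2⟩ := h2
  obtain ⟨l, hl⟩ := hp
  obtain ⟨a, b, hab⟩ := b4_int n (-l)
  -- first translate `z'` so that the phases agree
  let k0 : Fin 6 → ℤ := fun i => if i = 0 then a else if i = 1 then b else 0
  have hk0 : k0 0 = a := rfl
  have hk1 : k0 1 = b := rfl
  have hw : TyB n (MP_1a349f_an.tr k0 z') := TyB.tr h' k0
  set w : Fin 6 → ℝ := MP_1a349f_an.tr k0 z' with hwdef
  have w0 : w 0 = z' 0 + a := rfl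
  have w1 : w 1 = z' 1 + b := rfl
  have w2 : w 2 = z' 2 + (0 : ℤ) := rfl
  have hph : ph n w = ph n z := by
    have hab' : (qq n : ℝ) * b - (pp n : ℝ) * a = -l := by exact_mod_cast hab
    unfold ph at hl ⊢
    rw [w0, w1]
    linear_combination hl + hab'
  have hu : ∀ s, YY w (s - w 0) = YY z (s - z 0) := by
    have e1 := hw.psol
    rw [hph] at e1
    have e2 := ((GG_spec n).2.2 _ _ h.psol).2.2 _ e1
    exact fun s => congrFun e2 s
  have ht : YY z (w 0 - z 0) = YY w 0 := by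
    have e := hu (w 0)
    rw [sub_self] at e
    exact e.symm
  set t : ℝ := w 0 - z 0 with htdef
  have hq : (qq n : ℝ) ≠ 0 := by
    have h := qq_pos n
    have h1 : (10 : ℝ) ≤ qq n := by exact_mod_cast h
    linarith
  have f0 : MP_1a349f_an.flow XX t z 0 = w 0 := by
    rw [X_zero]
    ring
  have f1 : MP_1a349f_an.flow XX t z 1 = w 1 := by
    rw [(K2_coord h.c5 t).2.2, rz_level h.lv, rn_eq]
    unfold ph at hph
    field_simp
    rw [htdef]
    linear_combination -hph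
  have f2 : MP_1a349f_an.flow XX t z 2 = z 2 := (K2_coord h.c5 t).2.1
  have hf : TyB n (MP_1a349f_an.flow XX t z) := TyB.flow h t
  obtain ⟨l3, hl3⟩ := b4_sin hf.c3 hw.c3
  obtain ⟨l5, hl5⟩ := b4_cos hf.c5 hw.c5
  have good0 : MP_1a349f_an.flow XX 0 w = w := good_XX.flow_zero w
  have ht4 : tan (π * MP_1a349f_an.flow XX t z 4) = tan (π * w 4) := by
    have e : YY w 0 = tan (π * MP_1a349f_an.flow XX 0 w 4) := rfl
    rw [good0] at e
    rw [← e, ← ht]
    rfl
  obtain ⟨l4, hl4⟩ := b4_tan hf.c4 hw.c4 ht4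
  refine ⟨t, fun i => if i = 0 then a else if i = 1 then b else if i = 2 then -l2 else
    if i = 3 then l3 else if i = 4 then l4 else l5, ?_⟩
  have g3 : w 3 = z' 3 + (0 : ℤ) := rfl
  have g4 : w 4 = z' 4 + (0 : ℤ) := rfl
  have g5 : w 5 = z' 5 + (0 : ℤ) := rfl
  rw [Int.cast_zero, add_zero] at g3 g4 g5
  funext i
  fin_cases i
  · exact f0
  · exact f1
  · change MP_1a349f_an.flow XX t z 2 = z' 2 + ((-l2 : ℤ) : ℝ)
    rw [f2, hl2]
    push_cast
    ring
  · change MP_1a349f_an.flow XX t z 3 = z' 3 + (l3 : ℝ)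
    rw [hl3, g3]
  · change MP_1a349f_an.flow XX t z 4 = z' 4 + (l4 : ℝ)
    rw [hl4, g4]
  · change MP_1a349f_an.flow XX t z 5 = z' 5 + (l5 : ℝ)
    rw [hl5, g5]
-- END b4

-- BEGIN b5
theorem TyB.exists {n : ℕ} {s : ℝ} (hs : sin (π * s) ^ 2 = sg n) (j : ℤ) :
    ∃ z, TyB n z ∧ z 2 = s ∧ z 0 = 0 ∧ ph n z = j / kk n := by
  obtain ⟨u, hu⟩ := (GG_spec n).2.1 j
  have hq : (qq n : ℝ) ≠ 0 := by
    have h := qq_pos n
    have h1 : (10 : ℝ) ≤ qq n := by exact_mod_cast h
    linarith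
  have hk : (kk n : ℝ) ≠ 0 := by
    have h := kk_pos n
    have h1 : (3 : ℝ) ≤ kk n := by exact_mod_cast h
    linarith
  let z : Fin 6 → ℝ := ![0, j / kk n / qq n, s, 0, arctan (u 0) / π, 1 / 2]
  have z0 : z 0 = 0 := rfl
  have z1 : z 1 = j / kk n / qq n := rfl
  have z2 : z 2 = s := rfl
  have z3 : z 3 = 0 := rfl
  have z4 : z 4 = arctan (u 0) / π := rfl
  have z5 : z 5 = 1 / 2 := rfl
  have hph : ph n z = j / kk n := by
    unfold ph
    rw [z0, z1]
    field_simp
    ring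
  have h4 : π * z 4 = arctan (u 0) := by
    rw [z4]
    field_simp
  have c5 : cos (π * z 5) = 0 := by
    rw [z5, mul_one_div]
    exact cos_pi_div_two
  have c4 : cos (π * z 4) ≠ 0 := by
    rw [h4]
    exact (cos_arctan_pos _).ne'
  have c3 : sin (π * z 3) = 0 := by
    rw [z3, mul_zero, sin_zero]
  have lv : sin (π * z 2) ^ 2 = sg n := by rw [z2, hs]
  have hY0 : YY z 0 = u 0 := by
    have e : YY z 0 = tan (π * MP_1a349f_an.flow XX 0 z 4) := rfl
    rw [e, good_XX.flow_zero z, h4, tan_arctan]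
  have hu1 : ∀ t, HasDerivAt u (BB n * VV (u t) - fl GG n (ph n z) t -
      zt n (sg n) * GG n (ph n z)) t := by
    intro t
    rw [hph]
    exact hu.1 t
  have hY : ∀ t, YY z t = u t := by
    have e := level_unique (s := 0) c5 c4 lv hu1 (by rw [z0, sub_zero, hY0])
    intro t
    have e1 := e t
    rw [z0, sub_zero] at e1
    exact e1
  refine ⟨z, ⟨c5, c4, c3, lv, ⟨j, ?_⟩, fun t => ?_⟩, z2, z0, hph⟩
  · rw [hph]
    field_simp
  · rw [hY, hY]
    exact hu.2 t

theorem exists_level (n : ℕ) : ∃ s : ℝ, s ∈ Ioo 0 (1 / 2) ∧ sin (π * s) ^ 2 = sg n := by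
  have h0 := sg_pos n
  have h1 := sg_lt_one n
  have h2 : 0 < √(sg n) := Real.sqrt_pos.2 h0
  have h3 : √(sg n) < 1 := by
    rw [Real.sqrt_lt' one_pos]
    linarith
  have h4 : 0 < arcsin √(sg n) := Real.arcsin_pos.2 h2
  have h5 : arcsin √(sg n) < π / 2 := Real.arcsin_lt_pi_div_two.2 h3
  have h6 : π * (arcsin √(sg n) / π) = arcsin √(sg n) := by
    have := pi_ne_zero
    field_simp
  refine ⟨arcsin √(sg n) / π, ⟨by positivity, ?_⟩, ?_⟩
  · rw [div_lt_iff₀ pi_pos]
    linarith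
  · rw [h6, Real.sin_arcsin (by linarith) h3.le, Real.sq_sqrt h0.le]
-- END b5

end Pool.Agent.AnQ2
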