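import Mathlib

set_option autoImplicit false

/-!
# Definitions for the real-analytic exchange theorem

The definitions are those of the `C^∞` version (`EntropyOrbitExchange`), with analytic flows.
-/

namespace Pool.Agent.AnQ2

open Set Filter Topology
open scoped Manifold ContDiff ENNReal

section Defs

variable {M : Type*}

/-- The orbit of a point under `φ`. -/
def orbit (φ : ℝ → M → M) (x : M) : Set M := Set.range fun t => φ t x

/-- `φ` and `ψ` are equivalent: a homeomorphism `π` maps each orbit of `φ` onto an orbit of `ψ`,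
preserving the time orientation (time is changed along each orbit by an increasing bijection
`τ` of the line). -/
def Equivalent [TopologicalSpace M] (φ ψ : ℝ → M → M) : Prop :=
  ∃ π : M ≃ₜ M, ∀ x, ∃ τ : ℝ ≃o ℝ, τ 0 = 0 ∧ ∀ t, π (φ t x) = ψ (τ t) (π x)

/-- The topological entropy of a flow: the (Bowen) topological entropy of its time-one map. -/
noncomputable def entropy [UniformSpace M] (φ : ℝ → M → M) : EReal :=
  Dynamics.coverEntropy (φ 1) Set.univ

/-- `x` is a periodic point with a period in `(0, t]`. -/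
def PeriodicUpTo (φ : ℝ → M → M) (t : ℝ) (x : M) : Prop := ∃ s, 0 < s ∧ s ≤ t ∧ φ s x = x

/-- The strongest reading of `the orbit O is isolated`: it has a neighbourhood in which every
periodic point, of whatever period, lies on `O`. -/
def IsolatedStrong [TopologicalSpace M] (φ : ℝ → M → M) (_t : ℝ) (O : Set M) : Prop :=
  ∃ U : Set M, IsOpen U ∧ O ⊆ U ∧ ∀ y ∈ U, (∃ s, 0 < s ∧ φ s y = y) → y ∈ O

/-- The weakest reading of `the orbit O is isolated`: it has a neighbourhood which contains no
other complete orbit that is closed with a period in `(0, t]`. -/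
def IsolatedWeak [TopologicalSpace M] (φ : ℝ → M → M) (t : ℝ) (O : Set M) : Prop :=
  ∃ U : Set M, IsOpen U ∧ O ⊆ U ∧ ∀ y, orbit φ y ⊆ U → PeriodicUpTo φ t y → y ∈ O

/-- `P_t(φ)`: the set of orbits of `φ` that are isolated (in the sense `I`) and consist of points
`x` with `φ s x = x` for some `0 < s ≤ t`. -/
def P (I : (ℝ → M → M) → ℝ → Set M → Prop) (φ : ℝ → M → M) (t : ℝ) : Set (Set M) :=
  {O | (∃ x, O = orbit φ x) ∧ (∀ x ∈ O, PeriodicUpTo φ t x) ∧ I φ t O}

/-- `EP(φ) = limsup_{t → ∞} (1/t) log #P_t(φ)`, where `I` says what `isolated` means. -/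
noncomputable def EP (I : (ℝ → M → M) → ℝ → Set M → Prop) (φ : ℝ → M → M) : EReal :=
  limsup (fun t : ℝ => ENNReal.log ((P I φ t).encard : ℝ≥0∞) / (t : EReal)) atTop

end Defs

/-- `φ` is a real-analytic flow on the real-analytic manifold `M` (modelled on `E`): the flow of a
real-analytic (`C^ω`) vector field `X`, that is, its trajectories are the integral curves of `X`. -/
def IsAnalyticFlow {E : Type*} [NormedAddCommGroup E] [NormedSpace ℝ E] {M : Type*}
    [TopologicalSpace M] [ChartedSpace E M] [IsManifold 𝓘(ℝ, E) ω M] (φ : ℝ → M → M) : Prop :=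
  ∃ X : (x : M) → TangentSpace 𝓘(ℝ, E) x,
    ContMDiff 𝓘(ℝ, E) 𝓘(ℝ, E).tangent ω (fun x => (⟨x, X x⟩ : TangentBundle 𝓘(ℝ, E) M)) ∧
    (∀ x, φ 0 x = x) ∧ (∀ s t x, φ (s + t) x = φ s (φ t x)) ∧
    ∀ x, IsMIntegralCurve (I := 𝓘(ℝ, E)) (fun t => φ t x) X

end Pool.Agent.AnQ2
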