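import Mathlib
import Pool.Agent.AnQ2.Cls

/-!
# Periods of the slowed flows (page, (4.5), (4.8), (4.9))
-/

namespace Pool.Agent.AnQ2

open Set Filter Topology Real MeasureTheory
open scoped ContDiff NNReal ENNReal
open Pool.Agent.MP_1a349f_an

/-- the slowed field -/
noncomputable abbrev SV (h : (Fin 6 → ℝ) → ℝ) (z : Fin 6 → ℝ) : Fin 6 → ℝ := h z • XX z

/-- the period of the isolated closed orbits under the slowed flow -/
noncomputable def pd (h : (Fin 6 → ℝ) → ℝ) (n : ℕ) (z : Fin 6 → ℝ) : ℝ :=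
  ∫ u in (0 : ℝ)..qq n, (h (flow XX u z))⁻¹

-- BEGIN p1
theorem Spd.XC_of_closed {h : (Fin 6 → ℝ) → ℝ} (hh : Spd h) {z : Fin 6 → ℝ} {s : ℝ} {k : Fin 6 → ℤ}
    (hs : 0 < s) (hk : flow (SV h) s z = tr k z) (hF : 0 < FF z) : XC z := by
  refine ⟨flow (fun z => h z • XX z) s z 0 - z 0, hh.clock_pos hF hs, k, ?_⟩
  rw [← hh.tc z s]
  exact hk

theorem FF_flow_tyA (n : ℕ) (z : Fin 6 → ℝ) (hz : TyB n z) (t : ℝ) :
    hA (flow XX t z) = FF (flow XX t z) ^ 4 := by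
  have h5 : flow XX t z 5 = z 5 := (K2_coord hz.c5 t).1
  have hs := sin5_of_cos hz.c5
  unfold hA
  rw [h5, hz.c5, hs]
  ring
-- END p1

-- BEGIN p2
private theorem p2_pos {h : (Fin 6 → ℝ) → ℝ} (hh : Spd h) {n : ℕ} {z : Fin 6 → ℝ} (hz : TyB n z)
    (u : ℝ) : 0 < h (flow XX u z) := hh.pos _ (hz.FF_pos u)

private theorem p2_cont {h : (Fin 6 → ℝ) → ℝ} (hh : Spd h) {n : ℕ} {z : Fin 6 → ℝ}
    (hz : TyB n z) : Continuous fun u => (h (flow XX u z))⁻¹ :=
  (hh.cont.comp (good_XX.continuous_flow z)).inv₀ fun u => (p2_pos hh hz u).ne'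

private theorem p2_qq (n : ℕ) : (0 : ℝ) < qq n := by
  have := qq_pos n
  exact_mod_cast (by omega : 0 < qq n)

theorem Spd.pd_pos {h : (Fin 6 → ℝ) → ℝ} (hh : Spd h) {n : ℕ} {z : Fin 6 → ℝ} (hz : TyB n z) :
    0 < pd h n z :=
  intervalIntegral.intervalIntegral_pos_of_pos ((p2_cont hh hz).intervalIntegrable _ _)
    (fun u => inv_pos.2 (p2_pos hh hz u)) (p2_qq n)

theorem Spd.pd_closed {h : (Fin 6 → ℝ) → ℝ} (hh : Spd h) {n : ℕ} {z : Fin 6 → ℝ} (hz : TyB n z) :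
    ∃ k : Fin 6 → ℤ, flow (SV h) (pd h n z) z = tr k z := by
  obtain ⟨τ, _, _, h3, h4⟩ := hh.onto hz.FF_pos
  obtain ⟨k, hk⟩ := hz.closed
  refine ⟨k, ?_⟩
  have e1 : pd h n z = τ.symm (qq n) := (h4 _).symm
  have e2 := h3 (pd h n z)
  rw [e1, OrderIso.apply_symm_apply] at e2
  rw [e1]
  exact e2.trans hk

theorem Spd.pd_min {h : (Fin 6 → ℝ) → ℝ} (hh : Spd h) {n : ℕ} {z : Fin 6 → ℝ} (hz : TyB n z)
    {s : ℝ} {k : Fin 6 → ℤ} (hs : 0 < s) (hk : flow (SV h) s z = tr k z) : pd h n z ≤ s := by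
  obtain ⟨τ, h1, _, h3, h4⟩ := hh.onto hz.FF_pos
  have hp : 0 < τ s := by
    have := τ.strictMono hs
    rwa [h1] at this
  have e1 : flow XX (τ s) z = tr k z := (h3 s).symm.trans hk
  have e2 := hz.min hp e1
  have e3 := τ.symm.monotone e2
  rw [OrderIso.symm_apply_apply, h4] at e3
  exact e3

/-- the period does not change along the orbit and under translations -/
theorem pd_flow {h : (Fin 6 → ℝ) → ℝ} (hh : Spd h) {n : ℕ} {z : Fin 6 → ℝ} (hz : TyB n z) (t : ℝ) :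
    pd h n (flow XX t z) = pd h n z := by
  obtain ⟨k, hk⟩ := hz.closed
  have hper : Function.Periodic (fun u => (h (flow XX u z))⁻¹) (qq n : ℝ) := by
    intro u
    have : flow XX (u + qq n) z = tr k (flow XX u z) := by
      rw [add_comm u, add_comm, good_XX.flow_add, hk, good_XX.flow_tr]
    simp only [this, hh.per k]
  have e : ∀ u, flow XX u (flow XX t z) = flow XX (u + t) z := fun u => by
    rw [← good_XX.flow_add]
  have h1 : pd h n (flow XX t z) = ∫ u in (0 : ℝ)..qq n, (h (flow XX (u + t) z))⁻¹ := by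
    simp only [pd, e]
  rw [h1, intervalIntegral.integral_comp_add_right (fun u => (h (flow XX u z))⁻¹) t, zero_add,
    add_comm (qq n : ℝ) t, hper.intervalIntegral_add_eq t 0, zero_add]
  rfl
-- END p2

-- BEGIN p3
theorem p3_sin (x : ℝ) (k : ℤ) : sin (π * (x - k)) ^ 2 = sin (π * x) ^ 2 := by
  have h1 : ((-1 : ℝ) ^ k) ^ 2 = 1 := by
    rcases Int.even_or_odd k with h | h
    · rw [h.neg_one_zpow]; norm_num
    · rw [h.neg_one_zpow]; norm_num
  rw [show π * (x - k) = π * x - k * π by ring, sin_sub_int_mul_pi, mul_pow, h1, one_mul]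

/-- a point far from the integers -/
theorem p3_far {x q : ℝ} (hq : 0 < q) (h : 1 / (8 * q) ≤ |x - round x|) :
    1 / (16 * q ^ 2) ≤ sin (π * x) ^ 2 := by
  have h1 : |x - round x| ≤ 1 / 2 := abs_sub_round x
  have h2 := sq_le_sin_sq h1
  rw [p3_sin] at h2
  have h3 : (1 / (8 * q)) ^ 2 ≤ (x - round x) ^ 2 := by
    rw [← sq_abs (x - round x)]
    exact pow_le_pow_left₀ (by positivity) h 2
  calc 1 / (16 * q ^ 2) = 4 * (1 / (8 * q)) ^ 2 := by field_simp; norm_num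
    _ ≤ 4 * (x - round x) ^ 2 := by linarith
    _ ≤ _ := h2

/-- (4.8) -/
theorem FF_lower {n : ℕ} {z : Fin 6 → ℝ} (hz : TyB n z) {j : ℤ} (hj : ph n z = j / kk n)
    (h1 : 1 / 4 ≤ (j : ℝ) / kk n) (h2 : (j : ℝ) / kk n ≤ 3 / 4) (t : ℝ) :
    1 / (192 * (qq n : ℝ) ^ 2) ≤ FF (flow XX t z) := by
  have hq : (0 : ℝ) < qq n := by
    have := qq_pos n
    exact_mod_cast (by omega : 0 < qq n)
  have hp : (pp n : ℝ) ≤ qq n := by exact_mod_cast pp_le n
  have hp0 : (0 : ℝ) ≤ pp n := Nat.cast_nonneg _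
  have hph := ph_flow hz.c5 hz.lv t
  rw [hj] at hph
  set w := flow XX t z with hw
  have hd : 1 / (8 * (qq n : ℝ)) ≤ |w 0 - round (w 0)| ∨
      1 / (8 * (qq n : ℝ)) ≤ |w 1 - round (w 1)| := by
    by_contra hcon
    push Not at hcon
    obtain ⟨ha, hb⟩ := hcon
    have h3 : |ph n w - ((qq n : ℝ) * round (w 1) - pp n * round (w 0))| < 1 / 4 := by
      have h4 : ph n w - ((qq n : ℝ) * round (w 1) - pp n * round (w 0)) =
          qq n * (w 1 - round (w 1)) - pp n * (w 0 - round (w 0)) := by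
        unfold ph; ring
      rw [h4]
      calc |(qq n : ℝ) * (w 1 - round (w 1)) - pp n * (w 0 - round (w 0))|
          ≤ |(qq n : ℝ) * (w 1 - round (w 1))| + |(pp n : ℝ) * (w 0 - round (w 0))| := abs_sub _ _
        _ = qq n * |w 1 - round (w 1)| + pp n * |w 0 - round (w 0)| := by
            rw [abs_mul, abs_mul, abs_of_pos hq, abs_of_nonneg hp0]
        _ < qq n * (1 / (8 * qq n)) + qq n * (1 / (8 * qq n)) := by
            have h5 : (qq n : ℝ) * |w 1 - round (w 1)| < qq n * (1 / (8 * qq n)) :=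
              mul_lt_mul_of_pos_left hb hq
            have h6 : (pp n : ℝ) * |w 0 - round (w 0)| ≤ qq n * (1 / (8 * qq n)) :=
              mul_le_mul hp ha.le (abs_nonneg _) hq.le
            linarith
        _ = 1 / 4 := by field_simp; norm_num
    rw [hph, abs_lt] at h3
    obtain ⟨h3a, h3b⟩ := h3
    have h7 : ((0 : ℤ) : ℝ) < ((qq n : ℤ) * round (w 1) - (pp n : ℤ) * round (w 0) : ℤ) := by
      push_cast; linarith
    have h8 : (((qq n : ℤ) * round (w 1) - (pp n : ℤ) * round (w 0) : ℤ) : ℝ) < ((1 : ℤ) : ℝ) := by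
      push_cast; linarith
    have h7' := Int.cast_lt.1 h7
    have h8' := Int.cast_lt.1 h8
    omega
  have h9 : 1 / (192 * (qq n : ℝ) ^ 2) = 1 / (16 * (qq n : ℝ) ^ 2) / 12 := by
    field_simp; norm_num
  rw [h9]
  unfold FF
  have hs0 := sq_nonneg (sin (π * w 0))
  have hs1 := sq_nonneg (sin (π * w 1))
  have hs2 := sq_nonneg (sin (π * w 2))
  rcases hd with h | h
  · have := p3_far hq h
    linarith
  · have := p3_far hq h
    linarith

theorem pdB_le {n : ℕ} {z : Fin 6 → ℝ} (hz : TyB n z) {j : ℤ} (hj : ph n z = j / kk n)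
    (h1 : 1 / 4 ≤ (j : ℝ) / kk n) (h2 : (j : ℝ) / kk n ≤ 3 / 4) :
    pd hB n z ≤ 36864 * (qq n : ℝ) ^ 5 := by
  have hq : (0 : ℝ) < qq n := by
    have := qq_pos n
    exact_mod_cast (by omega : 0 < qq n)
  have hpos : ∀ u, 0 < hB (flow XX u z) := fun u => hB_pos (hz.FF_pos u)
  have hc : Continuous fun u => (hB (flow XX u z))⁻¹ :=
    (hB_cont.comp (good_XX.continuous_flow z)).inv₀ fun u => (hpos u).ne'
  have h3 : pd hB n z ≤ ∫ _u in (0 : ℝ)..qq n, (192 * (qq n : ℝ) ^ 2) ^ 2 := by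
    unfold pd
    refine intervalIntegral.integral_mono_on hq.le (hc.intervalIntegrable _ _)
      (continuous_const.intervalIntegrable _ _) (fun u _ => ?_)
    have h4 := FF_lower hz hj h1 h2 u
    have h5 : (1 / (192 * (qq n : ℝ) ^ 2)) ^ 2 ≤ hB (flow XX u z) :=
      pow_le_pow_left₀ (by positivity) h4 2
    calc (hB (flow XX u z))⁻¹ ≤ ((1 / (192 * (qq n : ℝ) ^ 2)) ^ 2)⁻¹ :=
          inv_anti₀ (by positivity) h5
      _ = (192 * (qq n : ℝ) ^ 2) ^ 2 := by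
          rw [one_div, inv_pow, inv_inv]
  refine h3.trans ?_
  rw [intervalIntegral.integral_const, sub_zero, smul_eq_mul]
  apply le_of_eq
  ring
-- END p3

-- BEGIN p4
private theorem p4_sin (m : ℤ) (x : ℝ) : sin (π * (m + x)) ^ 2 ≤ (π * x) ^ 2 := by
  have h1 : sin (π * (m + x)) = (-1) ^ m * sin (π * x) := by
    rw [show π * (m + x) = π * x + m * π by ring, sin_add_int_mul_pi]
  have h2 : (((-1 : ℝ) ^ m)) ^ 2 = 1 := by
    rw [← zpow_natCast, ← zpow_mul, mul_comm, zpow_mul]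
    norm_num
  rw [h1, mul_pow, h2, one_mul]
  have h3 : |sin (π * x)| ≤ |π * x| := abs_sin_le_abs
  exact sq_le_sq.mpr h3

/-- (4.9) -/
theorem FF_upper {n : ℕ} {z : Fin 6 → ℝ} (hz : TyB n z) :
    ∃ t0 : ℝ, ∀ t ∈ Icc t0 (t0 + 1 / qq n), FF (flow XX t z) ≤ 5 / (qq n : ℝ) ^ 2 := by
  have hq : (10 : ℝ) ≤ qq n := by exact_mod_cast qq_pos n
  have hq0 : (0 : ℝ) < qq n := by linarith
  have hp : (pp n : ℝ) ≤ qq n := by exact_mod_cast pp_le n
  have hp0 : (0 : ℝ) ≤ pp n := Nat.cast_nonneg _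
  obtain ⟨a, b, hab⟩ := Nat.isCoprime_iff_coprime.mpr (pp_coprime n)
  set F : ℤ := ⌊ph n z⌋ with hF
  have hF1 : (F : ℝ) ≤ ph n z := Int.floor_le _
  have hF2 : ph n z < F + 1 := Int.lt_floor_add_one _
  have hab' : (a : ℝ) * pp n + b * qq n = 1 := by exact_mod_cast hab
  refine ⟨(((-a * F : ℤ) : ℤ) : ℝ) - z 0, ?_⟩
  rintro t ⟨ht1, ht2⟩
  obtain ⟨-, h2, h1⟩ := K2_coord hz.c5 t
  have h0 := X_zero z t
  set d : ℝ := t - ((((-a * F : ℤ) : ℤ) : ℝ) - z 0) with hd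
  have hd0 : 0 ≤ d := by linarith
  have hd1 : d ≤ 1 / qq n := by linarith
  have e0 : flow XX t z 0 = (((-a * F : ℤ) : ℤ) : ℝ) + d := by
    rw [h0, hd]
    ring
  have hrz : rz (z 2) = (pp n : ℝ) / (qq n : ℝ) := by
    rw [rz_level hz.lv, rn_eq]
  have e1 : flow XX t z 1 = ((b * F : ℤ) : ℝ) + ((ph n z - F) / qq n + pp n / qq n * d) := by
    rw [h1, hrz, hd]
    have h3 : z 1 = (ph n z + pp n * z 0) / qq n := by
      unfold ph
      field_simp
      ring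
    rw [h3]
    push_cast
    have h4 : (b : ℝ) * F = F * (1 - a * pp n) / qq n := by
      rw [eq_div_iff hq0.ne']
      linear_combination (F : ℝ) * hab'
    rw [h4]
    field_simp
    ring
  have s0 : sin (π * flow XX t z 0) ^ 2 ≤ (π * (1 / qq n)) ^ 2 := by
    rw [e0]
    refine (p4_sin _ _).trans ?_
    have h5 : 0 ≤ π * d := mul_nonneg pi_pos.le hd0
    exact pow_le_pow_left₀ h5 (mul_le_mul_of_nonneg_left hd1 pi_pos.le) 2
  have s1 : sin (π * flow XX t z 1) ^ 2 ≤ (π * (2 / qq n)) ^ 2 := by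
    rw [e1]
    refine (p4_sin _ _).trans ?_
    have h6 : 0 ≤ (ph n z - F) / qq n := div_nonneg (by linarith) hq0.le
    have h7 : (ph n z - F) / qq n ≤ 1 / qq n := div_le_div_of_nonneg_right (by linarith) hq0.le
    have h8 : (pp n : ℝ) / qq n ≤ 1 := (div_le_one hq0).mpr hp
    have h9 : 0 ≤ (pp n : ℝ) / qq n := div_nonneg hp0 hq0.le
    have h10 : (pp n : ℝ) / qq n * d ≤ 1 * (1 / qq n) := mul_le_mul h8 hd1 hd0 zero_le_one
    have h11 : 0 ≤ (pp n : ℝ) / qq n * d := mul_nonneg h9 hd0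
    have h12 : (2 : ℝ) / qq n = 1 / qq n + 1 / qq n := by ring
    refine pow_le_pow_left₀ (mul_nonneg pi_pos.le (by linarith)) ?_ 2
    exact mul_le_mul_of_nonneg_left (by linarith) pi_pos.le
  have s2 : sin (π * flow XX t z 2) ^ 2 ≤ 1 / (qq n : ℝ) ^ 2 := by
    rw [h2, hz.lv]
    exact sg_le_sq n
  unfold FF
  have hpi : π ^ 2 ≤ 10 := by
    have h13 := pi_lt_d2
    nlinarith [pi_pos]
  have e2 : (π * (1 / qq n)) ^ 2 = π ^ 2 * (1 / (qq n : ℝ) ^ 2) := by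
    rw [mul_pow, div_pow, one_pow]
  have e3 : (π * (2 / qq n)) ^ 2 = 4 * π ^ 2 * (1 / (qq n : ℝ) ^ 2) := by
    rw [mul_pow, div_pow]
    ring
  rw [e2] at s0
  rw [e3] at s1
  have hw : 0 ≤ 1 / (qq n : ℝ) ^ 2 := by positivity
  have h14 : π ^ 2 * (1 / (qq n : ℝ) ^ 2) ≤ 10 * (1 / (qq n : ℝ) ^ 2) :=
    mul_le_mul_of_nonneg_right hpi hw
  have h15 : (5 : ℝ) / (qq n : ℝ) ^ 2 = 5 * (1 / (qq n : ℝ) ^ 2) := by ring
  rw [h15]
  linarith
-- END p4

-- BEGIN p5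
theorem FF_periodic {n : ℕ} {z : Fin 6 → ℝ} (hz : TyB n z) (t : ℝ) :
    FF (flow XX (t + qq n) z) = FF (flow XX t z) := by
  obtain ⟨k, hk⟩ := hz.closed
  rw [good_XX.flow_add, hk, good_XX.flow_tr]
  exact FF_per k _

private theorem p5_cont {n : ℕ} {z : Fin 6 → ℝ} (hz : TyB n z) :
    Continuous fun u : ℝ => (hA (flow XX u z))⁻¹ := by
  have h1 : Continuous fun u : ℝ => hA (flow XX u z) := hA_cont.comp (good_XX.continuous_flow z)
  exact h1.inv₀ fun u => (hA_pos (hz.FF_pos u)).ne'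

private theorem p5_per {n : ℕ} {z : Fin 6 → ℝ} (hz : TyB n z) :
    Function.Periodic (fun u : ℝ => (hA (flow XX u z))⁻¹) (qq n : ℝ) := by
  intro u
  show (hA (flow XX (u + qq n) z))⁻¹ = (hA (flow XX u z))⁻¹
  rw [FF_flow_tyA n z hz, FF_flow_tyA n z hz, FF_periodic hz]

theorem pdA_ge {n : ℕ} {z : Fin 6 → ℝ} (hz : TyB n z) : (qq n : ℝ) ^ 7 / 625 ≤ pd hA n z := by
  obtain ⟨t0, ht0⟩ := FF_upper hz
  have hq1 : 1 ≤ qq n := by
    unfold qq
    exact Nat.one_le_pow _ _ (by norm_num)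
  have hq : (1 : ℝ) ≤ qq n := by exact_mod_cast hq1
  have hq0 : (0 : ℝ) < qq n := by linarith
  have hcont := p5_cont hz
  have e1 : pd hA n z = ∫ u in t0..t0 + qq n, (hA (flow XX u z))⁻¹ := by
    have h := (p5_per hz).intervalIntegral_add_eq 0 t0
    rw [zero_add] at h
    exact h
  have hd : 1 / (qq n : ℝ) ≤ qq n := by
    rw [div_le_iff₀ hq0]
    nlinarith
  have e2 : ∫ u in t0..t0 + qq n, (hA (flow XX u z))⁻¹ =
      (∫ u in t0..t0 + 1 / qq n, (hA (flow XX u z))⁻¹) +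
        ∫ u in t0 + 1 / qq n..t0 + qq n, (hA (flow XX u z))⁻¹ :=
    (intervalIntegral.integral_add_adjacent_intervals (hcont.intervalIntegrable _ _)
      (hcont.intervalIntegrable _ _)).symm
  have hpos : ∀ u : ℝ, 0 ≤ (hA (flow XX u z))⁻¹ := fun u =>
    inv_nonneg.2 (hA_pos (hz.FF_pos u)).le
  have e3 : 0 ≤ ∫ u in t0 + 1 / qq n..t0 + qq n, (hA (flow XX u z))⁻¹ :=
    intervalIntegral.integral_nonneg (by linarith) fun u _ => hpos u
  have e4 : (qq n : ℝ) ^ 7 / 625 ≤ ∫ u in t0..t0 + 1 / qq n, (hA (flow XX u z))⁻¹ := by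
    have h : ∫ u in t0..t0 + 1 / (qq n : ℝ), (qq n : ℝ) ^ 8 / 625 ≤
        ∫ u in t0..t0 + 1 / qq n, (hA (flow XX u z))⁻¹ := by
      refine intervalIntegral.integral_mono_on (by
        have : 0 < 1 / (qq n : ℝ) := by positivity
        linarith) intervalIntegrable_const (hcont.intervalIntegrable _ _) ?_
      intro u hu
      have h1 := ht0 u hu
      have h2 := hz.FF_pos u
      rw [FF_flow_tyA n z hz]
      have h3 : FF (flow XX u z) ^ 4 ≤ (5 / (qq n : ℝ) ^ 2) ^ 4 :=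
        pow_le_pow_left₀ h2.le h1 4
      have h4 : ((5 / (qq n : ℝ) ^ 2) ^ 4)⁻¹ ≤ (FF (flow XX u z) ^ 4)⁻¹ :=
        inv_anti₀ (pow_pos h2 4) h3
      refine le_trans (le_of_eq ?_) h4
      field_simp
      norm_num
    refine le_trans (le_of_eq ?_) h
    rw [intervalIntegral.integral_const, smul_eq_mul]
    field_simp
    ring
  rw [e1, e2]
  linarith
-- END p5

end Pool.Agent.AnQ2
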