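import Mathlib
import Pool.Agent.AnQ2.Per
import Pool.Agent.AnQ2.Defs
import Pool.Agent.MP_1a349f_an.Outer

/-!
# Isolated closed orbits on the torus (page, (4.6), (4.7))
-/

namespace Pool.Agent.AnQ2

open Set Filter Topology Real MeasureTheory
open scoped ContDiff NNReal ENNReal
open Pool.Agent.MP_1a349f_an

/-- the flow on the torus of the slowed field -/
noncomputable abbrev tf (h : (Fin 6 → ℝ) → ℝ) : ℝ → Torus 6 → Torus 6 := tflow (SV h)

-- BEGIN i1
theorem Spd.tf_cov {h : (Fin 6 → ℝ) → ℝ} (hh : Spd h) (t : ℝ) (z : Fin 6 → ℝ) :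
    tf h t (cov z) = cov (flow (SV h) t z) :=
  Good.tflow_cov (V := SV h) hh.good t z

/-- closed points upstairs and downstairs -/
theorem Spd.closed_iff {h : (Fin 6 → ℝ) → ℝ} (hh : Spd h) {s : ℝ} {z : Fin 6 → ℝ} :
    tf h s (cov z) = cov z ↔ ∃ k : Fin 6 → ℤ, flow (SV h) s z = tr k z := by
  rw [hh.tf_cov, eq_comm]
  exact cov_eq_cov_iff

/-- the orbit of a type `B` point under the slowed flow is the whole `X`-orbit -/
theorem Spd.orbit_eq_X {h : (Fin 6 → ℝ) → ℝ} (hh : Spd h) {n : ℕ} {z : Fin 6 → ℝ}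
    (hz : TyB n z) : orbit (tf h) (cov z) = range fun t => cov (flow XX t z) := by
  obtain ⟨τ, -, -, h2, -⟩ := hh.onto hz.FF_pos
  ext w
  constructor
  · rintro ⟨t, rfl⟩
    refine ⟨τ t, ?_⟩
    change cov (flow XX (τ t) z) = tf h t (cov z)
    rw [hh.tf_cov, ← h2 t]
  · rintro ⟨t, rfl⟩
    refine ⟨τ.symm t, ?_⟩
    change tf h (τ.symm t) (cov z) = cov (flow XX t z)
    have h3 : flow (SV h) (τ.symm t) z = flow XX (τ (τ.symm t)) z := h2 (τ.symm t)
    rw [hh.tf_cov, h3, OrderIso.apply_symm_apply]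
-- END i1

-- BEGIN i2
/-- same level and same phase: same orbit -/
theorem Spd.orbit_eq {h : (Fin 6 → ℝ) → ℝ} (hh : Spd h) {n : ℕ} {z z' : Fin 6 → ℝ}
    (hz : TyB n z) (hz' : TyB n z') (h2 : ∃ l : ℤ, z' 2 = z 2 + l)
    (hp : ∃ l : ℤ, ph n z' = ph n z + l) :
    orbit (tf h) (cov z) = orbit (tf h) (cov z') := by
  obtain ⟨t, k, hk⟩ := hz.same_orbit hz' h2 hp
  have h3 : ∀ s, cov (flow XX (s + t) z) = cov (flow XX s z') := by
    intro s
    rw [good_XX.flow_add, hk, good_XX.flow_tr, cov_tr]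
  rw [hh.orbit_eq_X hz, hh.orbit_eq_X hz']
  ext m
  constructor
  · rintro ⟨s, rfl⟩
    refine ⟨s - t, ?_⟩
    simp only
    rw [← h3, sub_add_cancel]
  · rintro ⟨s, rfl⟩
    exact ⟨s + t, h3 s⟩

/-- the phase is an invariant of the orbit -/
theorem Spd.phase_of_orbit {h : (Fin 6 → ℝ) → ℝ} (hh : Spd h) {n : ℕ} {z z' : Fin 6 → ℝ}
    (hz : TyB n z) (he : orbit (tf h) (cov z) = orbit (tf h) (cov z')) :
    ∃ l : ℤ, ph n z' = ph n z + l := by
  have h1 : cov z' ∈ orbit (tf h) (cov z') := by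
    refine ⟨0, ?_⟩
    simp only
    rw [hh.tf_cov, hh.good.flow_zero]
  rw [← he, hh.orbit_eq_X hz] at h1
  obtain ⟨t, ht⟩ := h1
  simp only at ht
  obtain ⟨k, hk⟩ := cov_eq_cov_iff.1 ht
  obtain ⟨l, hl⟩ := ph_tr n k (flow XX t z)
  rw [ph_flow hz.c5 hz.lv] at hl
  refine ⟨l, ?_⟩
  rw [← hl, ← hk]
-- END i2

-- BEGIN i3
private theorem i3_open : IsOpenMap (cov : (Fin 6 → ℝ) → Torus 6) := by
  have h1 : IsOpenMap (Pi.map (fun (_ : Fin 6) => ((↑) : ℝ → UnitAddCircle))) :=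
    IsOpenMap.piMap (fun _ => QuotientAddGroup.isOpenMap_coe) (Filter.Eventually.of_forall
      fun _ => QuotientAddGroup.mk_surjective)
  exact h1

private theorem i3_level {x y : ℝ} (h : sin (π * x) ^ 2 = sin (π * y) ^ 2)
    (h2 : 0 < sin (2 * π * x) * sin (2 * π * y)) : ∃ l : ℤ, x = y + l := by
  have hc : cos (2 * π * x) = cos (2 * π * y) := by
    have e1 : cos (2 * π * x) = 1 - 2 * sin (π * x) ^ 2 := by
      rw [mul_assoc, cos_two_mul, cos_sq']
      ring
    have e2 : cos (2 * π * y) = 1 - 2 * sin (π * y) ^ 2 := by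
      rw [mul_assoc, cos_two_mul, cos_sq']
      ring
    rw [e1, e2, h]
  have hs : sin (2 * π * x) = sin (2 * π * y) := by
    have e1 := sin_sq_add_cos_sq (2 * π * x)
    have e2 := sin_sq_add_cos_sq (2 * π * y)
    rw [hc] at e1
    have e3 : (sin (2 * π * x) - sin (2 * π * y)) * (sin (2 * π * x) + sin (2 * π * y)) = 0 := by
      linear_combination e1 - e2
    rcases mul_eq_zero.1 e3 with h3 | h3
    · linarith
    · exfalso
      have h4 : sin (2 * π * x) = -sin (2 * π * y) := by linarith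
      rw [h4] at h2
      nlinarith [sq_nonneg (sin (2 * π * y))]
  have h0 : sin (2 * π * x - 2 * π * y) = 0 := by
    rw [sin_sub, hs, hc]
    ring
  have h1 : cos (2 * π * x - 2 * π * y) = 1 := by
    rw [cos_sub, hs, hc]
    have := sin_sq_add_cos_sq (2 * π * y)
    linarith
  obtain ⟨l, hl⟩ := (cos_eq_one_iff _).1 h1
  refine ⟨l, ?_⟩
  have h5 : 2 * π * x = 2 * π * (y + l) := by linarith
  exact mul_left_cancel₀ (by positivity) h5

private theorem i3_phase {k : ℕ} (hk : 3 ≤ k) {j : ℤ}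
    (h : cos (2 * π / k) < cos (2 * π * ((j : ℝ) / k))) : ∃ l : ℤ, (j : ℝ) / k = l := by
  have hk0 : (3 : ℝ) ≤ k := by exact_mod_cast hk
  have hk1 : (0 : ℝ) < k := by linarith
  obtain ⟨x, hx⟩ : ∃ x : ℝ, x = (j : ℝ) / k := ⟨_, rfl⟩
  rw [← hx] at h ⊢
  have hr := abs_sub_round x
  have h1 : cos (2 * π * x) = cos (2 * π * |x - round x|) := by
    rw [show 2 * π * |x - round x| = |2 * π * (x - round x)| by
      rw [abs_mul, abs_of_pos (by positivity : (0 : ℝ) < 2 * π)], cos_abs,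
      show 2 * π * (x - round x) = 2 * π * x - (round x : ℤ) * (2 * π) by ring,
      cos_sub_int_mul_two_pi]
  rw [h1] at h
  have h2 : 2 * π * |x - round x| < 2 * π / k := by
    by_contra hle
    push Not at hle
    have h3 := strictAntiOn_cos.antitoneOn (a := 2 * π / k) (b := 2 * π * |x - round x|)
      ⟨by positivity, by
        rw [div_le_iff₀ hk1]
        nlinarith [pi_pos]⟩
      ⟨by positivity, by nlinarith [pi_pos]⟩ hle
    linarith
  have h3 : |x - round x| < 1 / k := by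
    have h4 : 2 * π * |x - round x| < 2 * π * (1 / k) := by
      calc 2 * π * |x - round x| < 2 * π / k := h2
        _ = 2 * π * (1 / k) := by ring
    exact lt_of_mul_lt_mul_left h4 (by positivity)
  have h5 : |(j : ℝ) - k * round x| < 1 := by
    have e : (j : ℝ) - k * round x = k * (x - round x) := by
      rw [hx]
      field_simp
    rw [e, abs_mul, abs_of_pos hk1]
    calc (k : ℝ) * |x - round x| < k * (1 / k) := mul_lt_mul_of_pos_left h3 hk1
      _ = 1 := by field_simp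
  have h6 : |j - k * round x| < 1 := by exact_mod_cast h5
  have h7 : j = k * round x := by
    have := Int.abs_lt_one_iff.1 h6
    linarith
  refine ⟨round x, ?_⟩
  have h8 : (j : ℝ) = k * round x := by exact_mod_cast h7
  conv_lhs => rw [hx, h8]
  field_simp

/-- (4.7) -/
theorem Spd.strong {h : (Fin 6 → ℝ) → ℝ} (hh : Spd h) {n : ℕ} {z : Fin 6 → ℝ} (hz : TyB n z)
    (t : ℝ) : IsolatedStrong (tf h) t (orbit (tf h) (cov z)) := by
  have hsg := sg_pos n
  have hsg1 := sg_lt_one n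
  have hkk := kk_pos n
  have hk0 : (3 : ℝ) ≤ kk n := by exact_mod_cast hkk
  obtain ⟨W, hW⟩ : ∃ W : Set (Fin 6 → ℝ), W = {w | 0 < FF w ∧ cos (π * w 4) ≠ 0 ∧
      |sin (π * w 2) ^ 2 - sg n| < sg n / 2 ∧ 0 < sin (2 * π * w 2) * sin (2 * π * z 2) ∧
      cos (2 * π / kk n) < cos (2 * π * (ph n w - ph n z))} := ⟨_, rfl⟩
  have hWo : IsOpen W := by
    have o1 : IsOpen {w : Fin 6 → ℝ | 0 < FF w} := isOpen_lt continuous_const FF_cont
    have o2 : IsOpen {w : Fin 6 → ℝ | cos (π * w 4) ≠ 0} :=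
      isOpen_ne_fun (by fun_prop) continuous_const
    have o3 : IsOpen {w : Fin 6 → ℝ | |sin (π * w 2) ^ 2 - sg n| < sg n / 2} :=
      isOpen_lt (by fun_prop) continuous_const
    have o4 : IsOpen {w : Fin 6 → ℝ | 0 < sin (2 * π * w 2) * sin (2 * π * z 2)} :=
      isOpen_lt continuous_const (by fun_prop)
    have o5 : IsOpen {w : Fin 6 → ℝ |
        cos (2 * π / kk n) < cos (2 * π * (ph n w - ph n z))} := by
      unfold ph
      exact isOpen_lt continuous_const (by fun_prop)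
    rw [hW]
    exact o1.inter (o2.inter (o3.inter (o4.inter o5)))
  refine ⟨cov '' W, i3_open W hWo, ?_, ?_⟩
  · rw [hh.orbit_eq_X hz]
    rintro _ ⟨s, rfl⟩
    refine ⟨flow XX s z, ?_, rfl⟩
    rw [hW]
    have hc := K2_coord hz.c5 s
    have hf := hz.flow s
    refine ⟨hz.FF_pos s, hf.c4, ?_, ?_, ?_⟩
    · rw [hf.lv, sub_self, abs_zero]
      positivity
    · rw [hc.2.1]
      have h1 : sin (2 * π * z 2) ≠ 0 := by
        intro h0
        rw [mul_assoc, sin_two_mul] at h0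
        have h2 : sin (π * z 2) ^ 2 * cos (π * z 2) ^ 2 = 0 := by
          have : (2 * sin (π * z 2) * cos (π * z 2)) ^ 2 = 0 := by rw [h0]; ring
          nlinarith
        rw [cos_sq', hz.lv] at h2
        have : 0 < sg n * (1 - sg n) := mul_pos hsg (by linarith)
        linarith
      exact mul_self_pos.2 h1
    · rw [ph_flow hz.c5 hz.lv, sub_self, mul_zero, cos_zero]
      have h1 : cos (2 * π / kk n) < cos 0 := by
        refine strictAntiOn_cos ⟨le_refl _, pi_pos.le⟩ ⟨by positivity, ?_⟩ (by positivity)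
        rw [div_le_iff₀ (by linarith)]
        nlinarith [pi_pos]
      rwa [cos_zero] at h1
  · rintro _ ⟨w, hw, rfl⟩ ⟨s, hs, hs'⟩
    rw [hW] at hw
    obtain ⟨w1, w2, w3, w4, w5⟩ := hw
    obtain ⟨k, hk⟩ := hh.closed_iff.1 hs'
    have hX : XC w := hh.XC_of_closed hs hk w1
    rcases classify hX with hcl | ⟨m, hm⟩
    · exact absurd hcl.2 w2
    · have hmn : m = n := by
        by_contra hne
        rw [hm.lv] at w3
        rcases lt_or_gt_of_ne hne with hlt | hgt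
        · have h1 := sg_half hlt
          rw [abs_lt] at w3
          linarith [w3.2]
        · have h1 := sg_half hgt
          rw [abs_lt] at w3
          linarith [w3.1]
      subst hmn
      have h2 : ∃ l : ℤ, w 2 = z 2 + l := i3_level (by rw [hm.lv, hz.lv]) w4
      obtain ⟨j, hj⟩ := hz.node
      obtain ⟨j', hj'⟩ := hm.node
      have hk1 : (kk m : ℝ) ≠ 0 := by linarith
      have e : ph m w - ph m z = ((j' - j : ℤ) : ℝ) / kk m := by
        push_cast
        rw [← hj, ← hj']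
        field_simp
      rw [e] at w5
      obtain ⟨l, hl⟩ := i3_phase hkk w5
      have hp : ∃ l : ℤ, ph m w = ph m z + l := ⟨l, by rw [← hl, ← e]; ring⟩
      rw [hh.orbit_eq hz hm h2 hp]
      exact ⟨0, by
        change tf h 0 (cov w) = cov w
        rw [hh.tf_cov, hh.good.flow_zero]⟩
-- END i3

-- BEGIN i4
/-- strong isolation implies weak isolation -/
theorem strong_weak {h : (Fin 6 → ℝ) → ℝ} (hh : Spd h) {t : ℝ} {O : Set (Torus 6)}
    (hO : IsolatedStrong (tf h) t O) : IsolatedWeak (tf h) t O := by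
  obtain ⟨U, hU, hOU, hy⟩ := hO
  refine ⟨U, hU, hOU, ?_⟩
  intro y hyU hper
  obtain ⟨s, hs, _, hsy⟩ := hper
  refine hy y ?_ ⟨s, hs, hsy⟩
  apply hyU
  refine ⟨0, ?_⟩
  exact hh.good.tflow_zero y

/-- translation in the direction `z3` -/
noncomputable def sh3 (e : ℝ) (z : Fin 6 → ℝ) : Fin 6 → ℝ := z + e • (Pi.single 3 1 : Fin 6 → ℝ)

theorem i4_three (e : ℝ) (z : Fin 6 → ℝ) : sh3 e z 3 = z 3 + e := by
  simp [sh3]

theorem i4_ne (e : ℝ) (z : Fin 6 → ℝ) {i : Fin 6} (hi : i ≠ 3) : sh3 e z i = z i := by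
  simp [sh3, hi]

theorem i4_XX (e : ℝ) {w : Fin 6 → ℝ} (h5 : cos (π * w 5) = 0) (h4 : cos (π * w 4) = 0) :
    XX (sh3 e w) = XX w := by
  unfold XX
  rw [i4_ne e w (i := 0) (by decide), i4_ne e w (i := 1) (by decide),
    i4_ne e w (i := 2) (by decide), i4_ne e w (i := 4) (by decide),
    i4_ne e w (i := 5) (by decide), h5, h4]
  funext i
  fin_cases i <;> simp

theorem Spd.flow_sh3 {h : (Fin 6 → ℝ) → ℝ} (hh : Spd h) {z : Fin 6 → ℝ}
    (hz : FF z = 0 ∨ (cos (π * z 5) = 0 ∧ cos (π * z 4) = 0)) (e t : ℝ) :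
    flow (SV h) t (sh3 e z) = sh3 e (flow (SV h) t z) ∧ flow (SV h) t z 3 = z 3 := by
  rcases hz with hF | ⟨h5, h4⟩
  · have h0 : h z = 0 := hh.zero z hF
    have h1 : SV h z = 0 := by
      show h z • XX z = 0
      rw [h0, zero_smul]
    have h2 : SV h (sh3 e z) = 0 := by
      show h (sh3 e z) • XX (sh3 e z) = 0
      have h3 : h (sh3 e z) = h z := hh.indep z e
      rw [h3, h0, zero_smul]
    have h3 := hh.good.flow_of_zero (x := z) h1 t
    have h4 := hh.good.flow_of_zero (x := sh3 e z) h2 t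
    have h3' : flow (SV h) t z = z := h3
    have h4' : flow (SV h) t (sh3 e z) = sh3 e z := h4
    rw [h3', h4']
    exact ⟨rfl, rfl⟩
  · have key : ∀ s, flow (SV h) s z 5 = z 5 ∧ flow (SV h) s z 4 = z 4 ∧
        flow (SV h) s z 3 = z 3 := by
      intro s
      have h6 : flow (SV h) s z = flow XX (flow (SV h) s z 0 - z 0) z := hh.tc z s
      have h7 := K2_half h5 h4 (flow (SV h) s z 0 - z 0)
      have h8 := K2_coord h5 (flow (SV h) s z 0 - z 0)
      rw [← h6] at h7 h8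
      exact ⟨h8.1, h7.1, h7.2⟩
    refine ⟨?_, (key t).2.2⟩
    have h9 := hh.good.eq_flow (γ := fun s => sh3 e (flow (SV h) s z)) (fun s => by
      have h10 : HasDerivAt (fun s => flow (SV h) s z) (SV h (flow (SV h) s z)) s :=
        hh.good.hasDerivAt_flow z s
      have h11 : h (sh3 e (flow (SV h) s z)) • XX (sh3 e (flow (SV h) s z)) =
          SV h (flow (SV h) s z) := by
        show h (sh3 e (flow (SV h) s z)) • XX (sh3 e (flow (SV h) s z)) =
          h (flow (SV h) s z) • XX (flow (SV h) s z)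
        have h12 : h (sh3 e (flow (SV h) s z)) = h (flow (SV h) s z) :=
          hh.indep (flow (SV h) s z) e
        obtain ⟨k5, k4, _⟩ := key s
        rw [h12, i4_XX e (by rw [k5]; exact h5) (by rw [k4]; exact h4)]
      rw [h11]
      exact h10.add_const (e • (Pi.single 3 1 : Fin 6 → ℝ))) t
    have h13 : flow (SV h) 0 z = z := hh.good.flow_zero z
    have h14 : sh3 e (flow (SV h) t z) = flow (SV h) t (sh3 e (flow (SV h) 0 z)) := h9
    rw [h13] at h14
    exact h14.symm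
-- END i4

-- BEGIN i5
theorem i5_tr (e : ℝ) (k : Fin 6 → ℤ) (z : Fin 6 → ℝ) : sh3 e (tr k z) = tr k (sh3 e z) := by
  funext i
  simp only [sh3, tr, Pi.add_apply, Pi.smul_apply, smul_eq_mul]
  ring

theorem i5_three (e : ℝ) (z : Fin 6 → ℝ) : sh3 e z 3 = z 3 + e := by
  simp [sh3]

theorem i5_dist {e δ : ℝ} (hδ : 0 < δ) (he : |e| < δ) (z : Fin 6 → ℝ) :
    dist (sh3 e z) z < δ := by
  rw [dist_pi_lt_iff hδ]
  intro i
  have h1 : |(Pi.single 3 1 : Fin 6 → ℝ) i| ≤ 1 := by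
    by_cases h : i = 3
    · rw [h]; simp
    · rw [Pi.single_eq_of_ne h]; simp
  have h2 : sh3 e z i - z i = e * (Pi.single 3 1 : Fin 6 → ℝ) i := by
    simp only [sh3, Pi.add_apply, Pi.smul_apply, smul_eq_mul]
    ring
  rw [Real.dist_eq, h2, abs_mul]
  calc |e| * |(Pi.single 3 1 : Fin 6 → ℝ) i| ≤ |e| * 1 :=
        mul_le_mul_of_nonneg_left h1 (abs_nonneg e)
    _ = |e| := mul_one _
    _ < δ := he

/-- (4.6) -/
theorem Spd.not_weak {h : (Fin 6 → ℝ) → ℝ} (hh : Spd h) {z : Fin 6 → ℝ}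
    (hz : FF z = 0 ∨ (cos (π * z 5) = 0 ∧ cos (π * z 4) = 0)) {s T : ℝ} (hs : 0 < s) (hsT : s ≤ T)
    (hper : tf h s (cov z) = cov z) : ¬ IsolatedWeak (tf h) T (orbit (tf h) (cov z)) := by
  rintro ⟨U, hU, hOU, hiso⟩
  obtain ⟨k, hk⟩ := hh.closed_iff.1 hper
  -- a compact piece of the orbit upstairs
  have hγ : Continuous fun t => flow (SV h) t z := Good.continuous_flow (V := SV h) hh.good z
  have hK : IsCompact ((fun t => flow (SV h) t z) '' Icc 0 s) := isCompact_Icc.image hγ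
  have hKU : (fun t => flow (SV h) t z) '' Icc 0 s ⊆ cov ⁻¹' U := by
    rintro _ ⟨t, -, rfl⟩
    refine hOU ⟨t, ?_⟩
    exact hh.tf_cov t z
  obtain ⟨δ, hδ, hsub⟩ := hK.exists_thickening_subset_open (hU.preimage continuous_cov) hKU
  obtain ⟨e, he0, he⟩ : ∃ e : ℝ, 0 < e ∧ e < min δ 1 :=
    ⟨min δ 1 / 2, by positivity, by
      have : 0 < min δ 1 := by positivity
      linarith⟩
  have he1 : e < δ := he.trans_le (min_le_left _ _)
  have he2 : e < 1 := he.trans_le (min_le_right _ _)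
  have hfl : ∀ t, flow (SV h) t (sh3 e z) = sh3 e (flow (SV h) t z) :=
    fun t => (hh.flow_sh3 hz e t).1
  -- the shifted point is closed with the same period
  have hp : tf h s (cov (sh3 e z)) = cov (sh3 e z) := by
    refine hh.closed_iff.2 ⟨k, ?_⟩
    rw [hfl, hk, i5_tr]
  have hPer : Function.Periodic (fun t => tf h t (cov (sh3 e z))) s := by
    intro t
    change tf h (t + s) (cov (sh3 e z)) = tf h t (cov (sh3 e z))
    have h1 : tf h (t + s) (cov (sh3 e z)) = tf h t (tf h s (cov (sh3 e z))) :=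
      Good.tflow_add (V := SV h) hh.good t s _
    rw [h1, hp]
  have horb : orbit (tf h) (cov (sh3 e z)) ⊆ U := by
    rintro _ ⟨t, rfl⟩
    obtain ⟨t', ht', h1⟩ := hPer.exists_mem_Ico₀ hs t
    change tf h t (cov (sh3 e z)) ∈ U
    have h2 : tf h t (cov (sh3 e z)) = tf h t' (cov (sh3 e z)) := h1
    rw [h2, hh.tf_cov, hfl]
    have h3 : sh3 e (flow (SV h) t' z) ∈ cov ⁻¹' U := by
      apply hsub
      rw [Metric.mem_thickening_iff]
      exact ⟨flow (SV h) t' z, ⟨t', ⟨ht'.1, ht'.2.le⟩, rfl⟩,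
        i5_dist hδ (by rwa [abs_of_pos he0]) _⟩
    exact h3
  obtain ⟨t, ht⟩ := hiso _ horb ⟨s, hs, hsT, hp⟩
  have ht' : tf h t (cov z) = cov (sh3 e z) := ht
  rw [hh.tf_cov, cov_eq_cov_iff] at ht'
  obtain ⟨m, hm⟩ := ht'
  have h4 := congrFun hm 3
  rw [i5_three] at h4
  change z 3 + e = flow (SV h) t z 3 + m 3 at h4
  rw [(hh.flow_sh3 hz e t).2] at h4
  have h5 : e = (m 3 : ℝ) := by linarith
  rw [h5] at he0 he2
  have h6 : (0 : ℤ) < m 3 := by exact_mod_cast he0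
  have h7 : m 3 < (1 : ℤ) := by exact_mod_cast he2
  omega
-- END i5

-- BEGIN i6
theorem Spd.mem_P {h : (Fin 6 → ℝ) → ℝ} (hh : Spd h) {n : ℕ} {z : Fin 6 → ℝ} (hz : TyB n z)
    {t : ℝ} (ht : pd h n z ≤ t) : orbit (tf h) (cov z) ∈ P IsolatedStrong (tf h) t ∧
      orbit (tf h) (cov z) ∈ P IsolatedWeak (tf h) t := by
  have hp : ∀ x ∈ orbit (tf h) (cov z), PeriodicUpTo (tf h) t x := by
    rintro x ⟨s, rfl⟩
    obtain ⟨k, hk⟩ := hh.pd_closed hz
    refine ⟨pd h n z, hh.pd_pos hz, ht, ?_⟩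
    have hg : Good (SV h) := hh.good
    have h1 : flow (SV h) (pd h n z) (flow (SV h) s z) = tr k (flow (SV h) s z) := by
      rw [← hg.flow_add, add_comm, hg.flow_add, hk, hg.flow_tr]
    show tf h (pd h n z) (tf h s (cov z)) = tf h s (cov z)
    rw [hh.tf_cov, hh.tf_cov, h1, cov_tr]
  exact ⟨⟨⟨_, rfl⟩, hp, hh.strong hz t⟩, ⟨⟨_, rfl⟩, hp, strong_weak hh (hh.strong hz t)⟩⟩

/-- classification of the weakly isolated closed orbits -/
theorem Spd.of_mem_P {h : (Fin 6 → ℝ) → ℝ} (hh : Spd h) {t : ℝ} {O : Set (Torus 6)}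
    (hO : O ∈ P IsolatedWeak (tf h) t) :
    ∃ n z, TyB n z ∧ O = orbit (tf h) (cov z) ∧ pd h n z ≤ t := by
  obtain ⟨⟨x, rfl⟩, hp, hi⟩ := hO
  obtain ⟨z, rfl⟩ := cov_surjective x
  have hg : Good (SV h) := hh.good
  have hmem : cov z ∈ orbit (tf h) (cov z) := ⟨0, hg.tflow_zero (cov z)⟩
  obtain ⟨s, hs, hst, hper⟩ := hp _ hmem
  obtain ⟨k, hk⟩ := hh.closed_iff.1 hper
  have hF : 0 < FF z := by
    rcases (FF_nonneg z).lt_or_eq with h1 | h1
    · exact h1
    · exact absurd hi (hh.not_weak (Or.inl h1.symm) hs hst hper)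
  rcases classify (hh.XC_of_closed hs hk hF) with h1 | ⟨n, h1⟩
  · exact absurd hi (hh.not_weak (Or.inr h1) hs hst hper)
  · exact ⟨n, z, h1, rfl, (hh.pd_min h1 hs hk).trans hst⟩

theorem Spd.P_strong_sub {h : (Fin 6 → ℝ) → ℝ} (hh : Spd h) (t : ℝ) :
    P IsolatedStrong (tf h) t ⊆ P IsolatedWeak (tf h) t :=
  fun _ hO => ⟨hO.1, hO.2.1, strong_weak hh hO.2.2⟩
-- END i6

end Pool.Agent.AnQ2
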