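import Mathlib
import Pool.Agent.AnQ2.Iso

/-!
# Growth of the number of isolated closed orbits
-/

namespace Pool.Agent.AnQ2

open Set Filter Topology Real MeasureTheory
open scoped ContDiff NNReal ENNReal
open Pool.Agent.MP_1a349f_an

/-- the level coordinate of level `n` in `(0, 1/2)` -/
noncomputable def lvl (n : ℕ) : ℝ := (exists_level n).choose

theorem lvl_mem (n : ℕ) : lvl n ∈ Ioo (0 : ℝ) (1 / 2) := (exists_level n).choose_spec.1

theorem lvl_spec (n : ℕ) : sin (π * lvl n) ^ 2 = sg n := (exists_level n).choose_spec.2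

/-- the two level coordinates -/
noncomputable def lvb (n : ℕ) (b : Bool) : ℝ := if b then lvl n else -lvl n

theorem lvb_spec (n : ℕ) (b : Bool) : sin (π * lvb n b) ^ 2 = sg n := by
  cases b
  · simp only [lvb, Bool.false_eq_true, if_false, mul_neg, sin_neg, neg_sq]
    exact lvl_spec n
  · simp only [lvb, if_true]
    exact lvl_spec n

/-- representatives of the closed orbits -/
noncomputable def rp (n : ℕ) (b : Bool) (j : ℕ) : Fin 6 → ℝ :=
  (TyB.exists (lvb_spec n b) (j : ℤ)).choose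

theorem rp_tyB (n : ℕ) (b : Bool) (j : ℕ) : TyB n (rp n b j) :=
  (TyB.exists (lvb_spec n b) (j : ℤ)).choose_spec.1

theorem rp_two (n : ℕ) (b : Bool) (j : ℕ) : rp n b j 2 = lvb n b :=
  (TyB.exists (lvb_spec n b) (j : ℤ)).choose_spec.2.1

theorem rp_ph (n : ℕ) (b : Bool) (j : ℕ) : ph n (rp n b j) = j / kk n := by
  have h : ph n (rp n b j) = ((j : ℤ) : ℝ) / kk n :=
    (TyB.exists (lvb_spec n b) (j : ℤ)).choose_spec.2.2.2
  rw [h, Int.cast_natCast]

-- BEGIN u1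
private theorem u1_level {n : ℕ} {s : ℝ} (h : sin (π * s) ^ 2 = sg n) :
    ∃ b : Bool, ∃ l : ℤ, lvb n b = s + l := by
  have h1 : cos (2 * (π * s)) = cos (2 * (π * lvl n)) := by
    rw [cos_two_mul, cos_two_mul, cos_sq', cos_sq', h, lvl_spec]
  rw [Real.cos_eq_cos_iff] at h1
  obtain ⟨k, hk | hk⟩ := h1
  · refine ⟨true, k, ?_⟩
    have h2 : 2 * π * (lvl n - (s + k)) = 0 := by linarith
    have h3 : lvl n - (s + k) = 0 := by
      rcases mul_eq_zero.1 h2 with h4 | h4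
      · exact absurd h4 (by positivity)
      · exact h4
    simp only [lvb, if_true]
    linarith
  · refine ⟨false, -k, ?_⟩
    have h2 : 2 * π * (lvl n - (k - s)) = 0 := by linarith
    have h3 : lvl n - (k - s) = 0 := by
      rcases mul_eq_zero.1 h2 with h4 | h4
      · exact absurd h4 (by positivity)
      · exact h4
    simp only [lvb, Bool.false_eq_true, if_false]
    push_cast
    linarith

/-- every type `B` orbit is the orbit of a representative -/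
theorem Spd.orbit_rp {h : (Fin 6 → ℝ) → ℝ} (hh : Spd h) {n : ℕ} {z : Fin 6 → ℝ} (hz : TyB n z) :
    ∃ b : Bool, ∃ j < kk n, orbit (tf h) (cov z) = orbit (tf h) (cov (rp n b j)) := by
  obtain ⟨b, l, hl⟩ := u1_level hz.lv
  obtain ⟨j, hj⟩ := hz.node
  have hk : (0 : ℤ) < (kk n : ℤ) := by
    have := kk_pos n
    omega
  have hkR : (0 : ℝ) < (kk n : ℝ) := by exact_mod_cast hk
  have h0 : 0 ≤ j % (kk n : ℤ) := Int.emod_nonneg _ hk.ne'
  have h1 : j % (kk n : ℤ) < (kk n : ℤ) := Int.emod_lt_of_pos _ hk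
  refine ⟨b, (j % (kk n : ℤ)).toNat, by omega, ?_⟩
  refine hh.orbit_eq hz (rp_tyB n b _) ⟨l, by rw [rp_two, hl]⟩ ⟨-(j / (kk n : ℤ)), ?_⟩
  rw [rp_ph]
  have h2 : (((j % (kk n : ℤ)).toNat : ℕ) : ℝ) = ((j % (kk n : ℤ) : ℤ) : ℝ) := by
    have h3 : (((j % (kk n : ℤ)).toNat : ℕ) : ℤ) = j % (kk n : ℤ) := Int.toNat_of_nonneg h0
    exact_mod_cast congrArg (fun x : ℤ => (x : ℝ)) h3
  have h4 : ((kk n : ℝ)) * ((j / (kk n : ℤ) : ℤ) : ℝ) + ((j % (kk n : ℤ) : ℤ) : ℝ) = j := by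
    exact_mod_cast Int.mul_ediv_add_emod j (kk n : ℤ)
  have h5 : ph n z = j / kk n := by
    rw [eq_div_iff hkR.ne', mul_comm, hj]
  rw [h2, h5, Int.cast_neg, ← h4]
  field_simp
  ring

theorem P_weak_subset (t : ℝ) : P IsolatedWeak (tf hA) t ⊆
    (fun p : ℕ × Bool × ℕ => orbit (tf hA) (cov (rp p.1 p.2.1 p.2.2))) ''
      {p | p.2.2 < kk p.1 ∧ (qq p.1 : ℝ) ^ 7 / 625 ≤ t} := by
  intro O hO
  obtain ⟨n, z, hz, rfl, hp⟩ := spd_A.of_mem_P hO
  obtain ⟨b, j, hj, he⟩ := spd_A.orbit_rp hz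
  exact ⟨(n, b, j), ⟨hj, (pdA_ge hz).trans hp⟩, he.symm⟩
-- END u1

-- BEGIN u2
private theorem u2_qq_inj {n n' : ℕ} (h : qq n = qq n') : n = n' :=
  aa_strictMono.injective (Nat.pow_right_injective (le_refl 10 |>.trans' (by norm_num)) h)

private theorem u2_lt {q r c c' : ℕ} (hc' : c' < 2 * 3 ^ r) (hqr : r < q) :
    3 ^ r + c' < 3 ^ q + c := by
  have h : 3 ^ (r + 1) ≤ 3 ^ q := Nat.pow_le_pow_right (by norm_num) hqr
  rw [pow_succ] at h
  omega

theorem card_index {t : ℝ} (ht : (10 : ℝ) ^ 7 ≤ 625 * t) :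
    (({p : ℕ × Bool × ℕ | p.2.2 < kk p.1 ∧ (qq p.1 : ℝ) ^ 7 / 625 ≤ t}.encard : ℕ∞) : ℝ≥0∞) ≤
      ENNReal.ofReal (exp (4 * (625 * t) ^ (6 / 7 : ℝ))) := by
  set X : ℝ := 625 * t with hX
  have hX0 : 0 ≤ X := le_trans (by positivity) ht
  have hX1 : 1 ≤ X := le_trans (by norm_num) ht
  set Y : ℝ := X ^ (6 / 7 : ℝ) with hY
  have hY1 : 1 ≤ Y := Real.one_le_rpow hX1 (by norm_num)
  set m : ℕ := ⌊Y⌋₊ with hm
  set S : Set (ℕ × Bool × ℕ) := {p | p.2.2 < kk p.1 ∧ (qq p.1 : ℝ) ^ 7 / 625 ≤ t} with hS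
  let code : ℕ × Bool × ℕ → ℕ := fun p => 3 ^ (qq p.1 ^ 6) + (2 * p.2.2 + p.2.1.toNat)
  have hq : ∀ p ∈ S, qq p.1 ^ 6 ≤ m := by
    intro p hp
    refine Nat.le_floor ?_
    have h1 : (qq p.1 : ℝ) ^ 7 ≤ X := by
      have := hp.2
      rw [div_le_iff₀ (by norm_num)] at this
      linarith
    have h2 : ((qq p.1 : ℝ) ^ 7) ^ (6 / 7 : ℝ) ≤ Y :=
      Real.rpow_le_rpow (by positivity) h1 (by norm_num)
    have h3 : ((qq p.1 : ℝ) ^ 7) ^ (6 / 7 : ℝ) = (qq p.1 : ℝ) ^ 6 := by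
      rw [← Real.rpow_natCast, ← Real.rpow_mul (by positivity), ← Real.rpow_natCast]
      norm_num
    rw [h3] at h2
    exact_mod_cast h2
  have hlt : ∀ p ∈ S, 2 * p.2.2 + p.2.1.toNat < 2 * 3 ^ (qq p.1 ^ 6) := by
    intro p hp
    have h1 : p.2.2 < 3 ^ (qq p.1 ^ 6) := hp.1
    have h2 : p.2.1.toNat ≤ 1 := Bool.toNat_le _
    omega
  have hinj : InjOn code S := by
    intro p hp p' hp' h
    have h0 : qq p.1 ^ 6 = qq p'.1 ^ 6 := by
      rcases lt_trichotomy (qq p.1 ^ 6) (qq p'.1 ^ 6) with h1 | h1 | h1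
      · exact absurd h (ne_of_lt (u2_lt (hlt p hp) h1))
      · exact h1
      · exact absurd h.symm (ne_of_lt (u2_lt (hlt p' hp') h1))
    have h1 : p.1 = p'.1 := u2_qq_inj (Nat.pow_left_injective (by norm_num : (6 : ℕ) ≠ 0) h0)
    have h2 : 2 * p.2.2 + p.2.1.toNat = 2 * p'.2.2 + p'.2.1.toNat := by
      have : code p = code p' := h
      simp only [code] at this
      rw [h0] at this
      omega
    obtain ⟨n, b, j⟩ := p
    obtain ⟨n', b', j'⟩ := p'
    simp only at h1 h2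
    subst h1
    cases b <;> cases b' <;> simp at h2 ⊢ <;> omega
  have hcard : S.encard ≤ ((3 ^ (m + 1) : ℕ) : ℕ∞) := by
    rw [← hinj.encard_image]
    have hsub : code '' S ⊆ Iio (3 ^ (m + 1)) := by
      rintro _ ⟨p, hp, rfl⟩
      have h1 := hlt p hp
      have h2 : 3 ^ (qq p.1 ^ 6 + 1) ≤ 3 ^ (m + 1) :=
        Nat.pow_le_pow_right (by norm_num) (by have := hq p hp; omega)
      rw [pow_succ 3 (qq p.1 ^ 6)] at h2
      simp only [mem_Iio, code]
      omega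
    refine (encard_le_encard hsub).trans ?_
    have h3 : (Iio (3 ^ (m + 1) : ℕ)) = ((Finset.range (3 ^ (m + 1)) : Finset ℕ) : Set ℕ) := by
      ext; simp
    rw [h3, encard_coe_eq_coe_finsetCard, Finset.card_range]
  have h4 : ((S.encard : ℕ∞) : ℝ≥0∞) ≤ ((3 ^ (m + 1) : ℕ) : ℝ≥0∞) := by
    have := ENat.toENNReal_mono hcard
    simpa using this
  refine h4.trans ?_
  rw [← ENNReal.ofReal_natCast]
  refine ENNReal.ofReal_le_ofReal ?_
  have h5 : (3 : ℝ) ≤ exp 2 := by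
    have := add_one_le_exp (2 : ℝ)
    linarith
  have h6 : ((m : ℝ)) ≤ Y := Nat.floor_le (by linarith)
  calc ((3 ^ (m + 1) : ℕ) : ℝ) = 3 ^ (m + 1) := by push_cast; ring
    _ ≤ (exp 2) ^ (m + 1) := pow_le_pow_left₀ (by norm_num) h5 _
    _ = exp (((m + 1 : ℕ) : ℝ) * 2) := (exp_nat_mul 2 (m + 1)).symm
    _ ≤ exp (4 * Y) := by
      refine exp_le_exp.2 ?_
      push_cast
      linarith
-- END u2

-- BEGIN u3
theorem u3_limsup_zero {α : Type*} (P : ℝ → Set α)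
    (h1 : ∀ᶠ t : ℝ in atTop, (P t).Nonempty)
    (h2 : ∀ δ : ℝ, 0 < δ → ∀ᶠ t : ℝ in atTop,
      ((P t).encard : ℝ≥0∞) ≤ ENNReal.ofReal (Real.exp (δ * t))) :
    limsup (fun t : ℝ => ENNReal.log ((P t).encard : ℝ≥0∞) / (t : EReal)) atTop = 0 := by
  have hlow : ∀ᶠ t : ℝ in atTop,
      (0 : EReal) ≤ ENNReal.log ((P t).encard : ℝ≥0∞) / (t : EReal) := by
    filter_upwards [h1, eventually_ge_atTop (0 : ℝ)] with t ht ht0
    have h3 : (1 : ℕ∞) ≤ (P t).encard := one_le_encard_iff_nonempty.2 ht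
    have h4 : (1 : ℝ≥0∞) ≤ ((P t).encard : ℝ≥0∞) := by
      calc (1 : ℝ≥0∞) = ((1 : ℕ∞) : ℝ≥0∞) := by simp
        _ ≤ _ := ENat.toENNReal_mono h3
    have h5 : (0 : EReal) ≤ ENNReal.log ((P t).encard : ℝ≥0∞) := by
      rw [← ENNReal.log_one]
      exact ENNReal.log_monotone h4
    exact EReal.div_nonneg h5 (by exact_mod_cast ht0)
  have hup : ∀ δ : ℝ, 0 < δ → ∀ᶠ t : ℝ in atTop,
      ENNReal.log ((P t).encard : ℝ≥0∞) / (t : EReal) ≤ (δ : EReal) := by
    intro δ hδ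
    filter_upwards [h2 δ hδ, eventually_gt_atTop (0 : ℝ)] with t ht ht0
    have h3 : ENNReal.log ((P t).encard : ℝ≥0∞) ≤ ((δ * t : ℝ) : EReal) := by
      refine (ENNReal.log_monotone ht).trans ?_
      rw [ENNReal.log_ofReal_of_pos (Real.exp_pos _), Real.log_exp]
    have h4 := EReal.div_le_div_right_of_nonneg
      (by exact_mod_cast ht0.le : (0 : EReal) ≤ (t : EReal)) h3
    refine h4.trans (le_of_eq ?_)
    rw [← EReal.coe_div, mul_div_cancel_right₀ _ ht0.ne']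
  apply le_antisymm
  · refine le_of_forall_gt_imp_ge_of_dense fun c hc => ?_
    obtain ⟨δ, hδ0, hδc⟩ : ∃ δ : ℝ, 0 < δ ∧ (δ : EReal) ≤ c := by
      obtain ⟨δ, h0, h1⟩ := EReal.lt_iff_exists_real_btwn.1 hc
      exact ⟨δ, by exact_mod_cast h0, h1.le⟩
    exact (limsup_le_of_le (h := hup δ hδ0)).trans hδc
  · exact le_limsup_of_frequently_le hlow.frequently

theorem limsup_zero_of_le {α : Type*} (Q : ℝ → Set α) {T : ℝ}
    (h1 : ∀ t : ℝ, T ≤ t → (Q t).Nonempty)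
    (h2 : ∀ t : ℝ, T ≤ t → ((Q t).encard : ℝ≥0∞) ≤
      ENNReal.ofReal (exp (4 * (625 * t) ^ (6 / 7 : ℝ)))) :
    limsup (fun t : ℝ => ENNReal.log ((Q t).encard : ℝ≥0∞) / (t : EReal)) atTop = 0 := by
  apply u3_limsup_zero Q
  · filter_upwards [eventually_ge_atTop T] with t ht using h1 t ht
  · intro δ hδ
    have h3 : Tendsto (fun t : ℝ => (625 * t) ^ (-(1 / 7) : ℝ)) atTop (𝓝 0) :=
      (tendsto_rpow_neg_atTop (by norm_num : (0 : ℝ) < 1 / 7)).comp
        (tendsto_id.const_mul_atTop (by norm_num))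
    have h4 : ∀ᶠ t : ℝ in atTop, (625 * t) ^ (-(1 / 7) : ℝ) < δ / 2500 :=
      h3.eventually (gt_mem_nhds (by positivity))
    filter_upwards [eventually_ge_atTop T, eventually_gt_atTop (0 : ℝ), h4] with t ht ht0 ht4
    refine (h2 t ht).trans (ENNReal.ofReal_le_ofReal (exp_le_exp.2 ?_))
    have h5 : (625 * t) ^ (6 / 7 : ℝ) = (625 * t) ^ (-(1 / 7) : ℝ) * (625 * t) := by
      have h6 : (0 : ℝ) < 625 * t := by positivity
      conv_rhs => rw [← Real.rpow_one (625 * t)]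
      rw [Real.rpow_one, ← Real.rpow_add_one h6.ne']
      norm_num
    rw [h5]
    have h7 := mul_le_mul_of_nonneg_right ht4.le (by positivity : 0 ≤ 625 * t)
    have h8 : δ / 2500 * (625 * t) = δ * t / 4 := by ring
    rw [h8] at h7
    linarith
-- END u3

-- BEGIN u4
theorem u4_limsup_top {α : Type*} (P : ℝ → Set α) (t : ℕ → ℝ) (ht : Tendsto t atTop atTop)
    (h : ∀ K : ℝ, ∀ᶠ n : ℕ in atTop,
      ENNReal.ofReal (Real.exp (K * t n)) ≤ ((P (t n)).encard : ℝ≥0∞)) :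
    limsup (fun t : ℝ => ENNReal.log ((P t).encard : ℝ≥0∞) / (t : EReal)) atTop = ⊤ := by
  rw [EReal.eq_top_iff_forall_lt]
  intro K
  have h1 : ∀ᶠ n : ℕ in atTop, ((K + 1 : ℝ) : EReal) ≤
      ENNReal.log ((P (t n)).encard : ℝ≥0∞) / ((t n : ℝ) : EReal) := by
    filter_upwards [h (K + 1), ht.eventually (eventually_gt_atTop (0 : ℝ))] with n hn ht0
    have h3 : (((K + 1) * t n : ℝ) : EReal) ≤ ENNReal.log ((P (t n)).encard : ℝ≥0∞) := by
      refine le_trans ?_ (ENNReal.log_monotone hn)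
      rw [ENNReal.log_ofReal_of_pos (Real.exp_pos _), Real.log_exp]
    have h4 := EReal.div_le_div_right_of_nonneg
      (by exact_mod_cast ht0.le : (0 : EReal) ≤ ((t n : ℝ) : EReal)) h3
    refine le_trans (le_of_eq ?_) h4
    rw [← EReal.coe_div, mul_div_cancel_right₀ _ ht0.ne']
  have h2 : ∃ᶠ s : ℝ in atTop, ((K + 1 : ℝ) : EReal) ≤
      ENNReal.log ((P s).encard : ℝ≥0∞) / ((s : ℝ) : EReal) :=
    ht.frequently h1.frequently
  refine lt_of_lt_of_le ?_ (le_limsup_of_frequently_le h2)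
  exact_mod_cast (by linarith : K < K + 1)

theorem u4_qq_tendsto : Tendsto (fun n => (qq n : ℝ)) atTop atTop := by
  apply tendsto_natCast_atTop_atTop.comp
  refine tendsto_atTop_mono (fun n => ?_) tendsto_id
  have := succ_le_qq n
  simp only [id_eq]
  omega

theorem u4_card_large (K : ℝ) : ∀ᶠ n : ℕ in atTop,
    Real.exp (K * (36864 * (qq n : ℝ) ^ 5)) ≤ (kk n : ℝ) / 8 := by
  have h1 : ∀ᶠ n : ℕ in atTop, |K| * 36864 + 3 ≤ (qq n : ℝ) :=
    u4_qq_tendsto.eventually (eventually_ge_atTop _)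
  filter_upwards [h1] with n hn
  have hq : (10 : ℝ) ≤ qq n := by exact_mod_cast qq_pos n
  have h5 : (kk n : ℝ) = Real.exp ((qq n : ℝ) ^ 6 * Real.log 3) := by
    have : (kk n : ℝ) = (3 : ℝ) ^ (qq n ^ 6) := by
      unfold kk; push_cast; rfl
    rw [this, ← Real.exp_log (by norm_num : (0 : ℝ) < 3), ← Real.exp_nat_mul, Real.log_exp]
    push_cast
    ring_nf
  have h6 : (1 : ℝ) ≤ Real.log 3 := by
    rw [Real.le_log_iff_exp_le (by norm_num)]
    have := Real.exp_one_lt_d9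
    linarith
  have h7 : (8 : ℝ) ≤ Real.exp 3 := by
    have h8 : (2 : ℝ) ≤ Real.exp 1 := by
      have := Real.add_one_le_exp (1 : ℝ); linarith
    have h9 : Real.exp 3 = Real.exp 1 ^ 3 := by
      rw [← Real.exp_nat_mul]; norm_num
    rw [h9]
    have := pow_le_pow_left₀ (by norm_num) h8 3
    linarith
  rw [le_div_iff₀ (by norm_num)]
  have hq5 : 1 ≤ (qq n : ℝ) ^ 5 := one_le_pow₀ (by linarith)
  calc Real.exp (K * (36864 * (qq n : ℝ) ^ 5)) * 8
      ≤ Real.exp (K * (36864 * (qq n : ℝ) ^ 5)) * Real.exp 3 :=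
        mul_le_mul_of_nonneg_left h7 (Real.exp_pos _).le
    _ = Real.exp (K * (36864 * (qq n : ℝ) ^ 5) + 3) := by rw [Real.exp_add]
    _ ≤ Real.exp ((qq n : ℝ) ^ 6 * Real.log 3) := by
        apply Real.exp_le_exp.2
        have h10 : (qq n : ℝ) ^ 6 * 1 ≤ (qq n : ℝ) ^ 6 * Real.log 3 :=
          mul_le_mul_of_nonneg_left h6 (by positivity)
        have h11 : K * (36864 * (qq n : ℝ) ^ 5) ≤ |K| * (36864 * (qq n : ℝ) ^ 5) :=
          mul_le_mul_of_nonneg_right (le_abs_self K) (by positivity)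
        have h12 : (|K| * 36864 + 3) * (qq n : ℝ) ^ 5 ≤ (qq n : ℝ) * (qq n : ℝ) ^ 5 :=
          mul_le_mul_of_nonneg_right hn (by positivity)
        have h13 : (qq n : ℝ) * (qq n : ℝ) ^ 5 = (qq n : ℝ) ^ 6 := by ring
        nlinarith
    _ = (kk n : ℝ) := h5.symm

theorem limsup_top_of_ge {α : Type*} (Q : ℝ → Set α)
    (h : ∀ n : ℕ, (kk n / 8 : ℝ≥0∞) ≤ ((Q (36864 * (qq n : ℝ) ^ 5)).encard : ℝ≥0∞)) :
    limsup (fun t : ℝ => ENNReal.log ((Q t).encard : ℝ≥0∞) / (t : EReal)) atTop = ⊤ := by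
  apply u4_limsup_top Q (fun n => 36864 * (qq n : ℝ) ^ 5)
  · refine Tendsto.const_mul_atTop (by norm_num) ?_
    exact (tendsto_pow_atTop (by norm_num)).comp u4_qq_tendsto
  · intro K
    filter_upwards [u4_card_large K] with n hn
    refine le_trans ?_ (h n)
    refine (ENNReal.ofReal_le_ofReal hn).trans (le_of_eq ?_)
    rw [ENNReal.ofReal_div_of_pos (by norm_num), ENNReal.ofReal_natCast]
    norm_num
-- END u4

-- BEGIN u5
theorem u5_inj {n : ℕ} {i j : ℕ} (hi : i ∈ Finset.Icc ((kk n + 3) / 4) (3 * kk n / 4))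
    (hj : j ∈ Finset.Icc ((kk n + 3) / 4) (3 * kk n / 4))
    (h : orbit (tf hB) (cov (rp n true i)) = orbit (tf hB) (cov (rp n true j))) : i = j := by
  obtain ⟨l, hl⟩ := spd_B.phase_of_orbit (rp_tyB n true i) h
  rw [rp_ph, rp_ph] at hl
  have hk : 3 ≤ kk n := kk_pos n
  have hk0 : (0 : ℝ) < kk n := by
    have : 0 < kk n := by omega
    exact_mod_cast this
  have h1 : (j : ℝ) = i + l * kk n := by
    field_simp at hl
    linarith
  have h2 : (j : ℤ) = i + l * kk n := by exact_mod_cast h1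
  rw [Finset.mem_Icc] at hi hj
  have hi2 : i < kk n := by omega
  have hj2 : j < kk n := by omega
  have hl0 : l = 0 := by
    by_contra hne
    rcases lt_or_gt_of_ne hne with h3 | h3
    · have h4 : l ≤ -1 := by omega
      have h5 : l * (kk n : ℤ) ≤ -1 * (kk n : ℤ) := mul_le_mul_of_nonneg_right h4 (by omega)
      omega
    · have h4 : 1 ≤ l := by omega
      have h5 : 1 * (kk n : ℤ) ≤ l * (kk n : ℤ) := mul_le_mul_of_nonneg_right h4 (by omega)
      omega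
  rw [hl0] at h2
  omega

theorem card_strong (n : ℕ) : (kk n / 8 : ℝ≥0∞) ≤
    ((P IsolatedStrong (tf hB) (36864 * (qq n : ℝ) ^ 5)).encard : ℝ≥0∞) := by
  have hk : 3 ≤ kk n := kk_pos n
  have hk0 : (0 : ℝ) < kk n := by
    have : 0 < kk n := by omega
    exact_mod_cast this
  set S : Finset ℕ := Finset.Icc ((kk n + 3) / 4) (3 * kk n / 4) with hS
  have hmem : ∀ j ∈ S, orbit (tf hB) (cov (rp n true j)) ∈
      P IsolatedStrong (tf hB) (36864 * (qq n : ℝ) ^ 5) := by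
    intro j hj
    rw [hS, Finset.mem_Icc] at hj
    have h1 : kk n ≤ 4 * j := by omega
    have h2 : 4 * j ≤ 3 * kk n := by omega
    have h1' : (kk n : ℝ) ≤ 4 * j := by exact_mod_cast h1
    have h2' : (4 : ℝ) * j ≤ 3 * kk n := by exact_mod_cast h2
    refine (spd_B.mem_P (rp_tyB n true j) ?_).1
    refine pdB_le (rp_tyB n true j) (j := (j : ℤ)) (by rw [rp_ph]; simp) ?_ ?_
    · rw [le_div_iff₀ hk0]; push_cast; linarith
    · rw [div_le_iff₀ hk0]; push_cast; linarith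
  have hinj : Set.InjOn (fun j => orbit (tf hB) (cov (rp n true j))) (S : Set ℕ) := by
    intro i hi j hj h
    exact u5_inj (Finset.mem_coe.1 hi) (Finset.mem_coe.1 hj) h
  have h3 : (S.card : ℕ∞) ≤ (P IsolatedStrong (tf hB) (36864 * (qq n : ℝ) ^ 5)).encard := by
    calc (S.card : ℕ∞) = (S : Set ℕ).encard := (encard_coe_eq_coe_finsetCard S).symm
      _ = ((fun j => orbit (tf hB) (cov (rp n true j))) '' (S : Set ℕ)).encard :=
          (hinj.encard_image).symm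
      _ ≤ _ := encard_le_encard (by
          rintro _ ⟨j, hj, rfl⟩
          exact hmem j (Finset.mem_coe.1 hj))
  have h4 : kk n ≤ 8 * S.card := by
    rw [hS, Nat.card_Icc]
    omega
  have h5 : ((kk n : ℕ) : ℝ≥0∞) ≤ 8 * ((S.card : ℕ) : ℝ≥0∞) := by exact_mod_cast h4
  calc (kk n / 8 : ℝ≥0∞) ≤ ((S.card : ℕ) : ℝ≥0∞) := by
        rw [ENNReal.div_le_iff (by norm_num) (by norm_num), mul_comm]
        exact h5
    _ = ((S.card : ℕ∞) : ℝ≥0∞) := (ENat.toENNReal_coe _).symm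
    _ ≤ _ := ENat.toENNReal_mono h3
-- END u5

-- BEGIN u6
theorem u6_bound {t : ℝ} (ht : (10 : ℝ) ^ 7 ≤ 625 * t) :
    ((P IsolatedWeak (tf hA) t).encard : ℝ≥0∞) ≤
      ENNReal.ofReal (exp (4 * (625 * t) ^ (6 / 7 : ℝ))) := by
  refine le_trans (ENat.toENNReal_mono ?_) (card_index ht)
  exact (encard_le_encard (P_weak_subset t)).trans (encard_image_le _ _)

theorem u6_mem (t : ℝ) (ht : pd hA 0 (rp 0 true 0) ≤ t) :
    (P IsolatedStrong (tf hA) t).Nonempty ∧ (P IsolatedWeak (tf hA) t).Nonempty := by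
  have h := spd_A.mem_P (rp_tyB 0 true 0) ht
  exact ⟨⟨_, h.1⟩, ⟨_, h.2⟩⟩

theorem EP_A : EP IsolatedStrong (tf hA) = 0 ∧ EP IsolatedWeak (tf hA) = 0 := by
  have hT : ∀ t : ℝ, max (pd hA 0 (rp 0 true 0)) (10 ^ 7) ≤ t →
      pd hA 0 (rp 0 true 0) ≤ t ∧ (10 : ℝ) ^ 7 ≤ 625 * t := by
    intro t ht
    have h1 := (le_max_left _ _).trans ht
    have h2 := (le_max_right _ _).trans ht
    exact ⟨h1, by linarith⟩
  constructor
  · exact limsup_zero_of_le _ (fun t ht => (u6_mem t (hT t ht).1).1) (fun t ht =>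
      (ENat.toENNReal_mono (encard_le_encard (spd_A.P_strong_sub t))).trans (u6_bound (hT t ht).2))
  · exact limsup_zero_of_le _ (fun t ht => (u6_mem t (hT t ht).1).2)
      (fun t ht => u6_bound (hT t ht).2)

theorem EP_B : EP IsolatedStrong (tf hB) = ⊤ ∧ EP IsolatedWeak (tf hB) = ⊤ := by
  constructor
  · exact limsup_top_of_ge _ card_strong
  · exact limsup_top_of_ge _ (fun n => (card_strong n).trans
      (ENat.toENNReal_mono (encard_le_encard (spd_B.P_strong_sub _))))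
-- END u6

end Pool.Agent.AnQ2
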