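import Mathlib
import Pool.Agent.MP_1a349f_an.Torus

/-!
# The torus as a real analytic manifold
-/

namespace Pool.Agent.AnQ2

open Set Filter Topology
open scoped Manifold ContDiff
open Pool.Agent.MP_1a349f_an

-- BEGIN ta
instance instIsManifoldTorusOmega (d : ℕ) : IsManifold 𝓘(ℝ, Fin d → ℝ) ω (Torus d) := by
  apply isManifold_of_contDiffOn
  rintro _ _ ⟨a, rfl⟩ ⟨a', rfl⟩
  simp only [modelWithCornersSelf_coe, modelWithCornersSelf_coe_symm, Function.id_comp,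
    Function.comp_id, preimage_id_eq, id_eq, range_id, inter_univ]
  intro x hx
  have hx' : cov x ∈ (cubeChart a').source := by
    have := hx.2
    exact this
  obtain ⟨k, hk⟩ := cubeChart_cov_eventually a' x hx'
  have h1 : ContDiffAt ℝ ω (tr k) x := (contDiff_tr k).contDiffAt
  exact (h1.congr_of_eventuallyEq hk).contDiffWithinAt

theorem contMDiff_field_omega {d : ℕ} {V : (Fin d → ℝ) → (Fin d → ℝ)} (hV : Per V)
    (hs : ContDiff ℝ ω V) :
    ContMDiff 𝓘(ℝ, Fin d → ℝ) 𝓘(ℝ, Fin d → ℝ).tangent ω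
      (fun m => (⟨m, field V m⟩ : TangentBundle 𝓘(ℝ, Fin d → ℝ) (Torus d))) := by
  intro m₀
  rw [Bundle.contMDiffAt_section]
  have h1 : ContMDiffAt 𝓘(ℝ, Fin d → ℝ) 𝓘(ℝ, Fin d → ℝ) ω
      (fun m => V (chartAt (Fin d → ℝ) m₀ m)) m₀ :=
    hs.contMDiff.contMDiffAt.comp m₀ (contMDiffAt_of_mem_maximalAtlas
      (IsManifold.chart_mem_maximalAtlas m₀) (mem_chart_source _ m₀))
  refine h1.congr_of_eventuallyEq ?_
  have hsrc : m₀ ∈ (chartAt (Fin d → ℝ) m₀).source := mem_chart_source _ _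
  filter_upwards [(chartAt (Fin d → ℝ) m₀).open_source.mem_nhds hsrc] with m hm
  rw [TangentBundle.trivializationAt_apply]
  have h2 : field V m = V (chartAt (Fin d → ℝ) m₀ m) := by
    have h3 : cov (chartAt (Fin d → ℝ) m₀ m) = m := cov_cubeChart _ m hm
    conv_lhs => rw [← h3]
    exact field_cov hV _
  rw [← h2]
  have hsrc' : m ∈ (chartAt (Fin d → ℝ) m).source := mem_chart_source _ _
  set x : Fin d → ℝ := chartAt (Fin d → ℝ) m m with hx
  have hxm : cov x = m := cov_cubeChart _ m hsrc'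
  have h4 : cov x ∈ (chartAt (Fin d → ℝ) m₀).source := by rw [hxm]; exact hm
  obtain ⟨k, hk⟩ := cubeChart_cov_eventually _ x h4
  have h5 : HasFDerivAt ((chartAt (Fin d → ℝ) m₀).extend 𝓘(ℝ, Fin d → ℝ) ∘
      ((chartAt (Fin d → ℝ) m).extend 𝓘(ℝ, Fin d → ℝ)).symm)
      (ContinuousLinearMap.id ℝ (Fin d → ℝ)) x := by
    refine (hasFDerivAt_tr k x).congr_of_eventuallyEq ?_
    filter_upwards [hk] with y hy
    exact hy
  have h6 : fderivWithin ℝ ((chartAt (Fin d → ℝ) m₀).extend 𝓘(ℝ, Fin d → ℝ) ∘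
      ((chartAt (Fin d → ℝ) m).extend 𝓘(ℝ, Fin d → ℝ)).symm) (range 𝓘(ℝ, Fin d → ℝ))
      ((chartAt (Fin d → ℝ) m).extend 𝓘(ℝ, Fin d → ℝ) m)
      = ContinuousLinearMap.id ℝ (Fin d → ℝ) := by
    simp only [modelWithCornersSelf_coe, range_id, fderivWithin_univ]
    exact h5.fderiv
  change (fderivWithin ℝ ((chartAt (Fin d → ℝ) m₀).extend 𝓘(ℝ, Fin d → ℝ) ∘
      ((chartAt (Fin d → ℝ) m).extend 𝓘(ℝ, Fin d → ℝ)).symm) (range 𝓘(ℝ, Fin d → ℝ))
      ((chartAt (Fin d → ℝ) m).extend 𝓘(ℝ, Fin d → ℝ) m)) (field V m) = field V m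
  rw [h6]
  rfl
-- END ta

end Pool.Agent.AnQ2
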