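import Mathlib
import Pool.Agent.AnQ2.Ep
import Pool.Agent.AnQ2.TorusAn

/-!
# Assembly (the entropies are filled in by sections 5 and 6)
-/

namespace Pool.Agent.AnQ2

open Set Filter Topology Real MeasureTheory
open scoped ContDiff NNReal ENNReal Manifold
open Pool.Agent.MP_1a349f_an

-- BEGIN fin1
theorem isAnalyticFlow {V : (Fin 6 → ℝ) → (Fin 6 → ℝ)} (hV : Good V) (hs : ContDiff ℝ ω V) :
    IsAnalyticFlow (E := Fin 6 → ℝ) (M := Torus 6) (tflow V) := by
  refine ⟨field V, contMDiff_field_omega hV.per hs, hV.tflow_zero, hV.tflow_add, fun x => ?_⟩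
  exact isMIntegralCurve_cov hV.per (fun t => flow V t (lift x)) (hV.hasDerivAt_flow (lift x))

theorem equivalent_AB : Equivalent (tf hA) (tf hB) := by
  refine ⟨Homeomorph.refl _, fun x => ?_⟩
  obtain ⟨τ, h0, h⟩ := flows_equiv2 (lift x)
  exact ⟨τ, h0, fun t => congrArg cov (h t)⟩
-- END fin1

end Pool.Agent.AnQ2
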