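import Mathlib
import Pool.Agent.MP_1a349f_an.ZeroOut

/-!
# Zero entropy from local subexponential separation (page, (6.1), (6.2))
-/

namespace Pool.Agent.AnQ2

open Set Filter Topology Real MeasureTheory
open Pool.Agent.MP_1a349f_an
open scoped ContDiff NNReal

/-- (6.1) For every `δ > 0` some time-`T` map, `T ≥ 1` natural, expands distances near `z` by at
most `exp (δ T)`. -/
def PL (V : (Fin 6 → ℝ) → (Fin 6 → ℝ)) (z : Fin 6 → ℝ) : Prop :=
  ∀ δ > (0 : ℝ), ∃ T : ℕ, 1 ≤ T ∧ ∃ r > (0 : ℝ), ∀ w w', ‖w - z‖ < r → ‖w' - z‖ < r →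
    ‖flow V T w - flow V T w'‖ ≤ exp (δ * T) * ‖w - w'‖

/-- The setting of (6.2): the fifth coordinate is monotone, `KS` is the set of points where its
speed `κ (z) sin^2 (2 π z_5)` vanishes. -/
structure Mono5 (V : (Fin 6 → ℝ) → (Fin 6 → ℝ)) (κ : (Fin 6 → ℝ) → ℝ) : Prop where
  good : Good V
  cκ : Continuous κ
  perκ : Per κ
  nonneg : ∀ z, 0 ≤ κ z
  eq5 : ∀ z, V z 5 = κ z * sin (2 * π * z 5) ^ 2

/-- the critical set of (6.2) -/
def KS (κ : (Fin 6 → ℝ) → ℝ) : Set (Fin 6 → ℝ) := {z | sin (2 * π * z 5) = 0 ∨ κ z = 0}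

variable {V : (Fin 6 → ℝ) → (Fin 6 → ℝ)} {κ : (Fin 6 → ℝ) → ℝ}

-- BEGIN pl1
/-- the flow is Lipschitz in the initial point, uniformly on `[0, t]` -/
theorem lip_flow (hV : Good V) : ∃ K > (0 : ℝ), ∀ (t : ℝ), 0 ≤ t → ∀ w w',
    ‖flow V t w - flow V t w'‖ ≤ exp (K * t) * ‖w - w'‖ := by
  obtain ⟨K, hK⟩ := hV.exists_lipschitz
  refine ⟨(K : ℝ) + 1, by positivity, fun t ht w w' => ?_⟩
  have h := dist_le_of_trajectories_ODE (v := fun _ => V) (K := K) (a := 0) (b := t)
    (f := fun s => flow V s w) (g := fun s => flow V s w') (δ := dist w w')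
    (fun _ => hK) (hV.continuous_flow w).continuousOn
    (fun s _ => (hV.hasDerivAt_flow w s).hasDerivWithinAt)
    (hV.continuous_flow w').continuousOn
    (fun s _ => (hV.hasDerivAt_flow w' s).hasDerivWithinAt)
    (by rw [hV.flow_zero, hV.flow_zero]) t ⟨ht, le_refl t⟩
  rw [dist_eq_norm, dist_eq_norm, sub_zero, mul_comm] at h
  refine h.trans (mul_le_mul_of_nonneg_right ?_ (norm_nonneg _))
  exact exp_le_exp.2 (mul_le_mul_of_nonneg_right (by linarith) ht)

/-- the time-one map contracts nothing and expands by at most `Λ` -/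
theorem lip_nat (hV : Good V) : ∃ Λ : ℝ, 1 ≤ Λ ∧ ∀ (n : ℕ) w w',
    ‖flow V n w - flow V n w'‖ ≤ Λ ^ n * ‖w - w'‖ := by
  obtain ⟨K, hK0, hK⟩ := lip_flow hV
  refine ⟨exp K, one_le_exp hK0.le, fun n w w' => ?_⟩
  have h := hK n (Nat.cast_nonneg n) w w'
  rwa [mul_comm K, exp_nat_mul] at h

theorem pl1_neg (hV : Good V) : Good (fun z => -V z) :=
  ⟨hV.contDiff.neg, fun k z => by simp only [hV.per k z]⟩

theorem pl1_flow_neg (hV : Good V) (t : ℝ) (z : Fin 6 → ℝ) :
    flow (fun z => -V z) t z = flow V (-t) z := by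
  have h := (pl1_neg hV).eq_flow (γ := fun s => flow V (-s) z) (fun s => by
    have h1 := (hV.hasDerivAt_flow z (-s)).scomp s (hasDerivAt_neg s)
    rw [neg_one_smul] at h1
    exact h1) t
  simp only [neg_zero, hV.flow_zero] at h
  exact h.symm

theorem pl1_continuous (hV : Good V) {t : ℝ} (ht : 0 ≤ t) : Continuous (flow V t) := by
  obtain ⟨K, -, hK⟩ := lip_flow hV
  have h : LipschitzWith ⟨exp (K * t), (exp_pos _).le⟩ (flow V t) :=
    LipschitzWith.of_dist_le_mul fun w w' => by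
      rw [dist_eq_norm, dist_eq_norm]
      exact hK t ht w w'
  exact h.continuous

theorem continuous_flow_point (hV : Good V) (t : ℝ) : Continuous (flow V t) := by
  rcases le_total 0 t with ht | ht
  · exact pl1_continuous hV ht
  · have h := pl1_continuous (pl1_neg hV) (neg_nonneg.2 ht)
    have h1 : flow (fun z => -V z) (-t) = flow V t := by
      funext z
      rw [pl1_flow_neg hV, neg_neg]
    rwa [h1] at h
-- END pl1

-- BEGIN pl2
private theorem pl2_deriv (h : Mono5 V κ) (z : Fin 6 → ℝ) (t : ℝ) :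
    HasDerivAt (fun t => flow V t z 5)
      (κ (flow V t z) * sin (2 * π * flow V t z 5) ^ 2) t := by
  have h1 := (hasDerivAt_pi.1 (h.good.hasDerivAt_flow z t)) 5
  rwa [h.eq5] at h1

/-- `z_5` is nondecreasing along orbits -/
theorem Mono5.mono (h : Mono5 V κ) (z : Fin 6 → ℝ) : Monotone fun t => flow V t z 5 := by
  apply monotone_of_deriv_nonneg
  · exact fun t => (pl2_deriv h z t).differentiableAt
  · intro t
    rw [(pl2_deriv h z t).deriv]
    exact mul_nonneg (h.nonneg _) (sq_nonneg _)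

private theorem pl2_const (h : Mono5 V κ) {z : Fin 6 → ℝ} {s : ℝ}
    (hs : sin (2 * π * flow V s z 5) = 0) (t : ℝ) : flow V t z 5 = flow V s z 5 := by
  obtain ⟨C, hC⟩ := h.perκ.exists_bound h.cκ
  have hlip : ∀ t : ℝ, LipschitzOnWith (C * (2 * π).toNNReal)
      (fun x : ℝ => κ (flow V t z) * sin (2 * π * x) ^ 2) univ := by
    intro t
    refine LipschitzWith.lipschitzOnWith (LipschitzWith.of_dist_le_mul fun x y => ?_)
    rw [Real.dist_eq, Real.dist_eq]
    have e : κ (flow V t z) * sin (2 * π * x) ^ 2 - κ (flow V t z) * sin (2 * π * y) ^ 2 =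
        κ (flow V t z) * (sin (2 * π * x + 2 * π * y) * sin (2 * π * x - 2 * π * y)) := by
      rw [sin_add, sin_sub]
      have h1 := sin_sq_add_cos_sq (2 * π * x)
      have h2 := sin_sq_add_cos_sq (2 * π * y)
      linear_combination κ (flow V t z) * (sin (2 * π * y) ^ 2 * h1 - sin (2 * π * x) ^ 2 * h2)
    rw [e, abs_mul, abs_mul]
    have h3 : |sin (2 * π * x - 2 * π * y)| ≤ 2 * π * |x - y| := by
      refine abs_sin_le_abs.trans ?_
      rw [← mul_sub, abs_mul, abs_of_pos (by positivity : 0 < 2 * π)]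
    have h4 : |κ (flow V t z)| ≤ C := by
      have := hC (flow V t z)
      rwa [Real.norm_eq_abs] at this
    have h5 : |sin (2 * π * x + 2 * π * y)| ≤ 1 := abs_sin_le_one _
    calc |κ (flow V t z)| * (|sin (2 * π * x + 2 * π * y)| * |sin (2 * π * x - 2 * π * y)|)
        ≤ C * (1 * (2 * π * |x - y|)) := by
          refine mul_le_mul h4 (mul_le_mul h5 h3 (abs_nonneg _) zero_le_one)
            (mul_nonneg (abs_nonneg _) (abs_nonneg _)) C.2
      _ = _ := by
          rw [NNReal.coe_mul, Real.coe_toNNReal _ (by positivity)]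
          ring
  have hu := ODE_solution_unique_univ
    (v := fun t x => κ (flow V t z) * sin (2 * π * x) ^ 2) (s := fun _ => univ)
    (K := C * (2 * π).toNNReal) (f := fun t => flow V t z 5) (g := fun _ => flow V s z 5)
    (t₀ := s) hlip (fun t => ⟨pl2_deriv h z t, trivial⟩)
    (fun t => ⟨by
      simp only [hs]
      simpa using hasDerivAt_const t (flow V s z 5), trivial⟩) rfl
  exact congrFun hu t

private theorem pl2_sin_half (i : ℤ) {x : ℝ} (hx : x = (i : ℝ) / 2) : sin (2 * π * x) = 0 := by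
  rw [hx, show 2 * π * ((i : ℝ) / 2) = i * π by ring]
  exact sin_int_mul_pi i

/-- `z_5` does not cross the half integers -/
theorem Mono5.conf (h : Mono5 V κ) (i : ℤ) {z : Fin 6 → ℝ} (h1 : (i : ℝ) / 2 ≤ z 5)
    (h2 : z 5 ≤ (i + 1) / 2) (t : ℝ) : (i : ℝ) / 2 ≤ flow V t z 5 ∧ flow V t z 5 ≤ (i + 1) / 2 := by
  have hc : Continuous fun t => flow V t z 5 :=
    continuous_iff_continuousAt.2 fun t => (pl2_deriv h z t).continuousAt
  have h0 : flow V 0 z 5 = z 5 := by rw [h.good.flow_zero]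
  constructor
  · by_contra hlt
    push Not at hlt
    obtain ⟨s, -, hs⟩ := intermediate_value_uIcc (a := t) (b := 0) hc.continuousOn
      (show (i : ℝ) / 2 ∈ uIcc (flow V t z 5) (flow V 0 z 5) by
        rw [mem_uIcc]
        left
        exact ⟨hlt.le, by rw [h0]; exact h1⟩)
    have hs' : flow V s z 5 = (i : ℝ) / 2 := hs
    have h3 := pl2_const h (s := s) (pl2_sin_half i hs') t
    rw [hs'] at h3
    linarith
  · by_contra hlt
    push Not at hlt
    obtain ⟨s, -, hs⟩ := intermediate_value_uIcc (a := t) (b := 0) hc.continuousOn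
      (show ((i : ℝ) + 1) / 2 ∈ uIcc (flow V t z 5) (flow V 0 z 5) by
        rw [mem_uIcc]
        right
        exact ⟨by rw [h0]; exact h2, hlt.le⟩)
    have hs' : flow V s z 5 = ((i : ℝ) + 1) / 2 := hs
    have hs2 : flow V s z 5 = ((i + 1 : ℤ) : ℝ) / 2 := by
      rw [hs']
      push_cast
      ring
    have h3 := pl2_const h (s := s) (pl2_sin_half (i + 1) hs2) t
    rw [hs'] at h3
    linarith

/-- off `KS` the coordinate `z_5` increases strictly -/
theorem Mono5.inc_pos (h : Mono5 V κ) {z : Fin 6 → ℝ} (hz : z ∉ KS κ) :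
    z 5 < flow V 1 z 5 := by
  have h0 : flow V 0 z 5 = z 5 := by rw [h.good.flow_zero]
  by_contra hle
  push Not at hle
  have hm := h.mono z
  have hconst : ∀ t ∈ Icc (0 : ℝ) 1, flow V t z 5 = z 5 := by
    intro t ht
    have h1 := hm ht.1
    have h2 := hm ht.2
    simp only at h1 h2
    rw [h0] at h1
    linarith
  have hd := (pl2_deriv h z 0).hasDerivWithinAt (s := Icc (0 : ℝ) 1)
  have hd' : HasDerivWithinAt (fun t => flow V t z 5) 0 (Icc (0 : ℝ) 1) 0 := by
    refine (hasDerivWithinAt_const (0 : ℝ) (Icc (0 : ℝ) 1) (z 5)).congr hconst ?_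
    exact h0
  have he := (uniqueDiffOn_Icc zero_lt_one 0 ⟨le_refl _, zero_le_one⟩).eq_deriv _ hd hd'
  rw [h.good.flow_zero] at he
  apply hz
  rcases mul_eq_zero.1 he with h3 | h3
  · exact Or.inr h3
  · exact Or.inl (pow_eq_zero_iff two_ne_zero |>.1 h3)
-- END pl2

theorem isClosed_KS (hκ : Continuous κ) : IsClosed (KS κ) := by
  apply IsClosed.union
  · exact isClosed_eq (by fun_prop) continuous_const
  · exact isClosed_eq hκ continuous_const

-- BEGIN pl3
theorem pl3_aux (hκ : Per κ) (k : Fin 6 → ℤ) {z : Fin 6 → ℝ} (h : z ∈ KS κ) : tr k z ∈ KS κ := by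
  rcases h with h | h
  · left
    have e : 2 * π * tr k z 5 = 2 * π * z 5 + (k 5 : ℝ) * (2 * π) := by
      simp only [tr]
      ring
    rw [e, sin_add_int_mul_two_pi]
    exact h
  · right
    rw [hκ]
    exact h

theorem KS_tr (hκ : Per κ) (k : Fin 6 → ℤ) {z : Fin 6 → ℝ} : tr k z ∈ KS κ ↔ z ∈ KS κ := by
  refine ⟨fun h => ?_, pl3_aux hκ k⟩
  have h1 := pl3_aux hκ (-k) h
  have h2 : tr (-k) (tr k z) = z := by
    funext i
    simp [tr]
  rwa [h2] at h1

/-- away from `KS` the increase of `z_5` in unit time is bounded below -/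
theorem Mono5.inc_lower (h : Mono5 V κ) {r : ℝ} (hr : 0 < r) : ∃ c > (0 : ℝ), ∀ z,
    (∀ w ∈ KS κ, r ≤ ‖z - w‖) → c ≤ flow V 1 z 5 - z 5 := by
  have hcont : Continuous fun z : Fin 6 → ℝ => flow V 1 z 5 - z 5 :=
    ((continuous_apply 5).comp (continuous_flow_point h.good 1)).sub (continuous_apply 5)
  set S : Set (Fin 6 → ℝ) := Icc 0 1 ∩ {z | ∀ w ∈ KS κ, r ≤ ‖z - w‖} with hS
  have hSc : IsCompact S := by
    refine isCompact_Icc.inter_right ?_
    have : {z : Fin 6 → ℝ | ∀ w ∈ KS κ, r ≤ ‖z - w‖} = ⋂ w ∈ KS κ, {z | r ≤ ‖z - w‖} := by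
      ext z
      simp
    rw [this]
    refine isClosed_biInter fun w _ => ?_
    exact isClosed_le continuous_const (continuous_id.sub continuous_const).norm
  have hred : ∀ z : Fin 6 → ℝ, (∀ w ∈ KS κ, r ≤ ‖z - w‖) → ∃ y ∈ S,
      flow V 1 z 5 - z 5 = flow V 1 y 5 - y 5 := by
    intro z hz
    obtain ⟨k, y, hy, rfl⟩ := exists_tr_mem_cube z
    refine ⟨y, ⟨hy, fun w hw => ?_⟩, ?_⟩
    · have h1 := hz (tr k w) ((KS_tr h.perκ k).2 hw)
      have h2 : tr k y - tr k w = y - w := by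
        funext i
        simp [tr]
      rwa [h2] at h1
    · rw [h.good.flow_tr]
      simp [tr]
  rcases S.eq_empty_or_nonempty with hSe | hSn
  · refine ⟨1, one_pos, fun z hz => ?_⟩
    obtain ⟨y, hy, -⟩ := hred z hz
    rw [hSe] at hy
    exact absurd hy (notMem_empty y)
  · obtain ⟨y0, hy0, hmin⟩ := hSc.exists_isMinOn hSn hcont.continuousOn
    refine ⟨flow V 1 y0 5 - y0 5, ?_, fun z hz => ?_⟩
    · have h1 : y0 ∉ KS κ := fun hc => by
        have h2 := hy0.2 y0 hc
        rw [sub_self, norm_zero] at h2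
        linarith
      have h3 := h.inc_pos h1
      show 0 < _
      linarith
    · obtain ⟨y, hy, e⟩ := hred z hz
      rw [e]
      exact hmin hy
-- END pl3

-- BEGIN pl4
theorem p4_min {ι : Type*} (t : Finset ι) (r : ι → ℝ) (hr : ∀ c ∈ t, 0 < r c) :
    ∃ r0 > (0 : ℝ), ∀ c ∈ t, r0 ≤ r c := by
  classical
  induction t using Finset.induction_on with
  | empty => exact ⟨1, one_pos, by simp⟩
  | insert a s ha ih =>
    obtain ⟨r0, h0, h1⟩ := ih (fun c hc => hr c (Finset.mem_insert_of_mem hc))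
    refine ⟨min r0 (r a), lt_min h0 (hr a (Finset.mem_insert_self a s)), ?_⟩
    intro c hc
    rw [Finset.mem_insert] at hc
    rcases hc with rfl | hc
    · exact min_le_right _ _
    · exact le_trans (min_le_left _ _) (h1 c hc)

/-- uniform version of `PL` near `KS` (Lebesgue number) -/
theorem PL_uniform (h : Mono5 V κ) (hPL : ∀ z ∈ KS κ, PL V z) {δ : ℝ} (hδ : 0 < δ) :
    ∃ (Tm : ℕ) (r : ℝ), 0 < r ∧ ∀ z ∈ KS κ, ∀ w w', ‖w - z‖ < r → ‖w' - w‖ < r →
      ∃ T : ℕ, 1 ≤ T ∧ T ≤ Tm ∧ ‖flow V T w - flow V T w'‖ ≤ exp (δ * T) * ‖w - w'‖ := by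
  classical
  have h1 : ∀ z ∈ KS κ, ∃ T : ℕ, 1 ≤ T ∧ ∃ r > (0 : ℝ), ∀ w w', ‖w - z‖ < r → ‖w' - z‖ < r →
      ‖flow V T w - flow V T w'‖ ≤ exp (δ * T) * ‖w - w'‖ := fun z hz => hPL z hz δ hδ
  choose! Tz hT1 rz hr0 hz using h1
  have hcomp : IsCompact (KS κ ∩ Icc (0 : Fin 6 → ℝ) 1) :=
    IsCompact.inter_left isCompact_Icc (isClosed_KS h.cκ)
  obtain ⟨t, ht, hcov⟩ := hcomp.elim_nhds_subcover (fun z => Metric.ball z (rz z / 2))
    (fun z hz => Metric.ball_mem_nhds z (half_pos (hr0 z hz.1)))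
  obtain ⟨r0, hr0', hr1⟩ := p4_min t (fun c => rz c / 4)
    (fun c hc => by have := hr0 c (ht c hc).1; positivity)
  refine ⟨t.sup Tz, r0, hr0', ?_⟩
  intro z hzK w w' hw hw'
  let k : Fin 6 → ℤ := fun i => -⌊z i⌋
  have hk1 : tr k z ∈ KS κ := (KS_tr h.perκ k).mpr hzK
  have hk2 : tr k z ∈ Icc (0 : Fin 6 → ℝ) 1 := by
    constructor
    · intro i
      show (0 : ℝ) ≤ z i + ((-⌊z i⌋ : ℤ) : ℝ)
      have := Int.floor_le (z i)
      push_cast
      linarith
    · intro i
      show z i + ((-⌊z i⌋ : ℤ) : ℝ) ≤ 1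
      have := Int.lt_floor_add_one (z i)
      push_cast
      linarith
  have hk3 := hcov ⟨hk1, hk2⟩
  rw [mem_iUnion₂] at hk3
  obtain ⟨c, hc, hc1⟩ := hk3
  rw [Metric.mem_ball, dist_eq_norm] at hc1
  have hcK := (ht c hc).1
  have htr : ∀ a b : Fin 6 → ℝ, tr k a - tr k b = a - b := by
    intro a b
    funext i
    show a i + (k i : ℝ) - (b i + (k i : ℝ)) = a i - b i
    ring
  have hrc := hr1 c hc
  have h2 : ‖tr k w - c‖ < rz c / 2 + r0 := by
    have e : tr k w - c = (tr k z - c) + (tr k w - tr k z) := by abel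
    rw [e]
    refine lt_of_le_of_lt (norm_add_le _ _) ?_
    rw [htr]
    linarith
  have h3 : ‖tr k w' - c‖ < rz c / 2 + r0 + r0 := by
    have e : tr k w' - c = (tr k w - c) + (tr k w' - tr k w) := by abel
    rw [e]
    refine lt_of_le_of_lt (norm_add_le _ _) ?_
    rw [htr]
    linarith
  have h4 := hz c hcK (tr k w) (tr k w') (by linarith) (by linarith)
  rw [h.good.flow_tr, h.good.flow_tr, htr, htr] at h4
  exact ⟨Tz c, hT1 c hcK, Finset.le_sup hc, h4⟩
-- END pl4

-- BEGIN pl5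
/-- an orbit has at most `1 / (2 c) + 1` integer times at which `z_5` increases by `c` -/
theorem Mono5.count (h : Mono5 V κ) {c : ℝ} (hc : 0 < c) (z : Fin 6 → ℝ) (n : ℕ)
    (s : Finset ℕ) (hs : ∀ j ∈ s, j < n ∧ c ≤ flow V (j + 1) z 5 - flow V j z 5) :
    (s.card : ℝ) ≤ 1 / (2 * c) := by
  have hmono := h.mono z
  have h1 : ((⌊2 * z 5⌋ : ℤ) : ℝ) / 2 ≤ z 5 := by
    have := Int.floor_le (2 * z 5)
    linarith
  have h2 : z 5 ≤ (((⌊2 * z 5⌋ : ℤ) : ℝ) + 1) / 2 := by
    have := Int.lt_floor_add_one (2 * z 5)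
    linarith
  have hsub : s ⊆ Finset.range n := fun j hj => Finset.mem_range.2 (hs j hj).1
  have hstep : ∀ j : ℕ, 0 ≤ flow V (j + 1) z 5 - flow V j z 5 := by
    intro j
    have := hmono (show (j : ℝ) ≤ j + 1 by linarith)
    simpa using this
  have hA : (s.card : ℝ) * c ≤ ∑ j ∈ s, (flow V (j + 1) z 5 - flow V j z 5) := by
    rw [← nsmul_eq_mul]
    exact Finset.card_nsmul_le_sum s _ c fun j hj => (hs j hj).2
  have hB : ∑ j ∈ s, (flow V (j + 1) z 5 - flow V j z 5) ≤
      ∑ j ∈ Finset.range n, (flow V (j + 1) z 5 - flow V j z 5) :=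
    Finset.sum_le_sum_of_subset_of_nonneg hsub fun j _ _ => hstep j
  have hC : ∑ j ∈ Finset.range n, (flow V ((j : ℝ) + 1) z 5 - flow V j z 5) =
      flow V n z 5 - flow V 0 z 5 := by
    have := Finset.sum_range_sub (fun j : ℕ => flow V (j : ℝ) z 5) n
    simpa [Nat.cast_succ] using this
  have hD := (h.conf ⌊2 * z 5⌋ h1 h2 n).2
  have hE := (h.conf ⌊2 * z 5⌋ h1 h2 0).1
  rw [le_div_iff₀ (by positivity)]
  linarith
-- END pl5

-- BEGIN pl6
/-- the induction of (6.2): `G n` is the predicate `the point is near KS`, jumps of length at most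
`Tm` from such points expand by `exp (δ T)`, all other steps expand by `Λ`. -/
theorem jump_induction {α : Type*} (f : ℕ → α → α) (hf0 : ∀ x, f 0 x = x)
    (hf : ∀ m n x, f (m + n) x = f m (f n x)) (D : α → α → ℝ) (hD : ∀ x y, 0 ≤ D x y)
    {Λ δ r : ℝ} (hΛ : 1 ≤ Λ) (hδ : 0 ≤ δ) (hlip : ∀ (n : ℕ) x y, D (f n x) (f n y) ≤ Λ ^ n * D x y)
    (N : Set α) (Tm : ℕ)
    (hjump : ∀ x ∈ N, ∀ y, D x y < r → ∃ T : ℕ, 1 ≤ T ∧ T ≤ Tm ∧
      D (f T x) (f T y) ≤ exp (δ * T) * D x y)
    (n : ℕ) : ∀ (x y : α) (L : ℕ), (∀ s : Finset ℕ, (∀ j ∈ s, j < n ∧ f j x ∉ N) →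
      s.card ≤ L) → Λ ^ (L + Tm) * exp (δ * n) * D x y < r →
      D (f n x) (f n y) ≤ Λ ^ (L + Tm) * exp (δ * n) * D x y := by
  induction n using Nat.strong_induction_on with
  | _ n ih =>
  intro x y L hL hr
  have hΛ0 : (0 : ℝ) ≤ Λ := le_trans zero_le_one hΛ
  have hpow : ∀ m : ℕ, (1 : ℝ) ≤ Λ ^ m := fun m => one_le_pow₀ hΛ
  have hexp : ∀ m : ℕ, (1 : ℝ) ≤ exp (δ * m) := fun m => by
    rw [← Real.exp_zero]
    exact Real.exp_le_exp.mpr (mul_nonneg hδ (Nat.cast_nonneg m))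
  have hDxy := hD x y
  by_cases hx : x ∈ N
  · have h1 : D x y < r := by
      refine lt_of_le_of_lt ?_ hr
      have h2 : (1 : ℝ) ≤ Λ ^ (L + Tm) * exp (δ * n) := by
        have := one_le_mul_of_one_le_of_one_le (hpow (L + Tm)) (hexp n)
        exact this
      calc D x y = 1 * D x y := (one_mul _).symm
        _ ≤ Λ ^ (L + Tm) * exp (δ * n) * D x y := mul_le_mul_of_nonneg_right h2 hDxy
    obtain ⟨T, hT1, hTm, hT⟩ := hjump x hx y h1
    by_cases hTn : T ≤ n
    · obtain ⟨m, rfl⟩ := Nat.exists_eq_add_of_le' hTn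
      have h3 : Λ ^ (L + Tm) * exp (δ * m) * D (f T x) (f T y) ≤
          Λ ^ (L + Tm) * exp (δ * (m + T : ℕ)) * D x y := by
        have h4 : exp (δ * (m + T : ℕ)) = exp (δ * m) * exp (δ * T) := by
          rw [← Real.exp_add]
          congr 1
          push_cast
          ring
        rw [h4]
        calc Λ ^ (L + Tm) * exp (δ * m) * D (f T x) (f T y)
            ≤ Λ ^ (L + Tm) * exp (δ * m) * (exp (δ * T) * D x y) :=
              mul_le_mul_of_nonneg_left hT (by positivity)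
          _ = Λ ^ (L + Tm) * (exp (δ * m) * exp (δ * T)) * D x y := by ring
      have h5 := ih m (by omega) (f T x) (f T y) L (by
        intro s hs
        have h6 := hL (s.map (addRightEmbedding T)) (by
          intro j hj
          rw [Finset.mem_map] at hj
          obtain ⟨i, hi, rfl⟩ := hj
          have h7 := hs i hi
          constructor
          · simp only [addRightEmbedding_apply]
            omega
          · simp only [addRightEmbedding_apply]
            rw [hf]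
            exact h7.2)
        rwa [Finset.card_map] at h6) (lt_of_le_of_lt h3 hr)
      rw [hf, hf]
      exact le_trans h5 h3
    · have h3 := hlip n x y
      refine le_trans h3 ?_
      apply mul_le_mul_of_nonneg_right _ hDxy
      have h4 : Λ ^ n ≤ Λ ^ (L + Tm) := pow_le_pow_right₀ hΛ (by omega)
      calc Λ ^ n ≤ Λ ^ (L + Tm) := h4
        _ = Λ ^ (L + Tm) * 1 := (mul_one _).symm
        _ ≤ Λ ^ (L + Tm) * exp (δ * n) := mul_le_mul_of_nonneg_left (hexp n) (by positivity)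
  · rcases Nat.eq_zero_or_pos n with hn | hn
    · subst hn
      rw [hf0, hf0]
      have h2 : (1 : ℝ) ≤ Λ ^ (L + Tm) * exp (δ * (0 : ℕ)) :=
        one_le_mul_of_one_le_of_one_le (hpow (L + Tm)) (hexp 0)
      calc D x y = 1 * D x y := (one_mul _).symm
        _ ≤ Λ ^ (L + Tm) * exp (δ * (0 : ℕ)) * D x y := mul_le_mul_of_nonneg_right h2 hDxy
    · obtain ⟨m, rfl⟩ : ∃ m, n = m + 1 := ⟨n - 1, by omega⟩
      have hL1 : 1 ≤ L := by
        have h6 := hL {0} (by
          intro j hj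
          rw [Finset.mem_singleton] at hj
          subst hj
          rw [hf0]
          exact ⟨hn, hx⟩)
        simpa using h6
      obtain ⟨L', rfl⟩ : ∃ L', L = L' + 1 := ⟨L - 1, by omega⟩
      have hlip1 := hlip 1 x y
      rw [pow_one] at hlip1
      have h3 : Λ ^ (L' + Tm) * exp (δ * m) * D (f 1 x) (f 1 y) ≤
          Λ ^ (L' + 1 + Tm) * exp (δ * (m + 1 : ℕ)) * D x y := by
        have h4 : exp (δ * m) ≤ exp (δ * (m + 1 : ℕ)) := by
          apply Real.exp_le_exp.mpr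
          apply mul_le_mul_of_nonneg_left _ hδ
          push_cast
          linarith
        calc Λ ^ (L' + Tm) * exp (δ * m) * D (f 1 x) (f 1 y)
            ≤ Λ ^ (L' + Tm) * exp (δ * m) * (Λ * D x y) :=
              mul_le_mul_of_nonneg_left hlip1 (by positivity)
          _ = (Λ ^ (L' + Tm) * Λ) * D x y * exp (δ * m) := by ring
          _ ≤ (Λ ^ (L' + Tm) * Λ) * D x y * exp (δ * (m + 1 : ℕ)) :=
              mul_le_mul_of_nonneg_left h4 (by positivity)
          _ = Λ ^ (L' + 1 + Tm) * exp (δ * (m + 1 : ℕ)) * D x y := by ring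
      have h5 := ih m (by omega) (f 1 x) (f 1 y) L' (by
        intro s hs
        have h6 := hL (insert 0 (s.map (addRightEmbedding 1))) (by
          intro j hj
          rw [Finset.mem_insert, Finset.mem_map] at hj
          rcases hj with rfl | ⟨i, hi, rfl⟩
          · rw [hf0]
            exact ⟨hn, hx⟩
          · have h7 := hs i hi
            constructor
            · simp only [addRightEmbedding_apply]
              omega
            · simp only [addRightEmbedding_apply]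
              rw [hf]
              exact h7.2)
        rw [Finset.card_insert_of_notMem (by
          rw [Finset.mem_map]
          rintro ⟨i, _, hi⟩
          simp only [addRightEmbedding_apply] at hi
          omega), Finset.card_map] at h6
        omega) (lt_of_le_of_lt h3 hr)
      rw [hf, hf]
      exact le_trans h5 h3
-- END pl6

-- BEGIN pl7
/-- (6.2), the growth estimate -/
theorem growth_of_PL (h : Mono5 V κ) (hPL : ∀ z ∈ KS κ, PL V z) {δ : ℝ} (hδ : 0 < δ) :
    ∃ C ≥ (1 : ℝ), ∃ r > (0 : ℝ), ∀ (n : ℕ) z z', C * exp (δ * n) * ‖z - z'‖ < r →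
      ‖flow V n z - flow V n z'‖ ≤ C * exp (δ * n) * ‖z - z'‖ := by
  obtain ⟨Tm, r, hr, hu⟩ := PL_uniform h hPL hδ
  obtain ⟨c, hc, hinc⟩ := h.inc_lower hr
  obtain ⟨Λ, hΛ, hlip⟩ := lip_nat h.good
  refine ⟨Λ ^ (⌊1 / (2 * c)⌋₊ + Tm), one_le_pow₀ hΛ, r, hr, fun n z z' hz => ?_⟩
  refine jump_induction (fun (n : ℕ) x => flow V n x) (fun x => ?_) (fun m n x => ?_)
    (fun x y => ‖x - y‖) (fun x y => norm_nonneg _) hΛ hδ.le hlip
    {x | ∃ z ∈ KS κ, ‖x - z‖ < r} Tm (fun x hx y hxy => ?_) n z z' _ (fun s hs => ?_) hz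
  · simp only [Nat.cast_zero]
    exact h.good.flow_zero x
  · simp only [Nat.cast_add]
    exact h.good.flow_add _ _ x
  · obtain ⟨w, hw, hxw⟩ := hx
    exact hu w hw x y hxw (by rw [norm_sub_rev]; exact hxy)
  · have h1 := h.count hc z n s (fun j hj => ⟨(hs j hj).1, ?_⟩)
    · exact Nat.le_floor h1
    · have h2 := (hs j hj).2
      simp only [mem_setOf_eq, not_exists, not_and, not_lt] at h2
      have h3 := hinc _ h2
      rwa [← h.good.flow_add, add_comm] at h3
-- END pl7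

-- BEGIN pl8
/-- (6.2) -/
theorem entropy_zero_of_PL (h : Mono5 V κ) (hPL : ∀ z ∈ KS κ, PL V z) :
    Dynamics.coverEntropy (tflow V 1) univ = 0 := by
  have hV : Good V := h.good
  refine le_antisymm ?_ (Dynamics.coverEntropy_nonneg _ univ_nonempty)
  apply coverEntropy_le_zero _ _ (mapsTo_univ _ _)
  intro ε hε δ hδ
  obtain ⟨C, hC, r, hr, hg⟩ := growth_of_PL h hPL hδ
  have hC0 : 0 < C := by linarith
  refine ⟨min (r / (2 * C)) (ε / (2 * C)), lt_min (by positivity) (by positivity), ?_⟩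
  intro n x _ y _ hxy j hj
  obtain ⟨z, rfl⟩ := cov_surjective x
  obtain ⟨z', rfl⟩ := cov_surjective y
  obtain ⟨k, hk⟩ := exists_lift_near z z'
  have hy : cov (tr k z') = cov z' := cov_tr k z'
  rw [← hy] at hxy ⊢
  set w : Fin 6 → ℝ := tr k z' with hw
  have hd : ‖z - w‖ ≤ min (r / (2 * C)) (ε / (2 * C)) * exp (-(δ * n)) := by
    rw [norm_sub_rev]
    have h0 : dist (cov z) (cov z') = dist (cov z) (cov w) := by rw [← hy]
    rw [h0] at hk
    exact hk.trans hxy
  have hjn : exp (δ * j) ≤ exp (δ * n) := by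
    apply exp_le_exp.2
    have h1 : (j : ℝ) ≤ n := by exact_mod_cast hj.le
    nlinarith
  have hone : exp (δ * n) * exp (-(δ * n)) = 1 := by
    rw [← exp_add, add_neg_cancel, exp_zero]
  have hgen : ∀ b : ℝ, 0 < b → ‖z - w‖ ≤ b / (2 * C) * exp (-(δ * n)) →
      C * exp (δ * j) * ‖z - w‖ ≤ b / 2 := by
    intro b hb hle
    calc C * exp (δ * j) * ‖z - w‖ ≤ C * exp (δ * n) * (b / (2 * C) * exp (-(δ * n))) := by
          apply mul_le_mul (mul_le_mul_of_nonneg_left hjn hC0.le) hle (norm_nonneg _)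
          positivity
      _ = b / 2 * (exp (δ * n) * exp (-(δ * n))) := by field_simp
      _ = b / 2 := by rw [hone, mul_one]
  have h1 : C * exp (δ * j) * ‖z - w‖ ≤ r / 2 :=
    hgen r hr (hd.trans (mul_le_mul_of_nonneg_right (min_le_left _ _) (exp_pos _).le))
  have h2 : C * exp (δ * j) * ‖z - w‖ ≤ ε / 2 :=
    hgen ε hε (hd.trans (mul_le_mul_of_nonneg_right (min_le_right _ _) (exp_pos _).le))
  have h3 := hg j z w (by linarith)
  rw [hV.tflow_iterate, hV.tflow_iterate, hV.tflow_cov, hV.tflow_cov]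
  calc dist (cov (flow V j z)) (cov (flow V j w)) ≤ ‖flow V j z - flow V j w‖ := dist_cov_le _ _
    _ ≤ C * exp (δ * j) * ‖z - w‖ := h3
    _ ≤ ε / 2 := h2
    _ < ε := by linarith
-- END pl8

-- BEGIN pl9
theorem pl9_aux (hV : Good V) (k : Fin 6 → ℤ) {z : Fin 6 → ℝ} (h : PL V z) : PL V (tr k z) := by
  intro δ hδ
  obtain ⟨T, hT, r, hr, hlip⟩ := h δ hδ
  refine ⟨T, hT, r, hr, fun w w' hw hw' => ?_⟩
  have e : ∀ w : Fin 6 → ℝ, w = tr k (fun i => w i - k i) := fun w => by
    funext i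
    simp [tr]
  have hn : ∀ w : Fin 6 → ℝ, ‖w - tr k z‖ < r → ‖(fun i => w i - k i) - z‖ < r := fun w hw => by
    have : (fun i => w i - k i) - z = w - tr k z := by
      funext i
      simp only [tr, Pi.sub_apply]
      ring
    rwa [this]
  have h1 := hlip _ _ (hn w hw) (hn w' hw')
  have h2 : ∀ a b : Fin 6 → ℝ, tr k a - tr k b = a - b := fun a b => by
    funext i
    simp [tr]
  rw [e w, e w', hV.flow_tr, hV.flow_tr, h2, h2]
  exact h1

/-- `PL` is invariant under integer translations -/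
theorem PL_tr (hV : Good V) (k : Fin 6 → ℤ) {z : Fin 6 → ℝ} : PL V (tr k z) ↔ PL V z := by
  refine ⟨fun h => ?_, pl9_aux hV k⟩
  have h1 := pl9_aux hV (-k) h
  have h2 : tr (-k) (tr k z) = z := by
    funext i
    simp [tr]
  rwa [h2] at h1
-- END pl9

end Pool.Agent.AnQ2
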