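import Mathlib
import Pool.Agent.AnQ2.Pl
import Pool.Agent.AnQ2.Xf

/-!
# The linearised slow field at `z_5 = 1/2` (page, (6.6))
-/

namespace Pool.Agent.AnQ2

open Set Filter Topology Real MeasureTheory
open Pool.Agent.MP_1a349f_an
open scoped ContDiff NNReal

-- BEGIN f1
/-- near an orbit segment the difference of two orbits follows the linearised equation up to
`ε` times the difference -/
theorem linearize {V : (Fin 6 → ℝ) → (Fin 6 → ℝ)} (hV : Good V) (z : Fin 6 → ℝ) {T ε : ℝ}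
    (hT : 0 ≤ T) (hε : 0 < ε) : ∃ r > (0 : ℝ), ∀ w w', ‖w - z‖ < r → ‖w' - z‖ < r →
    ∀ t ∈ Icc 0 T, ‖V (flow V t w) - V (flow V t w') -
      fderiv ℝ V (flow V t z) (flow V t w - flow V t w')‖ ≤ ε * ‖flow V t w - flow V t w'‖ := by
  obtain ⟨K, hK⟩ := hV.exists_lipschitz
  obtain ⟨L, hL⟩ := hV.per.fderiv.exists_lipschitz
    (hV.contDiff.fderiv_right (m := 1)
      (by rw [show (1 + 1 : WithTop ℕ∞) = ((2 : ℕ∞) : WithTop ℕ∞) by norm_num]; exact_mod_cast le_top))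
  -- continuity in the initial value
  have hg : ∀ u : Fin 6 → ℝ, ∀ t ∈ Icc 0 T,
      ‖flow V t u - flow V t z‖ ≤ ‖u - z‖ * exp (K * T) := by
    intro u t ht
    have h := dist_le_of_trajectories_ODE (v := fun _ => V) (K := K) (f := fun s => flow V s u)
      (g := fun s => flow V s z) (a := 0) (b := T) (δ := ‖u - z‖) (fun _ => hK)
      (fun s _ => (hV.hasDerivAt_flow u s).continuousAt.continuousWithinAt)
      (fun s _ => (hV.hasDerivAt_flow u s).hasDerivWithinAt)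
      (fun s _ => (hV.hasDerivAt_flow z s).continuousAt.continuousWithinAt)
      (fun s _ => (hV.hasDerivAt_flow z s).hasDerivWithinAt)
      (by rw [hV.flow_zero, hV.flow_zero, dist_eq_norm]) t ht
    rw [dist_eq_norm] at h
    refine h.trans ?_
    have h2 : (K : ℝ) * (t - 0) ≤ K * T := by
      rw [sub_zero]
      exact mul_le_mul_of_nonneg_left ht.2 K.2
    exact mul_le_mul_of_nonneg_left (exp_le_exp.2 h2) (norm_nonneg _)
  set M : ℝ := (L + 1) * exp (K * T) with hM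
  have hMpos : 0 < M := by positivity
  refine ⟨ε / M, by positivity, fun w w' hw hw' t ht => ?_⟩
  have key : ∀ u : Fin 6 → ℝ, ‖u - z‖ < ε / M →
      flow V t u ∈ Metric.closedBall (flow V t z) (ε / (L + 1)) := by
    intro u hu
    rw [mem_closedBall_iff_norm]
    refine (hg u t ht).trans ?_
    have h3 : ‖u - z‖ * exp (K * T) ≤ ε / M * exp (K * T) :=
      mul_le_mul_of_nonneg_right hu.le (exp_pos _).le
    refine h3.trans (le_of_eq ?_)
    rw [hM]
    have := exp_pos (K * T)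
    field_simp
  have hdiff : Differentiable ℝ V := hV.contDiff.differentiable (by simp)
  have hmv := (convex_closedBall (flow V t z) (ε / (L + 1))).norm_image_sub_le_of_norm_hasFDerivWithin_le'
    (f := V) (f' := fderiv ℝ V) (φ := fderiv ℝ V (flow V t z)) (C := ε)
    (fun x _ => (hdiff x).hasFDerivAt.hasFDerivWithinAt)
    (fun x hx => by
      have h4 := hL.dist_le_mul x (flow V t z)
      rw [dist_eq_norm] at h4
      refine h4.trans ?_
      have h5 : dist x (flow V t z) ≤ ε / (L + 1) := hx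
      have h6 : (L : ℝ) * dist x (flow V t z) ≤ L * (ε / (L + 1)) :=
        mul_le_mul_of_nonneg_left h5 L.2
      refine h6.trans ?_
      rw [mul_div_assoc', div_le_iff₀ (by positivity)]
      nlinarith [L.2])
    (key w' hw') (key w hw)
  exact hmv
-- END f1

-- BEGIN f2
private theorem f2_line {F : Type*} [NormedAddCommGroup F] [NormedSpace ℝ F]
    {V : (Fin 6 → ℝ) → F} {P : Fin 6 → ℝ} (hV : DifferentiableAt ℝ V P) (d : Fin 6 → ℝ) :
    HasDerivAt (fun s : ℝ => V (P + s • d)) (fderiv ℝ V P d) 0 := by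
  have h1 : HasDerivAt (fun s : ℝ => P + s • d) d 0 := by
    simpa using ((hasDerivAt_id (0 : ℝ)).smul_const d).const_add P
  have h2 : HasFDerivAt V (fderiv ℝ V P) (P + (0 : ℝ) • d) := by
    simpa using hV.hasFDerivAt
  exact h2.comp_hasDerivAt 0 h1

private theorem f2_sin (x y : ℝ) :
    HasDerivAt (fun s : ℝ => sin (π * (x + s * y)) ^ 2) (π * (sin (2 * π * x) * y)) 0 := by
  have h1 : HasDerivAt (fun s : ℝ => π * (x + s * y)) (π * y) 0 := by
    simpa using (((hasDerivAt_id (0 : ℝ)).mul_const y).const_add x).const_mul π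
  have h2 := h1.sin.fun_pow 2
  refine h2.congr_deriv ?_
  have h3 : 2 * π * x = 2 * (π * x) := by ring
  simp only [zero_mul, add_zero, h3, sin_two_mul]
  push_cast
  ring

theorem dVB_comp (P d : Fin 6 → ℝ) (i : Fin 6) :
    HasDerivAt (fun s : ℝ => VB (P + s • d) i) (fderiv ℝ VB P d i) 0 := by
  have h : DifferentiableAt ℝ VB P := (good_VB.contDiff.differentiable (by simp)) P
  exact (hasDerivAt_pi.1 (f2_line h d)) i

theorem dFF_line (P d : Fin 6 → ℝ) : HasDerivAt (fun s : ℝ => FF (P + s • d))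
    (π / 12 * (sin (2 * π * P 0) * d 0 + sin (2 * π * P 1) * d 1 + sin (2 * π * P 2) * d 2)) 0 := by
  have h := (((f2_sin (P 0) (d 0)).fun_add (f2_sin (P 1) (d 1))).fun_add
    (f2_sin (P 2) (d 2))).div_const 12
  have he : (fun s : ℝ => FF (P + s • d)) = fun s : ℝ => (sin (π * (P 0 + s * d 0)) ^ 2 +
      sin (π * (P 1 + s * d 1)) ^ 2 + sin (π * (P 2 + s * d 2)) ^ 2) / 12 := by
    funext s
    simp only [FF, Pi.add_apply, Pi.smul_apply, smul_eq_mul]
  rw [he]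
  exact h.congr_deriv (by ring)

/-- the derivative of `R` is bounded -/
theorem dRR_line : ∃ C ≥ (0 : ℝ), ∀ P d : Fin 6 → ℝ, ∃ D : ℝ,
    HasDerivAt (fun s : ℝ => RR ((P + s • d) 0) ((P + s • d) 1) ((P + s • d) 2)) D 0 ∧
    |D| ≤ C * (|d 0| + |d 1| + |d 2|) := by
  have hg : ContDiff ℝ 1 (fun z : Fin 6 → ℝ => RR (z 0) (z 1) (z 2)) :=
    contDiffOn_univ.1 (RR_analytic.contDiffOn uniqueDiffOn_univ)
  obtain ⟨K, hK⟩ := RR_per.exists_lipschitz hg
  refine ⟨K, K.2, fun P d => ?_⟩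
  have hd : ‖(![d 0, d 1, d 2, 0, 0, 0] : Fin 6 → ℝ)‖ ≤ |d 0| + |d 1| + |d 2| := by
    rw [pi_norm_le_iff_of_nonneg (by positivity)]
    intro i
    have h0 := abs_nonneg (d 0)
    have h1 := abs_nonneg (d 1)
    have h2 := abs_nonneg (d 2)
    fin_cases i <;> simp [Real.norm_eq_abs] <;> linarith
  refine ⟨fderiv ℝ (fun z : Fin 6 → ℝ => RR (z 0) (z 1) (z 2)) P ![d 0, d 1, d 2, 0, 0, 0],
    ?_, ?_⟩
  · have h := f2_line ((hg.differentiable (by simp)) P) (![d 0, d 1, d 2, 0, 0, 0] : Fin 6 → ℝ)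
    have he : (fun s : ℝ => RR ((P + s • d) 0) ((P + s • d) 1) ((P + s • d) 2)) = fun s : ℝ =>
        RR ((P + s • (![d 0, d 1, d 2, 0, 0, 0] : Fin 6 → ℝ)) 0)
          ((P + s • (![d 0, d 1, d 2, 0, 0, 0] : Fin 6 → ℝ)) 1)
          ((P + s • (![d 0, d 1, d 2, 0, 0, 0] : Fin 6 → ℝ)) 2) := by
      funext s
      simp
    rw [he]
    exact h
  · calc |fderiv ℝ (fun z : Fin 6 → ℝ => RR (z 0) (z 1) (z 2)) P ![d 0, d 1, d 2, 0, 0, 0]|
        ≤ ‖fderiv ℝ (fun z : Fin 6 → ℝ => RR (z 0) (z 1) (z 2)) P‖ *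
          ‖(![d 0, d 1, d 2, 0, 0, 0] : Fin 6 → ℝ)‖ := by
            rw [← Real.norm_eq_abs]
            exact ContinuousLinearMap.le_opNorm _ _
      _ ≤ K * (|d 0| + |d 1| + |d 2|) :=
          mul_le_mul (norm_fderiv_le_of_lipschitz ℝ hK) hd (norm_nonneg _) K.2
-- END f2

/-- the diagonal rate of `z_0` -/
noncomputable def al (z : Fin 6 → ℝ) : ℝ :=
  2 * FF z * (π / 12 * (sin (2 * π * z 0) + rz (z 2) * sin (2 * π * z 1)))

/-- the diagonal rate of `z_3`, before multiplication by the speed -/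
noncomputable def g3 (z : Fin 6 → ℝ) : ℝ := π * sin (2 * π * z 3) * cos (π * z 4) ^ 2

/-- the fibre velocity -/
noncomputable def fv (z : Fin 6 → ℝ) : ℝ :=
  sin (π * z 2) ^ 4 * (1 + sin (π * z 4) ^ 2) - RR (z 0) (z 1) (z 2)

/-- the part of the diagonal rate of `z_4` that is `V'(tan π z_4)` -/
noncomputable def gv (z : Fin 6 → ℝ) : ℝ :=
  sin (π * z 2) ^ 4 * (sin (2 * π * z 4) * cos (π * z 4) ^ 2)

/-- the diagonal rate of `z_4`, before multiplication by the speed -/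
noncomputable def g4 (z : Fin 6 → ℝ) : ℝ := -(sin (2 * π * z 4) * fv z) + gv z

-- BEGIN f3
private theorem f3_coord (P d : Fin 6 → ℝ) (i : Fin 6) :
    HasDerivAt (fun s : ℝ => (P + s • d) i) (d i) 0 := by
  have h : HasDerivAt (fun s : ℝ => P i + s * d i) (1 * d i) 0 :=
    ((hasDerivAt_id (0 : ℝ)).mul_const (d i)).const_add (P i)
  simpa using h

private theorem f3_zero (P d : Fin 6 → ℝ) (i : Fin 6) : (P + (0 : ℝ) • d) i = P i := by simp

/-- the components 5, 2, 0, 1 of the linearised field at `z_5 = 1/2` -/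
theorem dVB_five {P : Fin 6 → ℝ} (h : P 5 = 1 / 2) (d : Fin 6 → ℝ) : fderiv ℝ VB P d 5 = 0 := by
  have hF := dFF_line P d
  have hs : HasDerivAt (fun s : ℝ => sin (2 * π * (P + s • d) 5))
      (cos (2 * π * (P + (0 : ℝ) • d) 5) * (2 * π * d 5)) 0 :=
    ((f3_coord P d 5).const_mul (2 * π)).sin
  have h1 := (hF.fun_pow 2).mul (hs.fun_pow 2)
  have h2 := (dVB_comp P d 5).unique h1
  rw [h2, f3_zero, h, show 2 * π * (1 / 2) = π by ring, sin_pi]
  simp

theorem dVB_two {P : Fin 6 → ℝ} (h : P 5 = 1 / 2) (d : Fin 6 → ℝ) : fderiv ℝ VB P d 2 = 0 := by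
  have hF := dFF_line P d
  have hs : HasDerivAt (fun s : ℝ => cos (π * (P + s • d) 5))
      (-sin (π * (P + (0 : ℝ) • d) 5) * (π * d 5)) 0 :=
    ((f3_coord P d 5).const_mul π).cos
  have h1 := (hF.fun_pow 2).mul ((hs.fun_pow 2).mul_const √3)
  have h2 := (dVB_comp P d 2).unique h1
  rw [h2, f3_zero, h, show π * (1 / 2) = π / 2 by ring, cos_pi_div_two]
  simp

theorem dVB_zero (P d : Fin 6 → ℝ) : fderiv ℝ VB P d 0 = 2 * FF P *
    (π / 12 * (sin (2 * π * P 0) * d 0 + sin (2 * π * P 1) * d 1 + sin (2 * π * P 2) * d 2)) := by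
  have hF := dFF_line P d
  have h1 := (hF.fun_pow 2).mul_const (1 : ℝ)
  have h2 := (dVB_comp P d 0).unique h1
  rw [h2]
  simp

theorem dVB_one {P : Fin 6 → ℝ} (h : P 5 = 1 / 2) (d : Fin 6 → ℝ) :
    fderiv ℝ VB P d 1 = rz (P 2) * fderiv ℝ VB P d 0 -
      FF P ^ 2 * (π / 10 * sin (2 * π * P 2)) * d 2 := by
  have hF := dFF_line P d
  have hc : HasDerivAt (fun s : ℝ => cos (π * (P + s • d) 5))
      (-sin (π * (P + (0 : ℝ) • d) 5) * (π * d 5)) 0 :=
    ((f3_coord P d 5).const_mul π).cos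
  have hs : HasDerivAt (fun s : ℝ => sin (π * (P + s • d) 5))
      (cos (π * (P + (0 : ℝ) • d) 5) * (π * d 5)) 0 :=
    ((f3_coord P d 5).const_mul π).sin
  have hs2 : HasDerivAt (fun s : ℝ => sin (π * (P + s • d) 2))
      (cos (π * (P + (0 : ℝ) • d) 2) * (π * d 2)) 0 :=
    ((f3_coord P d 2).const_mul π).sin
  have hr : HasDerivAt (fun s : ℝ => rz ((P + s • d) 2))
      (-((2 : ℕ) * sin (π * (P + (0 : ℝ) • d) 2) ^ (2 - 1) *
        (cos (π * (P + (0 : ℝ) • d) 2) * (π * d 2)) / 10)) 0 := by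
    unfold rz
    exact ((hs2.fun_pow 2).div_const 10).const_sub rho
  have h1 := (hF.fun_pow 2).mul (((hc.fun_pow 2).mul_const √2).add ((hs.fun_pow 2).mul hr))
  have h2 := (dVB_comp P d 1).unique h1
  rw [h2, dVB_zero]
  simp only [zero_smul, Pi.add_apply, Pi.mul_apply, Pi.zero_apply, add_zero, h]
  rw [show π * (1 / 2) = π / 2 by ring, cos_pi_div_two, sin_pi_div_two,
    show 2 * π * P 2 = 2 * (π * P 2) by ring, sin_two_mul]
  simp
  ring
-- END f3

-- BEGIN f4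
theorem f4_lin (c p q : ℝ) : HasDerivAt (fun s : ℝ => c * (p + s * q)) (c * q) 0 := by
  have h := (((hasDerivAt_id (0 : ℝ)).mul_const q).const_add p).const_mul c
  simp only [one_mul, id] at h
  exact h

theorem f4_coord (P d : Fin 6 → ℝ) (s : ℝ) (i : Fin 6) : (P + s • d) i = P i + s * d i := by
  simp only [Pi.add_apply, Pi.smul_apply, smul_eq_mul]

theorem f4_sin (p q : ℝ) : HasDerivAt (fun s : ℝ => sin (π * (p + s * q)))
    (cos (π * p) * (π * q)) 0 := by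
  have h := (f4_lin π p q).sin
  simp only [zero_mul, add_zero] at h
  exact h

theorem f4_cos (p q : ℝ) : HasDerivAt (fun s : ℝ => cos (π * (p + s * q)))
    (-sin (π * p) * (π * q)) 0 := by
  have h := (f4_lin π p q).cos
  simp only [zero_mul, add_zero] at h
  exact h

theorem f4_kb (p q : ℝ) : ∃ D, HasDerivAt (fun s : ℝ => kb (p + s * q)) D 0 := by
  have h1 : HasDerivAt (fun s : ℝ => π * (p + s * q - 3 / 4)) (π * q) 0 := by
    have h := ((((hasDerivAt_id (0 : ℝ)).mul_const q).const_add p).sub_const (3 / 4 : ℝ)).const_mul π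
    simp only [one_mul, id] at h
    exact h
  exact ⟨_, (h1.cos.pow 32).const_mul kc⟩

theorem f4_fv_le (z : Fin 6 → ℝ) : |fv z| ≤ 3 := by
  unfold fv
  have h1 : sin (π * z 2) ^ 4 ≤ 1 := by
    have h := sin_sq_le_one (π * z 2)
    have h0 := sq_nonneg (sin (π * z 2))
    nlinarith
  have h2 : 0 ≤ sin (π * z 2) ^ 4 := by positivity
  have h3 := sin_sq_le_one (π * z 4)
  have h4 := sq_nonneg (sin (π * z 4))
  have h5 := abs_le.mp (RR_le (z 0) (z 1) (z 2))
  rw [abs_le]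
  constructor
  · nlinarith [h5.1, h5.2, mul_nonneg h2 (add_nonneg zero_le_one h4)]
  · nlinarith [h5.1, h5.2, mul_le_mul h1 (add_le_add_right h3 1) (add_nonneg zero_le_one h4) zero_le_one]

theorem f4_key (P d : Fin 6 → ℝ) (B C F' D : ℝ) (hC : 0 ≤ C) (hB : 10 + C ≤ B)
    (hF' : F' = π / 12 * (sin (2 * π * P 0) * d 0 + sin (2 * π * P 1) * d 1 +
      sin (2 * π * P 2) * d 2)) (hDC : |D| ≤ C * (|d 0| + |d 1| + |d 2|)) {x : ℝ}
    (hx : x = 2 * FF P * F' * (π⁻¹ * cos (π * P 4) ^ 2 * fv P) +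
      FF P ^ 2 * (π⁻¹ * cos (π * P 4) ^ 2 * (4 * sin (π * P 2) ^ 3 *
        (cos (π * P 2) * (π * d 2)) * (1 + sin (π * P 4) ^ 2) - D))) :
      |x| ≤ B * (|d 0| + |d 1| + |d 2|) := by
  have hpi := pi_pos
  obtain ⟨S, hS⟩ : ∃ S, S = |d 0| + |d 1| + |d 2| := ⟨_, rfl⟩
  have hS0 := abs_nonneg (d 0)
  have hS1 := abs_nonneg (d 1)
  have hS2 := abs_nonneg (d 2)
  have hSn : 0 ≤ S := by rw [hS]; positivity
  have hd2 : |d 2| ≤ S := by rw [hS]; linarith
  have hF0 := FF_nonneg P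
  have hF1 := FF_le P
  have hFabs : |FF P| ≤ 1 / 4 := by rw [abs_of_nonneg hF0]; exact hF1
  have hF'le : |F'| ≤ π / 12 * S := by
    rw [hF', abs_mul, abs_of_pos (by positivity : (0 : ℝ) < π / 12)]
    refine mul_le_mul_of_nonneg_left ?_ (by positivity)
    have u0 : |sin (2 * π * P 0) * d 0| ≤ |d 0| := by
      rw [abs_mul]; exact mul_le_of_le_one_left hS0 (abs_sin_le_one _)
    have u1 : |sin (2 * π * P 1) * d 1| ≤ |d 1| := by
      rw [abs_mul]; exact mul_le_of_le_one_left hS1 (abs_sin_le_one _)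
    have u2 : |sin (2 * π * P 2) * d 2| ≤ |d 2| := by
      rw [abs_mul]; exact mul_le_of_le_one_left hS2 (abs_sin_le_one _)
    refine (abs_add_le _ _).trans ?_
    have u3 := abs_add_le (sin (2 * π * P 0) * d 0) (sin (2 * π * P 1) * d 1)
    rw [hS]
    linarith
  rw [← hS] at hDC ⊢
  have hc4 : |cos (π * P 4) ^ 2| ≤ 1 := by
    rw [abs_of_nonneg (sq_nonneg _)]; exact cos_sq_le_one _
  have hpinv : |π⁻¹| = π⁻¹ := abs_of_pos (inv_pos.mpr hpi)
  have hfv := f4_fv_le P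
  have t1 : |2 * FF P * F' * (π⁻¹ * cos (π * P 4) ^ 2 * fv P)| ≤
      2 * (1 / 4) * (π / 12 * S) * (π⁻¹ * 1 * 3) := by
    rw [abs_mul (2 * FF P * F'), abs_mul (2 * FF P), abs_mul 2 (FF P),
      abs_mul (π⁻¹ * cos (π * P 4) ^ 2), abs_mul π⁻¹, hpinv, abs_of_pos (two_pos : (0 : ℝ) < 2)]
    refine mul_le_mul (mul_le_mul (mul_le_mul_of_nonneg_left hFabs (by norm_num)) hF'le
      (abs_nonneg _) (by norm_num)) (mul_le_mul (mul_le_mul_of_nonneg_left hc4
        (inv_pos.mpr hpi).le) hfv (abs_nonneg _) (by positivity)) (by positivity) (by positivity)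
  have t1' : 2 * (1 / 4) * (π / 12 * S) * (π⁻¹ * 1 * 3) = S / 8 := by
    field_simp
    ring
  have hs3 : |sin (π * P 2) ^ 3| ≤ 1 := by
    rw [abs_pow]; exact pow_le_one₀ (abs_nonneg _) (abs_sin_le_one _)
  have hs4 : |1 + sin (π * P 4) ^ 2| ≤ 2 := by
    rw [abs_of_nonneg (by positivity)]
    have := sin_sq_le_one (π * P 4)
    linarith
  have t2 : |4 * sin (π * P 2) ^ 3 * (cos (π * P 2) * (π * d 2)) * (1 + sin (π * P 4) ^ 2)| ≤
      4 * 1 * (1 * (π * |d 2|)) * 2 := by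
    rw [abs_mul (4 * sin (π * P 2) ^ 3 * (cos (π * P 2) * (π * d 2))),
      abs_mul (4 * sin (π * P 2) ^ 3), abs_mul 4 (sin (π * P 2) ^ 3),
      abs_mul (cos (π * P 2)), abs_mul π, abs_of_pos (by norm_num : (0 : ℝ) < 4),
      abs_of_pos hpi]
    exact mul_le_mul (mul_le_mul (mul_le_mul_of_nonneg_left hs3 (by norm_num))
      (mul_le_mul_of_nonneg_right (abs_cos_le_one _) (by positivity)) (by positivity)
      (by norm_num)) hs4 (abs_nonneg _) (by positivity)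
  have hpd : π * |d 2| ≤ π * S := mul_le_mul_of_nonneg_left hd2 hpi.le
  have t3 : |4 * sin (π * P 2) ^ 3 * (cos (π * P 2) * (π * d 2)) * (1 + sin (π * P 4) ^ 2) - D| ≤
      8 * (π * S) + C * S := by
    refine (abs_sub _ _).trans ?_
    linarith
  have hFsq : |FF P ^ 2| ≤ 1 / 16 := by
    rw [abs_of_nonneg (sq_nonneg _)]
    calc FF P ^ 2 ≤ (1 / 4) ^ 2 := pow_le_pow_left₀ hF0 hF1 2
      _ = 1 / 16 := by norm_num
  have t4 : |FF P ^ 2 * (π⁻¹ * cos (π * P 4) ^ 2 * (4 * sin (π * P 2) ^ 3 *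
      (cos (π * P 2) * (π * d 2)) * (1 + sin (π * P 4) ^ 2) - D))| ≤
      1 / 16 * (π⁻¹ * 1 * (8 * (π * S) + C * S)) := by
    rw [abs_mul (FF P ^ 2), abs_mul (π⁻¹ * cos (π * P 4) ^ 2), abs_mul π⁻¹, hpinv]
    exact mul_le_mul hFsq (mul_le_mul (mul_le_mul_of_nonneg_left hc4 (inv_pos.mpr hpi).le) t3
      (abs_nonneg _) (by positivity)) (by positivity) (by norm_num)
  have t4' : 1 / 16 * (π⁻¹ * 1 * (8 * (π * S) + C * S)) = S / 2 + π⁻¹ * (C * S) / 16 := by
    field_simp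
    ring
  have hpi1 : π⁻¹ ≤ 1 := inv_le_one_of_one_le₀ (by linarith [pi_gt_three])
  have hCS : 0 ≤ C * S := mul_nonneg hC hSn
  have t5 : π⁻¹ * (C * S) ≤ 1 * (C * S) := mul_le_mul_of_nonneg_right hpi1 hCS
  have hBS : (10 + C) * S ≤ B * S := mul_le_mul_of_nonneg_right hB hSn
  have e1 : (10 + C) * S = 10 * S + C * S := by ring
  rw [hx]
  refine (abs_add_le _ _).trans ?_
  rw [t1'] at t1
  rw [t4'] at t4
  linarith

/-- the component 4 -/
theorem dVB_four : ∃ b ≥ (0 : ℝ), ∀ P d : Fin 6 → ℝ, P 5 = 1 / 2 →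
    |fderiv ℝ VB P d 4 - FF P ^ 2 * g4 P * d 4| ≤ b * (|d 0| + |d 1| + |d 2|) := by
  obtain ⟨C, hC, hR⟩ := dRR_line
  refine ⟨10 + C, by positivity, fun P d hP => ?_⟩
  obtain ⟨D, hD, hDC⟩ := hR P d
  obtain ⟨E, hE⟩ := f4_kb (P 0) (d 0)
  obtain ⟨F', hF'⟩ : ∃ F' : ℝ, F' = π / 12 * (sin (2 * π * P 0) * d 0 + sin (2 * π * P 1) * d 1 +
    sin (2 * π * P 2) * d 2) := ⟨_, rfl⟩
  have hc5 : cos (π * P 5) = 0 := by
    rw [hP, mul_one_div]
    exact cos_pi_div_two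
  have hs5 : sin (π * P 5) = 1 := by
    rw [hP, mul_one_div]
    exact sin_pi_div_two
  have hfun : (fun s : ℝ => VB (P + s • d) 4) = fun s : ℝ => FF (P + s • d) ^ 2 *
      (cos (π * (P 5 + s * d 5)) ^ 2 * (6 * kb (P 0 + s * d 0) * sin (π * (P 3 + s * d 3)) ^ 2) +
      sin (π * (P 5 + s * d 5)) ^ 2 * (π⁻¹ * cos (π * (P 4 + s * d 4)) ^ 2 *
        (sin (π * (P 2 + s * d 2)) ^ 4 * (1 + sin (π * (P 4 + s * d 4)) ^ 2) -
          RR ((P + s • d) 0) ((P + s • d) 1) ((P + s • d) 2)))) := by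
    funext s
    simp only [← f4_coord]
    rfl
  have h1 := dVB_comp P d 4
  rw [hfun] at h1
  have hA := ((f4_cos (P 5) (d 5)).fun_pow 2).fun_mul
    ((hE.const_mul 6).fun_mul ((f4_sin (P 3) (d 3)).fun_pow 2))
  have hB := ((f4_sin (P 5) (d 5)).fun_pow 2).fun_mul
    ((((f4_cos (P 4) (d 4)).fun_pow 2).const_mul π⁻¹).fun_mul
      ((((f4_sin (P 2) (d 2)).fun_pow 4).fun_mul
        (((f4_sin (P 4) (d 4)).fun_pow 2).const_add 1)).fun_sub hD))
  have h2 := ((dFF_line P d).fun_pow 2).fun_mul (hA.fun_add hB)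
  have h3 := h1.unique h2
  simp only [zero_smul, add_zero, zero_mul, hc5, hs5, ← hF'] at h3
  rw [h3]
  have hpi := pi_pos
  have hpi0 : (π : ℝ) ≠ 0 := pi_ne_zero
  have hsin2 : sin (2 * π * P 4) = 2 * sin (π * P 4) * cos (π * P 4) := by
    rw [← sin_two_mul]; ring_nf
  apply f4_key P d (10 + C) C F' D hC le_rfl hF' hDC
  simp only [g4, gv, fv, hsin2]
  field_simp
  ring
-- END f4

-- BEGIN f5
private theorem f5_coord (P d : Fin 6 → ℝ) (i : Fin 6) :
    HasDerivAt (fun s : ℝ => π * (P + s • d) i) (π * d i) 0 := by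
  have h : HasDerivAt (fun s : ℝ => P i + s * d i) (1 * d i) 0 :=
    ((hasDerivAt_id (0 : ℝ)).mul_const (d i)).const_add (P i)
  have h2 := h.const_mul π
  rw [one_mul] at h2
  exact h2

private theorem f5_sin (P d : Fin 6 → ℝ) (i : Fin 6) :
    HasDerivAt (fun s : ℝ => sin (π * (P + s • d) i) ^ 2)
      (π * sin (2 * π * P i) * d i) 0 := by
  have h := ((f5_coord P d i).sin).pow 2
  refine h.congr_deriv ?_
  have e : (P + (0 : ℝ) • d) i = P i := by simp
  rw [e]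
  have e2 : 2 * π * P i = 2 * (π * P i) := by ring
  rw [e2, Real.sin_two_mul]
  norm_num
  ring

private theorem f5_cos (P d : Fin 6 → ℝ) (i : Fin 6) :
    HasDerivAt (fun s : ℝ => cos (π * (P + s • d) i) ^ 2)
      (-(π * sin (2 * π * P i) * d i)) 0 := by
  have h := ((f5_coord P d i).cos).pow 2
  refine h.congr_deriv ?_
  have e : (P + (0 : ℝ) • d) i = P i := by simp
  rw [e]
  have e2 : 2 * π * P i = 2 * (π * P i) := by ring
  rw [e2, Real.sin_two_mul]
  norm_num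
  ring

private theorem f5_line {P : Fin 6 → ℝ} (h : P 5 = 1 / 2) (d : Fin 6 → ℝ) :
    fderiv ℝ VB P d 3 = (2 * FF P * (π / 12 * (sin (2 * π * P 0) * d 0 +
      sin (2 * π * P 1) * d 1 + sin (2 * π * P 2) * d 2))) *
      (sin (π * P 3) ^ 2 * cos (π * P 4) ^ 2) +
      FF P ^ 2 * ((π * sin (2 * π * P 3) * d 3) * cos (π * P 4) ^ 2 +
        sin (π * P 3) ^ 2 * (-(π * sin (2 * π * P 4) * d 4))) := by
  have h1 := dVB_comp P d 3
  have hF := (dFF_line P d).pow 2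
  have hG : DifferentiableAt ℝ (fun s : ℝ => 6 * ka ((P + s • d) 0) *
      sin (π * (P + s • d) 4) ^ 2) 0 := by
    have e0 : (fun s : ℝ => 6 * ka ((P + s • d) 0) * sin (π * (P + s • d) 4) ^ 2) =
        fun s : ℝ => 6 * (kc * cos (π * ((P 0 + s * d 0) - 1 / 4)) ^ 32) *
          sin (π * (P 4 + s * d 4)) ^ 2 := rfl
    rw [e0]
    fun_prop
  have h2 := hF.mul ((((f5_cos P d 5).mul hG.hasDerivAt)).add
    ((f5_sin P d 5).mul ((f5_sin P d 3).mul (f5_cos P d 4))))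
  have h3 : HasDerivAt (fun s : ℝ => VB (P + s • d) 3) _ 0 := h2
  have h4 := h1.unique h3
  rw [h4]
  have s1 : sin (2 * π * P 5) = 0 := by
    rw [h]
    have : 2 * π * (1 / 2) = π := by ring
    rw [this, Real.sin_pi]
  have c1 : cos (π * P 5) = 0 := by
    rw [h]
    have : π * (1 / 2) = π / 2 := by ring
    rw [this, Real.cos_pi_div_two]
  have s2 : sin (π * P 5) = 1 := by
    rw [h]
    have : π * (1 / 2) = π / 2 := by ring
    rw [this, Real.sin_pi_div_two]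
  simp only [Pi.add_apply, Pi.mul_apply, Pi.pow_apply, Pi.zero_apply, zero_smul, add_zero,
    s1, c1, s2]
  push_cast
  ring

/-- the component 3 -/
theorem dVB_three : ∃ b ≥ (0 : ℝ), ∀ P d : Fin 6 → ℝ, P 5 = 1 / 2 →
    |fderiv ℝ VB P d 3 - FF P ^ 2 * g3 P * d 3| ≤ b * (|d 0| + |d 1| + |d 2| + |d 4|) := by
  refine ⟨π, Real.pi_pos.le, fun P d h => ?_⟩
  rw [f5_line h d]
  have e : (2 * FF P * (π / 12 * (sin (2 * π * P 0) * d 0 +
      sin (2 * π * P 1) * d 1 + sin (2 * π * P 2) * d 2))) *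
      (sin (π * P 3) ^ 2 * cos (π * P 4) ^ 2) +
      FF P ^ 2 * ((π * sin (2 * π * P 3) * d 3) * cos (π * P 4) ^ 2 +
        sin (π * P 3) ^ 2 * (-(π * sin (2 * π * P 4) * d 4))) - FF P ^ 2 * g3 P * d 3 =
      π * ((FF P / 6 * (sin (π * P 3) ^ 2 * cos (π * P 4) ^ 2)) * (sin (2 * π * P 0) * d 0) +
        (FF P / 6 * (sin (π * P 3) ^ 2 * cos (π * P 4) ^ 2)) * (sin (2 * π * P 1) * d 1) +
        (FF P / 6 * (sin (π * P 3) ^ 2 * cos (π * P 4) ^ 2)) * (sin (2 * π * P 2) * d 2) -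
        (FF P ^ 2 * sin (π * P 3) ^ 2) * (sin (2 * π * P 4) * d 4)) := by
    rw [g3]
    ring
  rw [e, abs_mul, abs_of_pos Real.pi_pos]
  refine mul_le_mul_of_nonneg_left ?_ Real.pi_pos.le
  have hF0 := FF_nonneg P
  have hF1 := FF_le P
  have k1 : 0 ≤ sin (π * P 3) ^ 2 := sq_nonneg _
  have k2 : sin (π * P 3) ^ 2 ≤ 1 := sin_sq_le_one _
  have k3 : 0 ≤ cos (π * P 4) ^ 2 := sq_nonneg _
  have k4 : cos (π * P 4) ^ 2 ≤ 1 := cos_sq_le_one _
  have k5 : sin (π * P 3) ^ 2 * cos (π * P 4) ^ 2 ≤ 1 := mul_le_one₀ k2 k3 k4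
  have k6 : 0 ≤ sin (π * P 3) ^ 2 * cos (π * P 4) ^ 2 := mul_nonneg k1 k3
  have A : |FF P / 6 * (sin (π * P 3) ^ 2 * cos (π * P 4) ^ 2)| ≤ 1 := by
    rw [abs_of_nonneg (by positivity)]
    exact mul_le_one₀ (by linarith) k6 k5
  have B : |FF P ^ 2 * sin (π * P 3) ^ 2| ≤ 1 := by
    rw [abs_of_nonneg (by positivity)]
    exact mul_le_one₀ (by nlinarith) k1 k2
  have key : ∀ (a x y : ℝ), |a| ≤ 1 → |a * (sin x * y)| ≤ |y| := by
    intro a x y ha
    rw [abs_mul, abs_mul]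
    have h1 := Real.abs_sin_le_one x
    have h2 : |sin x| * |y| ≤ |y| := by nlinarith [abs_nonneg y]
    have h3 : 0 ≤ |sin x| * |y| := by positivity
    nlinarith [abs_nonneg a]
  have t0 := key _ (2 * π * P 0) (d 0) A
  have t1 := key _ (2 * π * P 1) (d 1) A
  have t2 := key _ (2 * π * P 2) (d 2) A
  have t4 := key _ (2 * π * P 4) (d 4) B
  rw [abs_le] at *
  constructor <;> linarith [t0.1, t0.2, t1.1, t1.2, t2.1, t2.2, t4.1, t4.2]
-- END f5

/-- the triangular coordinates of a difference, `r` is the slope of the base line -/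
def ec (r : ℝ) (d : Fin 6 → ℝ) : Fin 6 → ℝ := ![d 5, d 2, d 1 - r * d 0, d 0, d 4, d 3]

/-- the diagonal rates in the triangular coordinates -/
noncomputable def dg (z : Fin 6 → ℝ) : Fin 6 → ℝ :=
  ![0, 0, 0, al z, FF z ^ 2 * g4 z, FF z ^ 2 * g3 z]

-- BEGIN f6
theorem norm_ec_le {r : ℝ} (hr : |r| ≤ 1) (d : Fin 6 → ℝ) : ‖ec r d‖ ≤ 2 * ‖d‖ := by
  have hd : ∀ i, |d i| ≤ ‖d‖ := fun i => by simpa using norm_le_pi_norm d i
  have h0 := norm_nonneg d
  rw [pi_norm_le_iff_of_nonneg (by positivity)]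
  have h1 : |d 1 - r * d 0| ≤ 2 * ‖d‖ := by
    calc |d 1 - r * d 0| ≤ |d 1| + |r * d 0| := abs_sub _ _
      _ = |d 1| + |r| * |d 0| := by rw [abs_mul]
      _ ≤ ‖d‖ + 1 * ‖d‖ := add_le_add (hd 1) (mul_le_mul hr (hd 0) (abs_nonneg _) zero_le_one)
      _ = 2 * ‖d‖ := by ring
  have hj : ∀ j, |d j| ≤ 2 * ‖d‖ := fun j => (hd j).trans (by linarith)
  intro i
  rw [Real.norm_eq_abs]
  fin_cases i
  · exact hj 5
  · exact hj 2
  · exact h1
  · exact hj 0
  · exact hj 4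
  · exact hj 3

theorem norm_le_ec {r : ℝ} (hr : |r| ≤ 1) (d : Fin 6 → ℝ) : ‖d‖ ≤ 2 * ‖ec r d‖ := by
  have he : ∀ i, |ec r d i| ≤ ‖ec r d‖ := fun i => by simpa using norm_le_pi_norm (ec r d) i
  have h0 := norm_nonneg (ec r d)
  rw [pi_norm_le_iff_of_nonneg (by positivity)]
  have e5 : |d 5| ≤ ‖ec r d‖ := he 0
  have e2 : |d 2| ≤ ‖ec r d‖ := he 1
  have e1 : |d 1 - r * d 0| ≤ ‖ec r d‖ := he 2
  have e0 : |d 0| ≤ ‖ec r d‖ := he 3
  have e4 : |d 4| ≤ ‖ec r d‖ := he 4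
  have e3 : |d 3| ≤ ‖ec r d‖ := he 5
  have h1 : |d 1| ≤ 2 * ‖ec r d‖ := by
    calc |d 1| = |(d 1 - r * d 0) + r * d 0| := by rw [sub_add_cancel]
      _ ≤ |d 1 - r * d 0| + |r * d 0| := abs_add_le _ _
      _ = |d 1 - r * d 0| + |r| * |d 0| := by rw [abs_mul]
      _ ≤ ‖ec r d‖ + 1 * ‖ec r d‖ :=
        add_le_add e1 (mul_le_mul hr e0 (abs_nonneg _) zero_le_one)
      _ = 2 * ‖ec r d‖ := by ring
  intro i
  rw [Real.norm_eq_abs]
  fin_cases i
  · exact e0.trans (by linarith)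
  · exact h1
  · exact e2.trans (by linarith)
  · exact e3.trans (by linarith)
  · exact e4.trans (by linarith)
  · exact e5.trans (by linarith)

theorem abs_rz_le (s : ℝ) : |rz s| ≤ 1 := by
  have h0 := rho_sub_rn 0
  have h1 := sin_sq_le_one (π * s)
  have h2 := sq_nonneg (sin (π * s))
  have h3 : rn 0 = tt 0 := by simp [rn]
  have h4 := tt_pos 0
  have h5 := tt_pos 1
  have h6 : tt 1 ≤ tt 0 / 10 := tt_succ_le 0
  have h7 : tt 0 ≤ 1 / 10 := by
    rw [tt_eq]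
    have := qq_pos 0
    have h8 : (10 : ℝ) ≤ qq 0 := by exact_mod_cast this
    exact one_div_le_one_div_of_le (by norm_num) h8
  rw [h3] at h0
  simp only [zero_add] at h0
  rw [rz, abs_le]
  constructor <;> linarith [h0.1, h0.2]
-- END f6

-- BEGIN f7
/-- the linearised equation in triangular coordinates -/
theorem ec_rows : ∃ b ≥ (0 : ℝ), ∀ (P : Fin 6 → ℝ), P 5 = 1 / 2 → ∀ (ε : ℝ), 0 ≤ ε →
    ∀ d D : Fin 6 → ℝ, ‖D - fderiv ℝ VB P d‖ ≤ ε * ‖d‖ → ∀ i : Fin 6,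
    |ec (rz (P 2)) D i - dg P i * ec (rz (P 2)) d i| ≤
      b * ∑ j ∈ Finset.Iio i, |ec (rz (P 2)) d j| + 4 * ε * ‖ec (rz (P 2)) d‖ := by
  obtain ⟨b4, hb4, h4⟩ := dVB_four
  obtain ⟨b3, hb3, h3⟩ := dVB_three
  refine ⟨2 * b4 + 2 * b3 + 1, by positivity, fun P hP ε hε d D hD i => ?_⟩
  have hr := abs_rz_le (P 2)
  have hN := norm_le_ec hr d
  set r := rz (P 2) with hrdef
  set N := ‖ec r d‖ with hNdef
  have hN0 : 0 ≤ N := norm_nonneg _
  have hεN : 0 ≤ ε * N := mul_nonneg hε hN0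
  have hcomp : ∀ j : Fin 6, |D j - fderiv ℝ VB P d j| ≤ 2 * (ε * N) := by
    intro j
    have h1 : |D j - fderiv ℝ VB P d j| ≤ ‖D - fderiv ℝ VB P d‖ := by
      rw [← Real.norm_eq_abs]
      exact norm_le_pi_norm (D - fderiv ℝ VB P d) j
    have h2 : ε * ‖d‖ ≤ ε * (2 * N) := mul_le_mul_of_nonneg_left hN hε
    linarith
  have hd1 : |d 1| ≤ |d 1 - r * d 0| + |d 0| := by
    have h1 : d 1 = (d 1 - r * d 0) + r * d 0 := by ring
    have h2 : |d 1| ≤ |d 1 - r * d 0| + |r * d 0| := by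
      conv_lhs => rw [h1]
      exact abs_add_le _ _
    have h5 : |r * d 0| ≤ |d 0| := by
      rw [abs_mul]
      exact mul_le_of_le_one_left (abs_nonneg _) hr
    linarith
  have hF0 : 0 ≤ FF P := FF_nonneg P
  have hF1 : FF P ≤ 1 / 4 := FF_le P
  have hF2 : FF P ^ 2 ≤ 1 / 16 := by nlinarith
  have hpi := pi_le_four
  have hpi0 := pi_pos
  have I0 : Finset.Iio (0 : Fin 6) = ∅ := by decide
  have I1 : Finset.Iio (1 : Fin 6) = {0} := by decide
  have I2 : Finset.Iio (2 : Fin 6) = {0, 1} := by decide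
  have I3 : Finset.Iio (3 : Fin 6) = {0, 1, 2} := by decide
  have I4 : Finset.Iio (4 : Fin 6) = {0, 1, 2, 3} := by decide
  have I5 : Finset.Iio (5 : Fin 6) = {0, 1, 2, 3, 4} := by decide
  have e0 : ec r d 0 = d 5 := rfl
  have e1 : ec r d 1 = d 2 := rfl
  have e2 : ec r d 2 = d 1 - r * d 0 := rfl
  have e3 : ec r d 3 = d 0 := rfl
  have e4 : ec r d 4 = d 4 := rfl
  have a0 := abs_nonneg (d 5)
  have a1 := abs_nonneg (d 2)
  have a2 := abs_nonneg (d 1 - r * d 0)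
  have a3 := abs_nonneg (d 0)
  have a4 := abs_nonneg (d 4)
  fin_cases i
  · have h5 := hcomp 5
    rw [dVB_five hP] at h5
    change |D 5 - 0 * d 5| ≤ _ * ∑ j ∈ Finset.Iio (0 : Fin 6), |ec r d j| + 4 * ε * N
    rw [I0, Finset.sum_empty, zero_mul]
    linarith
  · have h5 := hcomp 2
    rw [dVB_two hP] at h5
    change |D 2 - 0 * d 2| ≤ _ * ∑ j ∈ Finset.Iio (1 : Fin 6), |ec r d j| + 4 * ε * N
    rw [I1, Finset.sum_singleton, zero_mul, e0]
    have : 0 ≤ (2 * b4 + 2 * b3 + 1) * |d 5| := by positivity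
    linarith
  · have h0 := hcomp 0
    have h1 := hcomp 1
    change |D 1 - r * D 0 - 0 * (d 1 - r * d 0)| ≤
      _ * ∑ j ∈ Finset.Iio (2 : Fin 6), |ec r d j| + 4 * ε * N
    rw [I2, Finset.sum_pair (by decide), zero_mul, sub_zero, e0, e1]
    have h2 := dVB_one hP d
    rw [← hrdef] at h2
    have h6 : D 1 - r * D 0 = (D 1 - fderiv ℝ VB P d 1) - r * (D 0 - fderiv ℝ VB P d 0) -
        FF P ^ 2 * (π / 10 * sin (2 * π * P 2)) * d 2 := by
      rw [h2]; ring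
    rw [h6]
    have h7 : |r * (D 0 - fderiv ℝ VB P d 0)| ≤ 2 * (ε * N) := by
      rw [abs_mul]
      exact (mul_le_of_le_one_left (abs_nonneg _) hr).trans h0
    have h8 : |FF P ^ 2 * (π / 10 * sin (2 * π * P 2)) * d 2| ≤ |d 2| := by
      rw [abs_mul]
      refine mul_le_of_le_one_left a1 ?_
      rw [abs_mul, abs_mul, abs_of_nonneg (sq_nonneg (FF P)), abs_of_pos (show 0 < π / 10 by
        positivity)]
      have h9 := abs_sin_le_one (2 * π * P 2)
      have h10 : π / 10 * |sin (2 * π * P 2)| ≤ 1 := by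
        have : π / 10 * |sin (2 * π * P 2)| ≤ π / 10 * 1 :=
          mul_le_mul_of_nonneg_left h9 (by positivity)
        linarith
      have h11 : 0 ≤ π / 10 * |sin (2 * π * P 2)| := by positivity
      exact mul_le_one₀ (by linarith) h11 h10
    have h12 := abs_sub (D 1 - fderiv ℝ VB P d 1 - r * (D 0 - fderiv ℝ VB P d 0))
      (FF P ^ 2 * (π / 10 * sin (2 * π * P 2)) * d 2)
    have h13 := abs_sub (D 1 - fderiv ℝ VB P d 1) (r * (D 0 - fderiv ℝ VB P d 0))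
    have h14 : |d 2| ≤ (2 * b4 + 2 * b3 + 1) * (|d 5| + |d 2|) :=
      (show |d 2| ≤ 1 * (|d 5| + |d 2|) by linarith).trans
        (mul_le_mul_of_nonneg_right (by linarith) (by positivity))
    linarith
  · have h0 := hcomp 0
    change |D 0 - al P * d 0| ≤ _ * ∑ j ∈ Finset.Iio (3 : Fin 6), |ec r d j| + 4 * ε * N
    rw [I3, Finset.sum_insert (by decide), Finset.sum_pair (by decide), e0, e1, e2]
    have h2 := dVB_zero P d
    have h6 : D 0 - al P * d 0 = (D 0 - fderiv ℝ VB P d 0) + 2 * FF P * (π / 12) *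
        (sin (2 * π * P 1) * (d 1 - r * d 0)) + 2 * FF P * (π / 12) *
        (sin (2 * π * P 2) * d 2) := by
      rw [h2, al, ← hrdef]; ring
    rw [h6]
    have hk : 0 ≤ 2 * FF P * (π / 12) := by positivity
    have hk1 : 2 * FF P * (π / 12) ≤ 1 :=
      mul_le_one₀ (by linarith) (by positivity) (by linarith)
    have h7 : |2 * FF P * (π / 12) * (sin (2 * π * P 1) * (d 1 - r * d 0))| ≤
        |d 1 - r * d 0| := by
      rw [abs_mul, abs_of_nonneg hk, abs_mul]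
      have h9 := abs_sin_le_one (2 * π * P 1)
      have h10 : |sin (2 * π * P 1)| * |d 1 - r * d 0| ≤ |d 1 - r * d 0| :=
        mul_le_of_le_one_left a2 h9
      have h11 : 0 ≤ |sin (2 * π * P 1)| * |d 1 - r * d 0| := by positivity
      exact (mul_le_of_le_one_left h11 hk1).trans h10
    have h8 : |2 * FF P * (π / 12) * (sin (2 * π * P 2) * d 2)| ≤ |d 2| := by
      rw [abs_mul, abs_of_nonneg hk, abs_mul]
      have h9 := abs_sin_le_one (2 * π * P 2)
      have h10 : |sin (2 * π * P 2)| * |d 2| ≤ |d 2| := mul_le_of_le_one_left a1 h9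
      have h11 : 0 ≤ |sin (2 * π * P 2)| * |d 2| := by positivity
      exact (mul_le_of_le_one_left h11 hk1).trans h10
    have h12 := abs_add_le (D 0 - fderiv ℝ VB P d 0 + 2 * FF P * (π / 12) *
      (sin (2 * π * P 1) * (d 1 - r * d 0))) (2 * FF P * (π / 12) * (sin (2 * π * P 2) * d 2))
    have h13 := abs_add_le (D 0 - fderiv ℝ VB P d 0) (2 * FF P * (π / 12) *
      (sin (2 * π * P 1) * (d 1 - r * d 0)))
    have h14 : |d 1 - r * d 0| + |d 2| ≤
        (2 * b4 + 2 * b3 + 1) * (|d 5| + (|d 2| + |d 1 - r * d 0|)) :=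
      (show _ ≤ 1 * (|d 5| + (|d 2| + |d 1 - r * d 0|)) by linarith).trans
        (mul_le_mul_of_nonneg_right (by linarith) (by positivity))
    linarith
  · have h0 := hcomp 4
    change |D 4 - FF P ^ 2 * g4 P * d 4| ≤
      _ * ∑ j ∈ Finset.Iio (4 : Fin 6), |ec r d j| + 4 * ε * N
    rw [I4, Finset.sum_insert (by decide), Finset.sum_insert (by decide),
      Finset.sum_pair (by decide), e0, e1, e2, e3]
    have h2 := h4 P d hP
    have h6 : D 4 - FF P ^ 2 * g4 P * d 4 = (D 4 - fderiv ℝ VB P d 4) +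
        (fderiv ℝ VB P d 4 - FF P ^ 2 * g4 P * d 4) := by ring
    rw [h6]
    have h12 := abs_add_le (D 4 - fderiv ℝ VB P d 4) (fderiv ℝ VB P d 4 - FF P ^ 2 * g4 P * d 4)
    have h14 : b4 * (|d 0| + |d 1| + |d 2|) ≤
        (2 * b4 + 2 * b3 + 1) * (|d 5| + (|d 2| + (|d 1 - r * d 0| + |d 0|))) := by
      have h15 : |d 0| + |d 1| + |d 2| ≤ 2 * (|d 5| + (|d 2| + (|d 1 - r * d 0| + |d 0|))) := by
        linarith
      have h16 : 0 ≤ |d 5| + (|d 2| + (|d 1 - r * d 0| + |d 0|)) := by positivity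
      calc b4 * (|d 0| + |d 1| + |d 2|)
          ≤ b4 * (2 * (|d 5| + (|d 2| + (|d 1 - r * d 0| + |d 0|)))) :=
            mul_le_mul_of_nonneg_left h15 hb4
        _ = 2 * b4 * (|d 5| + (|d 2| + (|d 1 - r * d 0| + |d 0|))) := by ring
        _ ≤ _ := mul_le_mul_of_nonneg_right (by linarith) h16
    linarith
  · have h0 := hcomp 3
    change |D 3 - FF P ^ 2 * g3 P * d 3| ≤
      _ * ∑ j ∈ Finset.Iio (5 : Fin 6), |ec r d j| + 4 * ε * N
    rw [I5, Finset.sum_insert (by decide), Finset.sum_insert (by decide),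
      Finset.sum_insert (by decide), Finset.sum_pair (by decide), e0, e1, e2, e3, e4]
    have h2 := h3 P d hP
    have h6 : D 3 - FF P ^ 2 * g3 P * d 3 = (D 3 - fderiv ℝ VB P d 3) +
        (fderiv ℝ VB P d 3 - FF P ^ 2 * g3 P * d 3) := by ring
    rw [h6]
    have h12 := abs_add_le (D 3 - fderiv ℝ VB P d 3) (fderiv ℝ VB P d 3 - FF P ^ 2 * g3 P * d 3)
    have h14 : b3 * (|d 0| + |d 1| + |d 2| + |d 4|) ≤
        (2 * b4 + 2 * b3 + 1) * (|d 5| + (|d 2| + (|d 1 - r * d 0| + (|d 0| + |d 4|)))) := by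
      have h15 : |d 0| + |d 1| + |d 2| + |d 4| ≤
          2 * (|d 5| + (|d 2| + (|d 1 - r * d 0| + (|d 0| + |d 4|)))) := by
        linarith
      have h16 : 0 ≤ |d 5| + (|d 2| + (|d 1 - r * d 0| + (|d 0| + |d 4|))) := by positivity
      calc b3 * (|d 0| + |d 1| + |d 2| + |d 4|)
          ≤ b3 * (2 * (|d 5| + (|d 2| + (|d 1 - r * d 0| + (|d 0| + |d 4|))))) :=
            mul_le_mul_of_nonneg_left h15 hb3
        _ = 2 * b3 * (|d 5| + (|d 2| + (|d 1 - r * d 0| + (|d 0| + |d 4|)))) := by ring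
        _ ≤ _ := mul_le_mul_of_nonneg_right (by linarith) h16
    linarith
-- END f7

end Pool.Agent.AnQ2
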