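import Mathlib

open Set

namespace Pool.Agent.AnQ2

/-- One scalar component with integrating factor `m`. -/
theorem tri_scalar {T E be : ℝ} (hE : 1 ≤ E) (hbe : 0 ≤ be)
    (x x' m m' : ℝ → ℝ)
    (hx : ∀ t ∈ Icc 0 T, HasDerivAt x (x' t) t)
    (hm : ∀ t ∈ Icc 0 T, HasDerivAt m (m' t) t)
    (hpos : ∀ t ∈ Icc 0 T, 0 < m t)
    (hme : ∀ s t, 0 ≤ s → s ≤ t → t ≤ T → m t ≤ E * m s)
    (hbd : ∀ t ∈ Icc 0 T, |x' t - m' t / m t * x t| ≤ be)
    {t : ℝ} (ht : t ∈ Icc 0 T) : |x t| ≤ E * |x 0| + E * be * t := by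
  have hEp : 0 < E := lt_of_lt_of_le one_pos hE
  have h0 : (0:ℝ) ∈ Icc 0 T := ⟨le_rfl, ht.1.trans ht.2⟩
  have hsub : ∀ s ∈ Icc 0 t, s ∈ Icc 0 T := fun s hs => ⟨hs.1, hs.2.trans ht.2⟩
  have hmt : 0 < m t := hpos t ht
  have hm0 : 0 < m 0 := hpos 0 h0
  have key : ‖x t / m t - x 0 / m 0‖ ≤ (be * E / m t) * ‖t - 0‖ := by
    apply (convex_Icc (0:ℝ) t).norm_image_sub_le_of_norm_hasDerivWithin_le
      (f := fun s => x s / m s)
      (f' := fun s => (x' s * m s - x s * m' s) / (m s) ^ 2)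
    · intro s hs
      exact ((hx s (hsub s hs)).div (hm s (hsub s hs)) (hpos s (hsub s hs)).ne').hasDerivWithinAt
    · intro s hs
      have hms : 0 < m s := hpos s (hsub s hs)
      have e1 : (x' s * m s - x s * m' s) / (m s) ^ 2
          = (x' s - m' s / m s * x s) / m s := by
        field_simp
      rw [Real.norm_eq_abs, e1, abs_div, abs_of_pos hms, div_le_div_iff₀ hms hmt]
      have h1 := hbd s (hsub s hs)
      have h2 := hme s t hs.1 hs.2 ht.2
      calc |x' s - m' s / m s * x s| * m t ≤ be * (E * m s) :=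
            mul_le_mul h1 h2 hmt.le hbe
        _ = be * E * m s := by ring
    · exact ⟨le_rfl, ht.1⟩
    · exact ⟨ht.1, le_rfl⟩
  rw [sub_zero, Real.norm_eq_abs, Real.norm_eq_abs, abs_of_nonneg ht.1] at key
  have h3 : |x t / m t| ≤ |x 0 / m 0| + be * E / m t * t := by
    have := abs_sub_abs_le_abs_sub (x t / m t) (x 0 / m 0)
    linarith
  rw [abs_div, abs_div, abs_of_pos hmt, abs_of_pos hm0] at h3
  have h4 : |x t| = |x t| / m t * m t := by field_simp
  have h5 : |x t| / m t * m t ≤ (|x 0| / m 0 + be * E / m t * t) * m t :=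
    mul_le_mul_of_nonneg_right h3 hmt.le
  have h6 : (|x 0| / m 0 + be * E / m t * t) * m t = |x 0| * (m t / m 0) + E * be * t := by
    field_simp
  have h7 : m t / m 0 ≤ E := by
    rw [div_le_iff₀ hm0]
    exact hme 0 t le_rfl ht.1 ht.2
  have h8 : |x 0| * (m t / m 0) ≤ |x 0| * E := mul_le_mul_of_nonneg_left h7 (abs_nonneg _)
  linarith [h4, h5, h6, h8, mul_comm (|x 0|) E]

theorem tri_geom {r : ℝ} (hr : 2 ≤ r) (i : ℕ) :
    ∑ j ∈ Finset.range i, r ^ (j + 1) ≤ 2 * r ^ i := by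
  induction i with
  | zero => simp
  | succ i ih =>
    rw [Finset.sum_range_succ]
    have h1 : 0 ≤ r ^ i := pow_nonneg (by linarith) i
    have h2 : r ^ (i + 1) = r ^ i * r := pow_succ r i
    nlinarith

theorem tri_geom' {n : ℕ} {r : ℝ} (hr : 2 ≤ r) (i : Fin n) :
    ∑ j ∈ Finset.Iio i, r ^ ((j : ℕ) + 1) ≤ 2 * r ^ (i : ℕ) := by
  have h : ∑ j ∈ Finset.Iio i, r ^ ((j : ℕ) + 1)
      = ∑ j ∈ (Finset.Iio i).map Fin.valEmbedding, r ^ (j + 1) := by
    rw [Finset.sum_map]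
    rfl
  rw [h, Fin.map_valEmbedding_Iio]
  have h2 : Finset.Iio (i : ℕ) = Finset.range (i : ℕ) := by
    ext x; simp
  rw [h2]
  exact tri_geom hr i

/-- **The triangular lemma** (6.6). -/
theorem triangular {n : ℕ} {T E b eps : ℝ} (hT : 0 ≤ T) (hE : 1 ≤ E) (hb : 0 ≤ b)
    (heps : 0 ≤ eps) (d D : ℝ → Fin n → ℝ) (m m' : Fin n → ℝ → ℝ)
    (hd : ∀ t ∈ Icc 0 T, ∀ i, HasDerivAt (fun s => d s i) (D t i) t)
    (hm : ∀ t ∈ Icc 0 T, ∀ i, HasDerivAt (m i) (m' i t) t)
    (hpos : ∀ t ∈ Icc 0 T, ∀ i, 0 < m i t)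
    (hme : ∀ i s t, 0 ≤ s → s ≤ t → t ≤ T → m i t ≤ E * m i s)
    (hbd : ∀ t ∈ Icc 0 T, ∀ i,
      |D t i - m' i t / m i t * d t i| ≤ b * ∑ j ∈ Finset.Iio i, |d t j| + eps * ‖d t‖)
    (hsmall : (2 * E * (1 + b * T)) ^ n * eps * T ≤ 1 / 2) :
    ∀ t ∈ Icc 0 T, ‖d t‖ ≤ 2 * (2 * E * (1 + b * T)) ^ n * ‖d 0‖ := by
  have hbT : 0 ≤ b * T := mul_nonneg hb hT
  set r : ℝ := 2 * E * (1 + b * T) with hr
  have hr2 : 2 ≤ r := by
    rw [hr]; nlinarith
  have hr1 : 1 ≤ r := by linarith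
  have hr0 : 0 ≤ r := by linarith
  have hdc : ContinuousOn (fun t => ‖d t‖) (Icc 0 T) := by
    intro t ht
    have h1 : HasDerivAt d (D t) t := hasDerivAt_pi.2 (fun i => hd t ht i)
    exact h1.continuousAt.norm.continuousWithinAt
  obtain ⟨ts, hts, hmax⟩ := isCompact_Icc.exists_isMaxOn (nonempty_Icc.2 hT) hdc
  set M : ℝ := ‖d ts‖ with hM
  have hM0 : 0 ≤ M := norm_nonneg _
  have hMx : ∀ t ∈ Icc 0 T, ‖d t‖ ≤ M := fun t ht => hmax ht
  set A : ℝ := ‖d 0‖ + eps * T * M with hA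
  have hA0 : 0 ≤ A := by positivity
  have hcomp : ∀ k : ℕ, ∀ i : Fin n, (i : ℕ) = k → ∀ t ∈ Icc 0 T, |d t i| ≤ r ^ (k + 1) * A := by
    intro k
    induction k using Nat.strong_induction_on with
    | _ k ih =>
      intro i hik t ht
      have hbe : ∀ s ∈ Icc 0 T, |D s i - m' i s / m i s * d s i|
          ≤ b * (2 * r ^ k * A) + eps * M := by
        intro s hs
        have h1 := hbd s hs i
        have h2 : ∑ j ∈ Finset.Iio i, |d s j| ≤ 2 * r ^ k * A := by
          calc ∑ j ∈ Finset.Iio i, |d s j| ≤ ∑ j ∈ Finset.Iio i, r ^ ((j : ℕ) + 1) * A := by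
                apply Finset.sum_le_sum
                intro j hj
                have hj' : (j : ℕ) < k := by
                  rw [← hik]; exact Fin.lt_def.1 (Finset.mem_Iio.1 hj)
                exact ih j hj' j rfl s hs
            _ = (∑ j ∈ Finset.Iio i, r ^ ((j : ℕ) + 1)) * A := by rw [Finset.sum_mul]
            _ ≤ (2 * r ^ (i : ℕ)) * A := mul_le_mul_of_nonneg_right (tri_geom' hr2 i) hA0
            _ = 2 * r ^ k * A := by rw [hik]
        have h3 : b * ∑ j ∈ Finset.Iio i, |d s j| ≤ b * (2 * r ^ k * A) :=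
          mul_le_mul_of_nonneg_left h2 hb
        have h4 : eps * ‖d s‖ ≤ eps * M := mul_le_mul_of_nonneg_left (hMx s hs) heps
        linarith
      have hbe0 : 0 ≤ b * (2 * r ^ k * A) + eps * M := by positivity
      have h5 := tri_scalar hE hbe0 (fun s => d s i) (fun s => D s i) (m i) (m' i)
        (fun s hs => hd s hs i) (fun s hs => hm s hs i) (fun s hs => hpos s hs i)
        (fun s t => hme i s t) hbe ht
      have h6 : |d 0 i| ≤ ‖d 0‖ := by
        have := norm_le_pi_norm (d 0) i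
        rwa [Real.norm_eq_abs] at this
      have hE0 : 0 ≤ E := by linarith
      have h7 : E * (b * (2 * r ^ k * A) + eps * M) * t
          ≤ E * (b * (2 * r ^ k * A) + eps * M) * T :=
        mul_le_mul_of_nonneg_left ht.2 (by positivity)
      have h8 : E * |d 0 i| ≤ E * ‖d 0‖ := mul_le_mul_of_nonneg_left h6 hE0
      have hrk : 1 ≤ r ^ k := one_le_pow₀ hr1
      have h9 : E * ‖d 0‖ + E * (b * (2 * r ^ k * A) + eps * M) * T
          = E * A * (1 + 2 * (b * T) * r ^ k) := by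
        rw [hA]; ring
      have h10 : E * A * (1 + 2 * (b * T) * r ^ k) ≤ E * A * (r ^ k * (2 * (1 + b * T))) := by
        apply mul_le_mul_of_nonneg_left _ (by positivity)
        nlinarith
      have h11 : E * A * (r ^ k * (2 * (1 + b * T))) = r ^ (k + 1) * A := by
        rw [pow_succ, hr]; ring
      linarith
  have hfin : M ≤ r ^ n * A := by
    rw [hM, pi_norm_le_iff_of_nonneg (by positivity)]
    intro i
    rw [Real.norm_eq_abs]
    refine (hcomp i i rfl ts hts).trans ?_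
    apply mul_le_mul_of_nonneg_right _ hA0
    exact pow_le_pow_right₀ hr1 (by have := i.2; omega)
  intro t ht
  have h12 : r ^ n * A = r ^ n * ‖d 0‖ + r ^ n * eps * T * M := by rw [hA]; ring
  have h13 : r ^ n * eps * T * M ≤ 1 / 2 * M := mul_le_mul_of_nonneg_right hsmall hM0
  have h14 := hMx t ht
  linarith

end Pool.Agent.AnQ2
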