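import Mathlib
import Pool.Agent.AnQ2.Pl
import Pool.Agent.AnQ2.Xf

/-!
# Zero entropy of the slow flow: growth by the advance, the base flows (page, (6.3) - (6.5))
-/

namespace Pool.Agent.AnQ2

open Set Filter Topology Real MeasureTheory
open Pool.Agent.MP_1a349f_an
open scoped ContDiff NNReal

-- BEGIN z1
theorem FF_eq_f3 (z : Fin 6 → ℝ) : FF z = f3 (z 0) (z 1) (z 2) := rfl

theorem z1_sin (i : Fin 6) (z z' : Fin 6 → ℝ) :
    |sin (π * z' i) - sin (π * z i)| ≤ π * ‖z' - z‖ := by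
  refine (Real.abs_sin_sub_sin_le _ _).trans ?_
  rw [← mul_sub, abs_mul, abs_of_pos pi_pos]
  refine mul_le_mul_of_nonneg_left ?_ pi_pos.le
  have h := norm_le_pi_norm (z' - z) i
  rwa [Pi.sub_apply, Real.norm_eq_abs] at h

theorem z1_sq {s s' a b D : ℝ} (hs : s ^ 2 ≤ 12 * a ^ 2) (hs' : s' ^ 2 ≤ 12 * b ^ 2)
    (ha : 0 ≤ a) (hb : 0 ≤ b) (h : |s' - s| ≤ D) : |s' ^ 2 - s ^ 2| ≤ D * (4 * (a + b)) := by
  have h1 : |s| ≤ 4 * a := abs_le_of_sq_le_sq (by nlinarith [sq_nonneg a]) (by linarith)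
  have h2 : |s'| ≤ 4 * b := abs_le_of_sq_le_sq (by nlinarith [sq_nonneg b]) (by linarith)
  have h3 : s' ^ 2 - s ^ 2 = (s' - s) * (s' + s) := by ring
  rw [h3, abs_mul]
  have h4 : |s' + s| ≤ 4 * (a + b) := (abs_add_le s' s).trans (by linarith)
  exact mul_le_mul h h4 (abs_nonneg _) ((abs_nonneg _).trans h)

theorem z1_FF (z z' : Fin 6 → ℝ) :
    |FF z' - FF z| ≤ π * (√(FF z) + √(FF z')) * ‖z' - z‖ := by
  have hF : √(FF z) ^ 2 = FF z := Real.sq_sqrt (FF_nonneg z)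
  have hF' : √(FF z') ^ 2 = FF z' := Real.sq_sqrt (FF_nonneg z')
  have ha := Real.sqrt_nonneg (FF z)
  have hb := Real.sqrt_nonneg (FF z')
  have e : FF z = (sin (π * z 0) ^ 2 + sin (π * z 1) ^ 2 + sin (π * z 2) ^ 2) / 12 := rfl
  have e' : FF z' = (sin (π * z' 0) ^ 2 + sin (π * z' 1) ^ 2 + sin (π * z' 2) ^ 2) / 12 := rfl
  have p0 := sq_nonneg (sin (π * z 0))
  have p1 := sq_nonneg (sin (π * z 1))
  have p2 := sq_nonneg (sin (π * z 2))
  have q0 := sq_nonneg (sin (π * z' 0))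
  have q1 := sq_nonneg (sin (π * z' 1))
  have q2 := sq_nonneg (sin (π * z' 2))
  have r0 := z1_sq (s := sin (π * z 0)) (s' := sin (π * z' 0)) (by rw [hF, e]; linarith)
    (by rw [hF', e']; linarith) ha hb (z1_sin 0 z z')
  have r1 := z1_sq (s := sin (π * z 1)) (s' := sin (π * z' 1)) (by rw [hF, e]; linarith)
    (by rw [hF', e']; linarith) ha hb (z1_sin 1 z z')
  have r2 := z1_sq (s := sin (π * z 2)) (s' := sin (π * z' 2)) (by rw [hF, e]; linarith)
    (by rw [hF', e']; linarith) ha hb (z1_sin 2 z z')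
  have e2 : FF z' - FF z = ((sin (π * z' 0) ^ 2 - sin (π * z 0) ^ 2) +
      (sin (π * z' 1) ^ 2 - sin (π * z 1) ^ 2) + (sin (π * z' 2) ^ 2 - sin (π * z 2) ^ 2)) / 12 := by
    rw [e, e']; ring
  have e3 : π * (√(FF z) + √(FF z')) * ‖z' - z‖ =
      3 * (π * ‖z' - z‖ * (4 * (√(FF z) + √(FF z')))) / 12 := by ring
  rw [e2, e3, abs_div, abs_of_pos (by norm_num : (0 : ℝ) < 12)]
  refine div_le_div_of_nonneg_right ?_ (by norm_num)
  refine (abs_add_le _ _).trans ?_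
  have h5 := abs_add_le (sin (π * z' 0) ^ 2 - sin (π * z 0) ^ 2)
    (sin (π * z' 1) ^ 2 - sin (π * z 1) ^ 2)
  linarith

/-- the Lipschitz estimate of (6.3) -/
theorem VB_lip : ∃ K > (0 : ℝ), ∀ z z', ‖VB z' - VB z‖ ≤
    K * (√(FF z) ^ 3 + √(FF z') ^ 3) * ‖z' - z‖ := by
  obtain ⟨L, hL⟩ := good_XX.exists_lipschitz
  obtain ⟨C, hC⟩ := good_XX.exists_bound
  refine ⟨L + 2 * π * C + 1, by positivity, fun z z' => ?_⟩
  set a := √(FF z) with ha'
  set b := √(FF z') with hb'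
  have ha : 0 ≤ a := Real.sqrt_nonneg _
  have hb : 0 ≤ b := Real.sqrt_nonneg _
  have hF : a ^ 2 = FF z := Real.sq_sqrt (FF_nonneg z)
  have hF' : b ^ 2 = FF z' := Real.sq_sqrt (FF_nonneg z')
  have hb1 : b ≤ 1 := by
    have h1 := FF_le z'
    rw [← hF'] at h1
    nlinarith
  set D := ‖z' - z‖ with hD
  have hD0 : 0 ≤ D := norm_nonneg _
  have h1 : VB z' - VB z = (FF z' ^ 2) • (XX z' - XX z) + (FF z' ^ 2 - FF z ^ 2) • XX z := by
    simp only [VB, hB, smul_sub, sub_smul]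
    abel
  have h2 : ‖XX z' - XX z‖ ≤ L * D := by
    have h := hL.dist_le_mul z' z
    rwa [dist_eq_norm, dist_eq_norm] at h
  have h3 := z1_FF z z'
  have h4 : |FF z' ^ 2 - FF z ^ 2| ≤ π * (a + b) * D * (a ^ 2 + b ^ 2) := by
    have h5 : FF z' ^ 2 - FF z ^ 2 = (FF z' - FF z) * (FF z' + FF z) := by ring
    rw [h5, abs_mul]
    have h6 : |FF z' + FF z| = a ^ 2 + b ^ 2 := by
      rw [abs_of_nonneg (add_nonneg (FF_nonneg z') (FF_nonneg z)), hF, hF']; ring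
    rw [h6]
    exact mul_le_mul_of_nonneg_right h3 (by positivity)
  have h7 : (a + b) * (a ^ 2 + b ^ 2) ≤ 2 * (a ^ 3 + b ^ 3) := by
    nlinarith [mul_nonneg (add_nonneg ha hb) (sq_nonneg (a - b))]
  have h8 : FF z' ^ 2 ≤ a ^ 3 + b ^ 3 := by
    rw [← hF']
    have h9 : b ^ 4 ≤ b ^ 3 := pow_le_pow_of_le_one hb hb1 (by norm_num)
    have h10 : 0 ≤ a ^ 3 := by positivity
    calc (b ^ 2) ^ 2 = b ^ 4 := by ring
      _ ≤ b ^ 3 := h9
      _ ≤ a ^ 3 + b ^ 3 := by linarith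
  have h11 : 0 ≤ a ^ 3 + b ^ 3 := by positivity
  rw [h1]
  refine (norm_add_le _ _).trans ?_
  rw [norm_smul, norm_smul, Real.norm_eq_abs, Real.norm_eq_abs, abs_of_nonneg (sq_nonneg (FF z'))]
  have h12 : FF z' ^ 2 * ‖XX z' - XX z‖ ≤ (a ^ 3 + b ^ 3) * (L * D) :=
    mul_le_mul h8 h2 (norm_nonneg _) h11
  have h13 : |FF z' ^ 2 - FF z ^ 2| * ‖XX z‖ ≤ (π * (a + b) * D * (a ^ 2 + b ^ 2)) * C :=
    mul_le_mul h4 (hC z) (norm_nonneg _) ((abs_nonneg _).trans h4)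
  have hC0 : (0 : ℝ) ≤ C := C.2
  have h14 : (π * (a + b) * D * (a ^ 2 + b ^ 2)) * C ≤ 2 * π * C * (a ^ 3 + b ^ 3) * D := by
    have h15 : 0 ≤ π * D * C := by positivity
    calc (π * (a + b) * D * (a ^ 2 + b ^ 2)) * C = (π * D * C) * ((a + b) * (a ^ 2 + b ^ 2)) := by
          ring
      _ ≤ (π * D * C) * (2 * (a ^ 3 + b ^ 3)) := mul_le_mul_of_nonneg_left h7 h15
      _ = 2 * π * C * (a ^ 3 + b ^ 3) * D := by ring
  have h16 : 0 ≤ (a ^ 3 + b ^ 3) * D := mul_nonneg h11 hD0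
  calc FF z' ^ 2 * ‖XX z' - XX z‖ + |FF z' ^ 2 - FF z ^ 2| * ‖XX z‖
      ≤ (a ^ 3 + b ^ 3) * (L * D) + 2 * π * C * (a ^ 3 + b ^ 3) * D :=
        add_le_add h12 (h13.trans h14)
    _ ≤ (L + 2 * π * C + 1) * (a ^ 3 + b ^ 3) * D := by nlinarith
-- END z1

-- BEGIN z2
theorem hasDerivAt_VB_zero (z : Fin 6 → ℝ) (t : ℝ) :
    HasDerivAt (fun t => flow VB t z 0) (FF (flow VB t z) ^ 2) t := by
  have h := hasDerivAt_pi.1 (good_VB.hasDerivAt_flow z t) 0
  have h2 : VB (flow VB t z) 0 = FF (flow VB t z) ^ 2 := by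
    simp [VB, hB, XX]
  rwa [h2] at h

theorem VB_adv_mono (z : Fin 6 → ℝ) : Monotone fun t => flow VB t z 0 :=
  monotone_of_deriv_nonneg (fun t => (hasDerivAt_VB_zero z t).differentiableAt)
    (fun t => by rw [(hasDerivAt_VB_zero z t).deriv]; positivity)

/-- (6.3) -/
theorem PL_of_adv (z : Fin 6 → ℝ) (h : ∀ δ > (0 : ℝ), ∀ T0 : ℕ, ∃ T : ℕ, T0 ≤ T ∧
    flow VB T z 0 - z 0 ≤ δ * T) : PL VB z := by
  intro δ hδ
  obtain ⟨K, hK, hlip⟩ := VB_lip
  set l : ℝ := min 1 (δ / (48 * K)) with hl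
  have hl0 : 0 < l := lt_min one_pos (by positivity)
  have hl1 : l ≤ 1 := min_le_left _ _
  have hl2 : l ≤ δ / (48 * K) := min_le_right _ _
  have hl3 : l ^ 3 ≤ δ / (48 * K) := by
    refine le_trans ?_ hl2
    have h1 : l ^ 3 = l * (l * l) := by ring
    rw [h1]
    have h2 : l * l ≤ 1 := mul_le_one₀ hl1 hl0.le hl1
    nlinarith
  obtain ⟨T, hT0, hT⟩ := h (l * (δ / (48 * K))) (by positivity) (⌈(2 + 24 * K * l⁻¹) / δ⌉₊ + 1)
  have hT1 : 1 ≤ T := by omega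
  have hTb : 2 + 24 * K * l⁻¹ ≤ δ * T := by
    have h1 := Nat.le_ceil ((2 + 24 * K * l⁻¹) / δ)
    have h2 : ((⌈(2 + 24 * K * l⁻¹) / δ⌉₊ : ℕ) : ℝ) ≤ T := by
      exact_mod_cast (by omega : ⌈(2 + 24 * K * l⁻¹) / δ⌉₊ ≤ T)
    have h3 := h1.trans h2
    rw [div_le_iff₀ hδ] at h3
    linarith
  have hc : Continuous fun w : Fin 6 → ℝ => flow VB T w 0 - w 0 :=
    ((continuous_apply 0).comp (continuous_flow_point good_VB T)).sub (continuous_apply 0)
  obtain ⟨r, hr, hrr⟩ := Metric.continuous_iff.1 hc z 1 one_pos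
  refine ⟨T, hT1, r, hr, fun w w' hw hw' => ?_⟩
  have hadv : ∀ v, ‖v - z‖ < r → flow VB T v 0 - v 0 ≤ l * (δ / (48 * K)) * T + 1 := by
    intro v hv
    have h1 := hrr v (by rwa [dist_eq_norm])
    rw [Real.dist_eq] at h1
    have h2 := (abs_lt.1 h1).2
    linarith
  let A : ℝ → ℝ := fun t =>
    K * (2 * l ^ 3 * t + l⁻¹ * ((flow VB t w' 0 - w' 0) + (flow VB t w 0 - w 0)))
  have hA : ∀ t, HasDerivAt A
      (K * (2 * l ^ 3 + l⁻¹ * (FF (flow VB t w') ^ 2 + FF (flow VB t w) ^ 2))) t := by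
    intro t
    have h1 : HasDerivAt (fun t : ℝ => 2 * l ^ 3 * t) (2 * l ^ 3) t := by
      simpa using (hasDerivAt_id t).const_mul (2 * l ^ 3)
    have h2 := (((hasDerivAt_VB_zero w' t).sub_const (w' 0)).fun_add
      ((hasDerivAt_VB_zero w t).sub_const (w 0))).const_mul l⁻¹
    exact (h1.fun_add h2).const_mul K
  have hg := growth (fun t => flow VB t w') (fun t => flow VB t w) (fun t => VB (flow VB t w'))
    (fun t => VB (flow VB t w)) (good_VB.hasDerivAt_flow w') (good_VB.hasDerivAt_flow w) A _ hA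
    (fun t _ => by
      refine (hlip _ _).trans ?_
      apply mul_le_mul_of_nonneg_right _ (norm_nonneg _)
      apply mul_le_mul_of_nonneg_left _ hK.le
      have c1 := cube_le (Real.sqrt_nonneg (FF (flow VB t w'))) hl0
      have c2 := cube_le (Real.sqrt_nonneg (FF (flow VB t w))) hl0
      have e1 : ∀ v, √(FF v) ^ 4 = FF v ^ 2 := by
        intro v
        have h3 := Real.sq_sqrt (FF_nonneg v)
        calc √(FF v) ^ 4 = (√(FF v) ^ 2) ^ 2 := by ring
          _ = _ := by rw [h3]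
      rw [e1] at c1 c2
      linarith) T (Nat.cast_nonneg T)
  simp only [good_VB.flow_zero] at hg
  have hTn : (0 : ℝ) ≤ T := Nat.cast_nonneg T
  have hAt : 2 * ((6 : ℕ) : ℝ) * (A T - A 0) + 2 ≤ 2 * (δ * T) := by
    have h1 := hadv w hw
    have h2 := hadv w' hw'
    have h3 : A 0 = 0 := by simp only [A, good_VB.flow_zero]; ring
    rw [h3, sub_zero]
    have h4 : A T ≤ K * (2 * (δ / (48 * K)) * T + l⁻¹ * (2 * (l * (δ / (48 * K)) * T + 1))) := by
      apply mul_le_mul_of_nonneg_left _ hK.le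
      have h5 : 2 * l ^ 3 * T ≤ 2 * (δ / (48 * K)) * T := by
        apply mul_le_mul_of_nonneg_right _ hTn
        linarith
      have h6 : l⁻¹ * ((flow VB T w' 0 - w' 0) + (flow VB T w 0 - w 0)) ≤
          l⁻¹ * (2 * (l * (δ / (48 * K)) * T + 1)) := by
        apply mul_le_mul_of_nonneg_left _ (inv_pos.2 hl0).le
        linarith
      linarith
    have h5 : K * (2 * (δ / (48 * K)) * T + l⁻¹ * (2 * (l * (δ / (48 * K)) * T + 1))) =
        δ / 12 * T + 2 * K * l⁻¹ := by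
      field_simp
      ring
    rw [h5] at h4
    push_cast
    linarith
  have h1 : ‖flow VB T w - flow VB T w'‖ ^ 2 ≤ (exp (δ * T) * ‖w - w'‖) ^ 2 := by
    refine hg.trans ?_
    have h6 : ((6 : ℕ) : ℝ) ≤ exp 2 := by
      have h7 : (1 + 1 : ℝ) ≤ exp 1 := add_one_le_exp 1
      have h8 := Real.exp_one_gt_d9
      have h9 : exp 2 = exp 1 * exp 1 := by rw [← exp_add]; norm_num
      rw [h9]
      push_cast
      nlinarith
    have h2 : ((6 : ℕ) : ℝ) * exp (2 * ((6 : ℕ) : ℝ) * (A T - A 0)) ≤ exp (δ * T) ^ 2 := by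
      calc ((6 : ℕ) : ℝ) * exp (2 * ((6 : ℕ) : ℝ) * (A T - A 0))
          ≤ exp 2 * exp (2 * ((6 : ℕ) : ℝ) * (A T - A 0)) :=
            mul_le_mul_of_nonneg_right h6 (exp_pos _).le
        _ = exp (2 + 2 * ((6 : ℕ) : ℝ) * (A T - A 0)) := by rw [← exp_add]
        _ ≤ exp (2 * (δ * T)) := exp_le_exp.2 (by linarith)
        _ = exp (δ * T) ^ 2 := by rw [← exp_nat_mul]; push_cast; ring_nf
    rw [mul_pow]
    exact mul_le_mul_of_nonneg_right h2 (sq_nonneg _)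
  exact (abs_le_of_sq_le_sq' h1 (by positivity)).2
-- END z2

-- BEGIN z3
/-- uniqueness for scalar autonomous equations -/
theorem adv_unique {G : ℝ → ℝ} {C : ℝ≥0} (hG : LipschitzWith C G)
    {a b : ℝ → ℝ} (ha : ∀ t, HasDerivAt a (G (a t)) t) (hb : ∀ t, HasDerivAt b (G (b t)) t)
    (h : a 0 = b 0) : a = b :=
  ODE_solution_unique_univ (v := fun _ => G) (s := fun _ => univ)
    (fun _ => hG.lipschitzOnWith) (fun t => ⟨ha t, trivial⟩) (fun t => ⟨hb t, trivial⟩) h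

private theorem z3_coord (z : Fin 6 → ℝ) (i : Fin 6) (t : ℝ) :
    HasDerivAt (fun t => flow VB t z i) (FF (flow VB t z) ^ 2 * XX (flow VB t z) i) t :=
  (hasDerivAt_pi.1 (good_VB.hasDerivAt_flow z t)) i

private theorem z3_lin {z : Fin 6 → ℝ} {i : Fin 6} {c : ℝ}
    (h : ∀ t, XX (flow VB t z) i = c) (t : ℝ) :
    flow VB t z i = z i + c * (flow VB t z 0 - z 0) := by
  have h1 : ∀ t, HasDerivAt (fun t => flow VB t z i - c * flow VB t z 0) 0 t := by
    intro t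
    have h2 := (z3_coord z i t).fun_sub ((z3_coord z 0 t).const_mul c)
    have h3 : XX (flow VB t z) 0 = 1 := rfl
    rw [h t, h3] at h2
    have h4 : FF (flow VB t z) ^ 2 * c - c * (FF (flow VB t z) ^ 2 * 1) = 0 := by ring
    rw [h4] at h2
    exact h2
  have h2 := is_const_of_deriv_eq_zero (fun t => (h1 t).differentiableAt)
    (fun t => (h1 t).deriv) t 0
  simp only [good_VB.flow_zero] at h2
  linarith

/-- if the base speeds are constant along the orbit the advance solves a scalar equation -/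
theorem adv_eq {z : Fin 6 → ℝ} {c1 c2 : ℝ}
    (h1 : ∀ t, XX (flow VB t z) 1 = c1) (h2 : ∀ t, XX (flow VB t z) 2 = c2) (t : ℝ) :
    HasDerivAt (fun t => flow VB t z 0 - z 0)
      (f3 (z 0 + (flow VB t z 0 - z 0)) (z 1 + c1 * (flow VB t z 0 - z 0))
        (z 2 + c2 * (flow VB t z 0 - z 0)) ^ 2) t := by
  have e0 : z 0 + (flow VB t z 0 - z 0) = flow VB t z 0 := by ring
  rw [e0, ← z3_lin h1 t, ← z3_lin h2 t]
  exact (hasDerivAt_VB_zero z t).sub_const (z 0)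

private theorem z3_sin (y c a : ℝ) : HasDerivAt (fun a => sin (π * (y + c * a)) ^ 2)
    (2 * sin (π * (y + c * a)) * (cos (π * (y + c * a)) * (π * c))) a := by
  have h1 : HasDerivAt (fun a : ℝ => π * (y + c * a)) (π * c) a := by
    have h := (((hasDerivAt_id a).const_mul c).const_add y).const_mul π
    simp only [id, mul_one] at h
    exact h
  have h2 := h1.sin.fun_pow 2
  simp only [Nat.cast_ofNat, Nat.add_one_sub_one, pow_one] at h2
  exact h2

private theorem z3_bd (y c a : ℝ) :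
    |2 * sin (π * (y + c * a)) * (cos (π * (y + c * a)) * (π * c))| ≤ 2 * (π * |c|) := by
  have h1 := abs_sin_le_one (π * (y + c * a))
  have h2 := abs_cos_le_one (π * (y + c * a))
  have h3 : 0 ≤ π * |c| := mul_nonneg pi_pos.le (abs_nonneg c)
  rw [abs_mul, abs_mul, abs_mul, abs_mul, abs_of_pos pi_pos, abs_of_pos (zero_lt_two' ℝ)]
  have h4 : |cos (π * (y + c * a))| * (π * |c|) ≤ 1 * (π * |c|) :=
    mul_le_mul_of_nonneg_right h2 h3
  calc 2 * |sin (π * (y + c * a))| * (|cos (π * (y + c * a))| * (π * |c|))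
      ≤ 2 * 1 * (1 * (π * |c|)) := by
        apply mul_le_mul _ h4 (by positivity) (by norm_num)
        linarith
    _ = 2 * (π * |c|) := by ring

theorem f3_sq_lip (x y s c1 c2 : ℝ) : ∃ C : ℝ≥0,
    LipschitzWith C fun a => f3 (x + a) (y + c1 * a) (s + c2 * a) ^ 2 := by
  have hd : ∀ a, HasDerivAt (fun a => f3 (x + a) (y + c1 * a) (s + c2 * a) ^ 2)
      (2 * f3 (x + a) (y + c1 * a) (s + c2 * a) *
        ((2 * sin (π * (x + 1 * a)) * (cos (π * (x + 1 * a)) * (π * 1)) +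
          2 * sin (π * (y + c1 * a)) * (cos (π * (y + c1 * a)) * (π * c1)) +
          2 * sin (π * (s + c2 * a)) * (cos (π * (s + c2 * a)) * (π * c2))) / 12)) a := by
    intro a
    have h := ((((z3_sin x 1 a).fun_add (z3_sin y c1 a)).fun_add (z3_sin s c2 a)).div_const
      12).fun_pow 2
    simp only [Nat.cast_ofNat, Nat.add_one_sub_one, pow_one] at h
    simp only [one_mul] at h ⊢
    exact h
  have hf : ∀ a b c : ℝ, |f3 a b c| ≤ 1 := by
    intro a b c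
    have h1 := sin_sq_le_one (π * a)
    have h2 := sin_sq_le_one (π * b)
    have h3 := sin_sq_le_one (π * c)
    have h4 := sq_nonneg (sin (π * a))
    have h5 := sq_nonneg (sin (π * b))
    have h6 := sq_nonneg (sin (π * c))
    rw [f3, abs_le]
    constructor <;> linarith
  have hC : 0 ≤ 2 * (2 * (π * |(1 : ℝ)|) + 2 * (π * |c1|) + 2 * (π * |c2|)) := by positivity
  obtain ⟨C, hCe⟩ : ∃ C : ℝ≥0,
      (C : ℝ) = 2 * (2 * (π * |(1 : ℝ)|) + 2 * (π * |c1|) + 2 * (π * |c2|)) :=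
    ⟨Real.toNNReal _, Real.coe_toNNReal _ hC⟩
  refine ⟨C, lipschitzWith_of_nnnorm_deriv_le (fun a => (hd a).differentiableAt) ?_⟩
  intro a
  rw [(hd a).deriv, ← NNReal.coe_le_coe, coe_nnnorm, Real.norm_eq_abs, hCe]
  rw [abs_mul, abs_mul, abs_of_pos (zero_lt_two' ℝ), abs_div, abs_of_pos (by norm_num : (0 : ℝ) < 12)]
  have hs : |2 * sin (π * (x + 1 * a)) * (cos (π * (x + 1 * a)) * (π * 1)) +
          2 * sin (π * (y + c1 * a)) * (cos (π * (y + c1 * a)) * (π * c1)) +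
          2 * sin (π * (s + c2 * a)) * (cos (π * (s + c2 * a)) * (π * c2))| ≤
      2 * (π * |(1 : ℝ)|) + 2 * (π * |c1|) + 2 * (π * |c2|) :=
    (abs_add_le _ _).trans (add_le_add ((abs_add_le _ _).trans
      (add_le_add (z3_bd x 1 a) (z3_bd y c1 a))) (z3_bd s c2 a))
  have h0 := abs_nonneg (2 * sin (π * (x + 1 * a)) * (cos (π * (x + 1 * a)) * (π * 1)) +
          2 * sin (π * (y + c1 * a)) * (cos (π * (y + c1 * a)) * (π * c1)) +
          2 * sin (π * (s + c2 * a)) * (cos (π * (s + c2 * a)) * (π * c2)))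
  have h1 := hf (x + a) (y + c1 * a) (s + c2 * a)
  have h2 := abs_nonneg (f3 (x + a) (y + c1 * a) (s + c2 * a))
  refine mul_le_mul (by linarith) ?_ (by positivity) (by norm_num)
  rw [div_le_iff₀ (by norm_num : (0 : ℝ) < 12)]
  nlinarith
-- END z3

-- BEGIN z4
private theorem z4_lip (a b : ℝ) :
    |sin (2 * π * a) ^ 2 - sin (2 * π * b) ^ 2| ≤ 4 * π * |a - b| := by
  have h1 : |sin (2 * π * a) - sin (2 * π * b)| ≤ |2 * π * a - 2 * π * b| := by
    have h := Real.lipschitzWith_sin.dist_le_mul (2 * π * a) (2 * π * b)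
    simpa [Real.dist_eq] using h
  have h2 : |sin (2 * π * a) + sin (2 * π * b)| ≤ 2 := by
    have ha := abs_sin_le_one (2 * π * a)
    have hb := abs_sin_le_one (2 * π * b)
    exact (abs_add_le _ _).trans (by linarith)
  have h3 : |2 * π * a - 2 * π * b| = 2 * π * |a - b| := by
    rw [← mul_sub, abs_mul, abs_of_pos (by positivity)]
  have h4 : sin (2 * π * a) ^ 2 - sin (2 * π * b) ^ 2 =
      (sin (2 * π * a) + sin (2 * π * b)) * (sin (2 * π * a) - sin (2 * π * b)) := by ring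
  rw [h4, abs_mul]
  calc |sin (2 * π * a) + sin (2 * π * b)| * |sin (2 * π * a) - sin (2 * π * b)|
      ≤ 2 * (2 * π * |a - b|) := by
        rw [h3] at h1
        exact mul_le_mul h2 h1 (abs_nonneg _) (by norm_num)
    _ = 4 * π * |a - b| := by ring

/-- the half integer values of `z_5` are invariant, for both fields -/
theorem flow5 {h : (Fin 6 → ℝ) → ℝ} (hh : Spd h) {z : Fin 6 → ℝ} (hz : sin (2 * π * z 5) = 0)
    (t : ℝ) : flow (fun z => h z • XX z) t z 5 = z 5 := by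
  have hf : ∀ t, HasDerivAt (fun t => flow (fun z => h z • XX z) t z 5)
      (h (flow (fun z => h z • XX z) t z) *
        sin (2 * π * flow (fun z => h z • XX z) t z 5) ^ 2) t := by
    intro t
    have h1 := hasDerivAt_pi.1 (hh.good.hasDerivAt_flow z t) 5
    simpa [XX] using h1
  have hK : ∀ t : ℝ, LipschitzOnWith ⟨4 * π, by positivity⟩
      (fun y : ℝ => h (flow (fun z => h z • XX z) t z) * sin (2 * π * y) ^ 2) univ := by
    intro t
    refine LipschitzWith.lipschitzOnWith (LipschitzWith.of_dist_le_mul fun a b => ?_)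
    rw [Real.dist_eq, Real.dist_eq, ← mul_sub, abs_mul,
      abs_of_nonneg (hh.nonneg _)]
    calc h (flow (fun z => h z • XX z) t z) *
          |sin (2 * π * a) ^ 2 - sin (2 * π * b) ^ 2|
        ≤ 1 * (4 * π * |a - b|) :=
          mul_le_mul (hh.le _) (z4_lip a b) (abs_nonneg _) zero_le_one
      _ = 4 * π * |a - b| := one_mul _
  have hu := ODE_solution_unique_univ
    (v := fun t y => h (flow (fun z => h z • XX z) t z) * sin (2 * π * y) ^ 2)
    (s := fun _ => univ) (f := fun t => flow (fun z => h z • XX z) t z 5)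
    (g := fun _ => z 5) (t₀ := 0) hK (fun t => ⟨hf t, trivial⟩)
    (fun t => ⟨by simpa [hz] using hasDerivAt_const t (z 5), trivial⟩)
    (by simp [hh.good.flow_zero z])
  exact congrFun hu t
-- END z4

-- BEGIN z5
/-- (6.4) -/
theorem PL_zero5 {z : Fin 6 → ℝ} (hz : z 5 = 0) : PL VB z := by
  have hsin : sin (2 * π * z 5) = 0 := by rw [hz, mul_zero, sin_zero]
  have h5 : ∀ t, flow VB t z 5 = 0 := fun t => (flow5 spd_B hsin t).trans hz
  have h1 : ∀ t, XX (flow VB t z) 1 = √2 := by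
    intro t
    change cos (π * flow VB t z 5) ^ 2 * √2 + sin (π * flow VB t z 5) ^ 2 * rz (flow VB t z 2) = √2
    rw [h5 t, mul_zero, cos_zero, sin_zero]
    ring
  have h2 : ∀ t, XX (flow VB t z) 2 = √3 := by
    intro t
    change cos (π * flow VB t z 5) ^ 2 * √3 = √3
    rw [h5 t, mul_zero, cos_zero]
    ring
  obtain ⟨C, hC⟩ := f3_sq_lip (z 0) (z 1) (z 2) (√2) (√3)
  let y : Fin 5 → ℝ := ![z 0, z 1, z 2, 0, 0]
  have hy : ∀ t, HasDerivAt (adv y)
      (f3 (z 0 + adv y t) (z 1 + √2 * adv y t) (z 2 + √3 * adv y t) ^ 2) t := by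
    intro t
    have h3 := hasDerivAt_adv y t
    have e0 : flow V2 t y 0 = z 0 + adv y t := by
      rw [adv]
      change _ = z 0 + (_ - z 0)
      ring
    have e1 : flow V2 t y 1 = z 1 + √2 * adv y t := by
      have h4 := good_V2.coord 1 0 (√2) (fun y => (V2_coord y).2.1) y t
      have h5 : y 1 = z 1 := rfl
      rw [h5] at h4
      rw [adv]
      linarith
    have e2 : flow V2 t y 2 = z 2 + √3 * adv y t := by
      have h4 := good_V2.coord 2 0 (√3) (fun y => (V2_coord y).2.2) y t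
      have h5 : y 2 = z 2 := rfl
      rw [h5] at h4
      rw [adv]
      linarith
    rw [fB_eq_f3, e0, e1, e2] at h3
    exact h3
  have hadv : (fun t => flow VB t z 0 - z 0) = adv y :=
    adv_unique hC (adv_eq h1 h2) hy (by
      simp only [good_VB.flow_zero, sub_self]
      exact (adv_zero y).symm)
  refine PL_of_adv z fun δ hδ T0 => ?_
  obtain ⟨K, hK, hsub⟩ := adv_sublinear (half_pos hδ)
  obtain ⟨T1, hT1⟩ := exists_nat_ge (2 * K / δ)
  refine ⟨max T0 T1, le_max_left _ _, ?_⟩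
  have h3 : flow VB (max T0 T1 : ℕ) z 0 - z 0 = adv y ((max T0 T1 : ℕ) : ℝ) :=
    congrFun hadv _
  rw [h3]
  have h4 := hsub y ((max T0 T1 : ℕ) : ℝ) (Nat.cast_nonneg _)
  have h5 : (T1 : ℝ) ≤ ((max T0 T1 : ℕ) : ℝ) := by exact_mod_cast le_max_right T0 T1
  have h6 : 2 * K / δ ≤ ((max T0 T1 : ℕ) : ℝ) := hT1.trans h5
  rw [div_le_iff₀ hδ] at h6
  linarith

theorem PL_fixed {z : Fin 6 → ℝ} (h : FF z = 0) : PL VB z := by
  have h0 : VB z = 0 := by
    rw [VB, hB_zero h, zero_smul]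
  refine PL_of_adv z fun δ hδ T0 => ⟨T0, le_rfl, ?_⟩
  rw [good_VB.flow_of_zero h0, sub_self]
  positivity
-- END z5

/-- the speed over the singular line `z_2 ∈ ℤ`, `z_5 = 1/2` -/
noncomputable def f2 (x y : ℝ) : ℝ := (sin (π * x) ^ 2 + sin (π * y) ^ 2) / 12

-- BEGIN z6
/-- a residue: `p` prime to `q` -/
theorem exists_residue {q p : ℕ} (hq : 1 ≤ q) (hpq : Nat.Coprime p q) (y : ℝ) :
    ∃ i : ℕ, i < q ∧ ∃ l : ℤ, |y + i * ((p : ℝ) / q) - l| ≤ 1 / (2 * q) := by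
  have hq0 : (0 : ℝ) < q := by exact_mod_cast hq
  have hqz : (0 : ℤ) < q := by exact_mod_cast hq
  set m : ℤ := round ((q : ℝ) * y) with hm
  have hbez : (p : ℤ) * Nat.gcdA p q + (q : ℤ) * Nat.gcdB p q = 1 := by
    have h := Nat.gcd_eq_gcd_ab p q
    rw [hpq] at h
    exact_mod_cast h.symm
  set u : ℤ := Nat.gcdA p q with hu
  set v : ℤ := Nat.gcdB p q with hv
  have hr0 : 0 ≤ (-m * u) % (q : ℤ) := Int.emod_nonneg _ hqz.ne'
  have hr1 : (-m * u) % (q : ℤ) < q := Int.emod_lt_of_pos _ hqz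
  set r : ℤ := (-m * u) % (q : ℤ) with hr
  have hdef : (q : ℤ) * ((-m * u) / (q : ℤ)) + r = -m * u := Int.mul_ediv_add_emod _ _
  set w : ℤ := (-m * u) / (q : ℤ) with hw
  refine ⟨r.toNat, by omega, m * v - w * p, ?_⟩
  have hcast : ((r.toNat : ℕ) : ℝ) = (r : ℝ) := by
    have h := Int.toNat_of_nonneg hr0
    exact_mod_cast congrArg (fun z : ℤ => (z : ℝ)) h
  rw [hcast]
  have hZ : (m : ℤ) + r * p = (m * v - w * p) * q := by
    have h2 : r = -m * u - q * w := by linarith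
    rw [h2]
    linear_combination -(m : ℤ) * hbez
  have hR : (m : ℝ) + r * p = ((m * v - w * p : ℤ) : ℝ) * q := by
    exact_mod_cast hZ
  have hkey : y + (r : ℝ) * ((p : ℝ) / q) - ((m * v - w * p : ℤ) : ℝ) =
      ((q : ℝ) * y - m) / q := by
    rw [eq_div_iff hq0.ne']
    have h3 : (r : ℝ) * ((p : ℝ) / q) * q = r * p := by field_simp
    linear_combination h3 + hR
  rw [hkey, abs_div, abs_of_pos hq0]
  have h4 : |(q : ℝ) * y - m| ≤ 1 / 2 := abs_sub_round _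
  calc |(q : ℝ) * y - m| / q ≤ (1 / 2) / q := div_le_div_of_nonneg_right h4 hq0.le
    _ = 1 / (2 * q) := by field_simp

private theorem z6_sin (x : ℝ) (l : ℤ) : sin (π * x) ^ 2 ≤ (π * |x - l|) ^ 2 := by
  have h1 : sin (π * x) ^ 2 = sin (π * (x - l)) ^ 2 := by
    have h2 : π * (x - l) = π * x - l * π := by ring
    rw [h2, Real.sin_sub_int_mul_pi, mul_pow]
    have h3 : ((-1 : ℝ) ^ l) ^ 2 = 1 := by
      rcases Int.even_or_odd l with h | h
      · rw [h.neg_one_zpow]; norm_num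
      · rw [h.neg_one_zpow]; norm_num
    rw [h3, one_mul]
  rw [h1, ← sq_abs (sin (π * (x - l)))]
  apply pow_le_pow_left₀ (abs_nonneg _)
  refine (Real.abs_sin_le_abs).trans ?_
  rw [abs_mul, abs_of_pos pi_pos]

/-- the speed is small during the passage -/
theorem f2_small {q : ℝ} (hq : 1 ≤ q) {x y : ℝ} {l l' : ℤ} (hx : |x - l| ≤ 1 / q)
    (hy : |y - l'| ≤ 17 / (10 * q)) : f2 x y ≤ 5 / q ^ 2 := by
  have hq0 : 0 < q := by linarith
  have h1 := z6_sin x l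
  have h2 := z6_sin y l'
  have hpi : π ^ 2 < 10 := by
    have := pi_lt_d2
    nlinarith [pi_pos]
  have h3 : (π * |x - l|) ^ 2 ≤ 10 * (1 / q) ^ 2 := by
    rw [mul_pow]
    have h4 : |x - l| ^ 2 ≤ (1 / q) ^ 2 := pow_le_pow_left₀ (abs_nonneg _) hx 2
    have h5 : 0 ≤ |x - l| ^ 2 := by positivity
    calc π ^ 2 * |x - l| ^ 2 ≤ 10 * |x - l| ^ 2 := mul_le_mul_of_nonneg_right hpi.le h5
      _ ≤ 10 * (1 / q) ^ 2 := mul_le_mul_of_nonneg_left h4 (by norm_num)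
  have h6 : (π * |y - l'|) ^ 2 ≤ 10 * (17 / (10 * q)) ^ 2 := by
    rw [mul_pow]
    have h4 : |y - l'| ^ 2 ≤ (17 / (10 * q)) ^ 2 := pow_le_pow_left₀ (abs_nonneg _) hy 2
    have h5 : 0 ≤ |y - l'| ^ 2 := by positivity
    calc π ^ 2 * |y - l'| ^ 2 ≤ 10 * |y - l'| ^ 2 := mul_le_mul_of_nonneg_right hpi.le h5
      _ ≤ 10 * (17 / (10 * q)) ^ 2 := mul_le_mul_of_nonneg_left h4 (by norm_num)
  unfold f2
  have h7 : (10 * (1 / q) ^ 2 + 10 * (17 / (10 * q)) ^ 2) / 12 ≤ 5 / q ^ 2 := by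
    have h8 : (10 * (1 / q) ^ 2 + 10 * (17 / (10 * q)) ^ 2) / 12 = (389 / 120) / q ^ 2 := by
      field_simp
      norm_num
    rw [h8]
    apply div_le_div_of_nonneg_right _ (by positivity)
    norm_num
  linarith
-- END z6

-- BEGIN z7
/-- (6.5): near an integer passage close to the singularity the slow flow loses the time
`(1/q) (q^2 / 5)^2`; the slope is `r = p / q + s` with `0 ≤ s ≤ 1 / (10 q^2)` -/
theorem slow_passage {r : ℝ} (hr0 : 0 ≤ r) (hr1 : r ≤ 1) {q p : ℕ} (hq : 1 ≤ q)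
    (hpq : Nat.Coprime p q) (h1 : (p : ℝ) / q ≤ r) (h2 : r - (p : ℝ) / q ≤ 1 / (10 * (q : ℝ) ^ 2))
    {x y : ℝ} {a : ℝ → ℝ} (ha0 : a 0 = 0)
    (ha : ∀ t, HasDerivAt a (f2 (x + a t) (y + r * a t) ^ 2) t) {t : ℝ} (ht : 2 * (q : ℝ) ≤ a t) :
    (q : ℝ) ^ 3 / 25 ≤ t := by
  have hq1 : (1 : ℝ) ≤ q := by exact_mod_cast hq
  have hq0 : (0 : ℝ) < q := by linarith
  have hmono : Monotone a := monotone_of_deriv_nonneg (fun t => (ha t).differentiableAt)
    (fun t => by rw [(ha t).deriv]; positivity)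
  have hcont : Continuous a := continuous_iff_continuousAt.2 fun t => (ha t).continuousAt
  have ht0 : 0 ≤ t := by
    by_contra hneg
    have := hmono (not_le.1 hneg).le
    linarith
  -- the passage
  set s0 : ℝ := ⌈x⌉ - x with hs0
  have hs0a : 0 ≤ s0 := by
    have := Int.le_ceil x
    rw [hs0]; linarith
  have hs0b : s0 < 1 := by
    have := Int.ceil_lt_add_one x
    rw [hs0]; linarith
  obtain ⟨i, hi, l', hl'⟩ := exists_residue hq hpq (y + r * s0)
  have hi' : (i : ℝ) ≤ q - 1 := by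
    have : i + 1 ≤ q := hi
    have : (i : ℝ) + 1 ≤ q := by exact_mod_cast this
    linarith
  have hi0 : (0 : ℝ) ≤ i := Nat.cast_nonneg i
  have hqinv : 1 / (q : ℝ) ≤ 1 := by
    rw [div_le_one hq0]; exact hq1
  have hqinv0 : 0 < 1 / (q : ℝ) := by positivity
  set σ1 : ℝ := s0 + i with hσ1
  set σ2 : ℝ := s0 + i + 1 / q with hσ2
  have hsmall : ∀ s ∈ Icc σ1 σ2, f2 (x + s) (y + r * s) ^ 2 ≤ 25 / (q : ℝ) ^ 4 := by
    intro s hs
    have e1 : |x + s - ((⌈x⌉ + (i : ℤ) : ℤ) : ℝ)| ≤ 1 / q := by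
      have : x + s - ((⌈x⌉ + (i : ℤ) : ℤ) : ℝ) = s - σ1 := by
        rw [hσ1, hs0]
        push_cast
        ring
      rw [this, abs_of_nonneg (by linarith [hs.1])]
      have := hs.2
      rw [hσ2] at this
      rw [hσ1]
      linarith
    have e2 : |y + r * s - l'| ≤ 17 / (10 * (q : ℝ)) := by
      have e3 : y + r * s - l' = (y + r * s0 + i * ((p : ℝ) / q) - l') +
          i * (r - (p : ℝ) / q) + r * (s - σ1) := by
        rw [hσ1]
        ring
      have e4 : |i * (r - (p : ℝ) / q)| ≤ 1 / (10 * q) := by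
        rw [abs_of_nonneg (mul_nonneg hi0 (by linarith))]
        calc (i : ℝ) * (r - (p : ℝ) / q) ≤ q * (1 / (10 * (q : ℝ) ^ 2)) := by
              apply mul_le_mul (by linarith) h2 (by linarith) hq0.le
          _ = 1 / (10 * q) := by
              field_simp
      have e5 : |r * (s - σ1)| ≤ 1 / q := by
        have e6 : 0 ≤ s - σ1 := by linarith [hs.1]
        have e7 : s - σ1 ≤ 1 / q := by
          have := hs.2
          rw [hσ2] at this
          rw [hσ1]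
          linarith
        rw [abs_of_nonneg (mul_nonneg hr0 e6)]
        exact (mul_le_of_le_one_left e6 hr1).trans e7
      rw [e3]
      have e8 := abs_add_le ((y + r * s0 + i * ((p : ℝ) / q) - l') + i * (r - (p : ℝ) / q))
        (r * (s - σ1))
      have e9 := abs_add_le (y + r * s0 + i * ((p : ℝ) / q) - l') (i * (r - (p : ℝ) / q))
      have e10 : 1 / (2 * (q : ℝ)) + 1 / (10 * q) + 1 / q ≤ 17 / (10 * (q : ℝ)) := by
        have : 1 / (2 * (q : ℝ)) + 1 / (10 * q) + 1 / q = 16 / (10 * (q : ℝ)) := by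
          field_simp
          norm_num
        rw [this]
        gcongr
        norm_num
      linarith
    have e3 := f2_small hq1 e1 e2
    have e4 : 0 ≤ f2 (x + s) (y + r * s) := by
      rw [f2]; positivity
    calc f2 (x + s) (y + r * s) ^ 2 ≤ (5 / (q : ℝ) ^ 2) ^ 2 := pow_le_pow_left₀ e4 e3 2
      _ = 25 / (q : ℝ) ^ 4 := by
          field_simp
          norm_num
  have hσ12 : σ1 ≤ σ2 := by rw [hσ1, hσ2]; linarith
  have hσ2q : σ2 ≤ a t := by
    refine le_trans ?_ ht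
    rw [hσ2]
    linarith
  have hσ10 : 0 ≤ σ1 := by rw [hσ1]; linarith
  obtain ⟨t1, ht1, ha1⟩ : σ1 ∈ a '' Icc 0 t :=
    intermediate_value_Icc ht0 hcont.continuousOn ⟨by rw [ha0]; exact hσ10, hσ12.trans hσ2q⟩
  obtain ⟨t2, ht2, ha2⟩ : σ2 ∈ a '' Icc t1 t :=
    intermediate_value_Icc ht1.2 hcont.continuousOn ⟨by rw [ha1]; exact hσ12, hσ2q⟩
  have hinc : a t2 - a t1 ≤ 25 / (q : ℝ) ^ 4 * (t2 - t1) := by
    refine Convex.image_sub_le_mul_sub_of_deriv_le (convex_Icc t1 t2) hcont.continuousOn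
      (fun s _ => (ha s).differentiableAt.differentiableWithinAt) (fun s hs => ?_) t1
      ⟨le_rfl, ht2.1⟩ t2 ⟨ht2.1, le_rfl⟩ ht2.1
    rw [interior_Icc] at hs
    rw [(ha s).deriv]
    apply hsmall
    rw [← ha1, ← ha2]
    exact ⟨hmono hs.1.le, hmono hs.2.le⟩
  have hdiff : a t2 - a t1 = 1 / q := by
    rw [ha1, ha2, hσ1, hσ2]
    ring
  rw [hdiff] at hinc
  have h6 : (q : ℝ) ^ 3 / 25 ≤ t2 - t1 := by
    have h7 : (q : ℝ) ^ 3 / 25 = (q : ℝ) ^ 4 / 25 * (1 / q) := by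
      field_simp
    rw [h7]
    calc (q : ℝ) ^ 4 / 25 * (1 / q) ≤ (q : ℝ) ^ 4 / 25 * (25 / (q : ℝ) ^ 4 * (t2 - t1)) :=
          mul_le_mul_of_nonneg_left hinc (by positivity)
      _ = t2 - t1 := by
          field_simp
  have := ht1.1
  have := ht2.2
  linarith
-- END z7

-- BEGIN z8
/-- (6.5), abstract form -/
theorem sublinear_liouville {r : ℝ} (hr0 : 0 ≤ r) (hr1 : r ≤ 1)
    (hr : ∀ Q : ℕ, ∃ q p : ℕ, Q ≤ q ∧ 1 ≤ q ∧ Nat.Coprime p q ∧ (p : ℝ) / q ≤ r ∧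
      r - (p : ℝ) / q ≤ 1 / (10 * (q : ℝ) ^ 2))
    {x y : ℝ} {a : ℝ → ℝ} (ha0 : a 0 = 0)
    (ha : ∀ t, HasDerivAt a (f2 (x + a t) (y + r * a t) ^ 2) t) :
    ∀ δ > (0 : ℝ), ∀ T0 : ℕ, ∃ T : ℕ, T0 ≤ T ∧ a T ≤ δ * T := by
  intro δ hδ T0
  by_contra hcon
  push Not at hcon
  obtain ⟨Q, hQ⟩ := exists_nat_gt (25 * (T0 + 1 + 2 / δ))
  obtain ⟨q, p, hQq, hq, hpq, h1, h2⟩ := hr Q
  have hq1 : (1 : ℝ) ≤ q := by exact_mod_cast hq
  have hQq' : (Q : ℝ) ≤ q := by exact_mod_cast hQq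
  have hT : T0 ≤ max T0 ⌈2 * (q : ℝ) / δ⌉₊ := le_max_left _ _
  have h3 := hcon _ hT
  set T1 : ℕ := max T0 ⌈2 * (q : ℝ) / δ⌉₊ with hT1
  have h4 : 2 * (q : ℝ) / δ ≤ T1 :=
    (Nat.le_ceil _).trans (Nat.cast_le.2 (le_max_right T0 ⌈2 * (q : ℝ) / δ⌉₊))
  have h5 : 2 * (q : ℝ) ≤ a T1 := by
    rw [div_le_iff₀ hδ] at h4
    linarith
  have h6 := slow_passage hr0 hr1 hq hpq h1 h2 ha0 ha h5
  have h7 : (T1 : ℝ) ≤ T0 + (2 * (q : ℝ) / δ + 1) := by
    have h8 : (⌈2 * (q : ℝ) / δ⌉₊ : ℝ) < 2 * (q : ℝ) / δ + 1 :=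
      Nat.ceil_lt_add_one (by positivity)
    have h9 : (T1 : ℝ) = max (T0 : ℝ) (⌈2 * (q : ℝ) / δ⌉₊ : ℝ) := by
      rw [hT1]
      push_cast
      rfl
    rw [h9]
    apply max_le
    · have : 0 ≤ 2 * (q : ℝ) / δ := by positivity
      linarith
    · have : (0 : ℝ) ≤ T0 := Nat.cast_nonneg _
      linarith
  have h10 : (T0 : ℝ) + (2 * (q : ℝ) / δ + 1) ≤ q * (T0 + 1 + 2 / δ) := by
    have h11 : 2 * (q : ℝ) / δ = q * (2 / δ) := by ring
    have h12 : (0 : ℝ) ≤ T0 := Nat.cast_nonneg _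
    rw [h11]
    nlinarith
  have h11 : 25 * ((T0 : ℝ) + 1 + 2 / δ) < q := lt_of_lt_of_le hQ hQq'
  have h12 : (q : ℝ) ^ 3 / 25 ≤ q * (T0 + 1 + 2 / δ) := by linarith
  have h13 : (q : ℝ) ^ 3 ≤ q * (25 * (T0 + 1 + 2 / δ)) := by
    rw [div_le_iff₀ (by norm_num)] at h12
    linarith
  have h14 : (q : ℝ) * (25 * (T0 + 1 + 2 / δ)) < q * q := by
    apply mul_lt_mul_of_pos_left h11
    linarith
  have h15 : (q : ℝ) * q ≤ q ^ 3 := by
    have : (q : ℝ) ^ 3 = q * q * q := by ring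
    rw [this]
    nlinarith
  linarith

theorem rho_liouville (Q : ℕ) : ∃ q p : ℕ, Q ≤ q ∧ 1 ≤ q ∧ Nat.Coprime p q ∧ (p : ℝ) / q ≤ rho ∧
    rho - (p : ℝ) / q ≤ 1 / (10 * (q : ℝ) ^ 2) := by
  have h0 := sg_pos Q
  have h1 := sg_le_sq Q
  have h2 : sg Q = 10 * (rho - (pp Q : ℝ) / qq Q) := by
    rw [sg, rn_eq]
  refine ⟨qq Q, pp Q, (Nat.le_succ Q).trans (succ_le_qq Q), (by norm_num : 1 ≤ 10).trans (qq_pos Q),
    pp_coprime Q, ?_, ?_⟩
  · linarith
  · have h3 : 1 / (10 * (qq Q : ℝ) ^ 2) = (1 / (qq Q : ℝ) ^ 2) / 10 := by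
      field_simp
    rw [h3]
    linarith

theorem rho_mem : 0 ≤ rho ∧ rho ≤ 1 := by
  have h0 := sg_pos 0
  have h1 := sg_lt_one 0
  have h2 : rn 0 = 1 / 10 := by
    rw [rn, Finset.sum_range_one, tt, aa_zero, pow_one]
  rw [sg, h2] at h0 h1
  constructor <;> linarith
-- END z8

-- BEGIN z9
private theorem z9_five {z : Fin 6 → ℝ} (h5 : z 5 = 1 / 2) (t : ℝ) : flow VB t z 5 = 1 / 2 := by
  have h : sin (2 * π * z 5) = 0 := by
    rw [h5]
    have : 2 * π * (1 / 2) = π := by ring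
    rw [this, Real.sin_pi]
  have := flow5 spd_B h t
  rw [h5] at this
  exact this

private theorem z9_cos {z : Fin 6 → ℝ} (h5 : z 5 = 1 / 2) (t : ℝ) :
    cos (π * flow VB t z 5) = 0 := by
  rw [z9_five h5 t]
  have : π * (1 / 2) = π / 2 := by ring
  rw [this, Real.cos_pi_div_two]

private theorem z9_sin {z : Fin 6 → ℝ} (h5 : z 5 = 1 / 2) (t : ℝ) :
    sin (π * flow VB t z 5) = 1 := by
  rw [z9_five h5 t]
  have : π * (1 / 2) = π / 2 := by ring
  rw [this, Real.sin_pi_div_two]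

private theorem z9_XX2 {z : Fin 6 → ℝ} (h5 : z 5 = 1 / 2) (t : ℝ) : XX (flow VB t z) 2 = 0 := by
  have e1 : XX (flow VB t z) 2 = cos (π * flow VB t z 5) ^ 2 * √3 := rfl
  rw [e1, z9_cos h5 t]
  ring

private theorem z9_two {z : Fin 6 → ℝ} (h5 : z 5 = 1 / 2) (t : ℝ) : flow VB t z 2 = z 2 := by
  have hd : ∀ t, HasDerivAt (fun t => flow VB t z 2) 0 t := by
    intro t
    have h1 := hasDerivAt_pi.1 (good_VB.hasDerivAt_flow z t) 2
    have e : VB (flow VB t z) 2 = 0 := by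
      have e1 : VB (flow VB t z) 2 = hB (flow VB t z) * XX (flow VB t z) 2 := rfl
      rw [e1, z9_XX2 h5 t, mul_zero]
    rw [e] at h1
    exact h1
  have := is_const_of_deriv_eq_zero (f := fun t => flow VB t z 2)
    (fun t => (hd t).differentiableAt) (fun t => (hd t).deriv) t 0
  simp only [good_VB.flow_zero z] at this
  exact this

/-- (6.5) -/
theorem PL_sing {z : Fin 6 → ℝ} (h5 : z 5 = 1 / 2) (h2 : sin (π * z 2) = 0) : PL VB z := by
  have hX1 : ∀ t, XX (flow VB t z) 1 = rho := by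
    intro t
    have e1 : XX (flow VB t z) 1 = cos (π * flow VB t z 5) ^ 2 * √2 +
      sin (π * flow VB t z 5) ^ 2 * rz (flow VB t z 2) := rfl
    rw [e1, z9_cos h5 t, z9_sin h5 t, z9_two h5 t]
    simp only [rz, h2]
    ring
  have ha := adv_eq hX1 (z9_XX2 h5)
  have ha2 : ∀ t, HasDerivAt (fun t => flow VB t z 0 - z 0)
      (f2 (z 0 + (flow VB t z 0 - z 0)) (z 1 + rho * (flow VB t z 0 - z 0)) ^ 2) t := by
    intro t
    have e : f3 (z 0 + (flow VB t z 0 - z 0)) (z 1 + rho * (flow VB t z 0 - z 0))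
        (z 2 + 0 * (flow VB t z 0 - z 0)) =
        f2 (z 0 + (flow VB t z 0 - z 0)) (z 1 + rho * (flow VB t z 0 - z 0)) := by
      rw [zero_mul, add_zero]
      simp only [f3, f2, h2]
      ring
    have h1 := ha t
    rw [e] at h1
    exact h1
  exact PL_of_adv z (sublinear_liouville (r := rho) (x := z 0) (y := z 1)
    (a := fun t => flow VB t z 0 - z 0) rho_mem.1 rho_mem.2 rho_liouville
    (by simp [good_VB.flow_zero z]) ha2)
-- END z9

end Pool.Agent.AnQ2
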