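import Mathlib
import Pool.Agent.AnQ2.Tri
import Pool.Agent.AnQ2.Ces
import Pool.Agent.AnQ2.Cls
import Pool.Agent.AnQ2.Lin
import Pool.Agent.AnQ2.Zer

/-!
# Zero entropy of the slow flow at `z_5 = 1/2`, `z_2` not an integer (page, (6.6))
-/

namespace Pool.Agent.AnQ2

open Set Filter Topology Real MeasureTheory
open Pool.Agent.MP_1a349f_an
open scoped ContDiff NNReal

-- BEGIN s1
private theorem s1_cos {z : Fin 6 → ℝ} (h5 : z 5 = 1 / 2) : cos (π * z 5) = 0 := by
  rw [h5, show π * (1 / 2) = π / 2 by ring, cos_pi_div_two]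

/-- on `z_5 = 1/2` the level `z_2` and the coordinate `z_5` are constant -/
theorem VB_five {z : Fin 6 → ℝ} (h5 : z 5 = 1 / 2) (t : ℝ) : flow VB t z 5 = 1 / 2 := by
  have h := spd_B.tc z t
  have h' := (K2_coord (s1_cos h5) (flow (fun z => hB z • XX z) t z 0 - z 0)).1
  rw [← h, h5] at h'
  exact h'

theorem VB_two {z : Fin 6 → ℝ} (h5 : z 5 = 1 / 2) (t : ℝ) : flow VB t z 2 = z 2 := by
  have h := spd_B.tc z t
  have h' := (K2_coord (s1_cos h5) (flow (fun z => hB z • XX z) t z 0 - z 0)).2.1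
  rw [← h] at h'
  exact h'

theorem VB_coord (z : Fin 6 → ℝ) (t : ℝ) (i : Fin 6) : HasDerivAt (fun t => flow VB t z i)
    (FF (flow VB t z) ^ 2 * XX (flow VB t z) i) t := by
  have h := hasDerivAt_pi.1 (good_VB.hasDerivAt_flow z t) i
  exact h

theorem FF_lower2 {z w : Fin 6 → ℝ} (h : w 2 = z 2) : sin (π * z 2) ^ 2 / 12 ≤ FF w := by
  unfold FF
  rw [h]
  have h0 := sq_nonneg (sin (π * w 0))
  have h1 := sq_nonneg (sin (π * w 1))
  linarith

theorem abs_fv_le (z : Fin 6 → ℝ) : |fv z| ≤ 3 := by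
  unfold fv
  have hR := abs_le.1 (RR_le (z 0) (z 1) (z 2))
  have h1 : sin (π * z 2) ^ 2 ≤ 1 := sin_sq_le_one _
  have h1' : 0 ≤ sin (π * z 2) ^ 2 := sq_nonneg _
  have h2 : sin (π * z 4) ^ 2 ≤ 1 := sin_sq_le_one _
  have h2' : 0 ≤ sin (π * z 4) ^ 2 := sq_nonneg _
  have h3 : 0 ≤ sin (π * z 2) ^ 4 := by positivity
  have h4 : sin (π * z 2) ^ 4 ≤ 1 := by
    have : sin (π * z 2) ^ 4 = (sin (π * z 2) ^ 2) ^ 2 := by ring
    rw [this]
    exact pow_le_one₀ h1' h1
  have h5 : sin (π * z 2) ^ 4 * (1 + sin (π * z 4) ^ 2) ≤ 1 * 2 :=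
    mul_le_mul h4 (by linarith) (by linarith) (by norm_num)
  have h6 : 0 ≤ sin (π * z 2) ^ 4 * (1 + sin (π * z 4) ^ 2) := by positivity
  rw [abs_le]
  constructor <;> linarith [hR.1, hR.2]

theorem XX_four {z : Fin 6 → ℝ} (h5 : z 5 = 1 / 2) :
    XX z 4 = π⁻¹ * cos (π * z 4) ^ 2 * fv z := by
  have hc := s1_cos h5
  have hs := sin5_of_cos hc
  have : XX z 4 = cos (π * z 5) ^ 2 * (6 * kb (z 0) * sin (π * z 3) ^ 2) +
      sin (π * z 5) ^ 2 * (π⁻¹ * cos (π * z 4) ^ 2 *
        (sin (π * z 2) ^ 4 * (1 + sin (π * z 4) ^ 2) - RR (z 0) (z 1) (z 2))) := rfl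
  rw [this, hc, hs]
  unfold fv
  ring
-- END s1

-- BEGIN s2
private theorem s2_sq {u : ℝ → ℝ} {u' t : ℝ} (h : HasDerivAt u u' t) :
    HasDerivAt (fun t => sin (π * u t) ^ 2) (π * sin (2 * π * u t) * u') t := by
  have h1 := ((h.const_mul π).sin).pow 2
  refine h1.congr_deriv ?_
  have h2 : sin (2 * π * u t) = 2 * sin (π * u t) * cos (π * u t) := by
    rw [show 2 * π * u t = 2 * (π * u t) by ring, sin_two_mul]
  rw [h2]
  simp only [Nat.cast_ofNat, Nat.add_one_sub_one, pow_one]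
  ring

/-- the integrating factor of `z_0` -/
theorem factor_zero {z : Fin 6 → ℝ} (h5 : z 5 = 1 / 2) (t : ℝ) :
    HasDerivAt (fun t => FF (flow VB t z) ^ 2)
      (al (flow VB t z) * FF (flow VB t z) ^ 2) t := by
  have e5 := VB_five h5 t
  have c5 : cos (π * flow VB t z 5) = 0 := by
    rw [e5, show π * (1 / 2) = π / 2 by ring, cos_pi_div_two]
  have s5 : sin (π * flow VB t z 5) = 1 := by
    rw [e5, show π * (1 / 2) = π / 2 by ring, sin_pi_div_two]
  have h0 := s2_sq (VB_coord z t 0)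
  have h1 := s2_sq (VB_coord z t 1)
  have h2 := s2_sq (VB_coord z t 2)
  have x0 : XX (flow VB t z) 0 = 1 := rfl
  have x1 : XX (flow VB t z) 1 = rz (flow VB t z 2) := by
    have : XX (flow VB t z) 1 = cos (π * flow VB t z 5) ^ 2 * √2 +
      sin (π * flow VB t z 5) ^ 2 * rz (flow VB t z 2) := rfl
    rw [this, c5, s5]; ring
  have x2 : XX (flow VB t z) 2 = 0 := by
    have : XX (flow VB t z) 2 = cos (π * flow VB t z 5) ^ 2 * √3 := rfl
    rw [this, c5]; ring
  rw [x0] at h0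
  rw [x1] at h1
  rw [x2] at h2
  have hF : HasDerivAt (fun t => FF (flow VB t z)) _ t := ((h0.add h1).add h2).div_const 12
  have hG := hF.pow 2
  refine hG.congr_deriv ?_
  simp only [Nat.cast_ofNat, Nat.add_one_sub_one, pow_one, al]
  ring
-- END s2

-- BEGIN s3
private theorem s3_three {z : Fin 6 → ℝ} (h5 : z 5 = 1 / 2) (t : ℝ) :
    HasDerivAt (fun t => flow VB t z 3) (FF (flow VB t z) ^ 2 * cos (π * flow VB t z 4) ^ 2 *
      sin (π * flow VB t z 3) ^ 2) t := by
  have h := VB_coord z t 3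
  have e : XX (flow VB t z) 3 = sin (π * flow VB t z 3) ^ 2 * cos (π * flow VB t z 4) ^ 2 := by
    have h1 : flow VB t z 5 = 1 / 2 := VB_five h5 t
    have h2 : cos (π * flow VB t z 5) = 0 := by
      rw [h1, mul_one_div]
      exact cos_pi_div_two
    have h3 : sin (π * flow VB t z 5) = 1 := by
      rw [h1, mul_one_div]
      exact sin_pi_div_two
    show cos (π * flow VB t z 5) ^ 2 * (6 * ka (flow VB t z 0) * sin (π * flow VB t z 4) ^ 2) +
      sin (π * flow VB t z 5) ^ 2 *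
        (sin (π * flow VB t z 3) ^ 2 * cos (π * flow VB t z 4) ^ 2) = _
    rw [h2, h3]
    ring
  rw [e] at h
  refine h.congr_deriv ?_
  ring

private theorem s3_bound (z : Fin 6 → ℝ) (t : ℝ) :
    0 ≤ FF (flow VB t z) ^ 2 * cos (π * flow VB t z 4) ^ 2 ∧
      FF (flow VB t z) ^ 2 * cos (π * flow VB t z 4) ^ 2 ≤ 1 / 16 := by
  have h0 := FF_nonneg (flow VB t z)
  have h1 := FF_le (flow VB t z)
  have h2 : FF (flow VB t z) ^ 2 ≤ 1 / 16 := by nlinarith
  have h3 : cos (π * flow VB t z 4) ^ 2 ≤ 1 := cos_sq_le_one _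
  refine ⟨by positivity, ?_⟩
  calc FF (flow VB t z) ^ 2 * cos (π * flow VB t z 4) ^ 2 ≤ FF (flow VB t z) ^ 2 * 1 :=
        mul_le_mul_of_nonneg_left h3 (by positivity)
    _ ≤ 1 / 16 := by linarith

/-- the integrating factor of `z_3`: `1` or `sin^2 (π z_3)` -/
theorem factor_three {z : Fin 6 → ℝ} (h5 : z 5 = 1 / 2) : ∃ m : ℝ → ℝ,
    (∀ t, HasDerivAt m (FF (flow VB t z) ^ 2 * g3 (flow VB t z) * m t) t) ∧ (∀ t, 0 < m t) ∧
    ∀ s t, 0 ≤ s → s ≤ t → m t ≤ 2 * (1 + t ^ 2) * m s := by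
  obtain ⟨K, hK⟩ := lip_sin_sq π
  have hconst : ∀ s, sin (π * flow VB s z 3) ^ 2 = 0 → ∀ t, flow VB t z 3 = flow VB s z 3 := by
    intro s hs t
    exact scalar_zero (p := fun x => sin (π * x) ^ 2) hK
      (a := fun t => FF (flow VB t z) ^ 2 * cos (π * flow VB t z 4) ^ 2)
      (u := fun t => flow VB t z 3) (C := 1 / 16)
      (fun t => by
        rw [abs_of_nonneg (s3_bound z t).1]
        exact (s3_bound z t).2)
      (fun t => s3_three h5 t) (s := s) hs t
  by_cases hz : sin (π * flow VB 0 z 3) ^ 2 = 0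
  · refine ⟨fun _ => 1, fun t => ?_, fun _ => one_pos, fun s t _ _ => by nlinarith [sq_nonneg t]⟩
    have h1 : flow VB t z 3 = flow VB 0 z 3 := hconst 0 hz t
    have h2 : g3 (flow VB t z) = 0 := by
      have h3 : sin (π * flow VB 0 z 3) = 0 := by
        simpa using hz
      unfold g3
      rw [h1, show 2 * π * flow VB 0 z 3 = 2 * (π * flow VB 0 z 3) by ring, sin_two_mul, h3]
      ring
    rw [h2]
    simpa using hasDerivAt_const t (1 : ℝ)
  · have hne : ∀ t, sin (π * flow VB t z 3) ≠ 0 := by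
      intro t ht
      apply hz
      have h1 := hconst t (by rw [ht]; ring) 0
      rw [h1, ht]
      ring
    have hd : ∀ t, HasDerivAt (fun t => flow VB t z 3)
        (FF (flow VB t z) ^ 2 * cos (π * flow VB t z 4) ^ 2 * sin (π * flow VB t z 3) ^ 2) t :=
      fun t => s3_three h5 t
    refine ⟨fun t => sin (π * flow VB t z 3) ^ 2, fun t => ?_, fun t => ?_, ?_⟩
    · have h1 := (((hd t).const_mul π).sin).pow 2
      refine h1.congr_deriv ?_
      unfold g3
      rw [show 2 * π * flow VB t z 3 = 2 * (π * flow VB t z 3) by ring, sin_two_mul]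
      push_cast
      ring
    · have := hne t
      positivity
    · have hcot : ∀ t, HasDerivAt
          (fun t => cos (π * flow VB t z 3) / sin (π * flow VB t z 3))
          (-(π * (FF (flow VB t z) ^ 2 * cos (π * flow VB t z 4) ^ 2))) t := by
        intro t
        have h1 := ((hd t).const_mul π).cos.div ((hd t).const_mul π).sin (hne t)
        refine h1.congr_deriv ?_
        have h2 := hne t
        have h3 : cos (π * flow VB t z 3) ^ 2 = 1 - sin (π * flow VB t z 3) ^ 2 := by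
          rw [cos_sq']
        field_simp
        rw [h3]
        ring
      intro s t hs hst
      have hlip : |cos (π * flow VB t z 3) / sin (π * flow VB t z 3) -
          cos (π * flow VB s z 3) / sin (π * flow VB s z 3)| ≤ 1 * |t - s| := by
        have := (convex_univ (𝕜 := ℝ) (E := ℝ)).norm_image_sub_le_of_norm_hasDerivWithin_le
          (f := fun t => cos (π * flow VB t z 3) / sin (π * flow VB t z 3))
          (f' := fun t => -(π * (FF (flow VB t z) ^ 2 * cos (π * flow VB t z 4) ^ 2))) (C := 1)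
          (s := univ) (x := s) (y := t)
          (fun x _ => (hcot x).hasDerivWithinAt)
          (fun x _ => by
            have h1 := s3_bound z x
            rw [Real.norm_eq_abs, abs_neg, abs_of_nonneg (mul_nonneg pi_pos.le h1.1)]
            nlinarith [pi_le_four, pi_pos]) (mem_univ _) (mem_univ _)
        simpa [Real.norm_eq_abs] using this
      set a := cos (π * flow VB t z 3) / sin (π * flow VB t z 3) with ha
      set b := cos (π * flow VB s z 3) / sin (π * flow VB s z 3) with hb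
      have hsa : sin (π * flow VB t z 3) ^ 2 * (1 + a ^ 2) = 1 := by
        rw [ha, div_pow]
        have := hne t
        field_simp
        exact sin_sq_add_cos_sq _
      have hsb : sin (π * flow VB s z 3) ^ 2 * (1 + b ^ 2) = 1 := by
        rw [hb, div_pow]
        have := hne s
        field_simp
        exact sin_sq_add_cos_sq _
      rw [abs_of_nonneg (sub_nonneg.2 hst)] at hlip
      have h1 : (a - b) ^ 2 ≤ t ^ 2 := by
        rw [← sq_abs]
        have : |a - b| ≤ t := by linarith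
        nlinarith [abs_nonneg (a - b)]
      have h2 : 1 + b ^ 2 ≤ 2 * (1 + t ^ 2) * (1 + a ^ 2) := by
        nlinarith [sq_nonneg (a + (a - b)), sq_nonneg a, sq_nonneg t, mul_nonneg (sq_nonneg a) (sq_nonneg t)]
      have hb0 : 0 < 1 + b ^ 2 := by positivity
      have ha0 : 0 < 1 + a ^ 2 := by positivity
      have e1 : sin (π * flow VB t z 3) ^ 2 = 1 / (1 + a ^ 2) := by
        field_simp
        exact hsa
      have e2 : sin (π * flow VB s z 3) ^ 2 = 1 / (1 + b ^ 2) := by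
        field_simp
        exact hsb
      show sin (π * flow VB t z 3) ^ 2 ≤ 2 * (1 + t ^ 2) * sin (π * flow VB s z 3) ^ 2
      rw [e1, e2, mul_one_div, div_le_div_iff₀ ha0 hb0]
      linarith
-- END s3

-- BEGIN s4
private theorem s4_bound (w : Fin 6 → ℝ) : |FF w ^ 2 * fv w| ≤ 1 := by
  have h1 : FF w ^ 2 ≤ 1 / 16 := by
    have := pow_le_pow_left₀ (FF_nonneg w) (FF_le w) 2
    norm_num at this ⊢
    exact this
  have h0 : 0 ≤ FF w ^ 2 := by positivity
  rw [abs_mul, abs_of_nonneg h0]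
  calc FF w ^ 2 * |fv w| ≤ 1 / 16 * 3 := mul_le_mul h1 (abs_fv_le w) (abs_nonneg _) (by norm_num)
    _ ≤ 1 := by norm_num

private theorem s4_deriv {z : Fin 6 → ℝ} (h5 : z 5 = 1 / 2) (t : ℝ) :
    HasDerivAt (fun t => flow VB t z 4)
      (FF (flow VB t z) ^ 2 * fv (flow VB t z) * π⁻¹ * cos (π * flow VB t z 4) ^ 2) t := by
  have h := VB_coord z t 4
  rw [XX_four (VB_five h5 t)] at h
  convert h using 1
  ring

private theorem s4_const {z : Fin 6 → ℝ} (h5 : z 5 = 1 / 2) {s : ℝ}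
    (h : cos (π * flow VB s z 4) = 0) (t : ℝ) : flow VB t z 4 = flow VB s z 4 := by
  obtain ⟨K, hK⟩ := lip_cos_sq π
  refine scalar_zero (p := fun x => cos (π * x) ^ 2) hK
    (a := fun t => FF (flow VB t z) ^ 2 * fv (flow VB t z) * π⁻¹) (u := fun t => flow VB t z 4)
    (C := 1) (fun t => ?_) (fun t => s4_deriv h5 t) (s := s) ?_ t
  · rw [abs_mul]
    have h1 : |π⁻¹| ≤ 1 := by
      rw [abs_of_pos (by positivity)]
      exact inv_le_one_of_one_le₀ (by linarith [Real.pi_gt_three])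
    calc |FF (flow VB t z) ^ 2 * fv (flow VB t z)| * |π⁻¹| ≤ 1 * 1 :=
          mul_le_mul (s4_bound _) h1 (abs_nonneg _) zero_le_one
      _ = 1 := one_mul 1
  · show cos (π * flow VB s z 4) ^ 2 = 0
    rw [h]; norm_num

/-- `cos^2 (π z_4)` along a slow orbit, if `cos (π z_4) ≠ 0` at one time -/
theorem cos_ratio {z : Fin 6 → ℝ} (h5 : z 5 = 1 / 2) (hc : cos (π * z 4) ≠ 0) :
    (∀ t, cos (π * flow VB t z 4) ≠ 0) ∧
    (∀ t, HasDerivAt (fun t => cos (π * flow VB t z 4) ^ 2)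
      (FF (flow VB t z) ^ 2 * -(sin (2 * π * flow VB t z 4) * fv (flow VB t z)) *
        cos (π * flow VB t z 4) ^ 2) t) ∧
    ∀ s t, 0 ≤ s → s ≤ t →
      cos (π * flow VB t z 4) ^ 2 ≤ 2 * (1 + t ^ 2) * cos (π * flow VB s z 4) ^ 2 := by
  have hne : ∀ t, cos (π * flow VB t z 4) ≠ 0 := by
    intro t ht
    have h1 := s4_const h5 ht 0
    rw [good_VB.flow_zero] at h1
    rw [← h1] at ht
    exact hc ht
  refine ⟨hne, fun t => ?_, fun s t hs hst => ?_⟩
  · have h1 := ((s4_deriv h5 t).const_mul π).cos.pow 2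
    refine h1.congr_deriv ?_
    have h2 : sin (2 * π * flow VB t z 4) =
        2 * sin (π * flow VB t z 4) * cos (π * flow VB t z 4) := by
      rw [← sin_two_mul]; ring_nf
    rw [h2]
    have hpi : π * π⁻¹ = 1 := mul_inv_cancel₀ Real.pi_ne_zero
    simp only [Nat.cast_ofNat, Nat.add_one_sub_one, pow_one]
    calc _ = (π * π⁻¹) * (2 * cos (π * flow VB t z 4) * -sin (π * flow VB t z 4) *
          (FF (flow VB t z) ^ 2 * fv (flow VB t z) * cos (π * flow VB t z 4) ^ 2)) := by ring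
      _ = _ := by rw [hpi]; ring
  · have hd : ∀ r, HasDerivAt (fun r => tan (π * flow VB r z 4))
        (FF (flow VB r z) ^ 2 * fv (flow VB r z)) r := by
      intro r
      have h1 := ((Real.hasDerivAt_tan (hne r))).comp r ((s4_deriv h5 r).const_mul π)
      refine h1.congr_deriv ?_
      have hr := hne r
      field_simp
    have hlip : |tan (π * flow VB t z 4) - tan (π * flow VB s z 4)| ≤ 1 * |t - s| := by
      have h := Convex.norm_image_sub_le_of_norm_hasDerivWithin_le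
        (f := fun r => tan (π * flow VB r z 4))
        (f' := fun r => FF (flow VB r z) ^ 2 * fv (flow VB r z)) (C := 1) (s := univ)
        (x := s) (y := t) (fun r _ => (hd r).hasDerivWithinAt)
        (fun r _ => by rw [Real.norm_eq_abs]; exact s4_bound _) convex_univ trivial trivial
      simpa [Real.norm_eq_abs] using h
    set a := tan (π * flow VB s z 4) with ha
    set b := tan (π * flow VB t z 4) with hb
    have hab : (a - b) ^ 2 ≤ t ^ 2 := by
      have h1 : |a - b| ≤ |t| := by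
        rw [abs_sub_comm, abs_of_nonneg (hs.trans hst)]
        have h2 : |t - s| = t - s := abs_of_nonneg (by linarith)
        rw [one_mul, h2] at hlip
        linarith
      exact sq_le_sq' (by linarith [neg_abs_le (a - b), abs_of_nonneg (hs.trans hst)])
        (by linarith [le_abs_self (a - b), abs_of_nonneg (hs.trans hst)])
    have hs' : cos (π * flow VB s z 4) ^ 2 = 1 / (1 + a ^ 2) := by
      rw [ha, one_div, ← Real.inv_one_add_tan_sq (hne s)]
    have ht' : cos (π * flow VB t z 4) ^ 2 = 1 / (1 + b ^ 2) := by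
      rw [hb, one_div, ← Real.inv_one_add_tan_sq (hne t)]
    rw [hs', ht', mul_one_div, div_le_div_iff₀ (by positivity) (by positivity)]
    nlinarith [sq_nonneg (a - 2 * b), sq_nonneg (t * b), sq_nonneg t, sq_nonneg b]

theorem cos_zero {z : Fin 6 → ℝ} (h5 : z 5 = 1 / 2) (hc : cos (π * z 4) = 0) (t : ℝ) :
    cos (π * flow VB t z 4) = 0 := by
  have h0 : cos (π * flow VB 0 z 4) = 0 := by rw [good_VB.flow_zero]; exact hc
  rw [s4_const h5 h0 t]
  exact h0
-- END s4

-- BEGIN s5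
theorem VD_tan {x : ℝ} (h : cos x ≠ 0) : VD (tan x) = sin (2 * x) * cos x ^ 2 := by
  have h1 : 1 + tan x ^ 2 = (cos x ^ 2)⁻¹ := by
    rw [← inv_one_add_tan_sq h, inv_inv]
  rw [VD, h1, tan_eq_sin_div_cos, sin_two_mul]
  field_simp

theorem s5_cos {z : Fin 6 → ℝ} (h5 : z 5 = 1 / 2) : cos (π * z 5) = 0 := by
  rw [h5, mul_one_div, cos_pi_div_two]

/-- the forcing term along the orbit -/
noncomputable def s5_f (z : Fin 6 → ℝ) (t : ℝ) : ℝ := RR (z 0 + t) (z 1 + rz (z 2) * t) (z 2)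

theorem s5_cont (z : Fin 6 → ℝ) : Continuous (s5_f z) := by
  have h : Continuous fun t : ℝ => ((z 0 + t, z 1 + rz (z 2) * t, z 2) : ℝ × ℝ × ℝ) := by
    fun_prop
  have h2 := Continuous.comp (g := fun p : ℝ × ℝ × ℝ => RR p.1 p.2.1 p.2.2) RR_cont h
  exact h2

theorem s5_level {z : Fin 6 → ℝ} {n : ℕ} (hn : sin (π * z 2) ^ 2 = sg n) (t : ℝ) :
    s5_f z t = fl GG n (ph n z) (z 0 + t) + zt n (sg n) * GG n (ph n z) := by
  have hq : (qq n : ℝ) ≠ 0 := by
    have := qq_pos n
    positivity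
  have h1 : (qq n : ℝ) * (z 1 + rz (z 2) * t) - pp n * (z 0 + t) = ph n z := by
    rw [rz_level hn, rn_eq, ph]
    field_simp
    ring
  rw [s5_f, RR_level hn, h1]

theorem s5_per {z : Fin 6 → ℝ} {n : ℕ} (hn : sin (π * z 2) ^ 2 = sg n) (t : ℝ) :
    s5_f z (t + qq n) = s5_f z t := by
  have hq : (qq n : ℝ) ≠ 0 := by
    have := qq_pos n
    positivity
  have h := RR_per ![(qq n : ℤ), (pp n : ℤ), 0, 0, 0, 0]
    ![z 0 + t, z 1 + rz (z 2) * t, z 2, 0, 0, 0]
  simp only [tr] at h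
  have e0 : (![z 0 + t, z 1 + rz (z 2) * t, z 2, 0, 0, 0] : Fin 6 → ℝ) 0 = z 0 + t := rfl
  have e1 : (![z 0 + t, z 1 + rz (z 2) * t, z 2, 0, 0, 0] : Fin 6 → ℝ) 1 =
    z 1 + rz (z 2) * t := rfl
  have e2 : (![z 0 + t, z 1 + rz (z 2) * t, z 2, 0, 0, 0] : Fin 6 → ℝ) 2 = z 2 := rfl
  have f0 : (![(qq n : ℤ), (pp n : ℤ), 0, 0, 0, 0] : Fin 6 → ℤ) 0 = qq n := rfl
  have f1 : (![(qq n : ℤ), (pp n : ℤ), 0, 0, 0, 0] : Fin 6 → ℤ) 1 = pp n := rfl
  have f2 : (![(qq n : ℤ), (pp n : ℤ), 0, 0, 0, 0] : Fin 6 → ℤ) 2 = 0 := rfl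
  rw [e0, e1, e2, f0, f1, f2] at h
  rw [s5_f, s5_f, ← h]
  congr 1
  · push_cast
    ring
  · rw [rz_level hn, rn_eq]
    push_cast
    field_simp
    ring
  · push_cast
    ring

/-- `V'` averages to zero along the fibre, at nonresonant and at resonant levels -/
theorem fibre_avg {z : Fin 6 → ℝ} (h5 : z 5 = 1 / 2) (h2 : sin (π * z 2) ≠ 0)
    (hc : cos (π * z 4) ≠ 0) : ∀ δ > (0 : ℝ), ∃ C : ℝ, ∀ t, 0 ≤ t →
    |∫ s in (0 : ℝ)..t, VD (YY z s)| ≤ δ * t + C := by
  have h5' := s5_cos h5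
  have hY := hasDerivAt_YY h5' hc
  intro δ hδ
  by_cases hn : ∃ n, sin (π * z 2) ^ 2 = sg n
  · obtain ⟨n, hn⟩ := hn
    have hq0 : (0 : ℝ) < qq n := by
      have := qq_pos n
      positivity
    have hB : sin (π * z 2) ^ 4 = BB n := by
      rw [BB, ← hn]
      ring
    obtain ⟨C, hC⟩ := ret_avg (B := BB n) (q := qq n) (lam := 0) (f := s5_f z) (u := YY z) hq0
      (s5_cont z) (s5_per hn) (fun t => by
        refine (hY t).congr_deriv ?_
        rw [hB, s5_f]
        ring) (fun w hw hwp => by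
        have hps : PSol GG (GG n) n (ph n z) (fun t => w (t - z 0)) := by
          refine ⟨fun t => ?_, fun t => ?_⟩
          · have h1 := (hw (t - z 0)).comp_sub_const t (z 0)
            refine h1.congr_deriv ?_
            rw [s5_level hn, add_sub_cancel]
            ring
          · have h1 := hwp (t - z 0)
            have h3 : t + (qq n : ℝ) - z 0 = t - z 0 + qq n := by ring
            simp only [h3, h1]
        have h1 := ((GG_spec n).2.2 (ph n z) _ hps).2.1
        have hper : Function.Periodic (fun t => VD (w t)) (qq n : ℝ) := fun t => by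
          simp only
          rw [hwp]
        have h3 := hper.intervalIntegral_add_eq (-z 0) 0
        rw [zero_add] at h3
        rw [← h3, ← h1]
        rw [intervalIntegral.integral_comp_sub_right (fun t => VD (w t)) (z 0)]
        congr 1
        · ring
        · ring) δ hδ
    refine ⟨C, fun t ht => ?_⟩
    have h1 := hC 0 t le_rfl ht
    rwa [sub_zero] at h1
  · push Not at hn
    have hcY : Continuous (YY z) := continuous_iff_continuousAt.2 fun t => (hY t).continuousAt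
    obtain ⟨C, hC⟩ := esc_avg hcY
      (tendsto_abs_atTop_atTop.comp (YY_tendsto h5' hc h2 hn)) δ hδ
    refine ⟨C, fun t ht => ?_⟩
    have h1 := hC 0 t le_rfl ht
    rwa [sub_zero] at h1
-- END s5

-- BEGIN s6
private theorem s6_deriv (z : Fin 6 → ℝ) (t : ℝ) :
    HasDerivAt (fun t => flow VB t z 0 - z 0) (FF (flow VB t z) ^ 2) t :=
  (spd_B.hasDerivAt_zero z t).sub_const _

private theorem s6_tc (z : Fin 6 → ℝ) (t : ℝ) :
    flow VB t z = flow XX (flow VB t z 0 - z 0) z := spd_B.tc z t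

private theorem s6_gv {z : Fin 6 → ℝ} (h5 : z 5 = 1 / 2) (hc : cos (π * z 4) ≠ 0) (u : ℝ) :
    gv (flow XX u z) = sin (π * z 2) ^ 4 * VD (YY z u) := by
  have hc5 : cos (π * z 5) = 0 := by
    rw [h5, mul_one_div]; exact cos_pi_div_two
  have h1 := (K2_coord hc5 u).2.1
  have h2 := VD_tan (K2_cos hc5 hc u)
  unfold gv YY
  rw [h1, h2, mul_assoc 2 π]

private theorem s6_subst {g : ℝ → ℝ} (hg : Continuous g) (z : Fin 6 → ℝ) (t : ℝ) :
    ∫ s in (0 : ℝ)..t, FF (flow VB s z) ^ 2 * g (flow VB s z 0 - z 0) =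
      ∫ u in (0 : ℝ)..(flow VB t z 0 - z 0), g u := by
  have hcont : Continuous fun s => FF (flow VB s z) ^ 2 :=
    (FF_cont.comp (continuous_iff_continuousAt.2 fun s =>
      (good_VB.hasDerivAt_flow z s).continuousAt)).pow 2
  have h := intervalIntegral.integral_comp_mul_deriv (a := 0) (b := t)
    (f := fun s => flow VB s z 0 - z 0) (f' := fun s => FF (flow VB s z) ^ 2) (g := g)
    (fun s _ => s6_deriv z s) hcont.continuousOn hg
  simp only [good_VB.flow_zero, sub_self] at h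
  rw [← h]
  refine intervalIntegral.integral_congr fun s _ => ?_
  simp only [Function.comp_apply]
  ring

private theorem s6_clock (z : Fin 6 → ℝ) {t : ℝ} (ht : 0 ≤ t) :
    0 ≤ flow VB t z 0 - z 0 ∧ flow VB t z 0 - z 0 ≤ t := by
  have hd : ∀ s, HasDerivAt (fun t => flow VB t z 0 - z 0) (FF (flow VB s z) ^ 2) s := s6_deriv z
  have hdiff : Differentiable ℝ fun t => flow VB t z 0 - z 0 := fun s => (hd s).differentiableAt
  have hmono : Monotone fun t => flow VB t z 0 - z 0 :=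
    monotone_of_deriv_nonneg hdiff fun s => by rw [(hd s).deriv]; positivity
  have hmono2 : Monotone fun t => t - (flow VB t z 0 - z 0) := by
    refine monotone_of_deriv_nonneg (differentiable_id.sub hdiff) fun s => ?_
    have hh : HasDerivAt (fun t => t - (flow VB t z 0 - z 0)) (1 - FF (flow VB s z) ^ 2) s :=
      (hasDerivAt_id s).sub (hd s)
    rw [hh.deriv]
    have := hB_le (flow VB s z)
    unfold hB at this
    linarith
  have h1 := hmono ht
  have h2 := hmono2 ht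
  simp only [good_VB.flow_zero, sub_self] at h1 h2
  exact ⟨h1, by linarith⟩

/-- the same in the time of the slow flow -/
theorem slow_avg {z : Fin 6 → ℝ} (h5 : z 5 = 1 / 2) (h2 : sin (π * z 2) ≠ 0) :
    ∀ δ > (0 : ℝ), ∃ C : ℝ, ∀ t, 0 ≤ t →
    |∫ s in (0 : ℝ)..t, FF (flow VB s z) ^ 2 * gv (flow VB s z)| ≤ δ * t + C := by
  intro δ hδ
  by_cases hc : cos (π * z 4) = 0
  · refine ⟨0, fun t ht => ?_⟩
    have h0 : ∀ s, FF (flow VB s z) ^ 2 * gv (flow VB s z) = 0 := by
      intro s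
      unfold gv
      rw [cos_zero h5 hc s]
      ring
    simp only [h0, intervalIntegral.integral_zero, abs_zero, add_zero]
    positivity
  · obtain ⟨C, hC⟩ := fibre_avg h5 h2 hc δ hδ
    have hC0 : 0 ≤ C := by simpa using hC 0 le_rfl
    refine ⟨C, fun t ht => ?_⟩
    have hc5 : cos (π * z 5) = 0 := by
      rw [h5, mul_one_div]; exact cos_pi_div_two
    have hYc : Continuous (YY z) :=
      continuous_iff_continuousAt.2 fun s => (hasDerivAt_YY hc5 hc s).continuousAt
    have hg : Continuous fun u => sin (π * z 2) ^ 4 * VD (YY z u) :=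
      continuous_const.mul (contDiff_VD.continuous.comp hYc)
    have he : ∀ s, FF (flow VB s z) ^ 2 * gv (flow VB s z) =
        FF (flow VB s z) ^ 2 *
          (fun u => sin (π * z 2) ^ 4 * VD (YY z u)) (flow VB s z 0 - z 0) := by
      intro s
      have h3 : gv (flow VB s z) = sin (π * z 2) ^ 4 * VD (YY z (flow VB s z 0 - z 0)) := by
        rw [s6_tc z s, s6_gv h5 hc, ← s6_tc z s]
      rw [h3]
    rw [intervalIntegral.integral_congr (fun s _ => he s), s6_subst hg z t,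
      intervalIntegral.integral_const_mul, abs_mul]
    obtain ⟨hτ0, hτ1⟩ := s6_clock z ht
    have h4 := hC _ hτ0
    have h5' : |sin (π * z 2) ^ 4| ≤ 1 := by
      rw [abs_pow]
      exact pow_le_one₀ (abs_nonneg _) (abs_sin_le_one _)
    calc |sin (π * z 2) ^ 4| * |∫ u in (0 : ℝ)..(flow VB t z 0 - z 0), VD (YY z u)|
        ≤ 1 * |∫ u in (0 : ℝ)..(flow VB t z 0 - z 0), VD (YY z u)| :=
          mul_le_mul_of_nonneg_right h5' (abs_nonneg _)
      _ ≤ δ * (flow VB t z 0 - z 0) + C := by rw [one_mul]; exact h4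
      _ ≤ δ * t + C := by nlinarith
-- END s6

-- BEGIN s7
theorem s7_cont (z : Fin 6 → ℝ) :
    Continuous fun t => FF (flow VB t z) ^ 2 * gv (flow VB t z) := by
  have h1 : Continuous fun t => flow VB t z := good_VB.continuous_flow z
  have h2 : Continuous gv := by
    unfold gv
    fun_prop
  exact ((FF_cont.comp h1).pow 2).mul (h2.comp h1)

theorem s7_g4 {z : Fin 6 → ℝ} (hc : cos (π * z 4) = 0) : g4 z = 0 := by
  have h : sin (2 * π * z 4) = 0 := by
    rw [mul_assoc, sin_two_mul, hc, mul_zero]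
  rw [g4, gv, h]
  ring

/-- the integrating factor of `z_4` -/
theorem factor_four {z : Fin 6 → ℝ} (h5 : z 5 = 1 / 2) (h2 : sin (π * z 2) ≠ 0) {δ : ℝ}
    (hδ : 0 < δ) : ∃ A ≥ (1 : ℝ), ∃ m : ℝ → ℝ,
    (∀ t, HasDerivAt m (FF (flow VB t z) ^ 2 * g4 (flow VB t z) * m t) t) ∧ (∀ t, 0 < m t) ∧
    ∀ s t, 0 ≤ s → s ≤ t → m t ≤ A * (1 + t ^ 2) * exp (δ * t) * m s := by
  by_cases hc : cos (π * z 4) = 0
  · refine ⟨1, le_rfl, fun _ => 1, fun t => ?_, fun _ => one_pos, fun s t hs hst => ?_⟩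
    · rw [s7_g4 (cos_zero h5 hc t), mul_zero, zero_mul]
      exact hasDerivAt_const t 1
    · have h1 : 1 ≤ exp (δ * t) := one_le_exp (mul_nonneg hδ.le (hs.trans hst))
      have h3 : 1 ≤ 1 + t ^ 2 := by nlinarith [sq_nonneg t]
      rw [one_mul, mul_one]
      exact one_le_mul_of_one_le_of_one_le h3 h1
  · obtain ⟨C, hC⟩ := slow_avg h5 h2 (δ / 2) (by positivity)
    obtain ⟨hne, hder, hrat⟩ := cos_ratio h5 hc
    set I : ℝ → ℝ := fun t => ∫ s in (0 : ℝ)..t, FF (flow VB s z) ^ 2 * gv (flow VB s z) with hI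
    have hId : ∀ t, HasDerivAt I (FF (flow VB t z) ^ 2 * gv (flow VB t z)) t := fun t =>
      ((s7_cont z).integral_hasStrictDerivAt 0 t).hasDerivAt
    refine ⟨2 * exp (2 * |C|), ?_, fun t => cos (π * flow VB t z 4) ^ 2 * exp (I t),
      fun t => ?_, fun t => ?_, fun s t hs hst => ?_⟩
    · have : 1 ≤ exp (2 * |C|) := one_le_exp (by positivity)
      show (1 : ℝ) ≤ _
      linarith
    · refine ((hder t).fun_mul (hId t).exp).congr_deriv ?_
      rw [g4]
      ring
    · have := hne t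
      positivity
    · have ht : 0 ≤ t := hs.trans hst
      have h1 : I t ≤ I s + (δ * t + 2 * |C|) := by
        have h3 := (abs_le.1 (hC t ht)).2
        have h4 := (abs_le.1 (hC s hs)).1
        have h6 := le_abs_self C
        change I t ≤ _ at h3
        change _ ≤ I s at h4
        nlinarith
      have h3 : exp (I t) ≤ exp (I s) * (exp (δ * t) * exp (2 * |C|)) := by
        rw [← exp_add, ← exp_add]
        exact exp_le_exp.2 h1
      have h4 := hrat s t hs hst
      calc cos (π * flow VB t z 4) ^ 2 * exp (I t)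
          ≤ (2 * (1 + t ^ 2) * cos (π * flow VB s z 4) ^ 2) *
            (exp (I s) * (exp (δ * t) * exp (2 * |C|))) :=
            mul_le_mul h4 h3 (exp_pos _).le (by positivity)
        _ = 2 * exp (2 * |C|) * (1 + t ^ 2) * exp (δ * t) *
            (cos (π * flow VB s z 4) ^ 2 * exp (I s)) := by ring
-- END s7

-- BEGIN s8
private theorem s8_low (w : Fin 6 → ℝ) : sin (π * w 2) ^ 2 / 12 ≤ FF w := by
  unfold FF
  have h0 := sq_nonneg (sin (π * w 0))
  have h1 := sq_nonneg (sin (π * w 1))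
  linarith

private theorem s8_up (w : Fin 6 → ℝ) : FF w ≤ 1 / 4 := by
  unfold FF
  have h0 := sin_sq_le_one (π * w 0)
  have h1 := sin_sq_le_one (π * w 1)
  have h2 := sin_sq_le_one (π * w 2)
  linarith

private theorem s8_one {δ t : ℝ} (hδ : 0 < δ) (ht : 0 ≤ t) : 1 ≤ (1 + t ^ 2) * exp (δ * t) := by
  have h1 : 1 ≤ exp (δ * t) := by
    rw [← Real.exp_zero]
    exact Real.exp_le_exp.mpr (by positivity)
  have h2 : (1 : ℝ) ≤ 1 + t ^ 2 := by nlinarith [sq_nonneg t]
  nlinarith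

/-- all integrating factors -/
theorem factors {z : Fin 6 → ℝ} (h5 : z 5 = 1 / 2) (h2 : sin (π * z 2) ≠ 0) {δ : ℝ}
    (hδ : 0 < δ) : ∃ A ≥ (1 : ℝ), ∃ m : Fin 6 → ℝ → ℝ,
    (∀ i t, HasDerivAt (m i) (dg (flow VB t z) i * m i t) t) ∧ (∀ i t, 0 < m i t) ∧
    ∀ i s t, 0 ≤ s → s ≤ t → m i t ≤ A * (1 + t ^ 2) * exp (δ * t) * m i s := by
  obtain ⟨A4, hA4, m4, hd4, hp4, hb4⟩ := factor_four h5 h2 hδ
  obtain ⟨m3, hd3, hp3, hb3⟩ := factor_three h5
  set c : ℝ := sin (π * z 2) ^ 2 / 12 with hc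
  have hc0 : 0 < c := by rw [hc]; positivity
  have hlow : ∀ t, c ≤ FF (flow VB t z) := by
    intro t
    have := s8_low (flow VB t z)
    rwa [VB_two h5] at this
  have hFpos : ∀ t, 0 < FF (flow VB t z) := fun t => lt_of_lt_of_le hc0 (hlow t)
  set A : ℝ := A4 + 2 + 1 / (16 * c ^ 2) with hA
  have hq : 0 < 1 / (16 * c ^ 2) := by positivity
  have hA1 : 1 ≤ A := by rw [hA]; linarith
  have hgen : ∀ {B s t x y : ℝ}, 0 ≤ s → s ≤ t → 0 < y → 0 ≤ B → B ≤ A → x ≤ B * y →
      x ≤ A * (1 + t ^ 2) * exp (δ * t) * y := by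
    intro B s t x y hs hst hy hB hBA hx
    have h1 := s8_one hδ (hs.trans hst)
    calc x ≤ B * y := hx
      _ ≤ A * y := by nlinarith
      _ = A * 1 * y := by ring
      _ ≤ A * ((1 + t ^ 2) * exp (δ * t)) * y := by
          have : 0 ≤ A := by linarith
          gcongr
      _ = A * (1 + t ^ 2) * exp (δ * t) * y := by ring
  refine ⟨A, hA1, ![fun _ => 1, fun _ => 1, fun _ => 1, fun t => FF (flow VB t z) ^ 2, m4, m3],
    ?_, ?_, ?_⟩
  · intro i t
    fin_cases i
    · show HasDerivAt (fun _ : ℝ => (1 : ℝ)) (0 * 1) t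
      rw [zero_mul]; exact hasDerivAt_const t 1
    · show HasDerivAt (fun _ : ℝ => (1 : ℝ)) (0 * 1) t
      rw [zero_mul]; exact hasDerivAt_const t 1
    · show HasDerivAt (fun _ : ℝ => (1 : ℝ)) (0 * 1) t
      rw [zero_mul]; exact hasDerivAt_const t 1
    · exact factor_zero h5 t
    · exact hd4 t
    · exact hd3 t
  · intro i t
    fin_cases i
    · exact one_pos
    · exact one_pos
    · exact one_pos
    · exact pow_pos (hFpos t) 2
    · exact hp4 t
    · exact hp3 t
  · intro i s t hs hst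
    have h11 : (1 : ℝ) ≤ 1 * 1 := by norm_num
    fin_cases i
    · exact hgen (x := 1) (y := 1) hs hst one_pos zero_le_one hA1 h11
    · exact hgen (x := 1) (y := 1) hs hst one_pos zero_le_one hA1 h11
    · exact hgen (x := 1) (y := 1) hs hst one_pos zero_le_one hA1 h11
    · refine hgen (B := 1 / (16 * c ^ 2)) (x := FF (flow VB t z) ^ 2)
        (y := FF (flow VB s z) ^ 2) hs hst (pow_pos (hFpos s) 2) hq.le ?_ ?_
      · rw [hA]; linarith
      · have e1 : FF (flow VB t z) ^ 2 ≤ (1 / 4) ^ 2 :=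
          pow_le_pow_left₀ (hFpos t).le (s8_up _) 2
        have e2 : c ^ 2 ≤ FF (flow VB s z) ^ 2 := pow_le_pow_left₀ hc0.le (hlow s) 2
        calc FF (flow VB t z) ^ 2 ≤ (1 / 4) ^ 2 := e1
          _ = 1 / (16 * c ^ 2) * c ^ 2 := by field_simp; norm_num
          _ ≤ 1 / (16 * c ^ 2) * FF (flow VB s z) ^ 2 := by gcongr
    · show m4 t ≤ A * (1 + t ^ 2) * exp (δ * t) * m4 s
      refine (hb4 s t hs hst).trans ?_
      have : A4 ≤ A := by rw [hA]; linarith
      have h0 := (hp4 s).le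
      gcongr
    · show m3 t ≤ A * (1 + t ^ 2) * exp (δ * t) * m3 s
      refine (hb3 s t hs hst).trans ?_
      have h2A : 2 ≤ A := by rw [hA]; linarith
      have h0 := (hp3 s).le
      have h1 : 1 ≤ exp (δ * t) := by
        rw [← Real.exp_zero]
        exact Real.exp_le_exp.mpr (mul_nonneg hδ.le (hs.trans hst))
      calc 2 * (1 + t ^ 2) * m3 s = 2 * (1 + t ^ 2) * 1 * m3 s := by ring
        _ ≤ A * (1 + t ^ 2) * exp (δ * t) * m3 s := by gcongr

/-- the numerical choice of `T` -/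
theorem exists_time {A b δ : ℝ} (hA : 1 ≤ A) (hb : 0 ≤ b) (hδ : 0 < δ) : ∃ T : ℕ, 1 ≤ T ∧
    8 * (2 * (A * (1 + (T : ℝ) ^ 2) * exp (δ / 12 * T)) * (1 + b * T)) ^ 6 ≤ exp (δ * T) := by
  set C : ℝ := 8 * (4 * A * (1 + b)) ^ 6 / (δ / 2) ^ 18 with hC
  have hA0 : 0 < A := by linarith
  have hC0 : 0 < C := by rw [hC]; positivity
  have hlim : Tendsto (fun T : ℕ => (δ / 2 * (T : ℝ)) ^ 18 * exp (-(δ / 2 * (T : ℝ)))) atTop
      (𝓝 0) := by
    have h1 := Real.tendsto_pow_mul_exp_neg_atTop_nhds_zero 18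
    refine h1.comp ?_
    exact Tendsto.const_mul_atTop (by positivity) tendsto_natCast_atTop_atTop
  have hev := (hlim.eventually_lt_const (show (0 : ℝ) < 1 / C by positivity)).and
    (eventually_ge_atTop 1)
  obtain ⟨T, hT, hT1⟩ := hev.exists
  refine ⟨T, hT1, ?_⟩
  have hT1' : (1 : ℝ) ≤ T := by exact_mod_cast hT1
  have hT0 : (0 : ℝ) < T := by linarith
  have e1 : (1 : ℝ) + (T : ℝ) ^ 2 ≤ 2 * (T : ℝ) ^ 2 := by nlinarith
  have e2 : 1 + b * T ≤ (1 + b) * T := by nlinarith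
  have e3 : (exp (δ / 12 * T)) ^ 6 = exp (δ / 2 * T) := by
    rw [← Real.exp_nat_mul]
    congr 1
    push_cast
    ring
  have e4 : 8 * (2 * (A * (2 * (T : ℝ) ^ 2) * exp (δ / 12 * T)) * ((1 + b) * T)) ^ 6 =
      C * (δ / 2 * T) ^ 18 * exp (δ / 2 * T) := by
    rw [hC, ← e3]
    field_simp
    ring
  calc 8 * (2 * (A * (1 + (T : ℝ) ^ 2) * exp (δ / 12 * T)) * (1 + b * T)) ^ 6
      ≤ 8 * (2 * (A * (2 * (T : ℝ) ^ 2) * exp (δ / 12 * T)) * ((1 + b) * T)) ^ 6 := by
        gcongr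
    _ = C * (δ / 2 * T) ^ 18 * exp (δ / 2 * T) := e4
    _ = C * ((δ / 2 * T) ^ 18 * exp (-(δ / 2 * T))) * exp (δ * T) := by
        have : exp (δ / 2 * T) = exp (-(δ / 2 * T)) * exp (δ * T) := by
          rw [← Real.exp_add]
          congr 1
          ring
        rw [this]
        ring
    _ ≤ C * (1 / C) * exp (δ * T) := by
        gcongr
    _ = exp (δ * T) := by
        rw [mul_one_div_cancel hC0.ne', one_mul]
-- END s8

-- BEGIN s9
theorem s9_ec {r : ℝ} {x : ℝ → Fin 6 → ℝ} {x' : Fin 6 → ℝ} {t : ℝ} (h : HasDerivAt x x' t)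
    (i : Fin 6) : HasDerivAt (fun s => ec r (x s) i) (ec r x' i) t := by
  have h' := hasDerivAt_pi.1 h
  fin_cases i
  · exact h' 5
  · exact h' 2
  · exact (h' 1).sub ((h' 0).const_mul r)
  · exact h' 0
  · exact h' 4
  · exact h' 3

/-- (6.6) -/
theorem PL_generic {z : Fin 6 → ℝ} (h5 : z 5 = 1 / 2) (h2 : sin (π * z 2) ≠ 0) : PL VB z := by
  intro δ hδ
  obtain ⟨b, hb, hrow⟩ := ec_rows
  obtain ⟨A, hA, m, hm, hmpos, hmr⟩ := factors h5 h2 (δ := δ / 12) (by positivity)
  obtain ⟨T, hT1, hT⟩ := exists_time hA hb hδ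
  have hT0 : (1 : ℝ) ≤ T := by exact_mod_cast hT1
  set E : ℝ := A * (1 + (T : ℝ) ^ 2) * exp (δ / 12 * T) with hEdef
  have hE : 1 ≤ E := by
    have h1 : 1 ≤ 1 + (T : ℝ) ^ 2 := by nlinarith [sq_nonneg (T : ℝ)]
    have h3 : 1 ≤ exp (δ / 12 * T) := one_le_exp (by positivity)
    have h4 : 1 ≤ A * (1 + (T : ℝ) ^ 2) := one_le_mul_of_one_le_of_one_le hA h1
    exact one_le_mul_of_one_le_of_one_le h4 h3
  set Q : ℝ := (2 * E * (1 + b * T)) ^ 6 with hQdef
  have hQ : 0 < Q := by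
    have : 0 < E := by linarith
    positivity
  set ε : ℝ := 1 / (8 * (Q * T)) with hεdef
  have hε : 0 < ε := by positivity
  obtain ⟨r, hr, hlin⟩ := linearize good_VB z (T := T) (ε := ε) (by linarith) hε
  refine ⟨T, hT1, r, hr, fun w w' hw hw' => ?_⟩
  have hr0 : |rz (z 2)| ≤ 1 := abs_rz_le _
  have key := triangular (n := 6) (T := T) (E := E) (b := b) (eps := 4 * ε) (by linarith) hE hb
    (by positivity) (fun t => ec (rz (z 2)) (flow VB t w - flow VB t w'))
    (fun t => ec (rz (z 2)) (VB (flow VB t w) - VB (flow VB t w'))) m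
    (fun i t => dg (flow VB t z) i * m i t)
    (fun t _ i => s9_ec ((good_VB.hasDerivAt_flow w t).fun_sub (good_VB.hasDerivAt_flow w' t)) i)
    (fun t _ i => hm i t) (fun t _ i => hmpos i t) ?_ ?_ ?_ T ⟨by linarith, le_rfl⟩
  · simp only [good_VB.flow_zero] at key
    have h1 := norm_le_ec hr0 (flow VB T w - flow VB T w')
    have h3 := norm_ec_le hr0 (w - w')
    have h4 : 8 * Q ≤ exp (δ * T) := by
      rw [hQdef, hEdef]
      exact hT
    calc ‖flow VB T w - flow VB T w'‖ ≤ 2 * ‖ec (rz (z 2)) (flow VB T w - flow VB T w')‖ := h1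
      _ ≤ 2 * (2 * Q * (2 * ‖w - w'‖)) := by
          refine mul_le_mul_of_nonneg_left (key.trans ?_) (by norm_num)
          exact mul_le_mul_of_nonneg_left h3 (by positivity)
      _ = 8 * Q * ‖w - w'‖ := by ring
      _ ≤ exp (δ * T) * ‖w - w'‖ := mul_le_mul_of_nonneg_right h4 (norm_nonneg _)
  · intro i s t hs hst htT
    have h1 := hmr i s t hs hst
    have h3 := hmpos i s
    refine h1.trans (mul_le_mul_of_nonneg_right ?_ h3.le)
    have ht : 0 ≤ t := hs.trans hst
    rw [hEdef]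
    have h4 : exp (δ / 12 * t) ≤ exp (δ / 12 * T) := exp_le_exp.2 (by nlinarith)
    have h6 : t ^ 2 ≤ (T : ℝ) ^ 2 := pow_le_pow_left₀ ht htT 2
    have hA0 : 0 ≤ A := by linarith
    gcongr
  · intro t ht i
    have hP5 := VB_five h5 t
    have hP2 := VB_two h5 t
    have h1 := hrow (flow VB t z) hP5 ε hε.le (flow VB t w - flow VB t w')
      (VB (flow VB t w) - VB (flow VB t w')) (hlin w w' hw hw' t ht) i
    rw [hP2] at h1
    have h3 : dg (flow VB t z) i * m i t / m i t = dg (flow VB t z) i :=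
      mul_div_cancel_right₀ _ (hmpos i t).ne'
    rw [h3]
    exact h1
  · have h1 : Q * (4 * ε) * T = 1 / 2 := by
      rw [hεdef]
      have hT2 : (T : ℝ) ≠ 0 := by positivity
      field_simp
      norm_num
    exact h1.le
-- END s9

-- BEGIN s10
theorem mono5_VB : Mono5 VB hB where
  good := good_VB
  cκ := hB_cont
  perκ := hB_per
  nonneg := hB_nonneg
  eq5 := fun z => by
    simp [VB, XX]

/-- `h(ψ') = 0` -/
theorem entropy_VB : Dynamics.coverEntropy (tflow VB 1) univ = 0 := by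
  refine entropy_zero_of_PL mono5_VB fun z hz => ?_
  rcases hz with hz | hz
  · obtain ⟨n, hn⟩ := Real.sin_eq_zero_iff.1 hz
    have h5 : z 5 = n / 2 := by
      have h1 : π * (z 5) = π * ((n : ℝ) / 2) := by linarith
      exact mul_left_cancel₀ pi_ne_zero h1
    rcases Int.even_or_odd' n with ⟨m, hm | hm⟩
    · have h6 : tr (Pi.single 5 (-m) : Fin 6 → ℤ) z 5 = 0 := by
        simp only [tr, Pi.single_eq_same]
        rw [h5, hm]
        push_cast
        ring
      exact (PL_tr good_VB (Pi.single 5 (-m) : Fin 6 → ℤ)).1 (PL_zero5 h6)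
    · have h6 : tr (Pi.single 5 (-m) : Fin 6 → ℤ) z 5 = 1 / 2 := by
        simp only [tr, Pi.single_eq_same]
        rw [h5, hm]
        push_cast
        ring
      refine (PL_tr good_VB (Pi.single 5 (-m) : Fin 6 → ℤ)).1 ?_
      by_cases h2 : sin (π * tr (Pi.single 5 (-m) : Fin 6 → ℤ) z 2) = 0
      · exact PL_sing h6 h2
      · exact PL_generic h6 h2
  · have hF : FF z = 0 := by
      by_contra hne
      have h1 : 0 < FF z := lt_of_le_of_ne (FF_nonneg z) (Ne.symm hne)
      exact (hB_pos h1).ne' hz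
    exact PL_fixed hF
-- END s10

end Pool.Agent.AnQ2
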