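import Mathlib
import Pool.Agent.MP_1a349f_an.Fields
import Pool.Agent.AnQ2.Kick

set_option autoImplicit false

/-!
# The two windows (page, section 1 and section 5)

`win c t = kc * cos (π (t - c)) ^ 32` is a trigonometric polynomial of period one and mean one,
concentrated near `c` modulo one; the page uses `a = ka = win (1/4)` and `b = kb = win (3/4)`.
-/

namespace Pool.Agent.AnQ2

open Set Filter Topology Real MeasureTheory
open Pool.Agent.MP_1a349f_an
open scoped ContDiff

/-- the window centred at `c` -/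
noncomputable def win (c t : ℝ) : ℝ := kc * cos (π * (t - c)) ^ 32

theorem ka_eq : ka = win (1 / 4) := rfl

theorem kb_eq : kb = win (3 / 4) := rfl

/-- its primitive -/
noncomputable def Win (c t : ℝ) : ℝ := ∫ s in (0 : ℝ)..t, win c s

theorem cos_pow_lower {t : ℝ} (h0 : 0 ≤ t) (h1 : t ≤ 1 / 40) : 1 / 2 ≤ cos (π * t) ^ 32 := by
  have h2 : 1 - (π * t) ^ 2 / 2 ≤ cos (π * t) := one_sub_sq_div_two_le_cos
  have hpi : π ≤ 3.15 := pi_lt_d2.le
  have hpi0 : 0 < π := pi_pos
  have h3 : π * t ≤ 3.15 / 40 := by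
    calc π * t ≤ 3.15 * (1 / 40) := mul_le_mul hpi h1 h0 (by norm_num)
      _ = 3.15 / 40 := by ring
  have h4 : (π * t) ^ 2 ≤ (3.15 / 40) ^ 2 := pow_le_pow_left₀ (by positivity) h3 2
  have h5 : (99 / 100 : ℝ) ≤ cos (π * t) := by
    refine le_trans ?_ h2
    have : (3.15 / 40 : ℝ) ^ 2 / 2 ≤ 1 / 100 := by norm_num
    linarith
  calc (1 / 2 : ℝ) ≤ (99 / 100) ^ 32 := by norm_num
    _ ≤ cos (π * t) ^ 32 := pow_le_pow_left₀ (by norm_num) h5 32

theorem cI_lower : 1 / 80 ≤ ∫ t in (0 : ℝ)..1, cos (π * t) ^ 32 := by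
  have hc : Continuous fun t : ℝ => cos (π * t) ^ 32 := by fun_prop
  have hi : ∀ a b : ℝ, IntervalIntegrable (fun t : ℝ => cos (π * t) ^ 32) volume a b :=
    fun a b => hc.intervalIntegrable a b
  have h1 : ∫ t in (0 : ℝ)..1, cos (π * t) ^ 32 =
      (∫ t in (0 : ℝ)..(1 / 40), cos (π * t) ^ 32) + ∫ t in (1 / 40 : ℝ)..1, cos (π * t) ^ 32 :=
    (intervalIntegral.integral_add_adjacent_intervals (hi _ _) (hi _ _)).symm
  have h2 : 0 ≤ ∫ t in (1 / 40 : ℝ)..1, cos (π * t) ^ 32 :=
    intervalIntegral.integral_nonneg (by norm_num) fun t _ => by positivity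
  have h3 : ∫ _t in (0 : ℝ)..(1 / 40), (1 / 2 : ℝ) ≤ ∫ t in (0 : ℝ)..(1 / 40), cos (π * t) ^ 32 :=
    intervalIntegral.integral_mono_on (by norm_num) (by simp) (hi _ _)
      fun t ht => cos_pow_lower ht.1 ht.2
  rw [intervalIntegral.integral_const] at h3
  have h4 : ((1 / 40 : ℝ) - 0) • (1 / 2 : ℝ) = 1 / 80 := by norm_num
  rw [h4] at h3
  rw [h1]
  linarith

theorem kc_pos : 0 < kc := by
  have := cI_lower
  unfold kc
  apply one_div_pos.2
  linarith

theorem kc_le : kc ≤ 80 := by
  have h := cI_lower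
  unfold kc
  rw [div_le_iff₀ (by linarith)]
  linarith

theorem contDiff_win (c : ℝ) : ContDiff ℝ ∞ (win c) := by
  unfold win
  exact contDiff_const.mul ((contDiff_const.mul (contDiff_id.sub contDiff_const)).cos.pow 32)

theorem continuous_win (c : ℝ) : Continuous (win c) := (contDiff_win c).continuous

theorem win_nonneg (c t : ℝ) : 0 ≤ win c t := by
  have := kc_pos
  unfold win
  positivity

theorem hasDerivAt_Win (c t : ℝ) : HasDerivAt (Win c) (win c t) t :=
  ((continuous_win c).integral_hasStrictDerivAt 0 t).hasDerivAt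

theorem cos_pow_add_int (t : ℝ) (k : ℤ) : cos (π * (t + k)) ^ 32 = cos (π * t) ^ 32 := by
  have h := cos_pi_add_int_sq t k
  calc cos (π * (t + k)) ^ 32 = (cos (π * (t + k)) ^ 2) ^ 16 := by ring
    _ = (cos (π * t) ^ 2) ^ 16 := by rw [h]
    _ = cos (π * t) ^ 32 := by ring

theorem win_add_int (c t : ℝ) (k : ℤ) : win c (t + k) = win c t := by
  unfold win
  have : t + k - c = t - c + k := by ring
  rw [this, cos_pow_add_int]

theorem win_add_nat (c t : ℝ) (k : ℕ) : win c (t + k) = win c t := by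
  have := win_add_int c t (k : ℤ)
  simpa using this

theorem Win_zero (c : ℝ) : Win c 0 = 0 := intervalIntegral.integral_same

theorem Win_sub (c a b : ℝ) : Win c b - Win c a = ∫ s in a..b, win c s := by
  unfold Win
  exact intervalIntegral.integral_interval_sub_left ((continuous_win c).intervalIntegrable _ _)
    ((continuous_win c).intervalIntegrable _ _)

theorem Win_mono (c : ℝ) {a b : ℝ} (h : a ≤ b) : Win c a ≤ Win c b := by
  have h1 : 0 ≤ Win c b - Win c a := by
    rw [Win_sub]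
    exact intervalIntegral.integral_nonneg h fun t _ => win_nonneg c t
  linarith

theorem Win_one (c : ℝ) : Win c 1 = 1 := by
  have hp : Function.Periodic (fun t : ℝ => cos (π * t) ^ 32) 1 := by
    intro t
    have := cos_pow_add_int t 1
    simpa using this
  have h1 : ∫ t in (0 : ℝ)..1, cos (π * (t - c)) ^ 32 = ∫ t in (0 : ℝ)..1, cos (π * t) ^ 32 := by
    rw [intervalIntegral.integral_comp_sub_right (fun t => cos (π * t) ^ 32) c]
    have h2 := hp.intervalIntegral_add_eq (0 - c) 0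
    have h3 : (0 : ℝ) - c + 1 = 1 - c := by ring
    rw [h3, zero_add] at h2
    exact h2
  unfold Win win
  rw [intervalIntegral.integral_const_mul, h1, kc, one_div]
  apply inv_mul_cancel₀
  have := cI_lower
  linarith

theorem cos_pow_upper {t : ℝ} (h : cos (2 * (π * t)) ≤ 0) : cos (π * t) ^ 32 ≤ (1 / 2) ^ 16 := by
  have h1 : cos (π * t) ^ 2 ≤ 1 / 2 := by
    rw [cos_sq]
    linarith
  calc cos (π * t) ^ 32 = (cos (π * t) ^ 2) ^ 16 := by ring
    _ ≤ (1 / 2) ^ 16 := pow_le_pow_left₀ (sq_nonneg _) h1 16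

theorem win_small {c t : ℝ} (h : cos (2 * (π * (t - c))) ≤ 0) : win c t ≤ 1 / 800 := by
  unfold win
  have h1 := cos_pow_upper h
  have h2 := kc_le
  have h3 := kc_pos
  calc kc * cos (π * (t - c)) ^ 32 ≤ 80 * (1 / 2) ^ 16 :=
        mul_le_mul h2 h1 (by positivity) (by norm_num)
    _ ≤ 1 / 800 := by norm_num

theorem Win_small {c a b : ℝ} (hab : a ≤ b) (h : ∀ t ∈ Icc a b, cos (2 * (π * (t - c))) ≤ 0) :
    Win c b - Win c a ≤ (b - a) / 800 := by
  rw [Win_sub]
  calc ∫ s in a..b, win c s ≤ ∫ _s in a..b, (1 / 800 : ℝ) :=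
        intervalIntegral.integral_mono_on hab ((continuous_win c).intervalIntegrable _ _)
          (by simp) fun t ht => win_small (h t ht)
    _ = (b - a) / 800 := by
      rw [intervalIntegral.integral_const, smul_eq_mul]
      ring

theorem contDiff_ka : ContDiff ℝ ∞ ka := contDiff_win _

theorem contDiff_kb : ContDiff ℝ ∞ kb := contDiff_win _

theorem ka_nonneg (t : ℝ) : 0 ≤ ka t := win_nonneg _ t

theorem kb_nonneg (t : ℝ) : 0 ≤ kb t := win_nonneg _ t

theorem ka_add_int (t : ℝ) (k : ℤ) : ka (t + k) = ka t := win_add_int _ t k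

theorem kb_add_int (t : ℝ) (k : ℤ) : kb (t + k) = kb t := win_add_int _ t k

/-- shifted by one half the two kicks are exchanged -/
theorem ka_half (t : ℝ) : ka (-(1 / 2) + t) = win (3 / 4) t := by
  rw [ka_eq]
  unfold win
  have : -(1 / 2) + t - 1 / 4 = t - 3 / 4 := by ring
  rw [this]

theorem kb_half (t : ℝ) : kb (-(1 / 2) + t) = win (1 / 4) t := by
  have h := kb_add_int (-(1 / 2) + t) 1
  rw [← h, kb_eq]
  unfold win
  push_cast
  have : -(1 / 2) + t + 1 - 3 / 4 = t - 1 / 4 := by ring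
  rw [this]

/-- the first window is nearly empty on `[1/2, 1]` -/
theorem Win_quarter : Win (1 / 4) 1 - Win (1 / 4) (1 / 2) ≤ 1 / 1600 := by
  have h := Win_small (c := 1 / 4) (a := 1 / 2) (b := 1) (by norm_num) fun t ht => by
    have e : 2 * (π * (t - 1 / 4)) = 2 * π * t - π / 2 := by ring
    rw [e, cos_sub_pi_div_two]
    have e2 : 2 * π * t = 2 * π * t - 2 * π + 2 * π := by ring
    rw [e2, sin_add_two_pi]
    apply sin_nonpos_of_nonpos_of_neg_pi_le
    · nlinarith [ht.2, pi_pos]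
    · nlinarith [ht.1, pi_pos]
  linarith

/-- the second window is nearly empty on `[0, 1/2]` -/
theorem Win_three : Win (3 / 4) (1 / 2) - Win (3 / 4) 0 ≤ 1 / 1600 := by
  have h := Win_small (c := 3 / 4) (a := 0) (b := 1 / 2) (by norm_num) fun t ht => by
    have e : 2 * (π * (t - 3 / 4)) = 2 * π * t + π / 2 - 2 * π := by ring
    rw [e, cos_sub_two_pi, cos_add_pi_div_two]
    have : 0 ≤ sin (2 * π * t) := by
      apply sin_nonneg_of_nonneg_of_le_pi
      · exact mul_nonneg (by positivity) ht.1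
      · nlinarith [ht.2, pi_pos]
    linarith
  linarith

end Pool.Agent.AnQ2
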