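import Mathlib
import Pool.Agent.MP_1a349f_an.EntropyPos
import Pool.Agent.AnQ2.Win

set_option autoImplicit false

/-!
# The horseshoe over the invariant torus `z 5 = 0` (page, section 5)
-/

namespace Pool.Agent.AnQ2

open Set Filter Topology Real MeasureTheory Dynamics
open Pool.Agent.MP_1a349f_an
open scoped ContDiff NNReal

/-! ### Elementary tools -/

/-- A mean value inequality with a variable speed. -/
theorem diff_le {h h' W w : ℝ → ℝ} {K a b : ℝ} (hab : a ≤ b) (hh : ∀ s, HasDerivAt h (h' s) s)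
    (hW : ∀ s, HasDerivAt W (w s) s) (hb : ∀ s ∈ Icc a b, |h' s| ≤ K * w s) :
    |h b - h a| ≤ K * (W b - W a) := by
  have h1 : MonotoneOn (fun s => K * W s - h s) (Icc a b) := by
    have hd : ∀ s, HasDerivAt (fun s => K * W s - h s) (K * w s - h' s) s := fun s =>
      ((hW s).const_mul K).sub (hh s)
    apply monotoneOn_of_deriv_nonneg (convex_Icc a b)
    · exact fun s _ => (hd s).continuousAt.continuousWithinAt
    · exact fun s _ => (hd s).differentiableAt.differentiableWithinAt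
    · intro s hs
      rw [(hd s).deriv]
      have := hb s (interior_subset hs)
      linarith [le_abs_self (h' s)]
  have h2 : MonotoneOn (fun s => K * W s + h s) (Icc a b) := by
    have hd : ∀ s, HasDerivAt (fun s => K * W s + h s) (K * w s + h' s) s := fun s =>
      ((hW s).const_mul K).add (hh s)
    apply monotoneOn_of_deriv_nonneg (convex_Icc a b)
    · exact fun s _ => (hd s).continuousAt.continuousWithinAt
    · exact fun s _ => (hd s).differentiableAt.differentiableWithinAt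
    · intro s hs
      rw [(hd s).deriv]
      have := hb s (interior_subset hs)
      linarith [neg_abs_le (h' s)]
  have h3 := h1 (left_mem_Icc.2 hab) (right_mem_Icc.2 hab) hab
  have h4 := h2 (left_mem_Icc.2 hab) (right_mem_Icc.2 hab) hab
  simp only at h3 h4
  rw [abs_le]
  constructor <;> linarith

theorem sin_sq_sub_le (x y : ℝ) : |sin (π * x) ^ 2 - sin (π * y) ^ 2| ≤ π * |x - y| := by
  have h1 : ∀ s, HasDerivAt (fun s => sin (π * s) ^ 2) (2 * sin (π * s) * (cos (π * s) * π)) s := by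
    intro s
    have h2 : HasDerivAt (fun s => π * s) π s := by simpa using (hasDerivAt_id s).const_mul π
    have h3 := ((hasDerivAt_sin (π * s)).comp s h2).fun_pow 2
    simpa using h3
  have h2 : ∀ s, |2 * sin (π * s) * (cos (π * s) * π)| ≤ π * 1 := by
    intro s
    have h3 : 2 * sin (π * s) * (cos (π * s) * π) = π * sin (2 * (π * s)) := by
      rw [sin_two_mul]; ring
    rw [h3, abs_mul, abs_of_pos pi_pos]
    exact mul_le_mul_of_nonneg_left (abs_sin_le_one _) pi_pos.le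
  rcases le_total x y with h | h
  · have h3 := diff_le h h1 (fun s => hasDerivAt_id s) (fun s _ => h2 s)
    simp only [id_eq] at h3
    rw [abs_sub_comm, abs_sub_comm x y, abs_of_nonneg (sub_nonneg.2 h)]
    exact h3
  · have h3 := diff_le h h1 (fun s => hasDerivAt_id s) (fun s _ => h2 s)
    simp only [id_eq] at h3
    rw [abs_of_nonneg (sub_nonneg.2 h)]
    exact h3

theorem sin_sq_mem (x : ℝ) : 0 ≤ sin (π * x) ^ 2 ∧ sin (π * x) ^ 2 ≤ 1 :=
  ⟨sq_nonneg _, sin_sq_le_one _⟩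

/-- The first return estimates for the planar system (page, (5.1)). -/
theorem plane_step {P Q : ℝ → ℝ}
    (hP : ∀ s, HasDerivAt P (6 * win (1 / 4) s * sin (π * Q s) ^ 2) s)
    (hQ : ∀ s, HasDerivAt Q (6 * win (3 / 4) s * sin (π * P s) ^ 2) s) :
    |P 1 - P 0 - 6 * sin (π * Q 0) ^ 2| ≤ 1 / 10 ∧
    |Q 1 - Q 0 - 6 * sin (π * P 1) ^ 2| ≤ 1 / 10 ∧
    ∀ s ∈ Icc (0 : ℝ) (1 / 2), |Q s - Q 0| ≤ 1 / 200 := by
  have hpi : π ≤ 3.15 := pi_lt_d2.le
  have hpi0 : 0 < π := pi_pos
  have hWq := Win_quarter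
  have hWt := Win_three
  have hb1 : ∀ s, |6 * win (3 / 4) s * sin (π * P s) ^ 2| ≤ 6 * win (3 / 4) s := by
    intro s
    have h1 := win_nonneg (3 / 4) s
    obtain ⟨h2, h3⟩ := sin_sq_mem (P s)
    rw [abs_of_nonneg (by positivity)]
    nlinarith
  have hb2 : ∀ s, |6 * win (1 / 4) s * sin (π * Q s) ^ 2| ≤ 6 * win (1 / 4) s := by
    intro s
    have h1 := win_nonneg (1 / 4) s
    obtain ⟨h2, h3⟩ := sin_sq_mem (Q s)
    rw [abs_of_nonneg (by positivity)]
    nlinarith
  -- the second coordinate rests in the first half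
  have hQr : ∀ s ∈ Icc (0 : ℝ) (1 / 2), |Q s - Q 0| ≤ 1 / 200 := by
    intro s hs
    have h1 := diff_le hs.1 hQ (hasDerivAt_Win (3 / 4)) (fun s _ => hb1 s)
    have h2 := Win_mono (3 / 4) hs.2
    linarith
  -- the first coordinate rests in the second half
  have hPr : ∀ s ∈ Icc (1 / 2 : ℝ) 1, |P s - P 1| ≤ 1 / 200 := by
    intro s hs
    have h1 := diff_le hs.2 hP (hasDerivAt_Win (1 / 4)) (fun s _ => hb2 s)
    have h2 := Win_mono (1 / 4) hs.1
    rw [abs_sub_comm]
    linarith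
  have hW1 := Win_one (1 / 4)
  have hW3 := Win_one (3 / 4)
  have hW10 := Win_zero (1 / 4)
  have hW30 := Win_zero (3 / 4)
  refine ⟨?_, ?_, hQr⟩
  · -- first coordinate
    set c : ℝ := sin (π * Q 0) ^ 2 with hc
    have hd : ∀ s, HasDerivAt (fun s => P s - 6 * Win (1 / 4) s * c)
        (6 * win (1 / 4) s * sin (π * Q s) ^ 2 - 6 * win (1 / 4) s * c) s := fun s =>
      (hP s).sub (((hasDerivAt_Win (1 / 4) s).const_mul 6).mul_const c)
    have h1 := diff_le (K := 6 * (3.15 / 200)) (a := 0) (b := 1 / 2) (by norm_num) hd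
      (hasDerivAt_Win (1 / 4)) (fun s hs => by
        have h1 := win_nonneg (1 / 4) s
        have h2 := sin_sq_sub_le (Q s) (Q 0)
        have h3 := hQr s hs
        have h4 : 6 * win (1 / 4) s * sin (π * Q s) ^ 2 - 6 * win (1 / 4) s * c =
            6 * win (1 / 4) s * (sin (π * Q s) ^ 2 - sin (π * Q 0) ^ 2) := by rw [hc]; ring
        rw [h4, abs_mul, abs_of_nonneg (by positivity)]
        have h5 : |sin (π * Q s) ^ 2 - sin (π * Q 0) ^ 2| ≤ 3.15 / 200 := by
          refine h2.trans ?_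
          calc π * |Q s - Q 0| ≤ 3.15 * (1 / 200) :=
                mul_le_mul hpi h3 (abs_nonneg _) (by norm_num)
            _ = 3.15 / 200 := by ring
        have h6 : 6 * win (1 / 4) s * |sin (π * Q s) ^ 2 - sin (π * Q 0) ^ 2| ≤
            6 * win (1 / 4) s * (3.15 / 200) := mul_le_mul_of_nonneg_left h5 (by positivity)
        linarith)
    have h2 := diff_le (K := 6) (a := 1 / 2) (b := 1) (by norm_num) hd
      (hasDerivAt_Win (1 / 4)) (fun s hs => by
        have h1 := win_nonneg (1 / 4) s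
        obtain ⟨h2, h3⟩ := sin_sq_mem (Q s)
        obtain ⟨h4, h5⟩ := sin_sq_mem (Q 0)
        have h6 : 6 * win (1 / 4) s * sin (π * Q s) ^ 2 - 6 * win (1 / 4) s * c =
            6 * win (1 / 4) s * (sin (π * Q s) ^ 2 - sin (π * Q 0) ^ 2) := by rw [hc]; ring
        rw [h6, abs_mul, abs_of_nonneg (by positivity)]
        have h7 : |sin (π * Q s) ^ 2 - sin (π * Q 0) ^ 2| ≤ 1 := by
          rw [abs_le]; constructor <;> linarith
        have h8 : 6 * win (1 / 4) s * |sin (π * Q s) ^ 2 - sin (π * Q 0) ^ 2| ≤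
            6 * win (1 / 4) s * 1 := mul_le_mul_of_nonneg_left h7 (by positivity)
        linarith)
    simp only [hW10, hW1] at h1 h2
    have h3 : Win (1 / 4) (1 / 2) ≤ Win (1 / 4) 1 := Win_mono _ (by norm_num)
    rw [hW1] at h3
    rw [abs_le] at h1 h2 ⊢
    constructor <;> nlinarith [h1.1, h1.2, h2.1, h2.2]
  · set c : ℝ := sin (π * P 1) ^ 2 with hc
    have hd : ∀ s, HasDerivAt (fun s => Q s - 6 * Win (3 / 4) s * c)
        (6 * win (3 / 4) s * sin (π * P s) ^ 2 - 6 * win (3 / 4) s * c) s := fun s =>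
      (hQ s).sub (((hasDerivAt_Win (3 / 4) s).const_mul 6).mul_const c)
    have h1 := diff_le (K := 6 * (3.15 / 200)) (a := 1 / 2) (b := 1) (by norm_num) hd
      (hasDerivAt_Win (3 / 4)) (fun s hs => by
        have h1 := win_nonneg (3 / 4) s
        have h2 := sin_sq_sub_le (P s) (P 1)
        have h3 := hPr s hs
        have h4 : 6 * win (3 / 4) s * sin (π * P s) ^ 2 - 6 * win (3 / 4) s * c =
            6 * win (3 / 4) s * (sin (π * P s) ^ 2 - sin (π * P 1) ^ 2) := by rw [hc]; ring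
        rw [h4, abs_mul, abs_of_nonneg (by positivity)]
        have h5 : |sin (π * P s) ^ 2 - sin (π * P 1) ^ 2| ≤ 3.15 / 200 := by
          refine h2.trans ?_
          calc π * |P s - P 1| ≤ 3.15 * (1 / 200) :=
                mul_le_mul hpi h3 (abs_nonneg _) (by norm_num)
            _ = 3.15 / 200 := by ring
        have h6 : 6 * win (3 / 4) s * |sin (π * P s) ^ 2 - sin (π * P 1) ^ 2| ≤
            6 * win (3 / 4) s * (3.15 / 200) := mul_le_mul_of_nonneg_left h5 (by positivity)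
        linarith)
    have h2 := diff_le (K := 6) (a := 0) (b := 1 / 2) (by norm_num) hd
      (hasDerivAt_Win (3 / 4)) (fun s hs => by
        have h1 := win_nonneg (3 / 4) s
        obtain ⟨h2, h3⟩ := sin_sq_mem (P s)
        obtain ⟨h4, h5⟩ := sin_sq_mem (P 1)
        have h6 : 6 * win (3 / 4) s * sin (π * P s) ^ 2 - 6 * win (3 / 4) s * c =
            6 * win (3 / 4) s * (sin (π * P s) ^ 2 - sin (π * P 1) ^ 2) := by rw [hc]; ring
        rw [h6, abs_mul, abs_of_nonneg (by positivity)]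
        have h7 : |sin (π * P s) ^ 2 - sin (π * P 1) ^ 2| ≤ 1 := by
          rw [abs_le]; constructor <;> linarith
        have h8 : 6 * win (3 / 4) s * |sin (π * P s) ^ 2 - sin (π * P 1) ^ 2| ≤
            6 * win (3 / 4) s * 1 := mul_le_mul_of_nonneg_left h7 (by positivity)
        linarith)
    simp only [hW30, hW3] at h1 h2 hWt
    have h3 : Win (3 / 4) 0 ≤ Win (3 / 4) (1 / 2) := Win_mono _ (by norm_num)
    rw [hW30] at h3
    rw [abs_le] at h1 h2 ⊢
    constructor <;> nlinarith [h1.1, h1.2, h2.1, h2.2]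

/-- The same at any integer time. -/
theorem plane_step_nat {P Q : ℝ → ℝ}
    (hP : ∀ s, HasDerivAt P (6 * win (1 / 4) s * sin (π * Q s) ^ 2) s)
    (hQ : ∀ s, HasDerivAt Q (6 * win (3 / 4) s * sin (π * P s) ^ 2) s) (j : ℕ) :
    |P (j + 1) - P j - 6 * sin (π * Q j) ^ 2| ≤ 1 / 10 ∧
    |Q (j + 1) - Q j - 6 * sin (π * P (j + 1)) ^ 2| ≤ 1 / 10 ∧
    ∀ s ∈ Icc (j : ℝ) (j + 1 / 2), |Q s - Q j| ≤ 1 / 200 := by
  have h := plane_step (P := fun s => P (s + j)) (Q := fun s => Q (s + j))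
    (fun s => by
      have h1 := (hP (s + j)).comp_add_const s (j : ℝ)
      rwa [win_add_nat] at h1)
    (fun s => by
      have h1 := (hQ (s + j)).comp_add_const s (j : ℝ)
      rwa [win_add_nat] at h1)
  simp only [zero_add] at h
  obtain ⟨h1, h2, h3⟩ := h
  rw [add_comm (1 : ℝ) (j : ℝ)] at h1 h2
  refine ⟨h1, h2, fun s hs => ?_⟩
  have h4 := h3 (s - j) ⟨by linarith [hs.1], by linarith [hs.2]⟩
  rwa [sub_add_cancel] at h4

/-! ### Crossing paths -/

/-- A function that runs from below `c` to above `d` has a piece which runs exactly from `c`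
to `d` and stays between. -/
theorem exists_piece {f : ℝ → ℝ} (hf : Continuous f) {a b c d : ℝ} (h1 : f a ≤ c) (h2 : c < d)
    (h3 : d ≤ f b) : ∃ a' b', uIcc a' b' ⊆ uIcc a b ∧ f a' = c ∧ f b' = d ∧
      ∀ u ∈ uIcc a' b', c ≤ f u ∧ f u ≤ d := by
  have hivt : ∀ x y v : ℝ, v ∈ uIcc (f x) (f y) → ∃ u ∈ uIcc x y, f u = v := fun x y v hv =>
    intermediate_value_uIcc hf.continuousOn hv
  have hfab : f a ≤ f b := h1.trans (h2.le.trans h3)
  let S : Set (ℝ × ℝ) := {p | p.1 ∈ uIcc a b ∧ p.2 ∈ uIcc a b ∧ f p.1 = c ∧ f p.2 = d}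
  have hSc : IsCompact S := by
    have h4 : IsCompact (uIcc a b ×ˢ uIcc a b) := isCompact_uIcc.prod isCompact_uIcc
    have h5 : IsClosed {p : ℝ × ℝ | f p.1 = c ∧ f p.2 = d} :=
      (isClosed_eq (hf.comp continuous_fst) continuous_const).inter
        (isClosed_eq (hf.comp continuous_snd) continuous_const)
    have h6 : S = (uIcc a b ×ˢ uIcc a b) ∩ {p : ℝ × ℝ | f p.1 = c ∧ f p.2 = d} := by
      ext p
      simp only [S, mem_ofPred_eq, mem_inter_iff, mem_prod]
      tauto
    rw [h6]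
    exact h4.inter_right h5
  have hSn : S.Nonempty := by
    obtain ⟨x, hx, hxc⟩ := hivt a b c (by rw [uIcc_of_le hfab]; exact ⟨h1, h2.le.trans h3⟩)
    obtain ⟨y, hy, hyd⟩ := hivt a b d (by rw [uIcc_of_le hfab]; exact ⟨h1.trans h2.le, h3⟩)
    exact ⟨(x, y), hx, hy, hxc, hyd⟩
  obtain ⟨⟨x, y⟩, ⟨hx, hy, hxc, hyd⟩, hmin⟩ := hSc.exists_isMinOn hSn
    (f := fun p : ℝ × ℝ => |p.1 - p.2|) (by fun_prop)
  simp only at hx hy hxc hyd
  have hsub : uIcc x y ⊆ uIcc a b := uIcc_subset_uIcc hx hy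
  refine ⟨x, y, hsub, hxc, hyd, fun u hu => ⟨?_, ?_⟩⟩
  · by_contra hlt
    push Not at hlt
    obtain ⟨x', hx', hx'c⟩ := hivt u y c (by
      rw [hyd, uIcc_of_le (by linarith)]
      exact ⟨hlt.le, h2.le⟩)
    have h5 : x' ∈ uIcc a b := hsub (uIcc_subset_uIcc hu right_mem_uIcc hx')
    have h6 := hmin (show ((x', y) : ℝ × ℝ) ∈ S from ⟨h5, hy, hx'c, hyd⟩)
    simp only [mem_ofPred_eq] at h6
    have h7 : |x' - y| ≤ |u - y| := by
      rcases le_total u y with h | h
      · rw [uIcc_of_le h] at hx'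
        rw [abs_of_nonpos (by linarith [hx'.2]), abs_of_nonpos (by linarith)]
        linarith [hx'.1]
      · rw [uIcc_of_ge h] at hx'
        rw [abs_of_nonneg (by linarith [hx'.1]), abs_of_nonneg (by linarith)]
        linarith [hx'.2]
    have h8 : u ≠ x := by
      intro h; rw [h, hxc] at hlt; exact lt_irrefl _ hlt
    have h9 : |u - y| < |x - y| := by
      rcases le_total x y with h | h
      · rw [uIcc_of_le h] at hu
        have : x < u := lt_of_le_of_ne hu.1 (Ne.symm h8)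
        rw [abs_of_nonpos (by linarith [hu.2]), abs_of_nonpos (by linarith)]
        linarith
      · rw [uIcc_of_ge h] at hu
        have : u < x := lt_of_le_of_ne hu.2 h8
        rw [abs_of_nonneg (by linarith [hu.1]), abs_of_nonneg (by linarith)]
        linarith
    linarith
  · by_contra hlt
    push Not at hlt
    obtain ⟨y', hy', hy'd⟩ := hivt x u d (by
      rw [hxc, uIcc_of_le (by linarith)]
      exact ⟨h2.le, hlt.le⟩)
    have h5 : y' ∈ uIcc a b := hsub (uIcc_subset_uIcc left_mem_uIcc hu hy')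
    have h6 := hmin (show ((x, y') : ℝ × ℝ) ∈ S from ⟨hx, h5, hxc, hy'd⟩)
    simp only [mem_ofPred_eq] at h6
    have h7 : |x - y'| ≤ |x - u| := by
      rcases le_total x u with h | h
      · rw [uIcc_of_le h] at hy'
        rw [abs_of_nonpos (by linarith [hy'.1]), abs_of_nonpos (by linarith)]
        linarith [hy'.2]
      · rw [uIcc_of_ge h] at hy'
        rw [abs_of_nonneg (by linarith [hy'.2]), abs_of_nonneg (by linarith)]
        linarith [hy'.1]
    have h8 : u ≠ y := by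
      intro h; rw [h, hyd] at hlt; exact lt_irrefl _ hlt
    have h9 : |x - u| < |x - y| := by
      rcases le_total x y with h | h
      · rw [uIcc_of_le h] at hu
        have : u < y := lt_of_le_of_ne hu.2 h8
        rw [abs_of_nonpos (by linarith [hu.1]), abs_of_nonpos (by linarith)]
        linarith
      · rw [uIcc_of_ge h] at hu
        have : y < u := lt_of_le_of_ne hu.1 (Ne.symm h8)
        rw [abs_of_nonneg (by linarith [hu.2]), abs_of_nonneg (by linarith)]
        linarith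
    linarith

/-- The abscissa of the box after `j` steps. -/
noncomputable def shN (w : ℕ → Bool) (j : ℕ) : ℤ := ∑ i ∈ Finset.range j, (1 + 2 * (if w i then 1 else 0))

theorem shN_succ (w : ℕ → Bool) (j : ℕ) : shN w (j + 1) = shN w j + (1 + 2 * (if w j then 1 else 0)) := by
  unfold shN
  rw [Finset.sum_range_succ]

theorem sin_sq_int (k : ℤ) : sin (π * k) ^ 2 = 0 := by
  have h : sin (π * k) = 0 := by rw [mul_comm]; exact sin_int_mul_pi k
  rw [h]; norm_num

theorem sin_sq_int_half (k : ℤ) : sin (π * (k + 1 / 2)) ^ 2 = 1 := by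
  have h1 : sin (π * (k + 1 / 2)) ^ 2 = sin (π * (1 / 2)) ^ 2 := by
    rw [add_comm, sin_pi_add_int_sq]
  rw [h1]
  have : π * (1 / 2) = π / 2 := by ring
  rw [this, sin_pi_div_two]; norm_num

/-- Every word is followed (page, (5.2)). -/
theorem exists_follow {P Q : ℝ → ℝ → ℝ} (hPc : ∀ j : ℕ, Continuous fun u => P u j)
    (hQc : ∀ j : ℕ, Continuous fun u => Q u j)
    (hP : ∀ u s, HasDerivAt (P u) (6 * win (1 / 4) s * sin (π * Q u s) ^ 2) s)
    (hQ : ∀ u s, HasDerivAt (Q u) (6 * win (3 / 4) s * sin (π * P u s) ^ 2) s)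
    (hP0 : ∀ u, P u 0 = 0) (hQ0 : ∀ u, Q u 0 = u) (w : ℕ → Bool) (m : ℕ) :
    ∃ a b, Q a m = m ∧ Q b m = m + 1 / 2 ∧ ∀ u ∈ uIcc a b, ∀ j : ℕ, j ≤ m →
      (shN w j : ℝ) ≤ P u j ∧ P u j ≤ shN w j + 1 / 2 ∧ (j : ℝ) ≤ Q u j ∧ Q u j ≤ j + 1 / 2 := by
  induction m with
  | zero =>
    refine ⟨0, 1 / 2, by simp [hQ0], by simp [hQ0], ?_⟩
    intro u hu j hj
    have hj0 : j = 0 := Nat.le_zero.1 hj
    subst hj0
    rw [uIcc_of_le (by norm_num)] at hu
    simp only [shN, Finset.range_zero, Finset.sum_empty, Int.cast_zero, Nat.cast_zero, hP0, hQ0]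
    exact ⟨le_rfl, by norm_num, hu.1, by linarith [hu.2]⟩
  | succ m ih =>
    obtain ⟨a, b, ha, hb, hab⟩ := ih
    have hst := fun u => plane_step_nat (hP u) (hQ u) m
    -- first piece
    set i : ℤ := if w m then 1 else 0 with hi
    have hi2 : 0 ≤ (i : ℝ) ∧ (i : ℝ) ≤ 1 := by
      rw [hi]; split_ifs <;> norm_num
    have hN : (shN w (m + 1) : ℝ) = shN w m + 1 + 2 * i := by
      rw [shN_succ, ← hi]; push_cast; ring
    have hsa := (abs_le.1 (hst a).1)
    have hsb := (abs_le.1 (hst b).1)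
    have haa := hab a left_mem_uIcc m le_rfl
    have hbb := hab b right_mem_uIcc m le_rfl
    rw [ha] at hsa
    rw [hb] at hsb
    have e1 : sin (π * (m : ℝ)) ^ 2 = 0 := by
      have := sin_sq_int (m : ℤ); simpa using this
    have e2 : sin (π * ((m : ℝ) + 1 / 2)) ^ 2 = 1 := by
      have := sin_sq_int_half (m : ℤ); simpa using this
    rw [e1] at hsa
    rw [e2] at hsb
    obtain ⟨a1, b1, hsub1, ha1, hb1, hab1⟩ := exists_piece (hPc (m + 1)) (a := a) (b := b)
      (c := shN w (m + 1)) (d := shN w (m + 1) + 1 / 2)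
      (by push_cast; rw [hN]; linarith [hsa.2, haa.2.1])
      (by linarith) (by push_cast; rw [hN]; linarith [hsb.1, hbb.1])
    -- second piece
    have hsa' := (abs_le.1 (hst a1).2.1)
    have hsb' := (abs_le.1 (hst b1).2.1)
    push_cast at ha1 hb1
    have haa' := hab a1 (hsub1 left_mem_uIcc) m le_rfl
    have hbb' := hab b1 (hsub1 right_mem_uIcc) m le_rfl
    rw [ha1, sin_sq_int] at hsa'
    rw [hb1, sin_sq_int_half] at hsb'
    obtain ⟨a2, b2, hsub2, ha2, hb2, hab2⟩ := exists_piece (hQc (m + 1)) (a := a1) (b := b1)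
      (c := (m + 1 : ℕ)) (d := (m + 1 : ℕ) + 1 / 2)
      (by push_cast; linarith [hsa'.2, haa'.2.2.2])
      (by linarith) (by push_cast; linarith [hsb'.1, hbb'.2.2.1])
    refine ⟨a2, b2, ha2, hb2, ?_⟩
    intro u hu j hj
    rcases Nat.lt_or_ge j (m + 1) with h | h
    · exact hab u (hsub1 (hsub2 hu)) j (Nat.lt_succ_iff.1 h)
    · have hj' : j = m + 1 := le_antisymm hj h
      subst hj'
      have h1 := hab1 u (hsub2 hu)
      have h2 := hab2 u hu
      exact ⟨h1.1, h1.2, h2.1, h2.2⟩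

/-! ### The field over `z 5 = 0` -/

/-- the field over the invariant torus `z 5 = 0` -/
noncomputable def K1 (z : Fin 6 → ℝ) : Fin 6 → ℝ :=
  ![1, √2, √3, 6 * ka (z 0) * sin (π * z 4) ^ 2, 6 * kb (z 0) * sin (π * z 3) ^ 2, 0]

theorem good_K1 : Good K1 := by
  have hc : ∀ i : Fin 6, ContDiff ℝ ∞ fun z : Fin 6 → ℝ => z i := fun i => contDiff_apply ℝ ℝ i
  have hs : ∀ i : Fin 6, ContDiff ℝ ∞ fun z : Fin 6 → ℝ => sin (π * z i) ^ 2 := fun i =>
    ((contDiff_const.mul (hc i)).sin).pow 2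
  refine ⟨?_, ?_⟩
  · rw [contDiff_pi]
    intro i
    fin_cases i
    · exact contDiff_const
    · exact contDiff_const
    · exact contDiff_const
    · exact (contDiff_const.mul (contDiff_ka.comp (hc 0))).mul (hs 4)
    · exact (contDiff_const.mul (contDiff_kb.comp (hc 0))).mul (hs 3)
    · exact contDiff_const
  · intro k z
    simp only [K1, tr, ka_add_int, kb_add_int, sin_pi_add_int_sq]

theorem flow_K1_base (z : Fin 6 → ℝ) (s : ℝ) : flow K1 s z 0 = z 0 + s ∧
    flow K1 s z 1 = z 1 + √2 * s ∧ flow K1 s z 2 = z 2 + √3 * s ∧ flow K1 s z 5 = z 5 := by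
  have key : ∀ (i : Fin 6) (c : ℝ), (∀ y, K1 y i = c) → flow K1 s z i = z i + c * s := by
    intro i c hc
    have h1 : ∀ t, HasDerivAt (fun t => flow K1 t z i - c * t) 0 t := by
      intro t
      have h2 := (hasDerivAt_pi.1 (good_K1.hasDerivAt_flow z t)) i
      rw [hc] at h2
      have h3 := h2.fun_sub ((hasDerivAt_id t).const_mul c)
      simpa using h3
    have h2 := is_const_of_deriv_eq_zero (fun t => (h1 t).differentiableAt)
      (fun t => (h1 t).deriv) s 0
    simp only [good_K1.flow_zero, mul_zero, sub_zero] at h2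
    linarith
  refine ⟨?_, key 1 _ (fun y => rfl), key 2 _ (fun y => rfl), ?_⟩
  · have := key 0 1 (fun y => rfl)
    rw [this]; ring
  · have := key 5 0 (fun y => rfl)
    rw [this]; ring

/-- The flow depends continuously on the initial point. -/
theorem Good.continuous_init {d : ℕ} {V : (Fin d → ℝ) → (Fin d → ℝ)} (hV : Good V) {t : ℝ}
    (ht : 0 ≤ t) : Continuous fun x => flow V t x := by
  obtain ⟨K, hK⟩ := hV.exists_lipschitz
  have h1 : ∀ x y, ‖flow V t x - flow V t y‖ ^ 2 ≤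
      d * Real.exp (2 * d * (K * t - K * 0)) * ‖x - y‖ ^ 2 := by
    intro x y
    have h2 := growth (fun s => flow V s y) (fun s => flow V s x) (fun s => V (flow V s y))
      (fun s => V (flow V s x)) (hV.hasDerivAt_flow y) (hV.hasDerivAt_flow x) (fun s => K * s)
      (fun _ => K) (fun s => by simpa using (hasDerivAt_id s).const_mul (K : ℝ))
      (fun s _ => by
        have := hK.dist_le_mul (flow V s x) (flow V s y)
        rwa [dist_eq_norm, dist_eq_norm] at this) t ht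
    simp only [hV.flow_zero] at h2
    exact h2
  set L : ℝ := d * Real.exp (2 * d * (K * t - K * 0)) with hL
  have hL0 : 0 ≤ L := by positivity
  have h2 : ∀ x y, dist (flow V t x) (flow V t y) ≤ √L * dist x y := by
    intro x y
    rw [dist_eq_norm, dist_eq_norm]
    have h3 := Real.sqrt_le_sqrt (h1 x y)
    rw [Real.sqrt_sq (norm_nonneg _), Real.sqrt_mul hL0, Real.sqrt_sq (norm_nonneg _)] at h3
    exact h3
  exact (LipschitzWith.of_dist_le_mul (K := ⟨√L, Real.sqrt_nonneg _⟩) h2).continuous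

/-- the initial points -/
noncomputable def sz (b1 b2 u : ℝ) : Fin 6 → ℝ := ![-(1 / 2), b1, b2, u, 0, 0]

theorem continuous_sz (b1 b2 : ℝ) : Continuous (sz b1 b2) := by
  rw [continuous_pi_iff]
  intro i
  fin_cases i
  · exact continuous_const
  · exact continuous_const
  · exact continuous_const
  · exact continuous_id
  · exact continuous_const
  · exact continuous_const

theorem hasDerivAt_K1_four (b1 b2 u s : ℝ) : HasDerivAt (fun s => flow K1 s (sz b1 b2 u) 4)
    (6 * win (1 / 4) s * sin (π * flow K1 s (sz b1 b2 u) 3) ^ 2) s := by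
  have h := (hasDerivAt_pi.1 (good_K1.hasDerivAt_flow (sz b1 b2 u) s)) 4
  have h0 := (flow_K1_base (sz b1 b2 u) s).1
  have e : K1 (flow K1 s (sz b1 b2 u)) 4 =
      6 * win (1 / 4) s * sin (π * flow K1 s (sz b1 b2 u) 3) ^ 2 := by
    change 6 * kb (flow K1 s (sz b1 b2 u) 0) * sin (π * flow K1 s (sz b1 b2 u) 3) ^ 2 = _
    rw [h0]
    change 6 * kb (-(1 / 2) + s) * _ = _
    rw [kb_half]
  rw [e] at h
  exact h

theorem hasDerivAt_K1_three (b1 b2 u s : ℝ) : HasDerivAt (fun s => flow K1 s (sz b1 b2 u) 3)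
    (6 * win (3 / 4) s * sin (π * flow K1 s (sz b1 b2 u) 4) ^ 2) s := by
  have h := (hasDerivAt_pi.1 (good_K1.hasDerivAt_flow (sz b1 b2 u) s)) 3
  have h0 := (flow_K1_base (sz b1 b2 u) s).1
  have e : K1 (flow K1 s (sz b1 b2 u)) 3 =
      6 * win (3 / 4) s * sin (π * flow K1 s (sz b1 b2 u) 4) ^ 2 := by
    change 6 * ka (flow K1 s (sz b1 b2 u) 0) * sin (π * flow K1 s (sz b1 b2 u) 4) ^ 2 = _
    rw [h0]
    change 6 * ka (-(1 / 2) + s) * _ = _
    rw [ka_half]
  rw [e] at h
  exact h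

/-- every word is followed by an orbit of the flow of `K1` -/
theorem exists_orbit (b1 b2 : ℝ) (w : ℕ → Bool) (m : ℕ) : ∃ u : ℝ, ∀ j : ℕ, j ≤ m →
    (shN w j : ℝ) ≤ flow K1 j (sz b1 b2 u) 4 ∧ flow K1 j (sz b1 b2 u) 4 ≤ shN w j + 1 / 2 ∧
    (j : ℝ) ≤ flow K1 j (sz b1 b2 u) 3 ∧ flow K1 j (sz b1 b2 u) 3 ≤ j + 1 / 2 := by
  have hcont : ∀ (i : Fin 6) (j : ℕ), Continuous fun u => flow K1 j (sz b1 b2 u) i := by
    intro i j
    exact (continuous_apply i).comp
      ((Good.continuous_init good_K1 (Nat.cast_nonneg j)).comp (continuous_sz b1 b2))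
  obtain ⟨a, b, -, -, h⟩ := exists_follow (P := fun u s => flow K1 s (sz b1 b2 u) 4)
    (Q := fun u s => flow K1 s (sz b1 b2 u) 3) (hcont 4) (hcont 3)
    (fun u s => hasDerivAt_K1_four b1 b2 u s) (fun u s => hasDerivAt_K1_three b1 b2 u s)
    (fun u => by rw [good_K1.flow_zero]; rfl) (fun u => by rw [good_K1.flow_zero]; rfl) w m
  exact ⟨a, fun j hj => h a left_mem_uIcc j hj⟩

theorem shN_congr {w w' : ℕ → Bool} {j : ℕ} (h : ∀ i < j, w i = w' i) : shN w j = shN w' j := by
  unfold shN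
  refine Finset.sum_congr rfl fun i hi => ?_
  rw [h i (Finset.mem_range.1 hi)]

/-- Points with different symbols are apart (page, (5.2), last line). -/
theorem apart {P Q P' Q' : ℝ → ℝ}
    (hP : ∀ s, HasDerivAt P (6 * win (1 / 4) s * sin (π * Q s) ^ 2) s)
    (hQ : ∀ s, HasDerivAt Q (6 * win (3 / 4) s * sin (π * P s) ^ 2) s)
    (hP' : ∀ s, HasDerivAt P' (6 * win (1 / 4) s * sin (π * Q' s) ^ 2) s)
    (hQ' : ∀ s, HasDerivAt Q' (6 * win (3 / 4) s * sin (π * P' s) ^ 2) s)
    {j : ℕ} {N : ℝ} (h1 : N ≤ P j ∧ P j ≤ N + 1 / 2) (h1' : N ≤ P' j ∧ P' j ≤ N + 1 / 2)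
    (h2 : (j : ℝ) ≤ Q j ∧ Q j ≤ j + 1 / 2) (h2' : (j : ℝ) ≤ Q' j ∧ Q' j ≤ j + 1 / 2)
    (h3 : P (j + 1) ≤ N + 3 / 2) (h3' : N + 3 ≤ P' (j + 1)) {s : ℝ}
    (hs : s ∈ Icc (j : ℝ) (j + 1 / 4)) : 1 / 40 ≤ |Q s - Q' s| ∧ |Q s - Q' s| ≤ 3 / 4 := by
  have hst := plane_step_nat hP hQ j
  have hst' := plane_step_nat hP' hQ' j
  have hs2 : s ∈ Icc (j : ℝ) (j + 1 / 2) := ⟨hs.1, by linarith [hs.2]⟩
  have q1 := abs_le.1 (hst.2.2 s hs2)
  have q1' := abs_le.1 (hst'.2.2 s hs2)
  have p1 := abs_le.1 hst.1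
  have p1' := abs_le.1 hst'.1
  have hl := sin_sq_sub_le (Q' j) (Q j)
  have hpi : π ≤ 3.15 := pi_lt_d2.le
  have h4 : 8 / 60 ≤ sin (π * Q' j) ^ 2 - sin (π * Q j) ^ 2 := by
    linarith [p1.1, p1.2, p1'.1, p1'.2, h1.1, h1'.2]
  have h5 : 8 / 60 ≤ π * |Q' j - Q j| := h4.trans ((le_abs_self _).trans hl)
  have h6 : 8 / 60 ≤ 3.15 * |Q' j - Q j| := h5.trans
    (mul_le_mul_of_nonneg_right hpi (abs_nonneg _))
  have h7 : 8 / 189 ≤ |Q j - Q' j| := by
    rw [abs_sub_comm]
    linarith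
  have h8 : |Q j - Q' j| ≤ 1 / 2 := by
    rw [abs_le]
    constructor <;> linarith [h2.1, h2.2, h2'.1, h2'.2]
  have h9 : |(Q s - Q' s) - (Q j - Q' j)| ≤ 1 / 100 := by
    rw [abs_le]
    constructor <;> linarith [q1.1, q1.2, q1'.1, q1'.2]
  have h10 := abs_sub_abs_le_abs_sub (Q s - Q' s) (Q j - Q' j)
  have h11 := abs_sub_abs_le_abs_sub (Q j - Q' j) (Q s - Q' s)
  rw [abs_sub_comm (Q j - Q' j) (Q s - Q' s)] at h11
  constructor <;> linarith

theorem circle_apart {x : ℝ} (h1 : 1 / 40 ≤ |x|) (h2 : |x| ≤ 3 / 4) :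
    1 / 40 ≤ ‖(x : UnitAddCircle)‖ := by
  rw [UnitAddCircle.norm_eq]
  rcases abs_cases x with ⟨h, h0⟩ | ⟨h, h0⟩
  · rw [h] at h1 h2
    by_cases hx : round x = 0
    · rw [hx, Int.cast_zero, sub_zero, h]; exact h1
    · have h3 : 1 ≤ |round x| := Int.one_le_abs hx
      have h4 : (1 : ℝ) ≤ |(round x : ℝ)| := by exact_mod_cast h3
      have h5 := abs_sub_abs_le_abs_sub (round x : ℝ) x
      rw [abs_sub_comm, h] at h5
      linarith
  · by_cases hx : round x = 0
    · rw [hx, Int.cast_zero, sub_zero]; exact h1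
    · have h3 : 1 ≤ |round x| := Int.one_le_abs hx
      have h4 : (1 : ℝ) ≤ |(round x : ℝ)| := by exact_mod_cast h3
      have h5 := abs_sub_abs_le_abs_sub (round x : ℝ) x
      rw [abs_sub_comm] at h5
      linarith

theorem f3_le (a b c : ℝ) : f3 a b c ≤ 1 / 4 := fB_le ![a, b, c, 0, 0]

/-- The entropy of a field which over `z 5 = 0` is the slowed down field `K1` (page, (5.3)). -/
theorem entropy_pos_K1 (Y : (Fin 6 → ℝ) → (Fin 6 → ℝ)) (hY : Good Y)
    (h : ∀ z : Fin 6 → ℝ, z 5 = 0 → Y z = f3 (z 0) (z 1) (z 2) •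
      (![1, √2, √3, 6 * ka (z 0) * sin (π * z 4) ^ 2, 6 * kb (z 0) * sin (π * z 3) ^ 2, 0] :
        Fin 6 → ℝ)) :
    0 < coverEntropy (tflow Y 1) univ := by
  obtain ⟨C, hC, hbase⟩ := exists_good_base
  apply coverEntropy_pos _ (1 / 40) (C + 1) (by norm_num) (by linarith)
  intro m
  obtain ⟨b1, b2, hpos, hint⟩ := hbase m
  let ext : (Fin m → Bool) → (ℕ → Bool) := fun w i => if h : i < m then w ⟨i, h⟩ else false
  choose U hU using fun w : Fin m → Bool => exists_orbit b1 b2 (ext w) m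
  refine ⟨fun w => cov (sz b1 b2 (U w)), ?_⟩
  intro w w' hne
  have hm0 : (0 : ℝ) ≤ m := Nat.cast_nonneg m
  -- the first difference
  obtain ⟨j, hjm, hj, hmin⟩ : ∃ j, j < m ∧ ext w j ≠ ext w' j ∧ ∀ i < j, ext w i = ext w' i := by
    classical
    have h1 : ∃ j, ext w j ≠ ext w' j := by
      by_contra hc
      push Not at hc
      apply hne
      funext i
      have := hc i
      simpa only [ext, dif_pos i.2] using this
    refine ⟨Nat.find h1, ?_, Nat.find_spec h1, fun i hi => ?_⟩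
    · by_contra hc
      have h2 := Nat.find_spec h1
      apply h2
      simp only [ext, dif_neg hc]
    · have := Nat.find_min h1 hi
      push Not at this
      exact this
  -- the time change
  let κ : ℝ → ℝ := fun s => f3 (-(1 / 2) + clamp m s) (b1 + √2 * clamp m s) (b2 + √3 * clamp m s)
  have hκc : Continuous κ := by
    have h0 : Continuous fun s : ℝ => f3 (-(1 / 2) + s) (b1 + √2 * s) (b2 + √3 * s) := by
      unfold f3
      fun_prop
    exact h0.comp (continuous_clamp m)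
  have hκpos : ∀ s, 0 < κ s := fun s => hpos _ (clamp_mem hm0 s)
  have hκle : ∀ s, κ s ≤ 1 / 4 := fun s => f3_le _ _ _
  obtain ⟨τ, hτ0, hτ, hτs⟩ := exists_time_change κ hκc hκpos (1 / 4) hκle
  -- the flow of the slow field
  have hflow : ∀ u : ℝ, ∀ t ∈ Icc (0 : ℝ) (τ.symm m),
      flow Y t (sz b1 b2 u) = flow K1 (τ t) (sz b1 b2 u) := by
    intro u t ht
    have h1 : ContinuousOn (fun t => flow K1 (τ t) (sz b1 b2 u)) (Icc 0 (τ.symm m)) :=
      ((good_K1.continuous_flow (sz b1 b2 u)).comp τ.continuous).continuousOn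
    have h2 := hY.eq_flow_Icc h1 (fun t ht => by
      have h3 := hasDerivAt_comp_time_change (fun s => good_K1.hasDerivAt_flow (sz b1 b2 u) s) hτ t
      have h4 : τ t ∈ Icc (0 : ℝ) m := by
        constructor
        · rw [← hτ0]; exact τ.monotone ht.1
        · have := τ.monotone ht.2.le
          rwa [OrderIso.apply_symm_apply] at this
      have h6 := flow_K1_base (sz b1 b2 u) (τ t)
      have h5 : κ (τ t) • K1 (flow K1 (τ t) (sz b1 b2 u)) = Y (flow K1 (τ t) (sz b1 b2 u)) := by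
        rw [h _ (by rw [h6.2.2.2]; rfl), h6.1, h6.2.1, h6.2.2.1]
        simp only [κ]
        rw [clamp_eq h4]
        simp only [K1]
        rw [h6.1]
        rfl
      rw [h5] at h3
      exact h3) t ht
    rw [hτ0, good_K1.flow_zero] at h2
    exact h2.symm
  -- the time
  have hj0 : (0 : ℝ) ≤ (j : ℕ) := Nat.cast_nonneg _
  have hjm' : ((j : ℕ) : ℝ) + 1 ≤ m := by exact_mod_cast hjm
  have hm1' : (1 : ℝ) ≤ m := by linarith
  have hs0 : 0 ≤ τ.symm (j : ℕ) := by
    rw [← τ.le_iff_le, OrderIso.apply_symm_apply, hτ0]; exact hj0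
  set n : ℕ := ⌈τ.symm (j : ℕ)⌉₊ with hn
  have hn1 : τ.symm (j : ℕ) ≤ n := Nat.le_ceil _
  have hn2 : (n : ℝ) < τ.symm (j : ℕ) + 1 := Nat.ceil_lt_add_one hs0
  have hτn1 : ((j : ℕ) : ℝ) ≤ τ n := by
    have := τ.monotone hn1
    rwa [OrderIso.apply_symm_apply] at this
  have hanti : Antitone fun t => τ t - t * (1 / 4) := by
    have hd : ∀ t, HasDerivAt (fun t => τ t - t * (1 / 4)) (κ (τ t) - 1 * (1 / 4)) t := fun t =>
      (hτ t).fun_sub ((hasDerivAt_id t).mul_const _)
    apply antitone_of_deriv_nonpos (fun t => (hd t).differentiableAt)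
    intro t
    rw [(hd t).deriv]
    have := hκle (τ t)
    linarith
  have hτn2 : τ n ≤ (j : ℕ) + 1 / 4 := by
    have := hanti hn1
    simp only [OrderIso.apply_symm_apply] at this
    linarith
  have hnT : (n : ℝ) ≤ τ.symm m := by
    rw [← τ.le_iff_le, OrderIso.apply_symm_apply]
    linarith
  have hT : τ.symm m ≤ C * m := by
    rw [hτs]
    refine le_trans (le_of_eq ?_) hint
    apply intervalIntegral.integral_congr
    intro s hs
    rw [uIcc_of_le hm0] at hs
    simp only [κ, clamp_eq hs]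
  refine ⟨n, ?_, ?_⟩
  · have h1 : τ.symm (j : ℕ) ≤ τ.symm m := τ.symm.monotone (by linarith)
    nlinarith
  · rw [hY.tflow_iterate, hY.tflow_iterate, hY.tflow_cov, hY.tflow_cov,
      hflow _ n ⟨Nat.cast_nonneg n, hnT⟩, hflow _ n ⟨Nat.cast_nonneg n, hnT⟩]
    refine le_trans ?_ (dist_le_pi_dist _ _ 3)
    change 1 / 40 ≤ dist ((flow K1 (τ n) (sz b1 b2 (U w)) 3 : ℝ) : UnitAddCircle)
      ((flow K1 (τ n) (sz b1 b2 (U w')) 3 : ℝ) : UnitAddCircle)
    rw [dist_eq_norm, ← AddCircle.coe_sub]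
    have hNN : shN (ext w') j = shN (ext w) j := (shN_congr hmin).symm
    have u1 := hU w j hjm.le
    have u2 := hU w' j hjm.le
    have v1 := hU w (j + 1) hjm
    have v2 := hU w' (j + 1) hjm
    rw [hNN] at u2
    rw [shN_succ] at v1 v2
    rw [hNN] at v2
    push_cast at v1 v2
    rcases Bool.eq_false_or_eq_true (ext w j) with hw | hw
    · have hw' : ext w' j = false := by
        rcases Bool.eq_false_or_eq_true (ext w' j) with h | h
        · exact absurd (hw.trans h.symm) hj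
        · exact h
      rw [hw] at v1
      rw [hw'] at v2
      norm_num at v1 v2
      have hap := apart (hasDerivAt_K1_four b1 b2 (U w')) (hasDerivAt_K1_three b1 b2 (U w'))
        (hasDerivAt_K1_four b1 b2 (U w)) (hasDerivAt_K1_three b1 b2 (U w)) (j := j)
        (N := shN (ext w) j) ⟨u2.1, u2.2.1⟩ ⟨u1.1, u1.2.1⟩ ⟨u2.2.2.1, u2.2.2.2⟩
        ⟨u1.2.2.1, u1.2.2.2⟩ (by linarith [v2.2.1]) (by linarith [v1.1]) ⟨hτn1, hτn2⟩
      rw [abs_sub_comm] at hap
      exact circle_apart hap.1 hap.2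
    · have hw' : ext w' j = true := by
        rcases Bool.eq_false_or_eq_true (ext w' j) with h | h
        · exact h
        · exact absurd (hw.trans h.symm) hj
      rw [hw] at v1
      rw [hw'] at v2
      norm_num at v1 v2
      have hap := apart (hasDerivAt_K1_four b1 b2 (U w)) (hasDerivAt_K1_three b1 b2 (U w))
        (hasDerivAt_K1_four b1 b2 (U w')) (hasDerivAt_K1_three b1 b2 (U w')) (j := j)
        (N := shN (ext w) j) ⟨u1.1, u1.2.1⟩ ⟨u2.1, u2.2.1⟩ ⟨u1.2.2.1, u1.2.2.2⟩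
        ⟨u2.2.2.1, u2.2.2.2⟩ (by linarith [v1.2.1]) (by linarith [v2.1]) ⟨hτn1, hτn2⟩
      exact circle_apart hap.1 hap.2

end Pool.Agent.AnQ2
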