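import Mathlib
import Pool.Agent.AnQ2.Fin
import Pool.Agent.AnQ2.Shoe
import Pool.Agent.AnQ2.K2z

/-!
# The two entropies
-/

namespace Pool.Agent.AnQ2

open Set Filter Topology Real MeasureTheory
open scoped ContDiff NNReal ENNReal Manifold
open Pool.Agent.MP_1a349f_an

theorem XX_five_zero {z : Fin 6 → ℝ} (h : z 5 = 0) : XX z =
    ![1, √2, √3, 6 * ka (z 0) * sin (π * z 4) ^ 2, 6 * kb (z 0) * sin (π * z 3) ^ 2, 0] := by
  unfold XX
  rw [h]
  norm_num

theorem hA_five_zero {z : Fin 6 → ℝ} (h : z 5 = 0) : hA z = f3 (z 0) (z 1) (z 2) := by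
  unfold hA FF f3
  rw [h]
  norm_num

theorem entropy_A_pos : 0 < entropy (tf hA) :=
  entropy_pos_K1 (SV hA) good_VA fun z h => by
    change hA z • XX z = _
    rw [XX_five_zero h, hA_five_zero h]

theorem entropy_B_zero : entropy (tf hB) = 0 := entropy_VB

end Pool.Agent.AnQ2
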